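import Mathlib

/-!
# Strongly stable matchings: definitions on the level of finite sets

`I.p v u` = how much `v` likes `u` (larger is better, `0` = not acceptable), `I.c v` = capacity of `v`, agents are
the numbers `< I.n`.  A two-sided (bipartite) matching is a finite set `N` of pairs `(m, w)`; a matching of the
original instance is a symmetric `N`.
-/

set_option autoImplicit false

namespace Pool.Agent.H671R2.SF

/-- an instance -/
structure Inst where
  /-- number of agents -/
  n : ℕ
  /-- preference values -/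
  p : ℕ → ℕ → ℕ
  /-- capacities -/
  c : ℕ → ℕ

/-- a well-formed instance -/
structure Inst.Good (I : Inst) : Prop where
  symm : ∀ v u, 0 < I.p v u → 0 < I.p u v
  irr : ∀ v, I.p v v = 0
  lt : ∀ v u, 0 < I.p v u → v < I.n ∧ u < I.n
  le : ∀ v u, I.p v u ≤ I.n
  cpos : ∀ v, 1 ≤ I.c v

variable (I : Inst) (N : Finset (ℕ × ℕ)) (β : ℕ → ℕ)

/-- degree of a left agent -/
def dL (m : ℕ) : ℕ := (N.filter fun e => e.1 = m).card

/-- degree of a right agent -/
def dR (w : ℕ) : ℕ := (N.filter fun e => e.2 = w).card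

/-- state of a left agent: `0` if undersubscribed, otherwise the value of the worst partner -/
noncomputable def sL (m : ℕ) : ℕ :=
  if dL N m < I.c m then 0 else sInf {k | ∃ w, (m, w) ∈ N ∧ k = I.p m w}

/-- state of a right agent -/
noncomputable def sR (w : ℕ) : ℕ :=
  if dR N w < I.c w then 0 else sInf {k | ∃ m, (m, w) ∈ N ∧ k = I.p w m}

/-- feasible two-sided matchings -/
def Fe : Prop :=
  (∀ m w, (m, w) ∈ N → 0 < I.p m w) ∧ (∀ m, dL N m ≤ I.c m) ∧ ∀ w, dR N w ≤ I.c w

/-- strongly stable two-sided matchings -/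
def SS : Prop :=
  Fe I N ∧ ∀ m w, 0 < I.p m w → (m, w) ∉ N →
    I.p m w < sL I N m ∨ I.p w m < sR I N w ∨ (I.p m w = sL I N m ∧ I.p w m = sR I N w)

/-- symmetric two-sided matchings, that is, matchings of the one-sided instance -/
def Sym : Prop := ∀ a b, (a, b) ∈ N → (b, a) ∈ N

/-- the partners available to the left agent `m`, when the right agents accept only values `≥ β` -/
def av (m : ℕ) : Finset ℕ := (Finset.range I.n).filter fun w => 0 < I.p m w ∧ β w ≤ I.p w m

/-- the state of `m` if he gets his best available partners: the number of values `k` such that at least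
`c m` available partners are better than `k` -/
def al (m : ℕ) : ℕ :=
  ((Finset.range I.n).filter fun k => I.c m ≤ ((av I β m).filter fun w => k < I.p m w).card).card

/-- the provisional pairs -/
def PP : Finset (ℕ × ℕ) :=
  (Finset.range I.n ×ˢ Finset.range I.n).filter fun e =>
    0 < I.p e.1 e.2 ∧ β e.2 ≤ I.p e.2 e.1 ∧ al I β e.1 ≤ I.p e.1 e.2

/-- the forced pairs -/
def FF : Finset (ℕ × ℕ) :=
  (PP I β).filter fun e => al I β e.1 < I.p e.1 e.2 ∨ β e.2 < I.p e.2 e.1

/-- the free pairs -/
def HH : Finset (ℕ × ℕ) :=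
  (PP I β).filter fun e => ¬ (al I β e.1 < I.p e.1 e.2 ∨ β e.2 < I.p e.2 e.1)

/-- demand of a left agent in the free graph -/
def dmL (m : ℕ) : ℕ := if al I β m = 0 then 0 else I.c m - dL (FF I β) m

/-- room of a right agent in the free graph -/
def dmR (w : ℕ) : ℕ := I.c w - dR (FF I β) w

/-- a set of free pairs which respects the demands, with one more unit of room at the right agents in `x` -/
def Okd (x : ℕ → ℕ) (X : Finset (ℕ × ℕ)) : Prop :=
  X ⊆ HH I β ∧ (∀ m, dL X m ≤ dmL I β m) ∧ ∀ w, dR X w ≤ dmR I β w + x w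

/-- one more unit of room at `w` -/
def one (w : ℕ) : ℕ → ℕ := fun v => if v = w then 1 else 0

/-- the right agent `w` must be raised -/
def Rs (w : ℕ) : Prop :=
  I.c w < dR (FF I β) w ∨
  I.c w ≤ ((PP I β).filter fun e => e.2 = w ∧ β w < I.p w e.1).card ∨
  ∃ X, Okd I β (one w) X ∧ ∀ Y, Okd I β 0 Y → Y.card < X.card

/-- the numeric test -/
def Num : Prop :=
  (∀ m < I.n, al I β m = 0 ∨ dL (FF I β) m ≤ I.c m) ∧
  ∑ m ∈ Finset.range I.n, (if al I β m = 0 then (av I β m).card else I.c m) =
    ∑ w ∈ Finset.range I.n, (if β w = 0 then dR (PP I β) w else I.c w)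

open Classical in
/-- one round of raising -/
noncomputable def nxt : ℕ → ℕ := fun w => β w + if w < I.n ∧ Rs I β w then 1 else 0

/-- the invariant of the main loop -/
def Good2 : Prop :=
  (∀ w < I.n, ¬ Rs I β w) ∧ Num I β ∧ (∀ v, I.n ≤ v → β v = 0) ∧ ∀ v < I.n, β v ≤ al I β v

end Pool.Agent.H671R2.SF
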