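import Pool.Agent.H671R2.SF.BDefs

/-!
# Statements to be proved, part B (the theory of strongly stable matchings)
-/

set_option autoImplicit false

namespace Pool.Agent.H671R2.SF.Stub

variable {I : Inst} {N M J : Finset (ℕ × ℕ)} {β : ℕ → ℕ}

/-! ### B1 (basic facts and comparison) -/

theorem sL_le (h : Fe I N) {m w : ℕ} (he : (m, w) ∈ N) : sL I N m ≤ I.p m w := sorry

theorem sR_le (h : Fe I N) {m w : ℕ} (he : (m, w) ∈ N) : sR I N w ≤ I.p w m := sorry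

theorem sL_pos (hI : I.Good) (h : Fe I N) {m : ℕ} : 0 < sL I N m ↔ dL N m = I.c m := sorry

theorem sR_pos (hI : I.Good) (h : Fe I N) {w : ℕ} : 0 < sR I N w ↔ dR N w = I.c w := sorry

theorem sym_state (hs : Sym M) (v : ℕ) : sR I M v = sL I M v := sorry

theorem swap_SS (hI : I.Good) (h : SS I N) : SS I (N.image Prod.swap) := sorry

theorem swap_sL (v : ℕ) : sL I (N.image Prod.swap) v = sR I N v := sorry

theorem swap_sR (v : ℕ) : sR I (N.image Prod.swap) v = sL I N v := sorry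

theorem cmp (hI : I.Good) {N1 N2 : Finset (ℕ × ℕ)} (h1 : SS I N1) (h2 : SS I N2) {m w : ℕ}
    (h : ((m, w) ∈ N1 ∧ (m, w) ∉ N2) ∨ ((m, w) ∉ N1 ∧ (m, w) ∈ N2)) :
    sL I N2 m < sL I N1 m ↔ sR I N1 w < sR I N2 w := sorry

/-! ### B2 (the median lemma) -/

theorem median (hI : I.Good) (hs : Sym M) (hM : SS I M) (hJ : SS I J)
    (hle : ∀ v, sR I J v ≤ sL I J v) :
    ∃ M', Sym M' ∧ SS I M' ∧ ∀ v, sR I J v ≤ sL I M' v ∧ sL I M' v ≤ sL I J v := sorry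

/-! ### B3 (left states) -/

theorem al_iff (hI : I.Good) (β : ℕ → ℕ) (m k : ℕ) :
    k < al I β m ↔ I.c m ≤ ((av I β m).filter fun w => k < I.p m w).card := sorry

theorem al_le (β : ℕ → ℕ) (m : ℕ) : al I β m ≤ I.n := sorry

theorem sL_le_al (hI : I.Good) (hN : Fe I N) (hβ : ∀ w, β w ≤ sR I N w) (m : ℕ) :
    sL I N m ≤ al I β m := sorry

/-! ### B4 (soundness of raising) -/

theorem fact_a (hI : I.Good) (hN : SS I N) (hβ : ∀ w, β w ≤ sR I N w) {m w : ℕ}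
    (hw : sR I N w = β w) (he : (m, w) ∈ FF I β) : (m, w) ∈ N := sorry

theorem fact_b (hI : I.Good) (hN : SS I N) (hβ : ∀ w, β w ≤ sR I N w) {m w : ℕ}
    (hw : sR I N w = β w) (he : (m, w) ∈ HH I β) (hn : (m, w) ∉ N) : sL I N m = al I β m := sorry

theorem fact_c (hI : I.Good) (hN : SS I N) (hβ : ∀ w, β w ≤ sR I N w) {m w : ℕ}
    (hm : sL I N m = al I β m) (he : (m, w) ∈ N) (hw : sR I N w ≠ β w) : (m, w) ∈ FF I β := sorry

theorem raise_sound (hI : I.Good) (hN : SS I N) (hβ : ∀ w, β w ≤ sR I N w) {w : ℕ} (hw : w < I.n)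
    (hr : Rs I β w) : β w < sR I N w := sorry

/-! ### B5 (fixed points) -/

theorem exists_full (hI : I.Good) (hfix : ∀ w < I.n, ¬ Rs I β w) :
    ∃ X, X ⊆ HH I β ∧ (∀ m, dL X m = dmL I β m) ∧ ∀ w, dR X w ≤ dmR I β w := sorry

/-! ### B6 -/

theorem J_of (hI : I.Good) (hfix : ∀ w < I.n, ¬ Rs I β w) (h0 : ∀ v, I.n ≤ v → β v = 0)
    (hnum : Num I β) {X : Finset (ℕ × ℕ)} (hX : X ⊆ HH I β) (hL : ∀ m, dL X m = dmL I β m)
    (hR : ∀ w, dR X w ≤ dmR I β w) :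
    SS I (FF I β ∪ X) ∧ (∀ w, sR I (FF I β ∪ X) w = β w) ∧
      ∀ m, sL I (FF I β ∪ X) m = al I β m := sorry

/-! ### B7 -/

theorem num_of (hI : I.Good) (hfix : ∀ w < I.n, ¬ Rs I β w) (hN : SS I N)
    (hβ : ∀ w, β w ≤ sR I N w) : Num I β := sorry

/-! ### B8 (the closure) -/

theorem nxt_le (β : ℕ → ℕ) (w : ℕ) : β w ≤ nxt I β w := sorry

theorem nxt_sound (hI : I.Good) (hN : SS I N) (hβ : ∀ w, β w ≤ sR I N w) (w : ℕ) :
    nxt I β w ≤ sR I N w := sorry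

theorem iter_le (β : ℕ → ℕ) (T : ℕ) (w : ℕ) : β w ≤ (nxt I)^[T] β w := sorry

theorem iter_sound (hI : I.Good) (hN : SS I N) (hβ : ∀ w, β w ≤ sR I N w) (T : ℕ) (w : ℕ) :
    (nxt I)^[T] β w ≤ sR I N w := sorry

theorem iter_bdd (hI : I.Good) (hβ : ∀ w, β w ≤ I.n + 1) (T : ℕ) (w : ℕ) :
    (nxt I)^[T] β w ≤ I.n + 1 := sorry

theorem iter_zero (T : ℕ) {w : ℕ} (hw : I.n ≤ w) : (nxt I)^[T] β w = β w := sorry

theorem iter_fix (hI : I.Good) (hβ : ∀ w, β w ≤ I.n + 1) {T : ℕ}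
    (hT : (I.n + 2) * (I.n + 2) ≤ T) : ∀ w < I.n, ¬ Rs I ((nxt I)^[T] β) w := sorry

/-! ### B9 (the main loop) -/

theorem clampM (hI : I.Good) (hβ : Good2 I β) (hs : Sym M) (hM : SS I M) :
    ∃ M', Sym M' ∧ SS I M' ∧ ∀ v, β v ≤ sL I M' v ∧ sL I M' v ≤ al I β v := sorry

theorem strict_exists (hI : I.Good) (hβ : Good2 I β) (hs : Sym M) (hM : SS I M)
    (hb : ∀ v, β v ≤ sL I M v ∧ sL I M v ≤ al I β v) (hne : ∃ v < I.n, β v ≠ al I β v) :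
    ∃ w < I.n, β w < sL I M w := sorry

/-- start of the main loop, and the candidates -/
theorem good2_of (hI : I.Good) {β₀ : ℕ → ℕ} (hs : Sym M) (hM : SS I M)
    (hb : ∀ v, β₀ v ≤ sL I M v) (h0 : ∀ v, I.n ≤ v → β₀ v = 0) (hβ₀ : ∀ w, β₀ w ≤ I.n + 1) {T : ℕ}
    (hT : (I.n + 2) * (I.n + 2) ≤ T) : Good2 I ((nxt I)^[T] β₀) := sorry

/-! ### B10 (the end) -/

theorem final_sound (hI : I.Good) (hβ : Good2 I β) (heq : ∀ v < I.n, β v = al I β v)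
    {X : Finset (ℕ × ℕ)} (hX : X ⊆ HH I β) (hs : Sym X) (hd : ∀ m, dL X m = dmL I β m) :
    Sym (FF I β ∪ X) ∧ SS I (FF I β ∪ X) := sorry

theorem final_complete (hI : I.Good) (hβ : Good2 I β) (heq : ∀ v < I.n, β v = al I β v)
    (hs : Sym M) (hM : SS I M) (hb : ∀ v, sL I M v = β v) :
    ∃ X, X ⊆ HH I β ∧ Sym X ∧ ∀ m, dL X m = dmL I β m := sorry

end Pool.Agent.H671R2.SF.Stub
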