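import Pool.Agent.H671R2.SF.PDefs

/-!
# The stable fixtures problem with ties: strongly stable matchings
-/

set_option autoImplicit false

namespace Pool.Agent.H671R2.SF

open Pool.Agent.NPC

/-- An instance of the stable fixtures problem with ties; the agents are the elements of `Fin n`. -/
structure SFT (n : ℕ) where
  /-- the acceptable pairs -/
  G : SimpleGraph (Fin n)
  /-- the capacities -/
  cap : Fin n → ℕ
  cap_pos : ∀ a, 1 ≤ cap a
  /-- `rank a b` = position of `b` in the preference list of `a` (smaller = better, equal = tied); only used
  for acceptable pairs -/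
  rank : Fin n → Fin n → ℕ

namespace SFT

variable {n : ℕ} (I : SFT n) (M : SimpleGraph (Fin n))

/-- `M` (a set of edges, given as a graph) is a matching -/
def IsMatching : Prop := M ≤ I.G ∧ ∀ a, (M.neighborSet a).ncard ≤ I.cap a

/-- the agent `a` is full -/
def Full (a : Fin n) : Prop := (M.neighborSet a).ncard = I.cap a

/-- `w` is a worst partner of `a` -/
def Worst (a w : Fin n) : Prop := M.Adj a w ∧ ∀ x, M.Adj a x → I.rank a x ≤ I.rank a w

/-- `a` strictly desires `b`: `a` is undersubscribed or prefers `b` to its worst partner -/
def StrictlyDesires (a b : Fin n) : Prop :=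
  (M.neighborSet a).ncard < I.cap a ∨ ∃ w, I.Worst M a w ∧ I.rank a b < I.rank a w

/-- `a` weakly desires `b`: `a` strictly desires `b`, or `a` is full and indifferent between `b` and its worst
partner -/
def WeaklyDesires (a b : Fin n) : Prop :=
  I.StrictlyDesires M a b ∨ (I.Full M a ∧ ∃ w, I.Worst M a w ∧ I.rank a b = I.rank a w)

/-- the pair `a, b` blocks `M` -/
def Blocks (a b : Fin n) : Prop :=
  I.G.Adj a b ∧ ¬ M.Adj a b ∧ I.WeaklyDesires M a b ∧ I.WeaklyDesires M b a ∧
    (I.StrictlyDesires M a b ∨ I.StrictlyDesires M b a)

/-- strongly stable matchings -/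
def StronglyStable : Prop := I.IsMatching M ∧ ∀ a b, ¬ I.Blocks M a b

open Classical in
/-- the raw input: for every agent its capacity and the row of its ranks -/
noncomputable def raw : List (ℕ × List (Option ℕ)) :=
  List.ofFn fun a => (I.cap a, List.ofFn fun b => if I.G.Adj a b then some (I.rank a b) else none)

/-- the encoding of an instance as a bit string -/
noncomputable def enc : List Bool := bits I.raw

end SFT

end Pool.Agent.H671R2.SF
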