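import Pool.Agent.H671R2.SF.BDefs
import Pool.Agent.H671R2.SF.FDefs

/-!
# Definitions linking the program and the theory
-/

set_option autoImplicit false

namespace Pool.Agent.H671R2.SF

open Pool.Agent.NPC

/-- the instance given by data -/
def toI (D : Dat) : Inst where
  n := D.1.length
  p := pD D
  c := fun v => if v < D.1.length then cD D v else 1

/-- well-formed data -/
def GoodD (D : Dat) : Prop := (toI D).Good ∧ ∀ v, cD D v ≤ D.1.length

open Classical in
/-- the set of ordered pairs of a graph on `Fin n` -/
noncomputable def prs {n : ℕ} (M : SimpleGraph (Fin n)) : Finset (ℕ × ℕ) :=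
  ((Finset.univ : Finset (Fin n × Fin n)).filter fun e => M.Adj e.1 e.2).image
    fun e => ((e.1 : ℕ), (e.2 : ℕ))

end Pool.Agent.H671R2.SF
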