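import Pool.Agent.H671R2.SF.CDefs

/-!
# Statements to be proved, part C (the program)
-/

set_option autoImplicit false

namespace Pool.Agent.H671R2.SF.Stub

open Pool.Agent.NPC

variable {D : Dat} {b : List ℕ}

/-! ### C1 (lists and finite sets) -/

theorem avD_toFinset (m : ℕ) : (avD D b m).toFinset = av (toI D) (bD b) m := sorry

theorem avD_length (m : ℕ) : (avD D b m).length = (av (toI D) (bD b) m).card := sorry

theorem alD_eq {m : ℕ} (hm : m < D.1.length) : alD D b m = al (toI D) (bD b) m := sorry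

theorem PPD_toFinset : (PPD D b).toFinset = PP (toI D) (bD b) := sorry

theorem PPD_nodup : (PPD D b).Nodup := sorry

theorem FFD_toFinset : (FFD D b).toFinset = FF (toI D) (bD b) := sorry

theorem FFD_nodup : (FFD D b).Nodup := sorry

theorem HHD_toFinset : (HHD D b).toFinset = HH (toI D) (bD b) := sorry

theorem HHD_nodup : (HHD D b).Nodup := sorry

theorem dLD_eq {X : List (ℕ × ℕ)} (hX : X.Nodup) (m : ℕ) : dLD X m = dL X.toFinset m := sorry

theorem dRD_eq {X : List (ℕ × ℕ)} (hX : X.Nodup) (w : ℕ) : dRD X w = dR X.toFinset w := sorry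

theorem dmLD_eq {m : ℕ} (hm : m < D.1.length) : dmLD D b m = dmL (toI D) (bD b) m := sorry

theorem dmRD_eq {w : ℕ} (hw : w < D.1.length) : dmRD D b w = dmR (toI D) (bD b) w := sorry

theorem dmL_big {I : Inst} {β : ℕ → ℕ} (hI : I.Good) {m : ℕ} (hm : I.n ≤ m) : dmL I β m = 0 := sorry

theorem numD_iff : numD D b = true ↔ Num (toI D) (bD b) := sorry

theorem bD_map (f : ℕ → ℕ) (w : ℕ) : bD ((vs D).map f) w = if w < D.1.length then f w else 0 := sorry

/-! ### C2 (raising) -/

theorem optD_spec (hD : GoodD D) (x : List ℕ) :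
    (∃ X, Okd (toI D) (bD b) (fun v => if v ∈ x then 1 else 0) X ∧ X.card = optD D b x) ∧
    ∀ Y, Okd (toI D) (bD b) (fun v => if v ∈ x then 1 else 0) Y → Y.card ≤ optD D b x := sorry

theorem raiseD_iff (hD : GoodD D) {w : ℕ} (hw : w < D.1.length) :
    raiseD D b w = true ↔ Rs (toI D) (bD b) w := sorry

theorem bD_clStep (hD : GoodD D) (hb : ∀ w, D.1.length ≤ w → bD b w = 0) :
    bD (clStep D b) = nxt (toI D) (bD b) := sorry

theorem bD_clD (hD : GoodD D) (hb : ∀ w, D.1.length ≤ w → bD b w = 0) :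
    bD (clD D b) = (nxt (toI D))^[(D.1.length + 2) * (D.1.length + 2)] (bD b) := sorry

/-! ### C3 (the end of the algorithm) -/

/-- the one-sided maximum -/
theorem maxDegU_spec (hD : GoodD D) (heq : ∀ v < D.1.length, bD b v = alD D b v) :
    (both (maxDeg (EU D b) (KU D b))).Nodup ∧
    (∀ e ∈ both (maxDeg (EU D b) (KU D b)), e ∈ HHD D b) ∧
    (∀ m, dL (both (maxDeg (EU D b) (KU D b))).toFinset m ≤ dmL (toI D) (bD b) m) ∧
    ∀ X, X ⊆ HH (toI D) (bD b) → Sym X → (∀ m, dL X m ≤ dmL (toI D) (bD b) m) →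
      X.card ≤ 2 * (maxDeg (EU D b) (KU D b)).length := sorry

/-! ### C4 (correctness of the algorithm for data) -/

theorem solveD_some (hD : GoodD D) {X : List (ℕ × ℕ)} (h : solveD D = some X) :
    Sym X.toFinset ∧ SS (toI D) X.toFinset := sorry

theorem solveD_none (hD : GoodD D) (h : solveD D = none) :
    ∀ M, Sym M → ¬ SS (toI D) M := sorry

/-! ### C5 (the normalised instance) -/

section
variable {n : ℕ} (I : SFT n)

theorem raw_length : I.raw.length = n := sorry

theorem norm_good : GoodD (norm I.raw) := sorry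

theorem norm_val (a b : Fin n) : 0 < pD (norm I.raw) a b ↔ I.G.Adj a b := sorry

theorem norm_lt {a b c : Fin n} (hb : I.G.Adj a b) (hc : I.G.Adj a c) :
    pD (norm I.raw) a b < pD (norm I.raw) a c ↔ I.rank a c < I.rank a b := sorry

/-! ### C6 (strong stability in both languages) -/

theorem SS_iff (M : SimpleGraph (Fin n)) :
    SS (toI (norm I.raw)) (prs M) ↔ I.StronglyStable M := sorry

theorem exists_prs {N : Finset (ℕ × ℕ)} (hs : Sym N) (hN : SS (toI (norm I.raw)) N) :
    ∃ M : SimpleGraph (Fin n), prs M = N := sorry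

end

/-! ### C7 (running time) -/

theorem poly_raiseD {γ : Type} [TEnc γ] {Df : γ → Dat} {bf : γ → List ℕ} {wf : γ → ℕ}
    (hD : Poly Df) (hb : Poly bf) (hw : Poly wf) :
    Poly (fun a => raiseD (Df a) (bf a) (wf a)) := sorry

theorem poly_clD {γ : Type} [TEnc γ] {Df : γ → Dat} {bf : γ → List ℕ}
    (hD : Poly Df) (hb : Poly bf) : Poly (fun a => clD (Df a) (bf a)) := sorry

theorem poly_solveD : Poly solveD := sorry

/-! ### C8 (running time of the normalisation) -/

theorem poly_norm : Poly norm := sorry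

theorem poly_solveR : Poly solveR := sorry

end Pool.Agent.H671R2.SF.Stub
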