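import Pool.Agent.H671R2.SF.TC5

/-!
# C6: strong stability in both languages
-/

set_option autoImplicit false

namespace Pool.Agent.H671R2.SF

open Pool.Agent.NPC

namespace C6

variable {n : ℕ} (I : SFT n)

theorem mem_prs {M : SimpleGraph (Fin n)} {a b : ℕ} :
    (a, b) ∈ prs M ↔ ∃ (ha : a < n) (hb : b < n), M.Adj ⟨a, ha⟩ ⟨b, hb⟩ := by
  classical
  unfold prs
  rw [Finset.mem_image]
  constructor
  · rintro ⟨⟨x, y⟩, hxy, h⟩
    rw [Finset.mem_filter] at hxy
    simp only [Prod.mk.injEq] at h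
    obtain ⟨rfl, rfl⟩ := h
    exact ⟨x.2, y.2, hxy.2⟩
  · rintro ⟨ha, hb, h⟩
    exact ⟨(⟨a, ha⟩, ⟨b, hb⟩), by simpa using h, rfl⟩

theorem mem_prs' {M : SimpleGraph (Fin n)} (a b : Fin n) :
    ((a : ℕ), (b : ℕ)) ∈ prs M ↔ M.Adj a b := by
  rw [mem_prs]
  constructor
  · rintro ⟨_, _, h⟩; exact h
  · intro h; exact ⟨a.2, b.2, h⟩

theorem sym_prs (M : SimpleGraph (Fin n)) : Sym (prs M) := by
  intro a b h
  rw [mem_prs] at h ⊢
  obtain ⟨ha, hb, h⟩ := h
  exact ⟨hb, ha, h.symm⟩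

theorem dL_prs (M : SimpleGraph (Fin n)) (a : Fin n) :
    dL (prs M) a = (M.neighborSet a).ncard := by
  classical
  unfold dL
  have : (prs M).filter (fun e => e.1 = (a : ℕ)) =
      (M.neighborSet a).toFinset.image (fun b : Fin n => ((a : ℕ), (b : ℕ))) := by
    ext ⟨x, y⟩
    rw [Finset.mem_filter, mem_prs, Finset.mem_image]
    constructor
    · rintro ⟨⟨hx, hy, h⟩, rfl⟩
      exact ⟨⟨y, hy⟩, by simpa using h, rfl⟩
    · rintro ⟨b, hb, h⟩
      simp only [Prod.mk.injEq] at h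
      obtain ⟨rfl, rfl⟩ := h
      exact ⟨⟨a.2, b.2, by simpa using hb⟩, rfl⟩
  rw [this, Finset.card_image_of_injective _ (fun x y h => by
    simpa [Fin.ext_iff] using h), Set.ncard_eq_toFinset_card']

theorem dL_prs_big (M : SimpleGraph (Fin n)) {a : ℕ} (ha : n ≤ a) : dL (prs M) a = 0 := by
  unfold dL
  rw [Finset.card_eq_zero, Finset.filter_eq_empty_iff]
  rintro ⟨x, y⟩ h hx
  rw [mem_prs] at h
  obtain ⟨h1, _, _⟩ := h
  simp only at hx
  omega

theorem dR_sym {N : Finset (ℕ × ℕ)} (hs : Sym N) (a : ℕ) : dR N a = dL N a := by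
  unfold dR dL
  refine Finset.card_bij (fun e _ => (e.2, e.1)) ?_ ?_ ?_
  · rintro ⟨x, y⟩ h
    rw [Finset.mem_filter] at h ⊢
    exact ⟨hs _ _ h.1, h.2⟩
  · rintro ⟨x, y⟩ _ ⟨x', y'⟩ _ h
    simp only [Prod.mk.injEq] at h ⊢
    exact ⟨h.2, h.1⟩
  · rintro ⟨x, y⟩ h
    rw [Finset.mem_filter] at h
    exact ⟨(y, x), by rw [Finset.mem_filter]; exact ⟨hs _ _ h.1, h.2⟩, rfl⟩

theorem sR_sym (J : Inst) {N : Finset (ℕ × ℕ)} (hs : Sym N) (a : ℕ) : sR J N a = sL J N a := by
  unfold sR sL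
  rw [dR_sym hs]
  have : {k | ∃ m, (m, a) ∈ N ∧ k = J.p a m} = {k | ∃ w, (a, w) ∈ N ∧ k = J.p a w} := by
    ext k
    constructor
    · rintro ⟨m, h, rfl⟩; exact ⟨m, hs _ _ h, rfl⟩
    · rintro ⟨m, h, rfl⟩; exact ⟨m, hs _ _ h, rfl⟩
  rw [this]

theorem deg_lt (M : SimpleGraph (Fin n)) (a : Fin n) : (M.neighborSet a).ncard < n := by
  have h : M.neighborSet a ⊆ {a}ᶜ := by
    intro x hx hxa
    rw [Set.mem_singleton_iff] at hxa
    subst hxa
    exact M.loopless.irrefl _ hx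
  have h1 := Set.ncard_le_ncard h (Set.toFinite _)
  have h2 : ({a} : Set (Fin n))ᶜ.ncard < n := by
    have := Set.ncard_add_ncard_compl ({a} : Set (Fin n))
    rw [Set.ncard_singleton, Nat.card_eq_fintype_card, Fintype.card_fin] at this
    omega
  omega

theorem length_norm : (norm I.raw).1.length = n := by
  unfold norm
  simp [SFT.raw]

theorem c_eq (a : Fin n) : (toI (norm I.raw)).c a = min (I.cap a) n := by
  have hl : (norm I.raw).1.length = n := length_norm I
  have hr : I.raw.length = n := by simp [SFT.raw]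
  show (if (a : ℕ) < (norm I.raw).1.length then cD (norm I.raw) a else 1) = _
  rw [hl, if_pos a.2]
  unfold cD norm
  rw [List.getD_eq_getElem _ _ (by simp [hr, a.2])]
  simp [SFT.raw, List.getD_eq_getElem?_getD]

theorem n_eq : (toI (norm I.raw)).n = n := length_norm I

theorem Fe_iff (M : SimpleGraph (Fin n)) :
    Fe (toI (norm I.raw)) (prs M) ↔ I.IsMatching M := by
  unfold Fe SFT.IsMatching
  constructor
  · rintro ⟨h1, h2, -⟩
    refine ⟨fun a b hab => (norm_val I a b).1 (h1 a b ((mem_prs' a b).2 hab)), fun a => ?_⟩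
    have := h2 a
    rw [dL_prs, c_eq] at this
    omega
  · rintro ⟨h1, h2⟩
    have h3 : ∀ m, dL (prs M) m ≤ (toI (norm I.raw)).c m := by
      intro m
      by_cases hm : m < n
      · have h4 := h2 ⟨m, hm⟩
        have h5 := deg_lt M ⟨m, hm⟩
        have h6 := dL_prs M ⟨m, hm⟩
        have h7 := c_eq I ⟨m, hm⟩
        simp only at h6 h7
        rw [h6, h7]
        omega
      · rw [dL_prs_big M (not_lt.1 hm)]
        exact Nat.zero_le _
    refine ⟨?_, h3, fun w => ?_⟩
    · intro m w h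
      rw [mem_prs] at h
      obtain ⟨hm, hw, h⟩ := h
      exact (norm_val I ⟨m, hm⟩ ⟨w, hw⟩).2 (h1 h)
    · rw [dR_sym (sym_prs M)]
      exact h3 w

theorem state_lt {M : SimpleGraph (Fin n)} {a : Fin n} (h : (M.neighborSet a).ncard < I.cap a) :
    sL (toI (norm I.raw)) (prs M) a = 0 := by
  unfold sL
  rw [if_pos]
  rw [dL_prs, c_eq]
  have := deg_lt M a
  omega

theorem exists_worst {M : SimpleGraph (Fin n)} {a : Fin n} (h : 0 < (M.neighborSet a).ncard) :
    ∃ w, I.Worst M a w := by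
  have hne : (M.neighborSet a).Nonempty := by
    rw [← Set.ncard_pos (Set.toFinite _)]; exact h
  obtain ⟨w, hw, hmax⟩ := Set.exists_max_image (M.neighborSet a) (I.rank a) (Set.toFinite _) hne
  exact ⟨w, hw, fun x hx => hmax x hx⟩

theorem state_eq {M : SimpleGraph (Fin n)} (hM : M ≤ I.G) {a w : Fin n}
    (h : ¬ (M.neighborSet a).ncard < I.cap a) (hw : I.Worst M a w) :
    sL (toI (norm I.raw)) (prs M) a = (toI (norm I.raw)).p a w := by
  unfold sL
  rw [if_neg]
  · apply le_antisymm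
    · exact Nat.sInf_le ⟨w, (mem_prs' a w).2 hw.1, rfl⟩
    · apply le_csInf
      · exact ⟨_, w, (mem_prs' a w).2 hw.1, rfl⟩
      · rintro k ⟨x, hx, rfl⟩
        rw [mem_prs] at hx
        obtain ⟨_, hx1, hx⟩ := hx
        by_contra hlt
        rw [not_le] at hlt
        have h1 := (norm_lt I (hM hx) (hM hw.1)).1 hlt
        have h2 := hw.2 ⟨x, hx1⟩ hx
        exact absurd h1 (not_lt.2 h2)
  · rw [dL_prs, c_eq]
    omega

theorem strict_iff {M : SimpleGraph (Fin n)} (hM : I.IsMatching M) {a b : Fin n}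
    (hab : I.G.Adj a b) :
    I.StrictlyDesires M a b ↔ sL (toI (norm I.raw)) (prs M) a < (toI (norm I.raw)).p a b := by
  unfold SFT.StrictlyDesires
  by_cases h : (M.neighborSet a).ncard < I.cap a
  · rw [state_lt I h]
    have := (norm_val I a b).2 hab
    exact ⟨fun _ => this, fun _ => Or.inl h⟩
  · have hp : 0 < (M.neighborSet a).ncard := by have := I.cap_pos a; omega
    obtain ⟨w, hw⟩ := exists_worst I hp
    rw [state_eq I hM.1 h hw]
    constructor
    · rintro (h1 | ⟨w', hw', h1⟩)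
      · exact absurd h1 h
      · apply (norm_lt I (hM.1 hw.1) hab).2
        have := hw.2 w' hw'.1
        omega
    · intro h1
      exact Or.inr ⟨w, hw, (norm_lt I (hM.1 hw.1) hab).1 h1⟩

theorem weak_iff {M : SimpleGraph (Fin n)} (hM : I.IsMatching M) {a b : Fin n}
    (hab : I.G.Adj a b) :
    I.WeaklyDesires M a b ↔ sL (toI (norm I.raw)) (prs M) a ≤ (toI (norm I.raw)).p a b := by
  unfold SFT.WeaklyDesires
  by_cases h : (M.neighborSet a).ncard < I.cap a
  · rw [state_lt I h]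
    exact ⟨fun _ => Nat.zero_le _, fun _ => Or.inl (Or.inl h)⟩
  · have hp : 0 < (M.neighborSet a).ncard := by have := I.cap_pos a; omega
    obtain ⟨w, hw⟩ := exists_worst I hp
    have hfull : I.Full M a := by
      have := hM.2 a
      unfold SFT.Full
      omega
    rw [strict_iff I hM hab, state_eq I hM.1 h hw]
    constructor
    · rintro (h1 | ⟨_, w', hw', h1⟩)
      · exact h1.le
      · by_contra h2
        rw [not_le] at h2
        have h3 := (norm_lt I hab (hM.1 hw.1)).1 h2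
        have := hw.2 w' hw'.1
        omega
    · intro h1
      rcases h1.lt_or_eq with h2 | h2
      · exact Or.inl h2
      · refine Or.inr ⟨hfull, w, hw, ?_⟩
        by_contra h3
        rcases Nat.lt_or_gt_of_ne h3 with h4 | h4
        · have := (norm_lt I (hM.1 hw.1) hab).2 h4
          have h5 : (toI (norm I.raw)).p a w < (toI (norm I.raw)).p a b := this
          omega
        · have := (norm_lt I hab (hM.1 hw.1)).2 h4
          have h5 : (toI (norm I.raw)).p a b < (toI (norm I.raw)).p a w := this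
          omega

end C6

section
variable {n : ℕ} (I : SFT n)

theorem SS_iff (M : SimpleGraph (Fin n)) :
    SS (toI (norm I.raw)) (prs M) ↔ I.StronglyStable M := by
  unfold SS SFT.StronglyStable
  rw [C6.Fe_iff]
  apply and_congr_right
  intro hM
  have hG := (norm_good I).1
  constructor
  · intro h a b hb
    obtain ⟨hab, hnab, h1, h2, h3⟩ := hb
    rw [C6.weak_iff I hM hab] at h1
    rw [C6.weak_iff I hM hab.symm] at h2
    rw [C6.strict_iff I hM hab, C6.strict_iff I hM hab.symm] at h3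
    have h4 := h a b ((norm_val I a b).2 hab) (fun h => hnab ((C6.mem_prs' a b).1 h))
    rw [C6.sR_sym _ (C6.sym_prs M)] at h4
    omega
  · intro h m w hp hmw
    have hlt := hG.lt m w hp
    rw [C6.n_eq I] at hlt
    obtain ⟨hm, hw⟩ := hlt
    have hab : I.G.Adj ⟨m, hm⟩ ⟨w, hw⟩ := (norm_val I ⟨m, hm⟩ ⟨w, hw⟩).1 hp
    have hnab : ¬ M.Adj ⟨m, hm⟩ ⟨w, hw⟩ := fun h => hmw (C6.mem_prs.2 ⟨hm, hw, h⟩)
    have h1 := h ⟨m, hm⟩ ⟨w, hw⟩
    unfold SFT.Blocks at h1
    rw [C6.weak_iff I hM hab, C6.weak_iff I hM hab.symm, C6.strict_iff I hM hab,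
      C6.strict_iff I hM hab.symm] at h1
    simp only [hab, hnab, not_false_eq_true, true_and] at h1
    rw [C6.sR_sym _ (C6.sym_prs M)]
    by_contra h2
    apply h1
    push Not at h2
    refine ⟨h2.1, h2.2.1, ?_⟩
    by_contra h3
    push Not at h3
    have h4 := h2.2.2 (le_antisymm h3.1 h2.1)
    exact h4 (le_antisymm h3.2 h2.2.1)

theorem exists_prs {N : Finset (ℕ × ℕ)} (hs : Sym N) (hN : SS (toI (norm I.raw)) N) :
    ∃ M : SimpleGraph (Fin n), prs M = N := by
  have hG := (norm_good I).1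
  refine ⟨⟨fun a b => ((a : ℕ), (b : ℕ)) ∈ N, ⟨fun a b h => hs _ _ h⟩, ⟨fun a h => ?_⟩⟩, ?_⟩
  · have h1 := hN.1.1 _ _ h
    rw [hG.irr] at h1
    exact absurd h1 (lt_irrefl _)
  · ext ⟨a, b⟩
    rw [C6.mem_prs]
    constructor
    · rintro ⟨_, _, h⟩; exact h
    · intro h
      have h1 := hG.lt a b (hN.1.1 _ _ h)
      rw [C6.n_eq I] at h1
      exact ⟨h1.1, h1.2, h⟩

end

end Pool.Agent.H671R2.SF
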