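import Pool.Agent.H671R2.SF.TC7

/-!
# Running time of the normalisation
-/

set_option autoImplicit false

namespace Pool.Agent.H671R2.SF

open Pool.Agent.NPC

namespace TC8

open TA11 TA12 TC7

variable {γ : Type} [TEnc γ] {R : γ → Raw} {v u : γ → ℕ}

@[fun_prop]
theorem poly_rkR (hR : Poly R) (hv : Poly v) (hu : Poly u) :
    Poly (fun a => rkR (R a) (v a) (u a)) := by
  unfold rkR Raw at *; fun_prop

@[fun_prop]
theorem poly_valR (hR : Poly R) (hv : Poly v) (hu : Poly u) :
    Poly (fun a => valR (R a) (v a) (u a)) := by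
  unfold valR Raw at *; fun_prop

end TC8

open TA11 TA12 TC7 TC8

theorem poly_norm : Poly norm := by
  unfold norm Raw Dat
  fun_prop

theorem poly_solveR : Poly solveR := by
  have h1 : Poly (fun R => solveD (norm R)) := poly_solveD.comp poly_norm
  unfold solveR outM Raw at *
  fun_prop

end Pool.Agent.H671R2.SF
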