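import Pool.Agent.H671R2.SF.TC4
import Pool.Agent.H671R2.SF.TC6
import Pool.Agent.H671R2.SF.TC8
import Pool.Agent.NPC.Dec

/-!
# The final assembly
-/

set_option autoImplicit false

namespace Pool.Agent.H671R2.SF

open Pool.Agent.NPC

/-- The output matrix is the adjacency matrix. -/
theorem outM_eq {n : ℕ} {X : List (ℕ × ℕ)} {M : SimpleGraph (Fin n)} (h : prs M = X.toFinset) :
    outM n X = R671.adjMatrix M := by
  classical
  unfold outM R671.adjMatrix
  apply List.ext_getElem
  · simp
  · intro i h1 h2
    simp only [List.getElem_map, List.getElem_range, List.getElem_ofFn]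
    apply List.ext_getElem
    · simp
    · intro j h3 h4
      simp only [List.getElem_map, List.getElem_range, List.getElem_ofFn]
      have h1' : i < n := by simpa using h1
      have h3' : j < n := by simpa using h3
      have key : (i, j) ∈ X ↔ M.Adj ⟨i, h1'⟩ ⟨j, h3'⟩ := by
        rw [← List.mem_toFinset, ← h]
        simp only [prs, Finset.mem_image, Finset.mem_filter, Finset.mem_univ, true_and,
          Prod.exists, Prod.mk.injEq]
        constructor
        · rintro ⟨a, b, hab, rfl, rfl⟩
          exact hab
        · intro hab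
          exact ⟨_, _, hab, rfl, rfl⟩
      exact decide_eq_decide.2 key

/-- The algorithm on bit strings. -/
noncomputable def algS (x : List Bool) : Option (List (List Bool)) :=
  (unbits Raw x).elim none solveR

theorem algS_enc {n : ℕ} (I : SFT n) : algS I.enc = solveR I.raw := by
  unfold algS SFT.enc
  rw [unbits_bits]
  rfl

theorem poly_algS : Poly algS :=
  Poly.optElim (h := fun _ a => solveR a) poly_unbits (NPC.Poly.const _)
    (poly_solveR.comp (Poly.snd Poly.id))

theorem solveR_some {n : ℕ} (I : SFT n) {M : SimpleGraph (Fin n)} (hM : I.StronglyStable M) :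
    ∃ M' : SimpleGraph (Fin n), I.StronglyStable M' ∧
      solveR I.raw = some (R671.adjMatrix M') := by
  classical
  unfold solveR
  cases h : solveD (norm I.raw) with
  | none =>
    exfalso
    refine solveD_none (norm_good I) h (prs M) ?_ ((SS_iff I M).2 hM)
    intro a b hab
    simp only [prs, Finset.mem_image, Finset.mem_filter, Finset.mem_univ, true_and,
      Prod.exists, Prod.mk.injEq] at hab ⊢
    obtain ⟨x, y, hxy, rfl, rfl⟩ := hab
    exact ⟨y, x, hxy.symm, rfl, rfl⟩
  | some X =>
    obtain ⟨h1, h2⟩ := solveD_some (norm_good I) h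
    obtain ⟨M', hM'⟩ := exists_prs I h1 h2
    refine ⟨M', (SS_iff I M').1 (hM' ▸ h2), ?_⟩
    rw [Option.map_some, raw_length, outM_eq hM']

theorem solveR_none {n : ℕ} (I : SFT n) (hI : ∀ M, ¬ I.StronglyStable M) :
    solveR I.raw = none := by
  unfold solveR
  cases h : solveD (norm I.raw) with
  | none => rfl
  | some X =>
    exfalso
    obtain ⟨h1, h2⟩ := solveD_some (norm_good I) h
    obtain ⟨M', hM'⟩ := exists_prs I h1 h2
    exact hI M' ((SS_iff I M').1 (hM' ▸ h2))

end Pool.Agent.H671R2.SF
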