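import Pool.Agent.H671R2.PolyAuto

/-!
# Maximum matchings in general graphs: the program (Edmonds' algorithm by contraction)

A graph is a pair `V : List α`, `E : List (α × α)` (edges are unordered: `adjB` looks at both orientations).
A matching is a list of pairs.
-/

set_option autoImplicit false

namespace Pool.Agent.H671R2.SF

open Pool.Agent.NPC

section
variable {α : Type} [DecidableEq α]

/-- adjacency -/
def adjB (E : List (α × α)) (a b : α) : Bool := decide ((a, b) ∈ E) || decide ((b, a) ∈ E)

/-- all end points of a list of edges -/
def ends (M : List (α × α)) : List α := M.flatMap fun e => [e.1, e.2]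

/-- both orientations -/
def both (M : List (α × α)) : List (α × α) := M ++ M.map fun e => (e.2, e.1)

/-- `M` is a matching of the graph `(V, E)` -/
def IsM (V : List α) (E M : List (α × α)) : Prop :=
  (∀ e ∈ M, adjB E e.1 e.2 = true) ∧ (ends M).Nodup ∧ ∀ v ∈ ends M, v ∈ V

/-- pairs of consecutive elements: `[a,b,c,d,e] ↦ [(a,b),(c,d)]` -/
def pairUp : List α → List (α × α)
  | a :: b :: t => (a, b) :: pairUp t
  | _ => []

/-- the edges which do not touch `L` -/
def away (L : List α) (M : List (α × α)) : List (α × α) :=
  M.filter fun e => !decide (e.1 ∈ L) && !decide (e.2 ∈ L)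

/-- rematch the vertices of `L` in consecutive pairs -/
def relink (L : List α) (M : List (α × α)) : List (α × α) := away L M ++ pairUp L

/-- the exposed vertices -/
def exps (V : List α) (M : List (α × α)) : List α := V.filter fun v => !decide (v ∈ ends M)

/-- the heads of two paths are adjacent -/
def hh (E : List (α × α)) (p q : List α) : Bool :=
  (p.head?).any fun a => (q.head?).any fun b => adjB E a b

/-- possible extensions of a forest; a forest is a list of alternating paths `[w, v, ..., root]` -/
def extList (E M : List (α × α)) (Ps : List (List α)) : List (List α) :=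
  Ps.flatMap fun p => ((both M).filter fun e => hh E p [e.1] && !decide (e.1 ∈ Ps.flatten)).map
    fun e => e.2 :: e.1 :: p

/-- one growth step of the forest -/
def growStep (E M : List (α × α)) (Ps : List (List α)) : List (List α) :=
  ((extList E M Ps).head?).elim Ps fun p => p :: Ps

/-- the forest -/
def forest (V : List α) (E M : List (α × α)) : List (List α) :=
  (growStep E M)^[M.length] ((exps V M).map fun v => [v])

/-- the head, as a list -/
def hd1 (l : List α) : List α := (l.head?).elim [] fun x => [x]

/-- the common vertices of two paths -/
def comm (p q : List α) : List α := p.filter fun v => decide (v ∈ q)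

/-- the vertices of `p` not on `q` -/
def only (p q : List α) : List α := p.filter fun v => !decide (v ∈ q)

/-- the blossom of two paths -/
def blos (p q : List α) : List α := hd1 (comm p q) ++ ((only p q).reverse ++ only q p)

/-- one step: `inl none` = the matching is maximum, `inl (some M')` = a larger matching, `inr (C, M')` = a
blossom `C` (whose head is exposed after rotation) and the matching of the contracted graph. -/
def stepM (V : List α) (E M : List (α × α)) :
    Option (List (α × α)) ⊕ (List α × List (α × α)) :=
  (((forest V E M ×ˢ forest V E M).filter fun x => hh E x.1 x.2).head?).elim (Sum.inl none) fun x =>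
    if (comm x.1 x.2).isEmpty then Sum.inl (some (relink (x.1.reverse ++ x.2) M))
    else Sum.inr (blos x.1 x.2, away (blos x.1 x.2) (relink (comm x.1 x.2).reverse M))

/-- contraction of `C` to its head -/
def piC (C : List α) (v : α) : α := if v ∈ C then (C.head?).getD v else v

/-- the vertices of the contracted graph -/
def conV (C : List α) (V : List α) : List α :=
  V.filter fun v => !decide (v ∈ C) || decide (C.head? = some v)

/-- the edges of the contracted graph -/
def conE (C : List α) (E : List (α × α)) : List (α × α) :=
  (E.map fun e => (piC C e.1, piC C e.2)).filter fun e => !decide (e.1 = e.2)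

/-- rotation of a list -/
def rot (C : List α) (i : ℕ) : List α :=
  (List.range C.length).flatMap fun j => (C[(i + j) % C.length]?).elim [] fun x => [x]

/-- lift of a matching of the contracted graph, when `y` is matched to the contracted vertex: the rotations
of `C` whose head is adjacent to `y` -/
def rots (E : List (α × α)) (C : List α) (y : α) : List (List α) :=
  ((List.range C.length).map fun i => rot C i).filter fun R => hh E R [y]

/-- lift of a matching of the contracted graph to the graph -/
def liftM (E : List (α × α)) (C : List α) (N : List (α × α)) : List (α × α) :=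
  (((both N).filter fun e => decide (C.head? = some e.1)).head?).elim (N ++ pairUp C.tail) fun e =>
    ((rots E C e.2).head?).elim N fun R =>
      away (hd1 C) N ++ ((R.head?).elim [] fun u => [(u, e.2)]) ++ pairUp R.tail

/-- a larger matching, if there is one (`k` = number of contractions allowed) -/
def improve : ℕ → List α → List (α × α) → List (α × α) → Option (List (α × α))
  | 0, _, _, _ => none
  | k + 1, V, E, M => Sum.elim (fun r => r)
      (fun x => if x.2.length ≤ M.length then
        (improve k (conV x.1 V) (conE x.1 E) x.2).map (liftM E x.1) else none) (stepM V E M)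

/-- a maximum matching -/
def maxM (V : List α) (E : List (α × α)) : List (α × α) :=
  (fun M => (improve (V.length + 1) V E M).elim M
    fun N => if N.length ≤ V.length then N else M)^[V.length] []

/-! ### Specifications -/

/-- no loops -/
def LF (E : List (α × α)) : Prop := ∀ e ∈ E, e.1 ≠ e.2

/-- `C` is an odd cycle -/
def Cyc (E : List (α × α)) (C : List α) : Prop :=
  Odd C.length ∧ 3 ≤ C.length ∧ C.Nodup ∧
    ∀ i a b, C[i]? = some a → C[(i + 1) % C.length]? = some b → adjB E a b = true

/-- Certificate for `matching number ≤ k`: a set `U` and a colouring `κ` of the other vertices which is constant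
on edges, with `|V| + |U| = 2 k + number of odd colour classes`. -/
def CertW (V : List α) (E : List (α × α)) (k : ℕ) (U : Finset α) (κ : α → ℕ) : Prop :=
  U ⊆ V.toFinset ∧
  (∀ a ∈ V, ∀ b ∈ V, adjB E a b = true → a ∉ U → b ∉ U → κ a = κ b) ∧
  V.length + U.card = 2 * k + (((V.toFinset \ U).image κ).filter fun i =>
    Odd (((V.toFinset \ U).filter fun v => κ v = i).card)).card

/-- alternating forests -/
inductive Forest (V : List α) (E M : List (α × α)) : List (List α) → Prop
  | base : Forest V E M ((exps V M).map fun v => [v])
  | grow (Ps : List (List α)) (p : List α) (v w : α) : Forest V E M Ps → p ∈ Ps → (v, w) ∈ both M →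
      hh E p [v] = true → v ∉ Ps.flatten → Forest V E M ((w :: v :: p) :: Ps)

/-! ### Degree constrained subgraphs -/

/-- vertices of the gadget graph -/
abbrev GV (α : Type) : Type := (α × ℕ) ⊕ (α × α)

/-- the vertices of the gadget graph: copies of the vertices, and two vertices for every edge -/
def gV (K : List (α × ℕ)) (E : List (α × α)) : List (GV α) :=
  K.map Sum.inl ++ E.flatMap fun e => [Sum.inr (e.1, e.2), Sum.inr (e.2, e.1)]

/-- the edges of the gadget graph -/
def gE (K : List (α × ℕ)) (E : List (α × α)) : List (GV α × GV α) :=
  E.flatMap fun e => (Sum.inr (e.1, e.2), Sum.inr (e.2, e.1)) :: K.flatMap fun k =>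
    if k.1 = e.1 then [(Sum.inl k, Sum.inr (e.1, e.2))]
    else if k.1 = e.2 then [(Sum.inl k, Sum.inr (e.2, e.1))] else []

/-- the edges of `E` both halves of which are matched to copies -/
def pick (K : List (α × ℕ)) (E : List (α × α))
    (N : List (GV α × GV α)) : List (α × α) :=
  E.filter fun e =>
    ((both N).any fun x => K.any fun k =>
      decide (x.1 = Sum.inl k) && decide (x.2 = Sum.inr (e.1, e.2))) &&
    ((both N).any fun x => K.any fun k =>
      decide (x.1 = Sum.inl k) && decide (x.2 = Sum.inr (e.2, e.1)))

/-- a maximum set of edges `X` of `E` such that every vertex `v` has degree at most the number of pairs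
`(v, i)` in `K` -/
def maxDeg (E : List (α × α)) (K : List (α × ℕ)) : List (α × α) :=
  pick K E (maxM (gV K E) (gE K E))

/-- the degree of a vertex -/
def degX (X : List (α × α)) (v : α) : ℕ :=
  (X.filter fun e => decide (e.1 = v) || decide (e.2 = v)).length

/-- the capacity of a vertex -/
def capK (K : List (α × ℕ)) (v : α) : ℕ := (K.filter fun k => decide (k.1 = v)).length

end

end Pool.Agent.H671R2.SF
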