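import Pool.Agent.H671R2.SF.MDefs

/-!
# Statements to be proved, part A (maximum matchings)
-/

set_option autoImplicit false

namespace Pool.Agent.H671R2.SF.Stub

open Pool.Agent.NPC

section
variable {α : Type} [DecidableEq α] {V : List α} {E M N : List (α × α)}

/-! ### A1 -/

theorem cert_bound {k : ℕ} {U : Finset α} {κ : α → ℕ} (hV : V.Nodup) (hc : CertW V E k U κ)
    (hN : IsM V E N) : N.length + (U.filter fun v => v ∉ ends N).card ≤ k := sorry

/-! ### A2 -/

theorem cert_lift {k : ℕ} {U : Finset α} {κ : α → ℕ} {C : List α} (hV : V.Nodup) (hC : C.Nodup)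
    (hCV : ∀ v ∈ C, v ∈ V) (hodd : Odd C.length) (hc : CertW (conV C V) (conE C E) k U κ)
    (hU : ∀ c, C.head? = some c → c ∉ U) :
    CertW V E (k + C.length / 2) U (fun v => κ (piC C v)) := sorry

/-! ### A3 -/

theorem rot_eq (C : List α) (i : ℕ) : rot C i = C.rotate i := sorry

theorem lift_spec {C : List α} (hV : V.Nodup) (hC : Cyc E C) (hCV : ∀ v ∈ C, v ∈ V)
    (hN : IsM (conV C V) (conE C E) N) :
    IsM V E (liftM E C N) ∧ (liftM E C N).length = N.length + C.length / 2 := sorry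

/-! ### A4 -/

omit [DecidableEq α] in
theorem pairUp_eq (L : List α) : pairUp L =
    ((L.zip L.tail).zipIdx.filter fun x => decide (x.2 % 2 = 0)).map fun x => x.1 := sorry

theorem relink_isM {L : List α} (hM : IsM V E M) (hL : L.Nodup) (hLV : ∀ v ∈ L, v ∈ V)
    (hch : L.IsChain fun a b => adjB E a b = true) : IsM V E (relink L M) := sorry

theorem away_length {L : List α} (hM : (ends M).Nodup) (hL : L.Nodup)
    (hcl : ∀ e ∈ M, e.1 ∈ L ↔ e.2 ∈ L) :
    2 * (away L M).length + L.length =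
      2 * M.length + (L.filter fun v => !decide (v ∈ ends M)).length := sorry

theorem relink_length {L : List α} (hM : (ends M).Nodup) (hL : L.Nodup)
    (hcl : ∀ e ∈ M, e.1 ∈ L ↔ e.2 ∈ L) :
    2 * (relink L M).length + L.length = 2 * M.length + 2 * (L.length / 2) +
      (L.filter fun v => !decide (v ∈ ends M)).length := sorry

/-! ### A5 -/

theorem forest_Forest (V : List α) (E M : List (α × α)) : Forest V E M (forest V E M) := sorry

theorem forest_sat (hV : V.Nodup) (hE : LF E) (hM : IsM V E M) :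
    extList E M (forest V E M) = [] := sorry

/-! ### A6 -/

section forest
variable {Ps : List (List α)}

theorem forest_closed (hV : V.Nodup) (hE : LF E) (hM : IsM V E M) (h : Forest V E M Ps) {v w : α}
    (hvw : (v, w) ∈ both M) (hv : v ∈ Ps.flatten) : w ∈ Ps.flatten := sorry

theorem forest_exps (hV : V.Nodup) (hE : LF E) (hM : IsM V E M) (h : Forest V E M Ps) {v : α}
    (hv : v ∈ V) (hv' : v ∉ ends M) : [v] ∈ Ps := sorry

theorem forest_path (hV : V.Nodup) (hE : LF E) (hM : IsM V E M) (h : Forest V E M Ps) {p : List α}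
    (hp : p ∈ Ps) : Odd p.length ∧ p.Nodup ∧ (∀ v ∈ p, v ∈ V) ∧
      (p.IsChain fun a b => adjB E a b = true) ∧
      (∀ i a b, p[2 * i]? = some a → p[2 * i + 1]? = some b → (b, a) ∈ both M) ∧
      ∀ v, p.getLast? = some v → v ∉ ends M := sorry

theorem forest_tail (hV : V.Nodup) (hE : LF E) (hM : IsM V E M) (h : Forest V E M Ps) {t : List α}
    {w v : α} (hp : w :: v :: t ∈ Ps) : t ∈ Ps := sorry

theorem forest_head (hV : V.Nodup) (hE : LF E) (hM : IsM V E M) (h : Forest V E M Ps)
    {p q : List α} (hp : p ∈ Ps) (hq : q ∈ Ps) (hpq : p.head? = q.head?) : p = q := sorry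

theorem forest_suffix (hV : V.Nodup) (hE : LF E) (hM : IsM V E M) (h : Forest V E M Ps)
    {p q : List α} (hp : p ∈ Ps) (hq : q ∈ Ps) {z : α} (hz : z ∈ p) (hz' : z ∈ q) :
    p.dropWhile (fun x => !decide (x = z)) = q.dropWhile (fun x => !decide (x = z)) := sorry

/-! ### A7 -/

theorem forest_cert (hV : V.Nodup) (hE : LF E) (hM : IsM V E M) (h : Forest V E M Ps)
    (hext : extList E M Ps = []) (hno : ∀ p ∈ Ps, ∀ q ∈ Ps, hh E p q = false) :
    ∃ U κ, CertW V E M.length U κ := sorry

/-! ### A8 -/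

theorem aug_spec (hV : V.Nodup) (hE : LF E) (hM : IsM V E M) (h : Forest V E M Ps) {p q : List α}
    (hp : p ∈ Ps) (hq : q ∈ Ps) (hpq : hh E p q = true) (hc : comm p q = []) :
    IsM V E (relink (p.reverse ++ q) M) ∧
      (relink (p.reverse ++ q) M).length = M.length + 1 := sorry

/-! ### A9 -/

/-- the two paths share exactly a suffix of odd length, the remaining parts have even length -/
theorem comm_structure (hV : V.Nodup) (hE : LF E) (hM : IsM V E M) (h : Forest V E M Ps)
    {p q : List α} (hp : p ∈ Ps) (hq : q ∈ Ps) (hc : comm p q ≠ []) :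
    p = only p q ++ comm p q ∧ q = only q p ++ comm p q ∧ Odd (comm p q).length ∧
      Even (only p q).length ∧ Even (only q p).length := sorry

theorem blos_spec (hV : V.Nodup) (hE : LF E) (hM : IsM V E M) (h : Forest V E M Ps) {p q : List α}
    (hp : p ∈ Ps) (hq : q ∈ Ps) (hpq : hh E p q = true) (hc : comm p q ≠ []) :
    Cyc E (blos p q) ∧ (∀ v ∈ blos p q, v ∈ V) ∧
    IsM (conV (blos p q) V) (conE (blos p q) E)
      (away (blos p q) (relink (comm p q).reverse M)) ∧
    (away (blos p q) (relink (comm p q).reverse M)).length + (blos p q).length / 2 = M.length ∧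
    ∀ c, (blos p q).head? = some c →
      c ∉ ends (away (blos p q) (relink (comm p q).reverse M)) := sorry

end forest

/-! ### A10 -/

theorem improve_spec (hV : V.Nodup) (hE : LF E) (hM : IsM V E M) {k : ℕ} (hk : V.length < k) :
    (improve k V E M = none → ∃ U κ, CertW V E M.length U κ) ∧
    ∀ N, improve k V E M = some N → IsM V E N ∧ N.length = M.length + 1 := sorry

theorem maxM_spec (hV : V.Nodup) (hE : LF E) :
    IsM V E (maxM V E) ∧ ∀ N, IsM V E N → N.length ≤ (maxM V E).length := sorry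

/-! ### A11 (running time) -/

section poly
variable {γ : Type} [TEnc γ] [TEnc α] {Vf : γ → List α} {Ef Mf : γ → List (α × α)}

theorem poly_stepM (hV : Poly Vf) (hE : Poly Ef) (hM : Poly Mf) :
    Poly (fun a => stepM (Vf a) (Ef a) (Mf a)) := sorry

/-! ### A12 (running time) -/

theorem poly_improve {k : γ → ℕ} (hk : UPoly k) (hV : Poly Vf) (hE : Poly Ef) (hM : Poly Mf) :
    Poly (fun a => improve (k a) (Vf a) (Ef a) (Mf a)) := sorry

theorem poly_maxM (hV : Poly Vf) (hE : Poly Ef) : Poly (fun a => maxM (Vf a) (Ef a)) := sorry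

end poly

/-! ### A13 -/

theorem pick_spec {K : List (α × ℕ)} (hE : E.Nodup) (hlf : LF E)
    (has : ∀ a b, (a, b) ∈ E → (b, a) ∉ E) (hK : K.Nodup) {N : List (GV α × GV α)}
    (hN : IsM (gV K E) (gE K E) N) :
    (pick K E N).Sublist E ∧ (∀ v, degX (pick K E N) v ≤ capK K v) ∧
      N.length ≤ E.length + (pick K E N).length := sorry

/-! ### A14 -/

theorem gadget_nodup {K : List (α × ℕ)} (hE : E.Nodup) (hlf : LF E)
    (has : ∀ a b, (a, b) ∈ E → (b, a) ∉ E) (hK : K.Nodup) :
    (gV K E).Nodup ∧ LF (gE K E) := sorry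

theorem gadget_match {K : List (α × ℕ)} (hE : E.Nodup) (hlf : LF E)
    (has : ∀ a b, (a, b) ∈ E → (b, a) ∉ E) (hK : K.Nodup) {Y : List (α × α)} (hY : Y.Nodup)
    (hYE : ∀ e ∈ Y, e ∈ E) (hd : ∀ v, degX Y v ≤ capK K v) :
    ∃ N, IsM (gV K E) (gE K E) N ∧ N.length = E.length + Y.length := sorry

/-! ### A15 -/

theorem maxDeg_spec {K : List (α × ℕ)} (hE : E.Nodup) (hlf : LF E)
    (has : ∀ a b, (a, b) ∈ E → (b, a) ∉ E) (hK : K.Nodup) :
    (maxDeg E K).Sublist E ∧ (∀ v, degX (maxDeg E K) v ≤ capK K v) ∧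
    ∀ Y : List (α × α), Y.Nodup → (∀ e ∈ Y, e ∈ E) → (∀ v, degX Y v ≤ capK K v) →
      Y.length ≤ (maxDeg E K).length := sorry

theorem poly_maxDeg {γ : Type} [TEnc γ] [TEnc α] {Ef : γ → List (α × α)} {Kf : γ → List (α × ℕ)}
    (hE : Poly Ef) (hK : Poly Kf) : Poly (fun a => maxDeg (Ef a) (Kf a)) := sorry

end

end Pool.Agent.H671R2.SF.Stub
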