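import Pool.Agent.H671R2.SF.MDefs

/-!
# The program for strongly stable matchings

`D = (P, C)`: `P` is the `n × n` matrix of preference values (`0` = not acceptable, larger = better, values
`≤ n`), `C` the list of capacities (`≤ n`).  A state vector `b` is a list of `n` numbers.
-/

set_option autoImplicit false

namespace Pool.Agent.H671R2.SF

open Pool.Agent.NPC

/-- data of an instance -/
abbrev Dat : Type := List (List ℕ) × List ℕ

/-- preference value -/
def pD (D : Dat) (v u : ℕ) : ℕ := (D.1.getD v []).getD u 0

/-- capacity -/
def cD (D : Dat) (v : ℕ) : ℕ := D.2.getD v 0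

/-- the agents -/
def vs (D : Dat) : List ℕ := List.range D.1.length

/-- entry of a state vector -/
def bD (b : List ℕ) (w : ℕ) : ℕ := b.getD w 0

/-- available partners of the left agent `m` -/
def avD (D : Dat) (b : List ℕ) (m : ℕ) : List ℕ :=
  (vs D).filter fun w => decide (0 < pD D m w) && decide (bD b w ≤ pD D w m)

/-- the state of the left agent `m` -/
def alD (D : Dat) (b : List ℕ) (m : ℕ) : ℕ :=
  ((vs D).filter fun k => decide (cD D m ≤ ((avD D b m).filter fun w => decide (k < pD D m w)).length)).length

/-- provisional pairs -/
def PPD (D : Dat) (b : List ℕ) : List (ℕ × ℕ) :=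
  (vs D ×ˢ vs D).filter fun e => decide (0 < pD D e.1 e.2) && decide (bD b e.2 ≤ pD D e.2 e.1) &&
    decide (alD D b e.1 ≤ pD D e.1 e.2)

/-- forced -/
def isF (D : Dat) (b : List ℕ) (e : ℕ × ℕ) : Bool :=
  decide (alD D b e.1 < pD D e.1 e.2) || decide (bD b e.2 < pD D e.2 e.1)

/-- forced pairs -/
def FFD (D : Dat) (b : List ℕ) : List (ℕ × ℕ) := (PPD D b).filter fun e => isF D b e

/-- free pairs -/
def HHD (D : Dat) (b : List ℕ) : List (ℕ × ℕ) := (PPD D b).filter fun e => !isF D b e

/-- left degree -/
def dLD (X : List (ℕ × ℕ)) (m : ℕ) : ℕ := (X.filter fun e => decide (e.1 = m)).length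

/-- right degree -/
def dRD (X : List (ℕ × ℕ)) (w : ℕ) : ℕ := (X.filter fun e => decide (e.2 = w)).length

/-- demand of a left agent -/
def dmLD (D : Dat) (b : List ℕ) (m : ℕ) : ℕ :=
  if alD D b m = 0 then 0 else cD D m - dLD (FFD D b) m

/-- room of a right agent -/
def dmRD (D : Dat) (b : List ℕ) (w : ℕ) : ℕ := cD D w - dRD (FFD D b) w

/-- `k` copies (at most `n + 1`) -/
def cps (D : Dat) (k : ℕ) : List ℕ := (List.range (D.1.length + 1)).filter fun i => decide (i < k)

/-- the edges of the free graph, the left agent `m` is `(false, m)`, the right agent `w` is `(true, w)` -/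
def EB (D : Dat) (b : List ℕ) : List ((Bool × ℕ) × (Bool × ℕ)) :=
  (HHD D b).map fun e => ((false, e.1), (true, e.2))

/-- the capacities in the free graph, one more unit of room at the right agents in `x` -/
def KB (D : Dat) (b : List ℕ) (x : List ℕ) : List ((Bool × ℕ) × ℕ) :=
  ((vs D).flatMap fun m => (cps D (dmLD D b m)).map fun i => ((false, m), i)) ++
  ((vs D).flatMap fun w => (cps D (dmRD D b w + if w ∈ x then 1 else 0)).map fun i => ((true, w), i))

/-- the maximum number of free pairs -/
def optD (D : Dat) (b : List ℕ) (x : List ℕ) : ℕ := (maxDeg (EB D b) (KB D b x)).length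

/-- `w` must be raised -/
def raiseD (D : Dat) (b : List ℕ) (w : ℕ) : Bool :=
  decide (cD D w < dRD (FFD D b) w) ||
  decide (cD D w ≤ ((PPD D b).filter fun e => decide (e.2 = w) && decide (bD b w < pD D w e.1)).length) ||
  decide (optD D b [] < optD D b [w])

/-- one round of raising -/
def clStep (D : Dat) (b : List ℕ) : List ℕ :=
  (vs D).map fun w => bD b w + if raiseD D b w = true then 1 else 0

/-- `(n + 2) ^ 2` as the length of a list -/
def bigL (D : Dat) : List (ℕ × ℕ) :=
  List.range (D.1.length + 2) ×ˢ List.range (D.1.length + 2)

/-- the closure -/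
def clD (D : Dat) (b : List ℕ) : List ℕ := (clStep D)^[(bigL D).length] b

/-- the numeric test -/
def numD (D : Dat) (b : List ℕ) : Bool :=
  ((vs D).all fun m => decide (alD D b m = 0) || decide (dLD (FFD D b) m ≤ cD D m)) &&
  decide (((vs D).map fun m => if alD D b m = 0 then (avD D b m).length else cD D m).sum =
    ((vs D).map fun w => if bD b w = 0 then dRD (PPD D b) w else cD D w).sum)

/-- numeric test, and the right states are at most the left states -/
def goodD (D : Dat) (b : List ℕ) : Bool :=
  numD D b && (vs D).all fun v => decide (bD b v ≤ alD D b v)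

/-- raise `w` by one -/
def bump (D : Dat) (b : List ℕ) (w : ℕ) : List ℕ :=
  (vs D).map fun v => bD b v + if v = w then 1 else 0

/-- candidates for the next state vector -/
def candD (D : Dat) (b : List ℕ) : List (List ℕ) :=
  (((vs D).filter fun w => decide (bD b w < alD D b w)).map fun w => clD D (bump D b w)).filter
    fun b' => goodD D b'

/-- one step of the main loop -/
def mainStep (D : Dat) (b : List ℕ) : List ℕ := ((candD D b).head?).getD b

/-- start vector -/
def startB (D : Dat) : List ℕ := clD D ((vs D).map fun _ => 0)

/-- final vector -/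
def finalB (D : Dat) : List ℕ := (mainStep D)^[(bigL D).length] (startB D)

/-- the free edges of the one-sided graph -/
def EU (D : Dat) (b : List ℕ) : List (ℕ × ℕ) := (HHD D b).filter fun e => decide (e.1 < e.2)

/-- the capacities in the one-sided free graph -/
def KU (D : Dat) (b : List ℕ) : List (ℕ × ℕ) :=
  (vs D).flatMap fun m => (cps D (dmLD D b m)).map fun i => (m, i)

/-- the algorithm for data: the list of all pairs `(a, b)` (both orientations) of a strongly stable matching -/
def solveD (D : Dat) : Option (List (ℕ × ℕ)) :=
  if goodD D (startB D) = true ∧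
    ((vs D).all fun v => decide (bD (finalB D) v = alD D (finalB D) v)) = true ∧
    2 * (maxDeg (EU D (finalB D)) (KU D (finalB D))).length =
      ((vs D).map fun m => dmLD D (finalB D) m).sum
  then some (FFD D (finalB D) ++ both (maxDeg (EU D (finalB D)) (KU D (finalB D)))) else none

/-! ### Normalisation of the input -/

/-- raw input: for every agent its capacity and the row of its ranks (`none` = not acceptable; smaller rank =
better) -/
abbrev Raw : Type := List (ℕ × List (Option ℕ))

/-- raw rank -/
def rkR (R : Raw) (v u : ℕ) : Option ℕ := ((R.getD v (0, [])).2).getD u none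

/-- the normalised value: one plus the number of acceptable agents which are strictly worse -/
def valR (R : Raw) (v u : ℕ) : ℕ :=
  (rkR R v u).elim 0 fun r => 1 + ((List.range R.length).filter fun x =>
    (rkR R v x).elim false fun r' => decide (r < r')).length

/-- normalised data -/
def norm (R : Raw) : Dat :=
  ((List.range R.length).map fun v => (List.range R.length).map fun u => valR R v u,
   (List.range R.length).map fun v => min ((R.getD v (0, [])).1) R.length)

/-- the output matrix -/
def outM (n : ℕ) (X : List (ℕ × ℕ)) : List (List Bool) :=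
  (List.range n).map fun i => (List.range n).map fun j => decide ((i, j) ∈ X)

/-- the algorithm -/
def solveR (R : Raw) : Option (List (List Bool)) := (solveD (norm R)).map fun X => outM R.length X

end Pool.Agent.H671R2.SF
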