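import Pool.Agent.H671R2.SF.TA6

/-!
# A1 (helper431): the Tutte-Berge bound from a certificate
-/

set_option autoImplicit false

namespace Pool.Agent.H671R2.SF

open Pool.Agent.NPC

namespace TA1

section
variable {α : Type} [DecidableEq α] {V : List α} {E N : List (α × α)}

open Classical in
/-- the mate of a vertex -/
noncomputable def mate (N : List (α × α)) (v : α) : α :=
  if h : ∃ w, (v, w) ∈ both N then h.choose else v

theorem mate_spec {v : α} (hv : v ∈ ends N) : (v, mate N v) ∈ both N := by
  have h := TA6.mem_ends.mp hv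
  unfold mate
  rw [dif_pos h]
  exact h.choose_spec

theorem mate_eq (h : (ends N).Nodup) {v w : α} (hvw : (v, w) ∈ both N) : mate N v = w :=
  TA6.mate_unique h (mate_spec (TA6.mem_ends.mpr ⟨w, hvw⟩)) hvw

/-- a set of matched vertices closed under mates is even -/
theorem even_of_closed (h : (ends N).Nodup) (T : Finset α) (hT : ∀ v ∈ T, v ∈ ends N)
    (hc : ∀ v ∈ T, ∀ w, (v, w) ∈ both N → w ∈ T) : Even T.card := by
  have h1 : ∑ _x ∈ T, (1 : ZMod 2) = 0 := by
    refine Finset.sum_involution (fun v _ => mate N v) ?_ ?_ ?_ ?_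
    · intro v _
      decide
    · intro v hv _ heq
      have := TA6.ne_of_nodup h (mate_spec (hT v hv))
      exact this heq.symm
    · intro v hv
      exact hc v hv _ (mate_spec (hT v hv))
    · intro v hv
      exact mate_eq h (TA6.both_symm.mp (mate_spec (hT v hv)))
  rw [Finset.sum_const, nsmul_eq_mul, mul_one] at h1
  exact (ZMod.natCast_eq_zero_iff_even).mp h1

theorem length_ends (N : List (α × α)) : (ends N).length = 2 * N.length := by
  induction N with
  | nil => rfl
  | cons e N ih =>
    rw [TA6.ends_cons, List.length_cons, List.length_cons, ih, List.length_cons]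
    ring

theorem card_V (hV : V.Nodup) (hN : IsM V E N) :
    V.length = (V.toFinset.filter fun v => v ∉ ends N).card + 2 * N.length := by
  have h1 : (V.toFinset.filter fun v => v ∈ ends N) = (ends N).toFinset := by
    ext v
    rw [Finset.mem_filter, List.mem_toFinset, List.mem_toFinset]
    exact ⟨fun h => h.2, fun h => ⟨hN.2.2 v h, h⟩⟩
  have h2 := Finset.card_filter_add_card_filter_not (s := V.toFinset) (fun v => v ∈ ends N)
  rw [h1, List.toFinset_card_of_nodup hN.2.1, length_ends, List.toFinset_card_of_nodup hV] at h2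
  omega

end

end TA1

section
variable {α : Type} [DecidableEq α] {V : List α} {E M N : List (α × α)}

theorem cert_bound {k : ℕ} {U : Finset α} {κ : α → ℕ} (hV : V.Nodup) (hc : CertW V E k U κ)
    (hN : IsM V E N) : N.length + (U.filter fun v => v ∉ ends N).card ≤ k := by
  obtain ⟨hU, hκ, hcard⟩ := hc
  set S := V.toFinset with hS
  set X := S.filter (fun v => v ∉ ends N) with hX
  have hVX := TA1.card_V hV hN
  rw [← hX] at hVX
  -- the odd classes
  have hA : (((S \ U).image κ).filter fun i => Odd (((S \ U).filter fun v => κ v = i).card)) ⊆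
      (X \ U).image κ ∪ (U \ X).image (fun u => κ (TA1.mate N u)) := by
    intro i hi
    rw [Finset.mem_filter] at hi
    obtain ⟨-, hodd⟩ := hi
    rw [Finset.mem_union, Finset.mem_image, Finset.mem_image]
    by_contra hcon
    push Not at hcon
    obtain ⟨hc1, hc2⟩ := hcon
    rw [← Nat.not_even_iff_odd] at hodd
    apply hodd
    have hmem : ∀ v ∈ (S \ U).filter fun v => κ v = i, v ∈ ends N := by
      intro v hv
      rw [Finset.mem_filter, Finset.mem_sdiff] at hv
      by_contra hve
      refine hc1 v ?_ hv.2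
      rw [Finset.mem_sdiff, hX, Finset.mem_filter]
      exact ⟨⟨hv.1.1, hve⟩, hv.1.2⟩
    refine TA1.even_of_closed hN.2.1 _ hmem ?_
    intro v hv w hvw
    have hve := hmem v hv
    rw [Finset.mem_filter, Finset.mem_sdiff] at hv ⊢
    have hwV : w ∈ V := TA6.both_mem hN (TA6.both_symm.mp hvw)
    have hvV : v ∈ V := List.mem_toFinset.mp hv.1.1
    have hwU : w ∉ U := by
      intro hwU
      refine hc2 w ?_ ?_
      · rw [Finset.mem_sdiff, hX, Finset.mem_filter]
        refine ⟨hwU, fun h => h.2 (TA6.mem_ends.mpr ⟨v, TA6.both_symm.mp hvw⟩)⟩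
      · rw [TA1.mate_eq hN.2.1 (TA6.both_symm.mp hvw)]
        exact hv.2
    refine ⟨⟨List.mem_toFinset.mpr hwV, hwU⟩, ?_⟩
    rw [← hκ v hvV w hwV (TA6.both_adj hN hvw) hv.1.2 hwU]
    exact hv.2
  have h1 := (Finset.card_le_card hA).trans (Finset.card_union_le _ _)
  have h2 : ((X \ U).image κ).card ≤ (X \ U).card := Finset.card_image_le
  have h3 : ((U \ X).image (fun u => κ (TA1.mate N u))).card ≤ (U \ X).card :=
    Finset.card_image_le
  have h4 := Finset.card_sdiff_add_card_inter X U
  have h5 := Finset.card_sdiff_add_card_inter U X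
  have h6 : (U.filter fun v => v ∉ ends N) = U ∩ X := by
    ext v
    rw [Finset.mem_filter, Finset.mem_inter, hX, Finset.mem_filter]
    exact ⟨fun h => ⟨h.1, hU h.1, h.2⟩, fun h => ⟨h.1, h.2.2⟩⟩
  rw [h6]
  rw [Finset.inter_comm] at h4
  omega

end

end Pool.Agent.H671R2.SF
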