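import Pool.Agent.H671R2.SF.MDefs

set_option autoImplicit false

namespace Pool.Agent.H671R2.SF

open Pool.Agent.NPC

section
variable {α : Type} [DecidableEq α] {V : List α} {E M N : List (α × α)}

namespace A3aux

omit [DecidableEq α] in
theorem ends_append (A B : List (α × α)) : ends (A ++ B) = ends A ++ ends B := by
  simp [ends]

omit [DecidableEq α] in
theorem ends_cons (e : α × α) (B : List (α × α)) : ends (e :: B) = e.1 :: e.2 :: ends B := by
  simp [ends]

omit [DecidableEq α] in
theorem mem_ends {M : List (α × α)} {v : α} : v ∈ ends M ↔ ∃ e ∈ M, v = e.1 ∨ v = e.2 := by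
  simp [ends]

omit [DecidableEq α] in
theorem mem_both {M : List (α × α)} {e : α × α} : e ∈ both M ↔ e ∈ M ∨ (e.2, e.1) ∈ M := by
  unfold both
  rw [List.mem_append, List.mem_map]
  constructor
  · rintro (h | ⟨x, hx, rfl⟩)
    · exact Or.inl h
    · exact Or.inr hx
  · rintro (h | h)
    · exact Or.inl h
    · exact Or.inr ⟨_, h, rfl⟩

omit [DecidableEq α] in
theorem pairUp_mem {P : α → α → Prop} : ∀ (L : List α), L.IsChain P → ∀ e ∈ pairUp L, P e.1 e.2
  | [], _, e, he => by simp [pairUp] at he
  | [a], _, e, he => by simp [pairUp] at he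
  | a :: b :: t, h, e, he => by
    rw [pairUp, List.mem_cons] at he
    rw [List.isChain_cons_cons] at h
    rcases he with rfl | he
    · exact h.1
    · exact pairUp_mem t h.2.tail e he

omit [DecidableEq α] in
theorem ends_pairUp : ∀ (L : List α), Even L.length → ends (pairUp L) = L
  | [], _ => by simp [pairUp, ends]
  | [a], h => by simp at h
  | a :: b :: t, h => by
    have ht : Even t.length := by
      rw [List.length_cons, List.length_cons] at h
      obtain ⟨k, hk⟩ := h
      exact ⟨k - 1, by omega⟩
    rw [pairUp, ends_cons, ends_pairUp t ht]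

omit [DecidableEq α] in
theorem length_pairUp : ∀ (L : List α), (pairUp L).length = L.length / 2
  | [] => by simp [pairUp]
  | [a] => by simp [pairUp]
  | a :: b :: t => by
    rw [pairUp, List.length_cons, length_pairUp t, List.length_cons, List.length_cons]
    omega

theorem adj_con {C : List α} {a b : α} (h : adjB (conE C E) a b = true) :
    a ≠ b ∧ ∃ u v, piC C u = a ∧ piC C v = b ∧ adjB E u v = true := by
  unfold adjB at h
  rw [Bool.or_eq_true, decide_eq_true_eq, decide_eq_true_eq] at h
  have key : ∀ p q : α, (p, q) ∈ conE C E →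
      p ≠ q ∧ ∃ u v, piC C u = p ∧ piC C v = q ∧ (u, v) ∈ E := by
    intro p q hpq
    unfold conE at hpq
    rw [List.mem_filter, List.mem_map] at hpq
    obtain ⟨⟨e, he, heq⟩, h2⟩ := hpq
    rw [Prod.mk.injEq] at heq
    refine ⟨by simpa using h2, e.1, e.2, heq.1, heq.2, he⟩
  rcases h with h | h
  · obtain ⟨h1, u, v, hu, hv, huv⟩ := key _ _ h
    exact ⟨h1, u, v, hu, hv, by unfold adjB; simp [huv]⟩
  · obtain ⟨h1, u, v, hu, hv, huv⟩ := key _ _ h
    exact ⟨h1.symm, v, u, hv, hu, by unfold adjB; simp [huv]⟩

theorem piC_ne {c : α} {T : List α} {u a : α} (h : piC (c :: T) u = a) (ha : a ≠ c) :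
    u = a ∧ u ∉ c :: T := by
  unfold piC at h
  by_cases hu : u ∈ c :: T
  · rw [if_pos hu] at h
    exact absurd h.symm (by simpa using ha)
  · rw [if_neg hu] at h
    exact ⟨h, hu⟩

theorem piC_eq {c : α} {T : List α} {u : α} (h : piC (c :: T) u = c) : u ∈ c :: T := by
  by_contra hu
  unfold piC at h
  rw [if_neg hu] at h
  rw [h] at hu
  exact hu (List.mem_cons_self)

end A3aux

open A3aux

omit [DecidableEq α] in
theorem rot_eq (C : List α) (i : ℕ) : rot C i = C.rotate i := by
  cases C with
  | nil => simp [rot]
  | cons c T =>
    set C := c :: T with hCdef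
    have hn : 0 < C.length := by simp [hCdef]
    have h1 : rot C i = (List.range C.length).map (fun j => C.getD ((i + j) % C.length) c) := by
      unfold rot
      rw [← List.flatMap_singleton' ((List.range C.length).map _), List.flatMap_map]
      apply List.flatMap_congr
      intro j _
      have hj : (i + j) % C.length < C.length := Nat.mod_lt _ hn
      simp [List.getElem?_eq_getElem hj]
    rw [h1]
    apply List.ext_getElem
    · simp
    · intro k hk1 hk2
      rw [List.getElem_rotate]
      simp only [List.getElem_map, List.getElem_range]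
      have hj : (i + k) % C.length < C.length := Nat.mod_lt _ hn
      rw [List.getD_eq_getElem _ _ hj]
      congr 1
      rw [add_comm]

namespace A3aux

theorem rotate_chain {C : List α} (hC : Cyc E C) (i : ℕ) :
    (C.rotate i).IsChain fun a b => adjB E a b = true := by
  rw [List.isChain_iff_getElem]
  intro k hk
  rw [List.getElem_rotate, List.getElem_rotate]
  have hn : 0 < C.length := by have := hC.2.1; omega
  refine hC.2.2.2 ((k + i) % C.length) _ _ ?_ ?_
  · exact List.getElem?_eq_getElem (Nat.mod_lt _ hn)
  · have e : ((k + i) % C.length + 1) % C.length = (k + 1 + i) % C.length := by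
      rw [Nat.mod_add_mod]
      congr 1
      omega
    rw [e]
    exact List.getElem?_eq_getElem (Nat.mod_lt _ hn)

end A3aux

theorem lift_spec {C : List α} (hV : V.Nodup) (hC : Cyc E C) (hCV : ∀ v ∈ C, v ∈ V)
    (hN : IsM (conV C V) (conE C E) N) :
    IsM V E (liftM E C N) ∧ (liftM E C N).length = N.length + C.length / 2 := by
  obtain ⟨c, T, rfl⟩ : ∃ c T, C = c :: T := by
    cases C with
    | nil => exact absurd hC.2.1 (by simp)
    | cons c T => exact ⟨c, T, rfl⟩
  have hCnd := hC.2.2.1
  have hodd := hC.1
  rw [List.length_cons] at hodd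
  have hTev : Even T.length := by
    obtain ⟨k, hk⟩ := hodd
    exact ⟨k, by omega⟩
  have hch := rotate_chain hC 0
  rw [List.rotate_zero] at hch
  -- vertices of N
  have hNV : ∀ v ∈ ends N, v ∈ V ∧ (v ∈ c :: T → v = c) := by
    intro v hv
    have h := hN.2.2 v hv
    unfold conV at h
    rw [List.mem_filter] at h
    refine ⟨h.1, fun hvC => ?_⟩
    have h2 := h.2
    simp only [Bool.or_eq_true, Bool.not_eq_true', decide_eq_false_iff_not, decide_eq_true_eq,
      List.head?_cons, Option.some.injEq] at h2
    rcases h2 with h2 | h2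
    · exact absurd hvC h2
    · exact h2.symm
  -- edges of N away from c
  have hNadj : ∀ e ∈ N, e.1 ≠ c → e.2 ≠ c → adjB E e.1 e.2 = true := by
    intro e he h1 h2
    obtain ⟨-, u, v, hu, hv, huv⟩ := adj_con (hN.1 e he)
    rw [(piC_ne hu h1).1, (piC_ne hv h2).1] at huv
    exact huv
  rcases hcase : ((both N).filter fun e => decide ((c :: T).head? = some e.1)).head? with _ | e
  · -- case 1
    have hres : liftM E (c :: T) N = N ++ pairUp T := by
      unfold liftM
      rw [hcase]
      rfl
    rw [hres]
    have hc : c ∉ ends N := by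
      intro hcN
      rw [List.head?_eq_none_iff, List.filter_eq_nil_iff] at hcase
      obtain ⟨e, he, h | h⟩ := mem_ends.mp hcN
      · refine hcase e (mem_both.mpr (Or.inl he)) ?_
        simp [h]
      · refine hcase (e.2, e.1) (mem_both.mpr (Or.inr he)) ?_
        simp [h]
    refine ⟨⟨?_, ?_, ?_⟩, ?_⟩
    · intro e he
      rw [List.mem_append] at he
      rcases he with he | he
      · refine hNadj e he ?_ ?_
        · intro h
          exact hc (mem_ends.mpr ⟨e, he, Or.inl h.symm⟩)
        · intro h
          exact hc (mem_ends.mpr ⟨e, he, Or.inr h.symm⟩)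
      · exact pairUp_mem T hch.tail e he
    · rw [ends_append, ends_pairUp T hTev, List.nodup_append']
      refine ⟨hN.2.1, hCnd.of_cons, ?_⟩
      intro v hv hvT
      have h := (hNV v hv).2 (List.mem_cons_of_mem _ hvT)
      rw [h] at hv
      exact hc hv
    · intro v hv
      rw [ends_append, ends_pairUp T hTev, List.mem_append] at hv
      rcases hv with hv | hv
      · exact (hNV v hv).1
      · exact hCV v (List.mem_cons_of_mem _ hv)
    · rw [List.length_append, length_pairUp, List.length_cons]
      obtain ⟨k, hk⟩ := hTev
      omega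
  · -- case 2
    obtain ⟨a, y⟩ := e
    have hmem := List.mem_of_mem_head? hcase
    rw [List.mem_filter] at hmem
    obtain ⟨hmem, hac⟩ := hmem
    have hac' : c = a := by simpa using hac
    subst hac'
    -- decomposition of N
    obtain ⟨A, e0, B, hNAB, he0⟩ : ∃ A e0 B, N = A ++ e0 :: B ∧ (e0 = (c, y) ∨ e0 = (y, c)) := by
      rcases mem_both.mp hmem with h | h
      · obtain ⟨A, B, h'⟩ := List.append_of_mem h
        exact ⟨A, _, B, h', Or.inl rfl⟩
      · obtain ⟨A, B, h'⟩ := List.append_of_mem h
        exact ⟨A, _, B, h', Or.inr rfl⟩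
    have hcy : c ∈ ends N ∧ y ∈ ends N := by
      rcases mem_both.mp hmem with h | h
      · exact ⟨mem_ends.mpr ⟨_, h, Or.inl rfl⟩, mem_ends.mpr ⟨_, h, Or.inr rfl⟩⟩
      · exact ⟨mem_ends.mpr ⟨_, h, Or.inr rfl⟩, mem_ends.mpr ⟨_, h, Or.inl rfl⟩⟩
    have hnd := hN.2.1
    rw [hNAB, ends_append, ends_cons] at hnd
    have hnd' : (c :: y :: (ends A ++ ends B)).Nodup := by
      have hp : (ends A ++ e0.1 :: e0.2 :: ends B).Perm (c :: y :: (ends A ++ ends B)) := by
        have h1 : (ends A ++ e0.1 :: e0.2 :: ends B).Perm
            (e0.1 :: e0.2 :: (ends A ++ ends B)) := by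
          refine (List.perm_middle).trans ?_
          exact List.Perm.cons _ List.perm_middle
        rcases he0 with rfl | rfl
        · exact h1
        · exact h1.trans (List.Perm.swap _ _ _)
      exact hp.nodup_iff.mp hnd
    rw [List.nodup_cons, List.nodup_cons] at hnd'
    obtain ⟨hcnot, hynot, hABnd⟩ := hnd'
    have hcAB : c ∉ ends A ++ ends B := fun h => hcnot (List.mem_cons_of_mem _ h)
    have hyc : y ≠ c := fun h => hcnot (by rw [h]; exact List.mem_cons_self)
    have hyC : y ∉ c :: T := fun h => hyc ((hNV y hcy.2).2 h)
    have haway : away (hd1 (c :: T)) N = A ++ B := by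
      have hh1 : hd1 (c :: T) = [c] := rfl
      have hself : ∀ L : List (α × α), (∀ e ∈ L, e.1 ≠ c ∧ e.2 ≠ c) →
          (L.filter fun e => !decide (e.1 ∈ [c]) && !decide (e.2 ∈ [c])) = L := by
        intro L hL
        rw [List.filter_eq_self]
        intro e he
        have := hL e he
        simp [this.1, this.2]
      unfold away
      rw [hh1, hNAB, List.filter_append, List.filter_cons, hself A, hself B]
      · have : (!decide (e0.1 ∈ [c]) && !decide (e0.2 ∈ [c])) = false := by
          rcases he0 with rfl | rfl <;> simp
        rw [this]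
        rfl
      · intro e he
        refine ⟨fun h => hcAB ?_, fun h => hcAB ?_⟩
        · exact List.mem_append_right _ (mem_ends.mpr ⟨e, he, Or.inl h.symm⟩)
        · exact List.mem_append_right _ (mem_ends.mpr ⟨e, he, Or.inr h.symm⟩)
      · intro e he
        refine ⟨fun h => hcAB ?_, fun h => hcAB ?_⟩
        · exact List.mem_append_left _ (mem_ends.mpr ⟨e, he, Or.inl h.symm⟩)
        · exact List.mem_append_left _ (mem_ends.mpr ⟨e, he, Or.inr h.symm⟩)
    -- adjacency of c and y in the contracted graph
    have hadjcy : adjB (conE (c :: T) E) c y = true := by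
      rcases mem_both.mp hmem with h | h
      · exact hN.1 _ h
      · have := hN.1 _ h
        unfold adjB at this ⊢
        rw [Bool.or_comm]
        exact this
    obtain ⟨-, u, v, hu, hv, huv⟩ := adj_con hadjcy
    rw [(piC_ne hv hyc).1] at huv
    have huC : u ∈ c :: T := piC_eq hu
    obtain ⟨i, hi, hiu⟩ := List.mem_iff_getElem.mp huC
    -- the rotations
    have hrots : rot (c :: T) i ∈ rots E (c :: T) y := by
      unfold rots
      rw [List.mem_filter, List.mem_map]
      refine ⟨⟨i, List.mem_range.mpr hi, rfl⟩, ?_⟩
      rw [rot_eq]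
      have hhead : ((c :: T).rotate i).head? = some u := by
        rw [List.head?_rotate hi, List.getElem?_eq_getElem hi, hiu]
      unfold hh
      rw [hhead]
      simpa using huv
    obtain ⟨R, hR⟩ : ∃ R, (rots E (c :: T) y).head? = some R := by
      cases hrr : rots E (c :: T) y with
      | nil => rw [hrr] at hrots; exact absurd hrots (by simp)
      | cons R _ => exact ⟨R, rfl⟩
    have hRmem := List.mem_of_mem_head? hR
    unfold rots at hRmem
    rw [List.mem_filter, List.mem_map] at hRmem
    obtain ⟨⟨i', hi', hRi⟩, hhR⟩ := hRmem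
    rw [rot_eq] at hRi
    have hRlen : R.length = T.length + 1 := by
      rw [← hRi, List.length_rotate, List.length_cons]
    obtain ⟨u', t, rfl⟩ : ∃ u' t, R = u' :: t := by
      cases R with
      | nil => simp at hRlen
      | cons u' t => exact ⟨u', t, rfl⟩
    have hu'y : adjB E u' y = true := by
      unfold hh at hhR
      simpa using hhR
    have htlen : t.length = T.length := by simpa using hRlen
    have htev : Even t.length := by rw [htlen]; exact hTev
    have hRch := rotate_chain hC i'
    rw [hRi] at hRch
    have hRnd : (u' :: t).Nodup := by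
      rw [← hRi]
      exact List.nodup_rotate.mpr hCnd
    have hRmemC : ∀ v, v ∈ u' :: t → v ∈ c :: T := by
      intro v hv
      rw [← hRi, List.mem_rotate] at hv
      exact hv
    have hres : liftM E (c :: T) N = (A ++ B) ++ [(u', y)] ++ pairUp t := by
      unfold liftM
      rw [hcase]
      show ((rots E (c :: T) y).head?).elim N _ = _
      rw [hR]
      show away (hd1 (c :: T)) N ++ [(u', y)] ++ pairUp t = _
      rw [haway]
    rw [hres]
    have hends : ends ((A ++ B) ++ [(u', y)] ++ pairUp t) = (ends A ++ ends B) ++ [u', y] ++ t := by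
      rw [ends_append, ends_append, ends_append, ends_pairUp t htev, ends_cons]
      rfl
    have hABN : ∀ v ∈ ends A ++ ends B, v ∈ ends N := by
      intro v hv
      rw [hNAB, ends_append, ends_cons]
      rw [List.mem_append] at hv ⊢
      rcases hv with hv | hv
      · exact Or.inl hv
      · exact Or.inr (List.mem_cons_of_mem _ (List.mem_cons_of_mem _ hv))
    have hABC : ∀ v ∈ ends A ++ ends B, v ∉ c :: T := by
      intro v hv hvC
      have h := (hNV v (hABN v hv)).2 hvC
      rw [h] at hv
      exact hcAB hv
    refine ⟨⟨?_, ?_, ?_⟩, ?_⟩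
    · intro e he
      rw [List.mem_append, List.mem_append] at he
      rcases he with (he | he) | he
      · have heN : e ∈ N := by
          rw [hNAB, List.mem_append]
          rw [List.mem_append] at he
          rcases he with he | he
          · exact Or.inl he
          · exact Or.inr (List.mem_cons_of_mem _ he)
        have hee : e.1 ∈ ends A ++ ends B ∧ e.2 ∈ ends A ++ ends B := by
          rw [← ends_append]
          exact ⟨mem_ends.mpr ⟨e, he, Or.inl rfl⟩, mem_ends.mpr ⟨e, he, Or.inr rfl⟩⟩
        refine hNadj e heN ?_ ?_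
        · intro h
          rw [h] at hee
          exact hcAB hee.1
        · intro h
          rw [h] at hee
          exact hcAB hee.2
      · rw [List.mem_singleton] at he
        rw [he]
        exact hu'y
      · exact pairUp_mem t hRch.tail e he
    · rw [hends, List.append_assoc, List.nodup_append']
      refine ⟨hABnd, ?_, ?_⟩
      · show (u' :: y :: t).Nodup
        rw [List.nodup_cons] at hRnd
        rw [List.nodup_cons, List.nodup_cons, List.mem_cons]
        refine ⟨?_, ?_, hRnd.2⟩
        · rintro (h | h)
          · exact hyC (by rw [← h]; exact hRmemC u' List.mem_cons_self)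
          · exact hRnd.1 h
        · intro h
          exact hyC (hRmemC y (List.mem_cons_of_mem _ h))
      · intro v hv hv'
        have hv'' : v ∈ u' :: y :: t := hv'
        rw [List.mem_cons, List.mem_cons] at hv''
        rcases hv'' with h | h | h
        · exact hABC v hv (hRmemC v (by rw [h]; exact List.mem_cons_self))
        · rw [h] at hv
          exact hynot hv
        · exact hABC v hv (hRmemC v (List.mem_cons_of_mem _ h))
    · intro v hv
      rw [hends, List.mem_append, List.mem_append] at hv
      rcases hv with (hv | hv) | hv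
      · exact (hNV v (hABN v hv)).1
      · rw [List.mem_cons, List.mem_singleton] at hv
        rcases hv with rfl | rfl
        · exact hCV _ (hRmemC _ List.mem_cons_self)
        · exact (hNV _ hcy.2).1
      · exact hCV _ (hRmemC _ (List.mem_cons_of_mem _ hv))
    · rw [List.length_append, List.length_append, length_pairUp, htlen, hNAB]
      simp only [List.length_append, List.length_cons, List.length_nil]
      obtain ⟨k, hk⟩ := hTev
      omega

end

end Pool.Agent.H671R2.SF
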