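import Pool.Agent.H671R2.SF.TA6

/-!
# A5 (helper912): the growth of the forest
-/

set_option autoImplicit false

namespace Pool.Agent.H671R2.SF

open Pool.Agent.NPC

section
variable {α : Type} [DecidableEq α] {V : List α} {E M N : List (α × α)}

namespace TA5

theorem mem_extList {Ps : List (List α)} {q : List α} : q ∈ extList E M Ps ↔
    ∃ p ∈ Ps, ∃ v w, (v, w) ∈ both M ∧ hh E p [v] = true ∧ v ∉ Ps.flatten ∧ q = w :: v :: p := by
  unfold extList
  rw [List.mem_flatMap]
  constructor
  · rintro ⟨p, hp, h⟩
    obtain ⟨⟨v, w⟩, he, rfl⟩ := List.mem_map.1 h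
    rw [List.mem_filter] at he
    obtain ⟨he, h2⟩ := he
    simp only [Bool.and_eq_true, Bool.not_eq_true', decide_eq_false_iff_not] at h2
    exact ⟨p, hp, v, w, he, h2.1, h2.2, rfl⟩
  · rintro ⟨p, hp, v, w, he, h1, h2, rfl⟩
    refine ⟨p, hp, List.mem_map.2 ⟨(v, w), ?_, rfl⟩⟩
    rw [List.mem_filter]
    refine ⟨he, ?_⟩
    simp only [Bool.and_eq_true, Bool.not_eq_true', decide_eq_false_iff_not]
    exact ⟨h1, h2⟩

theorem growStep_nil {Ps : List (List α)} (h : extList E M Ps = []) : growStep E M Ps = Ps := by
  unfold growStep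
  rw [h]
  rfl

theorem growStep_ne {Ps : List (List α)} (h : extList E M Ps ≠ []) :
    ∃ p ∈ Ps, ∃ v w, (v, w) ∈ both M ∧ hh E p [v] = true ∧ v ∉ Ps.flatten ∧
      growStep E M Ps = (w :: v :: p) :: Ps := by
  obtain ⟨q, t, hq⟩ := List.exists_cons_of_ne_nil h
  have hm : q ∈ extList E M Ps := by rw [hq]; exact List.mem_cons_self
  obtain ⟨p, hp, v, w, h1, h2, h3, h4⟩ := mem_extList.1 hm
  refine ⟨p, hp, v, w, h1, h2, h3, ?_⟩
  unfold growStep
  rw [hq, ← h4]
  rfl

theorem growStep_forest {Ps : List (List α)} (h : Forest V E M Ps) :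
    Forest V E M (growStep E M Ps) := by
  by_cases he : extList E M Ps = []
  · rw [growStep_nil he]; exact h
  · obtain ⟨p, hp, v, w, h1, h2, h3, h4⟩ := growStep_ne he
    rw [h4]
    exact Forest.grow Ps p v w h hp h1 h2 h3

theorem iter_forest (V : List α) (E M : List (α × α)) (k : ℕ) :
    Forest V E M ((growStep E M)^[k] ((exps V M).map fun v => [v])) := by
  induction k with
  | zero => exact Forest.base
  | succ k ih =>
    rw [Function.iterate_succ_apply']
    exact growStep_forest ih

omit [DecidableEq α] in
theorem countP_lt {β : Type} {P Q : β → Bool} {l : List β} (h : ∀ x ∈ l, P x = true → Q x = true)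
    {e : β} (he : e ∈ l) (h1 : P e = false) (h2 : Q e = true) : l.countP P < l.countP Q := by
  obtain ⟨A, B, rfl⟩ := List.append_of_mem he
  rw [List.countP_append, List.countP_append, List.countP_cons_of_pos h2,
    List.countP_cons_of_neg (by simp [h1])]
  have hA : A.countP P ≤ A.countP Q := List.countP_mono_left fun x hx hP =>
    h x (List.mem_append_left _ hx) hP
  have hB : B.countP P ≤ B.countP Q := List.countP_mono_left fun x hx hP =>
    h x (List.mem_append_right _ (List.mem_cons_of_mem _ hx)) hP
  omega

theorem iter_count (hV : V.Nodup) (hE : LF E) (hM : IsM V E M) (k : ℕ) :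
    extList E M ((growStep E M)^[k] ((exps V M).map fun v => [v])) = [] ∨
    k ≤ M.countP fun e => decide (e.1 ∈
      ((growStep E M)^[k] ((exps V M).map fun v => [v])).flatten) := by
  induction k with
  | zero => right; exact Nat.zero_le _
  | succ k ih =>
    have hF := iter_forest V E M k
    rw [Function.iterate_succ_apply']
    generalize (growStep E M)^[k] ((exps V M).map fun v => [v]) = Ps at ih hF
    by_cases he : extList E M Ps = []
    · left; rw [growStep_nil he]; exact he
    · right
      have ih' := ih.resolve_left he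
      obtain ⟨p, hp, v, w, h1, h2, h3, h4⟩ := growStep_ne he
      have h5 : w ∉ Ps.flatten := fun hw => h3 (forest_closed hV hE hM hF (TA6.both_symm.1 h1) hw)
      rw [h4]
      refine Nat.succ_le_of_lt (lt_of_le_of_lt ih' ?_)
      rcases TA6.mem_both.1 h1 with h | h
      · refine countP_lt ?_ h ?_ ?_
        · intro x _ hx
          simp only [decide_eq_true_eq, List.flatten_cons, List.mem_append] at hx ⊢
          exact Or.inr hx
        · simpa using h3
        · simp
      · refine countP_lt ?_ h ?_ ?_
        · intro x _ hx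
          simp only [decide_eq_true_eq, List.flatten_cons, List.mem_append] at hx ⊢
          exact Or.inr hx
        · simpa using h5
        · simp

end TA5

theorem forest_Forest (V : List α) (E M : List (α × α)) : Forest V E M (forest V E M) :=
  TA5.iter_forest V E M M.length

theorem forest_sat (hV : V.Nodup) (hE : LF E) (hM : IsM V E M) :
    extList E M (forest V E M) = [] := by
  rcases TA5.iter_count hV hE hM M.length with h | h
  · exact h
  · have hF := forest_Forest V E M
    have h' : M.countP (fun e => decide (e.1 ∈ (forest V E M).flatten)) = M.length :=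
      le_antisymm List.countP_le_length h
    rw [List.countP_eq_length] at h'
    have h1 : ∀ e ∈ both M, e.1 ∈ (forest V E M).flatten := by
      rintro ⟨v, w⟩ he
      rcases TA6.mem_both.1 he with h2 | h2
      · simpa using h' _ h2
      · have h3 : w ∈ (forest V E M).flatten := by simpa using h' _ h2
        exact forest_closed hV hE hM hF (TA6.both_symm.1 he) h3
    rw [List.eq_nil_iff_forall_not_mem]
    intro q hq
    obtain ⟨p, hp, v, w, h2, h3, h4, h5⟩ := TA5.mem_extList.1 hq
    exact h4 (h1 _ h2)

end

end Pool.Agent.H671R2.SF
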