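import Pool.Agent.H671R2.SF.TA1

/-!
# A7 (helper431): certificate from a saturated forest without even-even edges
-/

set_option autoImplicit false

namespace Pool.Agent.H671R2.SF

open Pool.Agent.NPC

namespace TA7

section
variable {α : Type} [DecidableEq α] {V : List α} {E M : List (α × α)} {Ps : List (List α)}

/-- even vertices: the heads of the paths -/
def Ev (Ps : List (List α)) (v : α) : Prop := ∃ p ∈ Ps, p.head? = some v

/-- odd vertices: the second vertices -/
def Od (Ps : List (List α)) (v : α) : Prop := ∃ w t, w :: v :: t ∈ Ps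

theorem flatten_iff (hM : IsM V E M) (h : Forest V E M Ps) (v : α) :
    v ∈ Ps.flatten ↔ Ev Ps v ∨ Od Ps v := by
  have G := TA6.good hM h
  constructor
  · intro hv
    obtain ⟨p, hp, hvp⟩ := List.mem_flatten.mp hv
    have key : ∀ n : ℕ, ∀ p ∈ Ps, p.length ≤ n → v ∈ p → Ev Ps v ∨ Od Ps v := by
      intro n
      induction n with
      | zero =>
        intro p hp hn hvp
        have := (G.path p hp).1
        have h0 : p.length = 0 := by omega
        rw [h0] at this
        simp at this
      | succ n ih =>
        intro p hp hn hvp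
        match p, hp, hn, hvp with
        | [], _, _, hvp => simp at hvp
        | [a], hp, _, hvp =>
          rw [List.mem_singleton] at hvp
          exact Or.inl ⟨[a], hp, by rw [hvp]; rfl⟩
        | a :: b :: t, hp, hn, hvp =>
          rw [List.mem_cons, List.mem_cons] at hvp
          rcases hvp with hv | hv | hv
          · exact Or.inl ⟨_, hp, by rw [hv]; rfl⟩
          · exact Or.inr ⟨a, t, by rw [hv]; exact hp⟩
          · refine ih t (G.tail a b t hp) ?_ hv
            simp only [List.length_cons] at hn
            omega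
    exact key p.length p hp le_rfl hvp
  · rintro (⟨p, hp, hv⟩ | ⟨w, t, hp⟩)
    · exact List.mem_flatten.mpr ⟨p, hp, List.mem_of_head? hv⟩
    · exact List.mem_flatten.mpr ⟨_, hp, by simp⟩

theorem not_both (hM : IsM V E M) (h : Forest V E M Ps) {v : α} (h1 : Ev Ps v) : ¬ Od Ps v := by
  have G := TA6.good hM h
  rintro ⟨w, t, hp⟩
  obtain ⟨q, hq, hv⟩ := h1
  obtain ⟨q', rfl⟩ : ∃ q', q = v :: q' := by
    cases q with
    | nil => simp at hv
    | cons x q' =>
      simp at hv
      exact ⟨q', by rw [hv]⟩
  obtain ⟨o1, n1, -⟩ := G.path _ hp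
  obtain ⟨o2, -⟩ := G.path _ hq
  have hwv : w ≠ v := by
    rw [List.nodup_cons] at n1
    rintro rfl
    exact n1.1 List.mem_cons_self
  have hs := G.suffix _ hp _ hq v (by simp) (by simp)
  rw [List.dropWhile_cons_of_pos (by simp [hwv]), List.dropWhile_cons_of_neg (by simp),
    List.dropWhile_cons_of_neg (by simp)] at hs
  have hl := congrArg List.length hs
  simp only [List.length_cons] at hl o1 o2
  rw [← hl] at o2
  rw [Nat.odd_add_one] at o1
  exact o1 o2

end

end TA7

section
variable {α : Type} [DecidableEq α] {V : List α} {E M N : List (α × α)} {Ps : List (List α)}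

open TA7 in
theorem forest_cert (hV : V.Nodup) (hE : LF E) (hM : IsM V E M) (h : Forest V E M Ps)
    (hext : extList E M Ps = []) (hno : ∀ p ∈ Ps, ∀ q ∈ Ps, hh E p q = false) :
    ∃ U κ, CertW V E M.length U κ := by
  classical
  have G := TA6.good hM h
  set S := V.toFinset with hS
  let EvF : Finset α := S.filter (fun v => Ev Ps v)
  let OdF : Finset α := S.filter (fun v => Od Ps v)
  let κ : α → ℕ := fun v => if Ev Ps v then V.idxOf v + 1 else 0
  have hEvV : ∀ v, Ev Ps v → v ∈ V := by
    rintro v ⟨p, hp, hv⟩
    exact (G.path p hp).2.2.1 v (List.mem_of_head? hv)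
  have hOdV : ∀ v, Od Ps v → v ∈ V := by
    rintro v ⟨w, t, hp⟩
    exact (G.path _ hp).2.2.1 v (by simp)
  have hmEv : ∀ v, v ∈ EvF ↔ Ev Ps v := fun v => by
    rw [Finset.mem_filter, hS, List.mem_toFinset (l := V)]
    exact ⟨fun h => h.2, fun h => ⟨hEvV v h, h⟩⟩
  have hmOd : ∀ v, v ∈ OdF ↔ Od Ps v := fun v => by
    rw [Finset.mem_filter, hS, List.mem_toFinset (l := V)]
    exact ⟨fun h => h.2, fun h => ⟨hOdV v h, h⟩⟩
  -- no edge from an even vertex to a vertex which is not odd
  have hedge : ∀ a b, Ev Ps a → b ∈ V → adjB E a b = true → Od Ps b := by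
    rintro a b ⟨p, hp, hpa⟩ hbV hab
    by_contra hOd
    by_cases hEv : Ev Ps b
    · obtain ⟨q, hq, hqb⟩ := hEv
      have h1 := hno p hp q hq
      have h2 := TA6.hh_iff.mpr ⟨a, b, hpa, hqb, hab⟩
      rw [h1] at h2
      exact absurd h2 (by decide)
    · have hfl : b ∉ Ps.flatten := by
        rw [flatten_iff hM h]
        tauto
      by_cases hbe : b ∈ ends M
      · obtain ⟨w, hbw⟩ := TA6.mem_ends.mp hbe
        have h1 : w :: b :: p ∈ extList E M Ps := by
          unfold extList
          rw [List.mem_flatMap]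
          refine ⟨p, hp, List.mem_map.mpr ⟨(b, w), List.mem_filter.mpr ⟨hbw, ?_⟩, rfl⟩⟩
          have h2 := TA6.hh_iff.mpr ⟨a, b, hpa, (rfl : [b].head? = some b), hab⟩
          simp only [h2, Bool.true_and, Bool.not_eq_true', decide_eq_false_iff_not]
          exact hfl
        rw [hext] at h1
        exact absurd h1 List.not_mem_nil
      · exact hEv ⟨[b], G.exps b hbV hbe, rfl⟩
  refine ⟨OdF, κ, Finset.filter_subset _ _, ?_, ?_⟩
  · intro a ha b hb hab haU hbU
    rw [hmOd] at haU hbU
    have h1 : ¬ Ev Ps a := fun h1 => hbU (hedge a b h1 hb hab)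
    have h2 : ¬ Ev Ps b := fun h1 => haU (hedge b a h1 ha (by rw [TA6.adjB_symm]; exact hab))
    simp only [κ, if_neg h1, if_neg h2]
  · -- the odd classes
    have hκinj : ∀ v ∈ EvF, ∀ u ∈ EvF, κ v = κ u → v = u := by
      intro v hv u hu huv
      rw [hmEv] at hv hu
      simp only [κ, if_pos hv, if_pos hu] at huv
      exact (List.idxOf_inj (hEvV v hv)).mp (by omega)
    have hodd : ((((S \ OdF).image κ).filter fun i =>
        Odd (((S \ OdF).filter fun v => κ v = i).card))) = EvF.image κ := by
      ext i
      rw [Finset.mem_filter, Finset.mem_image, Finset.mem_image]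
      constructor
      · rintro ⟨⟨v, hv, rfl⟩, ho⟩
        by_cases hEv : Ev Ps v
        · exact ⟨v, (hmEv v).mpr hEv, rfl⟩
        · exfalso
          rw [← Nat.not_even_iff_odd] at ho
          apply ho
          have hκv : κ v = 0 := by simp only [κ, if_neg hEv]
          rw [hκv]
          have hmem : ∀ u, u ∈ ((S \ OdF).filter fun v => κ v = 0) ↔ u ∈ V ∧ u ∉ Ps.flatten := by
            intro u
            rw [Finset.mem_filter, Finset.mem_sdiff, hS, List.mem_toFinset (l := V), hmOd,
              flatten_iff hM h]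
            by_cases h1 : Ev Ps u
            · simp [κ, h1]
            · simp [κ, h1]
          have hnx : ∀ u, u ∈ V ∧ u ∉ Ps.flatten → u ∈ ends M := by
            rintro u ⟨hu1, hu2⟩
            by_contra h1
            exact hu2 (List.mem_flatten.mpr ⟨[u], G.exps u hu1 h1, by simp⟩)
          refine TA1.even_of_closed hM.2.1 _ (fun u hu => hnx u ((hmem u).mp hu)) ?_
          intro u hu w huw
          rw [hmem] at hu ⊢
          exact ⟨TA6.both_mem hM (TA6.both_symm.mp huw),
            fun hw => hu.2 (G.closed w u (TA6.both_symm.mp huw) hw)⟩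
      · rintro ⟨v, hv, rfl⟩
        have hEv := (hmEv v).mp hv
        have hvS : v ∈ S \ OdF := by
          rw [Finset.mem_sdiff, hS, List.mem_toFinset (l := V), hmOd]
          exact ⟨hEvV v hEv, not_both hM h hEv⟩
        refine ⟨⟨v, hvS, rfl⟩, ?_⟩
        have hone : ((S \ OdF).filter fun u => κ u = κ v) = {v} := by
          ext u
          rw [Finset.mem_filter, Finset.mem_singleton]
          constructor
          · rintro ⟨-, h2⟩
            by_cases h3 : Ev Ps u
            · exact hκinj u ((hmEv u).mpr h3) v hv h2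
            · simp only [κ, if_neg h3, if_pos hEv] at h2
              omega
          · rintro rfl
            exact ⟨hvS, rfl⟩
        rw [hone, Finset.card_singleton]
        exact odd_one
    rw [hodd, Finset.card_image_of_injOn (fun v hv u hu => hκinj v hv u hu)]
    -- number of even vertices
    have hVc := TA1.card_V hV hM
    rw [← hS] at hVc
    have hex : (EvF.filter fun v => v ∉ ends M) = S.filter fun v => v ∉ ends M := by
      ext v
      constructor
      · intro h0
        obtain ⟨h1, h2⟩ := Finset.mem_filter.mp h0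
        exact Finset.mem_filter.mpr
          ⟨List.mem_toFinset.mpr (hEvV v ((hmEv v).mp h1)), h2⟩
      · intro h0
        obtain ⟨h1, h2⟩ := Finset.mem_filter.mp h0
        exact Finset.mem_filter.mpr
          ⟨(hmEv v).mpr ⟨[v], G.exps v (List.mem_toFinset.mp h1) h2, rfl⟩, h2⟩
    have hbij : (EvF.filter fun v => v ∈ ends M).card = OdF.card := by
      refine Finset.card_bij' (fun v _ => TA1.mate M v) (fun v _ => TA1.mate M v) ?_ ?_ ?_ ?_
      · intro v hv
        rw [Finset.mem_filter, hmEv] at hv
        obtain ⟨⟨p, hp, hpv⟩, hve⟩ := hv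
        rw [hmOd]
        match p, hp, hpv with
        | [], _, hpv => simp at hpv
        | [a], hp, hpv =>
          simp at hpv
          exfalso
          exact (G.path _ hp).2.2.2.2.2 a rfl (hpv ▸ hve)
        | a :: b :: t, hp, hpv =>
          simp at hpv
          have h1 := (G.path _ hp).2.2.2.2.1 0 a b rfl rfl
          have h2 : TA1.mate M v = b := TA1.mate_eq hM.2.1 (hpv ▸ TA6.both_symm.mp h1)
          rw [h2]
          exact ⟨a, t, hp⟩
      · intro v hv
        rw [hmOd] at hv
        obtain ⟨w, t, hp⟩ := hv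
        have h1 := (G.path _ hp).2.2.2.2.1 0 w v rfl rfl
        have h2 : TA1.mate M v = w := TA1.mate_eq hM.2.1 h1
        rw [h2, Finset.mem_filter, hmEv]
        exact ⟨⟨_, hp, rfl⟩, TA6.mem_ends.mpr ⟨v, TA6.both_symm.mp h1⟩⟩
      · intro v hv
        exact TA1.mate_eq hM.2.1 (TA6.both_symm.mp (TA1.mate_spec (Finset.mem_filter.mp hv).2))
      · intro v hv
        rw [hmOd] at hv
        obtain ⟨w, t, hp⟩ := hv
        have h1 := (G.path _ hp).2.2.2.2.1 0 w v rfl rfl
        exact TA1.mate_eq hM.2.1 (TA6.both_symm.mp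
          (TA1.mate_spec (TA6.mem_ends.mpr ⟨w, h1⟩)))
    have hsplit := Finset.card_filter_add_card_filter_not (s := EvF) (fun v => v ∈ ends M)
    rw [hex, hbij] at hsplit
    omega

end

end Pool.Agent.H671R2.SF
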