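import Pool.Agent.H671R2.SF.TA8

/-!
# A9 (helper912): the blossom
-/

set_option autoImplicit false
set_option linter.unusedSectionVars false

namespace Pool.Agent.H671R2.SF

open Pool.Agent.NPC

section
variable {α : Type} [DecidableEq α] {V : List α} {E M N : List (α × α)}

namespace TA9

theorem cyc_of_chain {C : List α} {R : α → α → Prop} {c : α} (hc : C.head? = some c)
    (h : (C ++ [c]).IsChain R) : ∀ i a b, C[i]? = some a → C[(i + 1) % C.length]? = some b →
      R a b := by
  intro i a b ha hb
  have hi : i < C.length := by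
    by_contra hi
    rw [List.getElem?_eq_none (by omega)] at ha
    simp at ha
  have key : ∀ x, (C ++ [c])[i + 1]? = some x → R a x := by
    intro x hx
    have hi' : i + 1 < (C ++ [c]).length := by
      by_contra hi'
      rw [List.getElem?_eq_none (by omega)] at hx
      simp at hx
    have h1 := List.isChain_iff_getElem.1 h i hi'
    have e1 : (C ++ [c])[i]? = some a := by
      rw [List.getElem?_append_left hi]; exact ha
    rw [List.getElem?_eq_getElem (by omega)] at e1
    rw [List.getElem?_eq_getElem hi'] at hx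
    simp only [Option.some.injEq] at e1 hx
    rw [← e1, ← hx]
    exact h1
  by_cases h2 : i + 1 < C.length
  · rw [Nat.mod_eq_of_lt h2] at hb
    apply key
    rw [List.getElem?_append_left h2]; exact hb
  · have h3 : i + 1 = C.length := by omega
    rw [h3, Nat.mod_self] at hb
    rw [← List.head?_eq_getElem?, hc] at hb
    simp only [Option.some.injEq] at hb
    apply key
    rw [h3, ← hb]
    rw [List.getElem?_append_right le_rfl]
    simp

/-- the first common vertex -/
theorem split {p q : List α} (hq : q.Nodup)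
    (hsuf : ∀ z, z ∈ p → z ∈ q → p.dropWhile (fun x => !decide (x = z)) =
      q.dropWhile (fun x => !decide (x = z))) (hp : p.Nodup) (hc : comm p q ≠ []) :
    ∃ p₁ q₁ z t, p = p₁ ++ z :: t ∧ q = q₁ ++ z :: t ∧ (∀ x ∈ p₁, x ∉ q) ∧ (∀ x ∈ q₁, x ∉ p) ∧
      comm p q = z :: t ∧ only p q = p₁ ∧ only q p = q₁ := by
  have h1 : ∀ (q : List α) (z : α), z ∈ q →
      ∃ t, q = q.takeWhile (fun x => !decide (x = z)) ++ z :: t ∧
        q.dropWhile (fun x => !decide (x = z)) = z :: t := by
    intro q z hz
    induction q with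
    | nil => simp at hz
    | cons a q ih =>
      by_cases h : a = z
      · subst h
        refine ⟨q, ?_, ?_⟩ <;> simp
      · rw [List.mem_cons] at hz
        obtain ⟨t, ht1, ht2⟩ := ih (hz.resolve_left fun h' => h h'.symm)
        refine ⟨t, ?_, ?_⟩
        · rw [List.takeWhile_cons_of_pos (by simpa using h), List.cons_append]
          exact congrArg (a :: ·) ht1
        · rw [List.dropWhile_cons_of_pos (by simpa using h)]
          exact ht2
  obtain ⟨x, hx⟩ := List.exists_mem_of_ne_nil _ hc
  have hx' : x ∈ p ∧ x ∈ q := by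
    unfold comm at hx
    rw [List.mem_filter] at hx
    exact ⟨hx.1, by simpa using hx.2⟩
  have h2 : ∀ p : List α, x ∈ p → ∃ p₁ z t, p = p₁ ++ z :: t ∧ z ∈ q ∧ ∀ y ∈ p₁, y ∉ q := by
    intro p
    induction p with
    | nil => intro h; simp at h
    | cons a p ih =>
      intro h
      by_cases ha : a ∈ q
      · exact ⟨[], a, p, rfl, ha, by simp⟩
      · rw [List.mem_cons] at h
        have hxp : x ∈ p := by
          rcases h with rfl | h
          · exact absurd hx'.2 ha
          · exact h
        obtain ⟨p₁, z, t, e, hz, hp₁⟩ := ih hxp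
        refine ⟨a :: p₁, z, t, by rw [e, List.cons_append], hz, ?_⟩
        intro y hy
        rw [List.mem_cons] at hy
        rcases hy with rfl | hy
        · exact ha
        · exact hp₁ y hy
  obtain ⟨p₁, z, t, e, hz, hp₁⟩ := h2 p hx'.1
  have hzp : z ∈ p := by rw [e]; simp
  have e2 : p.dropWhile (fun x => !decide (x = z)) = z :: t := by
    rw [e, List.dropWhile_append_of_pos]
    · simp
    · intro a ha
      have : a ≠ z := by
        rintro rfl
        exact hp₁ a ha hz
      simpa using this
  obtain ⟨t', e3, e4⟩ := h1 q z hz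
  have e5 := hsuf z hzp hz
  rw [e2, e4] at e5
  simp only [List.cons.injEq, true_and] at e5
  subst e5
  set q₁ := q.takeWhile (fun x => !decide (x = z)) with hq₁
  have hdq : ∀ x ∈ q₁, x ∉ z :: t := by
    intro x hx1 hx2
    rw [e3] at hq
    exact (List.nodup_append.1 hq).2.2 x hx1 x hx2 rfl
  have hq₁p : ∀ x ∈ q₁, x ∉ p := by
    intro x hx1 hx2
    rw [e, List.mem_append] at hx2
    rcases hx2 with hx2 | hx2
    · refine hp₁ x hx2 ?_
      rw [e3]; exact List.mem_append_left _ hx1
    · exact hdq x hx1 hx2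
  have hcomm : ∀ x ∈ z :: t, x ∈ q := by
    intro x hx
    rw [e3]; exact List.mem_append_right _ hx
  have hcomm' : ∀ x ∈ z :: t, x ∈ p := by
    intro x hx
    rw [e]; exact List.mem_append_right _ hx
  refine ⟨p₁, q₁, z, t, e, e3, hp₁, hq₁p, ?_, ?_, ?_⟩
  · unfold comm
    conv_lhs => rw [e]
    rw [List.filter_append]
    have a1 : p₁.filter (fun v => decide (v ∈ q)) = [] := by
      rw [List.filter_eq_nil_iff]
      intro a ha; simpa using hp₁ a ha
    have a2 : (z :: t).filter (fun v => decide (v ∈ q)) = z :: t := by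
      rw [List.filter_eq_self]
      intro a ha; simpa using hcomm a ha
    rw [a1, a2]; rfl
  · unfold only
    conv_lhs => rw [e]
    rw [List.filter_append]
    have a1 : p₁.filter (fun v => !decide (v ∈ q)) = p₁ := by
      rw [List.filter_eq_self]
      intro a ha; simpa using hp₁ a ha
    have a2 : (z :: t).filter (fun v => !decide (v ∈ q)) = [] := by
      rw [List.filter_eq_nil_iff]
      intro a ha; simpa using hcomm a ha
    rw [a1, a2, List.append_nil]
  · unfold only
    conv_lhs => rw [e3]
    rw [List.filter_append]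
    have a1 : q₁.filter (fun v => !decide (v ∈ p)) = q₁ := by
      rw [List.filter_eq_self]
      intro a ha; simpa using hq₁p a ha
    have a2 : (z :: t).filter (fun v => !decide (v ∈ p)) = [] := by
      rw [List.filter_eq_nil_iff]
      intro a ha; simpa using hcomm' a ha
    rw [a1, a2, List.append_nil]

/-- everything about two paths with a common vertex -/
theorem struct (hV : V.Nodup) (hE : LF E) (hM : IsM V E M) {Ps : List (List α)}
    (h : Forest V E M Ps) {p q : List α} (hp : p ∈ Ps) (hq : q ∈ Ps) (hc : comm p q ≠ []) :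
    ∃ p₁ q₁ z t, p = p₁ ++ z :: t ∧ q = q₁ ++ z :: t ∧ (∀ x ∈ p₁, x ∉ q) ∧ (∀ x ∈ q₁, x ∉ p) ∧
      comm p q = z :: t ∧ only p q = p₁ ∧ only q p = q₁ ∧ Odd (z :: t).length ∧
      Even p₁.length ∧ Even q₁.length := by
  obtain ⟨-, hp2, -, -, -, -⟩ := forest_path hV hE hM h hp
  obtain ⟨-, hq2, -, -, -, -⟩ := forest_path hV hE hM h hq
  have hAp := TA8.AP.of_forest hV hE hM h hp
  have hAq := TA8.AP.of_forest hV hE hM h hq
  obtain ⟨p₁, q₁, z, t, e1, e2, h1, h2, h3, h4, h5⟩ := split hq2
    (fun z hz hz' => forest_suffix hV hE hM h hp hq hz hz') hp2 hc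
  have lp := hAp.odd
  have lq := hAq.odd
  have key : Odd (z :: t).length := by
    by_contra hodd
    rw [Nat.not_odd_iff_even] at hodd
    have o1 : Odd p₁.length := by
      rw [e1, List.length_append] at lp
      rw [Nat.odd_iff] at lp ⊢
      rw [Nat.even_iff] at hodd
      omega
    have o2 : Odd q₁.length := by
      rw [e2, List.length_append] at lq
      rw [Nat.odd_iff] at lq ⊢
      rw [Nat.even_iff] at hodd
      omega
    obtain ⟨x, hx, hx'⟩ := TA8.AP.odd_split p₁ o1 (e1 ▸ hAp)
    obtain ⟨y, hy, hy'⟩ := TA8.AP.odd_split q₁ o2 (e2 ▸ hAq)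
    have hxy := TA6.mate_unique hM.2.1 hx' hy'
    subst hxy
    refine h1 x hx ?_
    rw [e2]; exact List.mem_append_left _ hy
  refine ⟨p₁, q₁, z, t, e1, e2, h1, h2, h3, h4, h5, key, ?_, ?_⟩
  · rw [e1, List.length_append] at lp
    rw [Nat.odd_iff] at lp key
    rw [Nat.even_iff]
    omega
  · rw [e2, List.length_append] at lq
    rw [Nat.odd_iff] at lq key
    rw [Nat.even_iff]
    omega

theorem isM_con {C : List α} (hE : LF E) (hM : IsM V E M) :
    IsM (conV C V) (conE C E) (away C M) := by
  have hA := TA4.isM_away (L := C) hM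
  have hne : ∀ e ∈ away C M, e.1 ≠ e.2 := by
    rintro ⟨a, b⟩ he
    exact TA6.ne_of_nodup hA.2.1 (TA6.mem_both.2 (Or.inl he))
  refine ⟨?_, hA.2.1, ?_⟩
  · rintro ⟨a, b⟩ he
    have h1 := hA.1 _ he
    have h2 := TA4.mem_away.1 he
    have h3 := hne _ he
    have pa : piC C a = a := by unfold piC; rw [if_neg h2.2.1]
    have pb : piC C b = b := by unfold piC; rw [if_neg h2.2.2]
    have key : ∀ {x y : α}, piC C x = x → piC C y = y → x ≠ y → (x, y) ∈ E →
        (x, y) ∈ conE C E := by
      intro x y hx hy hxy hm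
      unfold conE
      rw [List.mem_filter]
      refine ⟨List.mem_map.2 ⟨(x, y), hm, ?_⟩, by simpa using hxy⟩
      simp only [hx, hy]
    unfold adjB at h1 ⊢
    simp only [Bool.or_eq_true, decide_eq_true_eq] at h1 ⊢
    rcases h1 with h1 | h1
    · exact Or.inl (key pa pb h3 h1)
    · exact Or.inr (key pb pa (Ne.symm h3) h1)
  · intro v hv
    unfold conV
    rw [List.mem_filter]
    refine ⟨hA.2.2 v hv, ?_⟩
    have := TA4.not_mem_of_ends_away hv
    simp [this]

end TA9

section forest
variable {Ps : List (List α)}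

/-- the two paths share exactly a suffix of odd length, the remaining parts have even length -/
theorem comm_structure (hV : V.Nodup) (hE : LF E) (hM : IsM V E M) (h : Forest V E M Ps)
    {p q : List α} (hp : p ∈ Ps) (hq : q ∈ Ps) (hc : comm p q ≠ []) :
    p = only p q ++ comm p q ∧ q = only q p ++ comm p q ∧ Odd (comm p q).length ∧
      Even (only p q).length ∧ Even (only q p).length := by
  obtain ⟨p₁, q₁, z, t, e1, e2, -, -, h3, h4, h5, h6, h7, h8⟩ := TA9.struct hV hE hM h hp hq hc
  rw [h3, h4, h5]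
  exact ⟨e1, e2, h6, h7, h8⟩

theorem blos_spec (hV : V.Nodup) (hE : LF E) (hM : IsM V E M) (h : Forest V E M Ps) {p q : List α}
    (hp : p ∈ Ps) (hq : q ∈ Ps) (hpq : hh E p q = true) (hc : comm p q ≠ []) :
    Cyc E (blos p q) ∧ (∀ v ∈ blos p q, v ∈ V) ∧
    IsM (conV (blos p q) V) (conE (blos p q) E)
      (away (blos p q) (relink (comm p q).reverse M)) ∧
    (away (blos p q) (relink (comm p q).reverse M)).length + (blos p q).length / 2 = M.length ∧
    ∀ c, (blos p q).head? = some c →
      c ∉ ends (away (blos p q) (relink (comm p q).reverse M)) := by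
  obtain ⟨-, hp2, hp3, hp4, -, -⟩ := forest_path hV hE hM h hp
  obtain ⟨-, hq2, hq3, hq4, -, -⟩ := forest_path hV hE hM h hq
  have hAp := TA8.AP.of_forest hV hE hM h hp
  have hAq := TA8.AP.of_forest hV hE hM h hq
  obtain ⟨p₁, q₁, z, t, e1, e2, h1, h2, h3, h4, h5, h6, h7, h8⟩ :=
    TA9.struct hV hE hM h hp hq hc
  have hb : blos p q = z :: (p₁.reverse ++ q₁) := by
    unfold blos
    rw [h3, h4, h5]
    rfl
  rw [hb, h3]
  have hAz : TA8.AP M (z :: t) := TA8.AP.suffix p₁ h7 (e1 ▸ hAp)
  have hp1mem : ∀ v ∈ p₁, v ∈ ends M := TA8.AP.prefix_mem p₁ h7 (e1 ▸ hAp)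
  have hq1mem : ∀ v ∈ q₁, v ∈ ends M := TA8.AP.prefix_mem q₁ h8 (e2 ▸ hAq)
  have hp2' := hp2
  rw [e1, List.nodup_append] at hp2'
  have hq2' := hq2
  rw [e2, List.nodup_append] at hq2'
  have dp : ∀ x ∈ p₁, x ∉ z :: t := fun x hx hx' => hp2'.2.2 x hx x hx' rfl
  have dq : ∀ x ∈ q₁, x ∉ z :: t := fun x hx hx' => hq2'.2.2 x hx x hx' rfl
  have dpq : ∀ x ∈ p₁, x ∉ q₁ := fun x hx hx' => h1 x hx (by
    rw [e2]; exact List.mem_append_left _ hx')
  have hCnd : (z :: (p₁.reverse ++ q₁)).Nodup := by
    rw [List.nodup_cons, List.nodup_append]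
    refine ⟨?_, List.nodup_reverse.mpr hp2'.1, hq2'.1, ?_⟩
    · rw [List.mem_append, List.mem_reverse]
      rintro (hz | hz)
      · exact dp z hz List.mem_cons_self
      · exact dq z hz List.mem_cons_self
    · intro a ha b hb' hab
      subst hab
      exact dpq a (List.mem_reverse.1 ha) hb'
  have hlen : (z :: (p₁.reverse ++ q₁)).length = p₁.length + q₁.length + 1 := by
    simp
  have hodd : Odd (z :: (p₁.reverse ++ q₁)).length := by
    rw [hlen]
    rw [Nat.even_iff] at h7 h8
    rw [Nat.odd_iff]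
    omega
  have h3le : 3 ≤ (z :: (p₁.reverse ++ q₁)).length := by
    rw [hlen]
    by_contra hlt
    have a1 : p₁.length = 0 := by
      rw [Nat.even_iff] at h7 h8
      omega
    have a2 : q₁.length = 0 := by
      rw [Nat.even_iff] at h7 h8
      omega
    rw [List.length_eq_zero_iff] at a1 a2
    subst a1 a2
    obtain ⟨a, b, ha, hb', hab⟩ := TA6.hh_iff.1 hpq
    rw [e1] at ha
    rw [e2] at hb'
    simp only [List.nil_append, List.head?_cons, Option.some.injEq] at ha hb'
    subst ha hb'
    unfold adjB at hab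
    simp only [Bool.or_self, decide_eq_true_eq] at hab
    exact hE _ hab rfl
  have hchain : ((z :: (p₁.reverse ++ q₁)) ++ [z]).IsChain fun a b => adjB E a b = true := by
    have e : (z :: (p₁.reverse ++ q₁)) ++ [z] = (p₁ ++ [z]).reverse ++ (q₁ ++ [z]) := by
      simp
    rw [e, List.isChain_append]
    have cp : (p₁ ++ [z]).IsChain fun a b => adjB E a b = true := by
      have : p = (p₁ ++ [z]) ++ t := by rw [e1]; simp
      rw [this] at hp4
      exact hp4.left_of_append
    have cq : (q₁ ++ [z]).IsChain fun a b => adjB E a b = true := by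
      have : q = (q₁ ++ [z]) ++ t := by rw [e2]; simp
      rw [this] at hq4
      exact hq4.left_of_append
    refine ⟨TA8.chain_reverse cp, cq, ?_⟩
    intro x hx y hy
    obtain ⟨a, b, ha, hb', hab⟩ := TA6.hh_iff.1 hpq
    have hx' : a = x := by
      rw [List.getLast?_reverse] at hx
      rw [e1] at ha
      cases p₁ with
      | nil => simp at ha hx; rw [← ha, ← hx]
      | cons c p₁ => simp at ha hx; rw [← ha, ← hx]
    have hy' : b = y := by
      rw [e2] at hb'
      cases q₁ with
      | nil => simp at hb' hy; rw [← hb', ← hy]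
      | cons c q₁ => simp at hb' hy; rw [← hb', ← hy]
    rw [← hx', ← hy']; exact hab
  have hcyc : Cyc E (z :: (p₁.reverse ++ q₁)) :=
    ⟨hodd, h3le, hCnd, TA9.cyc_of_chain rfl hchain⟩
  -- the matching after the switch along the stem
  have hL1nd : (z :: t).reverse.Nodup := List.nodup_reverse.mpr hp2'.2.1
  have hL1V : ∀ v ∈ (z :: t).reverse, v ∈ V := by
    intro v hv
    rw [List.mem_reverse] at hv
    exact hp3 v (by rw [e1]; exact List.mem_append_right _ hv)
  have hL1ch : (z :: t).reverse.IsChain fun a b => adjB E a b = true := by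
    apply TA8.chain_reverse
    rw [e1] at hp4
    exact hp4.right_of_append
  have hzcl : ∀ e ∈ M, e.1 ∈ z :: t ↔ e.2 ∈ z :: t := by
    rintro ⟨a, b⟩ he
    have m1 : (a, b) ∈ both M := TA6.mem_both.2 (Or.inl he)
    exact ⟨fun hh => hAz.closed hM.2.1 m1 hh,
      fun hh => hAz.closed hM.2.1 (TA6.both_symm.1 m1) hh⟩
  have hL1cl : ∀ e ∈ M, e.1 ∈ (z :: t).reverse ↔ e.2 ∈ (z :: t).reverse := by
    intro e he
    rw [List.mem_reverse, List.mem_reverse]
    exact hzcl e he
  set M1 := relink (z :: t).reverse M with hM1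
  have hM1M : IsM V E M1 := relink_isM hM hL1nd hL1V hL1ch
  have hlen1 : M1.length = M.length := by
    have := relink_length hM.2.1 hL1nd hL1cl
    rw [List.filter_reverse, List.length_reverse, List.length_reverse, hAz.exposed, ← hM1] at this
    obtain ⟨k, hk⟩ := h6
    omega
  -- z is exposed in M1
  have hends1 : ∀ v, v ∈ ends M1 → v ∈ ends (away (z :: t).reverse M) ∨ v ∈ t := by
    intro v hv
    rw [hM1] at hv
    unfold relink at hv
    rw [TA4.ends_append, List.mem_append] at hv
    rcases hv with hv | hv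
    · exact Or.inl hv
    · right
      have ht : Even t.length := by
        rw [List.length_cons, Nat.odd_iff] at h6
        rw [Nat.even_iff]; omega
      rw [List.reverse_cons, TA4.pairUp_append _ _ (by rw [List.length_reverse]; exact ht),
        TA4.pairUp_singleton, List.append_nil] at hv
      exact List.mem_reverse.1 ((TA4.ends_pairUp_sublist _).subset hv)
  have hzt : z ∉ t := (List.nodup_cons.1 hp2'.2.1).1
  have hz1 : z ∉ ends M1 := by
    intro hz
    rcases hends1 z hz with hz | hz
    · exact TA4.not_mem_of_ends_away hz (by simp)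
    · exact hzt hz
  -- the sets p₁ and q₁ are closed
  have clp : ∀ {v w : α}, (v, w) ∈ both M → v ∈ p₁ → w ∈ p₁ := by
    intro v w hvw hv
    have hw : w ∈ p := hAp.closed hM.2.1 hvw (by rw [e1]; exact List.mem_append_left _ hv)
    rw [e1, List.mem_append] at hw
    rcases hw with hw | hw
    · exact hw
    · exact absurd (hAz.closed hM.2.1 (TA6.both_symm.1 hvw) hw) (dp v hv)
  have clq : ∀ {v w : α}, (v, w) ∈ both M → v ∈ q₁ → w ∈ q₁ := by
    intro v w hvw hv
    have hw : w ∈ q := hAq.closed hM.2.1 hvw (by rw [e2]; exact List.mem_append_left _ hv)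
    rw [e2, List.mem_append] at hw
    rcases hw with hw | hw
    · exact hw
    · exact absurd (hAz.closed hM.2.1 (TA6.both_symm.1 hvw) hw) (dq v hv)
  have clC : ∀ {v w : α}, (v, w) ∈ both M → v ∈ p₁.reverse ++ q₁ → w ∈ p₁.reverse ++ q₁ := by
    intro v w hvw hv
    rw [List.mem_append, List.mem_reverse] at hv ⊢
    rcases hv with hv | hv
    · exact Or.inl (clp hvw hv)
    · exact Or.inr (clq hvw hv)
  have hCcl : ∀ e ∈ M1, e.1 ∈ z :: (p₁.reverse ++ q₁) ↔ e.2 ∈ z :: (p₁.reverse ++ q₁) := by
    have hdt : ∀ x ∈ z :: t, x ∉ p₁.reverse ++ q₁ := by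
      intro x hx hx'
      rw [List.mem_append, List.mem_reverse] at hx'
      rcases hx' with hx' | hx'
      · exact dp x hx' hx
      · exact dq x hx' hx
    rintro ⟨a, b⟩ he
    have ha1 : a ∈ ends M1 := TA4.mem_ends.2 ⟨_, he, Or.inl rfl⟩
    have hb1 : b ∈ ends M1 := TA4.mem_ends.2 ⟨_, he, Or.inr rfl⟩
    have ha2 : a ≠ z := fun hh => hz1 (hh ▸ ha1)
    have hb2 : b ≠ z := fun hh => hz1 (hh ▸ hb1)
    simp only [List.mem_cons, ha2, hb2, false_or]
    rw [hM1] at he
    unfold relink at he
    rw [List.mem_append] at he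
    rcases he with he | he
    · have m1 : (a, b) ∈ both M := TA6.mem_both.2 (Or.inl ((TA4.away_sublist _ _).subset he))
      exact ⟨fun hh => clC m1 hh, fun hh => clC (TA6.both_symm.1 m1) hh⟩
    · have ma : a ∈ (z :: t).reverse := (TA4.ends_pairUp_sublist _).subset
        (TA4.mem_ends.2 ⟨_, he, Or.inl rfl⟩)
      have mb : b ∈ (z :: t).reverse := (TA4.ends_pairUp_sublist _).subset
        (TA4.mem_ends.2 ⟨_, he, Or.inr rfl⟩)
      rw [List.mem_reverse] at ma mb
      exact ⟨fun hh => absurd hh (hdt a ma), fun hh => absurd hh (hdt b mb)⟩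
  have hCmem : ∀ v ∈ p₁.reverse ++ q₁, v ∈ ends M1 := by
    intro v hv
    have hvM : v ∈ ends M := by
      rw [List.mem_append, List.mem_reverse] at hv
      rcases hv with hv | hv
      · exact hp1mem v hv
      · exact hq1mem v hv
    obtain ⟨w, hvw⟩ := TA6.mem_ends.1 hvM
    have hw := clC hvw hv
    have hd : ∀ x ∈ p₁.reverse ++ q₁, x ∉ (z :: t).reverse := by
      intro x hx hx'
      rw [List.mem_reverse] at hx'
      rw [List.mem_append, List.mem_reverse] at hx
      rcases hx with hx | hx
      · exact dp x hx hx'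
      · exact dq x hx hx'
    rw [hM1]
    unfold relink
    rw [TA4.ends_append, List.mem_append]
    left
    rcases TA6.mem_both.1 hvw with hm | hm
    · exact TA4.mem_ends.2 ⟨(v, w), TA4.mem_away.2 ⟨hm, hd v hv, hd w hw⟩, Or.inl rfl⟩
    · exact TA4.mem_ends.2 ⟨(w, v), TA4.mem_away.2 ⟨hm, hd w hw, hd v hv⟩, Or.inr rfl⟩
  have hexp : ((z :: (p₁.reverse ++ q₁)).filter fun v => !decide (v ∈ ends M1)).length = 1 := by
    rw [List.filter_cons_of_pos (by simp [hz1])]
    have : (p₁.reverse ++ q₁).filter (fun v => !decide (v ∈ ends M1)) = [] := by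
      rw [List.filter_eq_nil_iff]
      intro a ha
      simp [hCmem a ha]
    rw [this]; rfl
  refine ⟨hcyc, ?_, TA9.isM_con hE hM1M, ?_, ?_⟩
  · intro v hv
    simp only [List.mem_cons, List.mem_append, List.mem_reverse] at hv
    rcases hv with rfl | hv | hv
    · exact hp3 _ (by rw [e1]; simp)
    · exact hp3 v (by rw [e1]; exact List.mem_append_left _ hv)
    · exact hq3 v (by rw [e2]; exact List.mem_append_left _ hv)
  · have := away_length hM1M.2.1 hCnd hCcl
    rw [hexp, hlen1] at this
    obtain ⟨k, hk⟩ := hodd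
    omega
  · intro c hc'
    simp only [List.head?_cons, Option.some.injEq] at hc'
    subst hc'
    intro hh
    exact TA4.not_mem_of_ends_away hh List.mem_cons_self

end forest

end

end Pool.Agent.H671R2.SF
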