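import Pool.Agent.H671R2.SF.TA2
import Pool.Agent.H671R2.SF.TA3
import Pool.Agent.H671R2.SF.TA5
import Pool.Agent.H671R2.SF.TA7
import Pool.Agent.H671R2.SF.TA9

/-!
# Task A10: correctness of the augmentation procedure (helper584)
-/

set_option autoImplicit false

namespace Pool.Agent.H671R2.SF

open Pool.Agent.NPC

section
variable {α : Type} [DecidableEq α] {V : List α} {E M N : List (α × α)}

namespace TA10

theorem step_cases (hV : V.Nodup) (hE : LF E) (hM : IsM V E M) :
    (stepM V E M = Sum.inl none ∧ ∃ U κ, CertW V E M.length U κ) ∨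
    (∃ M', stepM V E M = Sum.inl (some M') ∧ IsM V E M' ∧ M'.length = M.length + 1) ∨
    ∃ C M', stepM V E M = Sum.inr (C, M') ∧ Cyc E C ∧ (∀ v ∈ C, v ∈ V) ∧
      IsM (conV C V) (conE C E) M' ∧ M'.length + C.length / 2 = M.length ∧
      ∀ c, C.head? = some c → c ∉ ends M' := by
  have hF := forest_Forest V E M
  have hS := forest_sat hV hE hM
  unfold stepM
  cases h : ((forest V E M ×ˢ forest V E M).filter fun x => hh E x.1 x.2).head? with
  | none =>
    left
    refine ⟨rfl, forest_cert hV hE hM hF hS ?_⟩
    intro p hp q hq
    rw [List.head?_eq_none_iff, List.filter_eq_nil_iff] at h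
    have h1 := h (p, q) (List.mem_product.2 ⟨hp, hq⟩)
    simpa using h1
  | some x =>
    have hx := List.mem_of_mem_head? h
    rw [List.mem_filter, List.mem_product] at hx
    obtain ⟨⟨hp, hq⟩, hpq⟩ := hx
    rw [Option.elim_some]
    by_cases hc : comm x.1 x.2 = []
    · right; left
      have h2 := aug_spec hV hE hM hF hp hq hpq hc
      refine ⟨relink (x.1.reverse ++ x.2) M, ?_, h2.1, h2.2⟩
      rw [if_pos (by rw [hc]; rfl)]
    · right; right
      obtain ⟨h1, h2, h3, h4, h5⟩ := blos_spec hV hE hM hF hp hq hpq hc
      refine ⟨blos x.1 x.2, away (blos x.1 x.2) (relink (comm x.1 x.2).reverse M), ?_, h1, h2,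
        h3, h4, h5⟩
      rw [if_neg (by simpa [List.isEmpty_iff] using hc)]

theorem conV_nodup {C : List α} (hV : V.Nodup) : (conV C V).Nodup := hV.filter _

theorem conE_LF {C : List α} : LF (conE C E) := by
  intro e he
  unfold conE at he
  rw [List.mem_filter] at he
  simpa using he.2

theorem conV_length {C : List α} (hC : Cyc E C) (hCV : ∀ v ∈ C, v ∈ V) :
    (conV C V).length < V.length := by
  obtain ⟨_, h3, hnd, _⟩ := hC
  unfold conV
  rw [List.length_filter_lt_length_iff_exists]
  match C, h3, hnd, hCV with
  | c :: d :: l, _, hnd, hCV =>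
    refine ⟨d, hCV d (by simp), ?_⟩
    have : c ≠ d := by
      intro e
      rw [List.nodup_cons] at hnd
      exact hnd.1 (by rw [e]; simp)
    simp [this]
  | [c], h3, _, _ => simp at h3
  | [], h3, _, _ => simp at h3

theorem length_ends (M : List (α × α)) : (ends M).length = 2 * M.length := by
  unfold ends
  induction M with
  | nil => rfl
  | cons e M ih =>
    rw [List.flatMap_cons, List.length_append, ih]
    simp
    omega

theorem two_le (hM : IsM V E M) : 2 * M.length ≤ V.length := by
  rw [← length_ends]
  exact (List.subperm_of_subset hM.2.1 hM.2.2).length_le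

end TA10

theorem improve_spec (hV : V.Nodup) (hE : LF E) (hM : IsM V E M) {k : ℕ} (hk : V.length < k) :
    (improve k V E M = none → ∃ U κ, CertW V E M.length U κ) ∧
    ∀ N, improve k V E M = some N → IsM V E N ∧ N.length = M.length + 1 := by
  induction k generalizing V E M with
  | zero => omega
  | succ k ih =>
    have himp : improve (k + 1) V E M = Sum.elim (fun r => r)
      (fun x => if x.2.length ≤ M.length then
        (improve k (conV x.1 V) (conE x.1 E) x.2).map (liftM E x.1) else none)
        (stepM V E M) := rfl
    rcases TA10.step_cases hV hE hM with ⟨hs, hcert⟩ | ⟨M', hs, h1, h2⟩ |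
      ⟨C, M', hs, hC, hCV, hM', hlen, hhd⟩
    · rw [himp, hs]
      refine ⟨fun _ => hcert, fun N hN => ?_⟩
      exact absurd hN (by simp)
    · rw [himp, hs]
      refine ⟨fun h => absurd h (by simp), fun N hN => ?_⟩
      have : M' = N := by simpa using hN
      subst this
      exact ⟨h1, h2⟩
    · have hcv := TA10.conV_length (V := V) hC hCV
      have IH := ih (V := conV C V) (E := conE C E) (M := M') (TA10.conV_nodup hV)
        TA10.conE_LF hM' (by omega)
      have hval : improve (k + 1) V E M =
          (improve k (conV C V) (conE C E) M').map (liftM E C) := by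
        rw [himp, hs, Sum.elim_inr, if_pos (by dsimp only; omega)]
      rw [hval]
      constructor
      · intro h
        rw [Option.map_eq_none_iff] at h
        obtain ⟨U, κ, hc⟩ := IH.1 h
        have hb := cert_bound (TA10.conV_nodup hV) hc hM'
        have hU : ∀ c, C.head? = some c → c ∉ U := by
          intro c hc1 hcU
          have h0 : (U.filter fun v => v ∉ ends M').card = 0 := by omega
          rw [Finset.card_eq_zero, Finset.filter_eq_empty_iff] at h0
          exact h0 hcU (hhd c hc1)
        have hl := cert_lift hV hC.2.2.1 hCV hC.1 hc hU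
        rw [hlen] at hl
        exact ⟨U, _, hl⟩
      · intro N hN
        rw [Option.map_eq_some_iff] at hN
        obtain ⟨N', hN', rfl⟩ := hN
        obtain ⟨h1, h2⟩ := IH.2 N' hN'
        obtain ⟨h3, h4⟩ := lift_spec hV hC hCV h1
        exact ⟨h3, by omega⟩

theorem maxM_spec (hV : V.Nodup) (hE : LF E) :
    IsM V E (maxM V E) ∧ ∀ N, IsM V E N → N.length ≤ (maxM V E).length := by
  have key : ∀ j : ℕ, IsM V E ((fun M => (improve (V.length + 1) V E M).elim M
      fun N => if N.length ≤ V.length then N else M)^[j] []) ∧
      ((∃ U κ, CertW V E ((fun M => (improve (V.length + 1) V E M).elim M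
        fun N => if N.length ≤ V.length then N else M)^[j] []).length U κ) ∨
      j ≤ ((fun M => (improve (V.length + 1) V E M).elim M
        fun N => if N.length ≤ V.length then N else M)^[j] []).length) := by
    intro j
    induction j with
    | zero =>
      refine ⟨⟨?_, ?_, ?_⟩, Or.inr (Nat.zero_le _)⟩
      · intro e he
        exact absurd he (by simp)
      · simp [ends]
      · intro v hv
        simp [ends] at hv
    | succ j ih =>
      rw [Function.iterate_succ_apply']
      generalize ((fun M => (improve (V.length + 1) V E M).elim M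
        fun N => if N.length ≤ V.length then N else M)^[j] []) = M at ih ⊢
      obtain ⟨hM, hcase⟩ := ih
      have hsp := improve_spec hV hE hM (Nat.lt_succ_self _)
      cases himp : improve (V.length + 1) V E M with
      | none =>
        simp only [Option.elim_none]
        exact ⟨hM, Or.inl (hsp.1 himp)⟩
      | some N =>
        obtain ⟨hN, hlen⟩ := hsp.2 N himp
        have h2 := TA10.two_le hN
        simp only [Option.elim_some]
        rw [if_pos (by omega)]
        refine ⟨hN, Or.inr ?_⟩
        rcases hcase with ⟨U, κ, hc⟩ | h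
        · have := cert_bound hV hc hN
          omega
        · omega
  obtain ⟨hM, hcase⟩ := key V.length
  refine ⟨hM, fun N hN => ?_⟩
  rcases hcase with ⟨U, κ, hc⟩ | h
  · have := cert_bound hV hc hN
    exact le_trans (Nat.le_add_right _ _) this
  · have h1 := TA10.two_le hM
    have h2 := TA10.two_le hN
    unfold maxM
    omega

end

end Pool.Agent.H671R2.SF
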