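import Pool.Agent.H671R2.SF.MDefs

/-!
# Running time of one step of the matching algorithm
-/

set_option autoImplicit false

namespace Pool.Agent.H671R2.SF

open Pool.Agent.NPC

namespace TA11

section
variable {α : Type}

theorem pairUp_aux : ∀ (L : List α) (j : ℕ), j % 2 = 0 →
    (((L.zip L.tail).zipIdx j).filter fun x => decide (x.2 % 2 = 0)).map (fun x => x.1) = pairUp L
  | [], j, _ => by simp [pairUp]
  | [a], j, _ => by simp [pairUp]
  | [a, b], j, hj => by simp [pairUp, hj]
  | a :: b :: c :: t, j, hj => by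
    have ih := pairUp_aux (c :: t) (j + 2) (by omega)
    have h1 : ¬ (j + 1) % 2 = 0 := by omega
    simp only [List.tail_cons, List.zip_cons_cons, List.zipIdx_cons]
    rw [List.filter_cons_of_pos (by simpa using hj), List.filter_cons_of_neg (by simpa using h1),
      List.map_cons, pairUp]
    congr 1

theorem pairUp_eq' (L : List α) : pairUp L =
    ((L.zip L.tail).zipIdx.filter fun x => decide (x.2 % 2 = 0)).map fun x => x.1 :=
  (pairUp_aux L 0 rfl).symm

end

section
variable {α : Type} [TEnc α] {γ : Type} [TEnc γ]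

@[fun_prop]
theorem poly_pairUp {L : γ → List α} (hL : Poly L) : Poly (fun x => pairUp (L x)) := by
  have h : Poly (fun x => ((((L x).zip (L x).tail).zipIdx.filter
      fun y => decide (y.2 % 2 = 0)).map fun y => y.1)) := by fun_prop
  exact h.congr fun x => (pairUp_eq' (L x)).symm

@[fun_prop]
theorem poly_ends {M : γ → List (α × α)} (hM : Poly M) : Poly (fun x => ends (M x)) := by
  unfold ends; fun_prop

@[fun_prop]
theorem poly_both {M : γ → List (α × α)} (hM : Poly M) : Poly (fun x => both (M x)) := by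
  unfold both; fun_prop

@[fun_prop]
theorem poly_hd1 {L : γ → List α} (hL : Poly L) : Poly (fun x => hd1 (L x)) := by
  unfold hd1; fun_prop

variable [DecidableEq α]

@[fun_prop]
theorem poly_adjB {E : γ → List (α × α)} {a b : γ → α} (hE : Poly E) (ha : Poly a) (hb : Poly b) :
    Poly (fun x => adjB (E x) (a x) (b x)) := by
  unfold adjB; fun_prop

@[fun_prop]
theorem poly_away {L : γ → List α} {M : γ → List (α × α)} (hL : Poly L) (hM : Poly M) :
    Poly (fun x => away (L x) (M x)) := by
  unfold away; fun_prop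

@[fun_prop]
theorem poly_relink {L : γ → List α} {M : γ → List (α × α)} (hL : Poly L) (hM : Poly M) :
    Poly (fun x => relink (L x) (M x)) := by
  unfold relink; fun_prop

@[fun_prop]
theorem poly_exps {V : γ → List α} {M : γ → List (α × α)} (hV : Poly V) (hM : Poly M) :
    Poly (fun x => exps (V x) (M x)) := by
  unfold exps; fun_prop

@[fun_prop]
theorem poly_hh {E : γ → List (α × α)} {p q : γ → List α} (hE : Poly E) (hp : Poly p)
    (hq : Poly q) : Poly (fun x => hh (E x) (p x) (q x)) := by
  unfold hh; fun_prop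

@[fun_prop]
theorem poly_comm {p q : γ → List α} (hp : Poly p) (hq : Poly q) :
    Poly (fun x => comm (p x) (q x)) := by
  unfold comm; fun_prop

@[fun_prop]
theorem poly_only {p q : γ → List α} (hp : Poly p) (hq : Poly q) :
    Poly (fun x => only (p x) (q x)) := by
  unfold only; fun_prop

@[fun_prop]
theorem poly_blos {p q : γ → List α} (hp : Poly p) (hq : Poly q) :
    Poly (fun x => blos (p x) (q x)) := by
  unfold blos; fun_prop

@[fun_prop]
theorem poly_extList {E M : γ → List (α × α)} {Ps : γ → List (List α)} (hE : Poly E) (hM : Poly M)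
    (hP : Poly Ps) : Poly (fun x => extList (E x) (M x) (Ps x)) := by
  unfold extList; fun_prop

@[fun_prop]
theorem poly_growStep {E M : γ → List (α × α)} {Ps : γ → List (List α)} (hE : Poly E)
    (hM : Poly M) (hP : Poly Ps) : Poly (fun x => growStep (E x) (M x) (Ps x)) := by
  unfold growStep; fun_prop

/-- bounds for lists of paths -/
def Bd (B n m : ℕ) (Ps : List (List α)) : Prop :=
  Ps.length ≤ n ∧ ∀ p ∈ Ps, p.length ≤ m ∧ ∀ v ∈ p, sz v ≤ B

omit [DecidableEq α] in
theorem Bd.sz_le {B n m : ℕ} {Ps : List (List α)} (h : Bd B n m Ps) :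
    sz Ps ≤ n * (m * (B + 1) + 2) + 1 := by
  have h1 : ∀ p ∈ Ps, sz p ≤ m * (B + 1) + 1 := by
    intro p hp
    obtain ⟨h2, h3⟩ := h.2 p hp
    refine (sz_le_length_mul p B h3).trans ?_
    gcongr
  refine (sz_le_length_mul Ps _ h1).trans ?_
  have := h.1
  gcongr

theorem bd_grow {B n m : ℕ} {Ps : List (List α)} (E : List (α × α)) {M : List (α × α)}
    (hM : ∀ e ∈ M, sz e.1 ≤ B ∧ sz e.2 ≤ B) (h : Bd B n m Ps) :
    Bd B (n + 1) (m + 2) (growStep E M Ps) := by
  have h0 : Bd B (n + 1) (m + 2) Ps :=
    ⟨h.1.trans (by omega), fun p hp => ⟨(h.2 p hp).1.trans (by omega), (h.2 p hp).2⟩⟩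
  unfold growStep
  cases hx : (extList E M Ps).head? with
  | none => simpa using h0
  | some p =>
    have hp : p ∈ extList E M Ps := List.mem_of_head? hx
    simp only [Option.elim_some]
    refine ⟨by simpa using h.1, fun q hq => ?_⟩
    rcases List.mem_cons.1 hq with rfl | hq
    · unfold extList at hp
      simp only [List.mem_flatMap, List.mem_map, List.mem_filter] at hp
      obtain ⟨r, hr, e, ⟨he, -⟩, rfl⟩ := hp
      obtain ⟨h1, h2⟩ := h.2 r hr
      have h3 : sz e.1 ≤ B ∧ sz e.2 ≤ B := by
        unfold both at he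
        rcases List.mem_append.1 he with he | he
        · exact hM e he
        · obtain ⟨f, hf, rfl⟩ := List.mem_map.1 he
          exact ⟨(hM f hf).2, (hM f hf).1⟩
      refine ⟨by simpa using h1, fun v hv => ?_⟩
      simp only [List.mem_cons] at hv
      rcases hv with rfl | rfl | hv
      · exact h3.2
      · exact h3.1
      · exact h2 v hv
    · exact h0.2 q hq

theorem bd_iter {B n m : ℕ} {Ps : List (List α)} (E : List (α × α)) {M : List (α × α)}
    (hM : ∀ e ∈ M, sz e.1 ≤ B ∧ sz e.2 ≤ B) (h : Bd B n m Ps) (k : ℕ) :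
    Bd B (n + k) (m + 2 * k) ((growStep E M)^[k] Ps) := by
  induction k with
  | zero => simpa using h
  | succ k ih =>
    rw [Function.iterate_succ_apply']
    have := bd_grow E hM ih
    exact this

omit [DecidableEq α] in
theorem sz_ends {M : List (α × α)} {e : α × α} (he : e ∈ M) : sz e.1 ≤ sz M ∧ sz e.2 ≤ sz M := by
  have h1 := sz_le_of_mem he
  have h2 : sz e = sz e.1 + sz e.2 + 1 := sz_pair e.1 e.2
  omega

theorem bd_forest (V : List α) (E M : List (α × α)) (k : ℕ) {S : ℕ} (hV : sz V ≤ S)
    (hM : sz M ≤ S) :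
    Bd S (S + k) (1 + 2 * k) ((growStep E M)^[k] ((exps V M).map fun v => [v])) := by
  refine bd_iter E (fun e he => ?_) ⟨?_, ?_⟩ k
  · have := sz_ends he
    omega
  · have h1 : (exps V M).length ≤ V.length := List.length_filter_le _ _
    have h2 := length_lt_sz V
    simp only [List.length_map]
    omega
  · intro p hp
    obtain ⟨v, hv, rfl⟩ := List.mem_map.1 hp
    refine ⟨by simp, fun w hw => ?_⟩
    rw [List.mem_singleton] at hw
    subst hw
    have := sz_le_of_mem (List.mem_of_mem_filter hv)
    omega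

theorem poly_forest3 :
    Poly (fun x : List α × List (α × α) × List (α × α) => forest x.1 x.2.1 x.2.2) := by
  refine Poly.iterLen (l := fun x : List α × List (α × α) × List (α × α) => x.2.2)
    (s := fun x => (exps x.1 x.2.2).map fun v => [v])
    (F := fun x Ps => growStep x.2.1 x.2.2 Ps) (by fun_prop) (by fun_prop) (by fun_prop)
    (2 * Polynomial.X * ((2 * Polynomial.X + 1) * (Polynomial.X + 1) + 2) + 1) ?_
  rintro ⟨V, E, M⟩ k hk
  simp only at hk
  have hS : sz (V, E, M) = sz V + (sz E + sz M + 1) + 1 := by simp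
  obtain ⟨S, hS'⟩ : ∃ S, S = sz (V, E, M) := ⟨_, rfl⟩
  rw [← hS'] at hS ⊢
  have h1 := (bd_forest V E M k (S := S) (by omega) (by omega)).sz_le
  have h2 := length_lt_sz M
  simp only at h1 ⊢
  refine h1.trans ?_
  simp only [Polynomial.eval_add, Polynomial.eval_mul, Polynomial.eval_X, Polynomial.eval_ofNat,
    Polynomial.eval_one]
  have h3 : S + k ≤ 2 * S := by omega
  have h4 : 1 + 2 * k ≤ 2 * S + 1 := by omega
  gcongr

@[fun_prop]
theorem poly_forest {V : γ → List α} {E M : γ → List (α × α)} (hV : Poly V) (hE : Poly E)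
    (hM : Poly M) : Poly (fun x => forest (V x) (E x) (M x)) :=
  poly_forest3.comp (f := fun x => (V x, E x, M x)) (by fun_prop)

end

end TA11

section
variable {α : Type} [DecidableEq α] {γ : Type} [TEnc γ] [TEnc α] {Vf : γ → List α}
  {Ef Mf : γ → List (α × α)}

@[fun_prop]
theorem poly_stepM (hV : Poly Vf) (hE : Poly Ef) (hM : Poly Mf) :
    Poly (fun a => stepM (Vf a) (Ef a) (Mf a)) := by
  unfold stepM
  fun_prop

end

end Pool.Agent.H671R2.SF
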