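import Pool.Agent.H671R2.SF.TA11

/-!
# Running time of the matching algorithm
-/

set_option autoImplicit false

namespace Pool.Agent.H671R2.SF

open Pool.Agent.NPC

namespace TA12

section bounds
variable {α : Type} [TEnc α] {B : ℕ}

/-- bound for the sizes of the vertices -/
def VB (B : ℕ) (L : List α) : Prop := ∀ v ∈ L, sz v ≤ B

/-- bound for the sizes of the end points -/
def EB' (B : ℕ) (M : List (α × α)) : Prop := ∀ e ∈ M, sz e.1 ≤ B ∧ sz e.2 ≤ B

theorem VB.sz_le {L : List α} {n : ℕ} (h : VB B L) (hn : L.length ≤ n) :
    sz L ≤ n * (B + 1) + 1 := by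
  refine (sz_le_length_mul L B h).trans ?_
  gcongr

theorem EB'.sz_le {M : List (α × α)} {n : ℕ} (h : EB' B M) (hn : M.length ≤ n) :
    sz M ≤ n * (2 * B + 2) + 1 := by
  refine (sz_le_length_mul M (2 * B + 1) fun e he => ?_).trans ?_
  · have h1 := h e he
    have h2 : sz e = sz e.1 + sz e.2 + 1 := sz_pair e.1 e.2
    omega
  · rw [show 2 * B + 1 + 1 = 2 * B + 2 by ring]
    gcongr

theorem VB.of_sz {L : List α} (h : sz L ≤ B) : VB B L := fun v hv => by
  have := sz_le_of_mem hv
  omega

theorem EB'.of_sz {M : List (α × α)} (h : sz M ≤ B) : EB' B M := fun e he => by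
  have := TA11.sz_ends he
  omega

theorem VB.append {L L' : List α} (h : VB B L) (h' : VB B L') : VB B (L ++ L') := fun v hv => by
  rcases List.mem_append.1 hv with hv | hv
  · exact h v hv
  · exact h' v hv

theorem VB.reverse {L : List α} (h : VB B L) : VB B L.reverse := fun v hv =>
  h v (List.mem_reverse.1 hv)

theorem VB.tail {L : List α} (h : VB B L) : VB B L.tail := fun v hv => h v (List.mem_of_mem_tail hv)

theorem EB'.append {L L' : List (α × α)} (h : EB' B L) (h' : EB' B L') : EB' B (L ++ L') :=
  fun v hv => by
  rcases List.mem_append.1 hv with hv | hv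
  · exact h v hv
  · exact h' v hv

theorem EB'.both {M : List (α × α)} (h : EB' B M) : EB' B (both M) := by
  unfold SF.both
  refine h.append fun e he => ?_
  obtain ⟨f, hf, rfl⟩ := List.mem_map.1 he
  exact ⟨(h f hf).2, (h f hf).1⟩

theorem VB.pairUp : ∀ {L : List α}, VB B L → EB' B (pairUp L)
  | [], _ => by intro e he; simp [SF.pairUp] at he
  | [a], _ => by intro e he; simp [SF.pairUp] at he
  | a :: b :: t, h => by
    intro e he
    rw [SF.pairUp, List.mem_cons] at he
    rcases he with rfl | he
    · exact ⟨h a (by simp), h b (by simp)⟩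
    · exact VB.pairUp (L := t) (fun v hv => h v (by simp [hv])) e he

omit [TEnc α] in
theorem pairUp_length : ∀ (L : List α), (pairUp L).length ≤ L.length
  | [] => by simp [pairUp]
  | [a] => by simp [pairUp]
  | a :: b :: t => by
    have := pairUp_length t
    simp only [pairUp, List.length_cons]
    omega

theorem VB.hd1 {L : List α} (h : VB B L) : VB B (hd1 L) := by
  unfold SF.hd1
  cases hx : L.head? with
  | none => intro v hv; simp at hv
  | some x =>
    intro v hv
    simp only [Option.elim_some, List.mem_singleton] at hv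
    subst hv
    exact h _ (List.mem_of_head? hx)

omit [TEnc α] in
theorem hd1_length (L : List α) : (hd1 L).length ≤ 1 := by
  unfold SF.hd1
  cases L.head? <;> simp

variable [DecidableEq α]

theorem EB'.away {L : List α} {M : List (α × α)} (h : EB' B M) : EB' B (away L M) := fun e he =>
  h e (List.mem_of_mem_filter he)

omit [TEnc α] in
theorem away_le (L : List α) (M : List (α × α)) : (away L M).length ≤ M.length :=
  List.length_filter_le _ _

theorem EB'.relink {L : List α} {M : List (α × α)} (h : EB' B M) (hL : VB B L) :
    EB' B (relink L M) := (h.away).append hL.pairUp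

omit [TEnc α] in
theorem relink_le (L : List α) (M : List (α × α)) :
    (relink L M).length ≤ M.length + L.length := by
  unfold relink
  rw [List.length_append]
  have := away_le L M
  have := pairUp_length L
  omega

theorem VB.filter {L : List α} (h : VB B L) (p : α → Bool) : VB B (L.filter p) := fun v hv =>
  h v (List.mem_of_mem_filter hv)

theorem VB.blos {p q : List α} (hp : VB B p) (hq : VB B q) : VB B (blos p q) := by
  unfold SF.blos
  exact (hp.filter _).hd1.append ((hp.filter _).reverse.append (hq.filter _))

omit [TEnc α] in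
theorem blos_le (p q : List α) : (blos p q).length ≤ 1 + (p.length + q.length) := by
  unfold blos
  simp only [List.length_append, List.length_reverse]
  have h1 := hd1_length (comm p q)
  have h2 : (only p q).length ≤ p.length := List.length_filter_le _ _
  have h3 : (only q p).length ≤ q.length := List.length_filter_le _ _
  omega

theorem VB.forest {V : List α} {E M : List (α × α)} (hV : VB B V) (hM : EB' B M) {p : List α}
    (hp : p ∈ forest V E M) : VB B p ∧ p.length ≤ 2 * M.length + 1 := by
  have h := TA11.bd_iter (B := B) (n := V.length) (m := 1) (Ps := (exps V M).map fun v => [v]) E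
    (M := M) hM ?_ M.length
  · obtain ⟨h1, h2⟩ := h.2 p hp
    exact ⟨h2, by omega⟩
  · refine ⟨?_, fun p hp => ?_⟩
    · rw [List.length_map]
      exact List.length_filter_le _ _
    · obtain ⟨v, hv, rfl⟩ := List.mem_map.1 hp
      refine ⟨by simp, fun w hw => ?_⟩
      rw [List.mem_singleton] at hw
      subst hw
      exact hV _ (List.mem_of_mem_filter hv)

/-- bounds for the result of one step -/
theorem stepM_bd {V : List α} {E M : List (α × α)} (hV : VB B V) (hM : EB' B M) :
    (∀ N, stepM V E M = Sum.inl (some N) → EB' B N ∧ N.length ≤ 5 * M.length + 2) ∧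
    ∀ x, stepM V E M = Sum.inr x → VB B x.1 ∧ x.1.length ≤ 4 * M.length + 3 ∧ EB' B x.2 := by
  unfold stepM
  cases hx : ((forest V E M ×ˢ forest V E M).filter fun x => hh E x.1 x.2).head? with
  | none => simp
  | some x =>
    have h1 := List.mem_of_mem_filter (List.mem_of_head? hx)
    rw [List.mem_product] at h1
    obtain ⟨h2, h3⟩ := h1
    obtain ⟨p1, p2⟩ := VB.forest hV hM h2
    obtain ⟨q1, q2⟩ := VB.forest hV hM h3
    simp only [Option.elim_some]
    split_ifs with hc
    · refine ⟨fun N hN => ?_, fun y hy => by simp at hy⟩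
      simp only [Sum.inl.injEq, Option.some.injEq] at hN
      subst hN
      refine ⟨hM.relink (p1.reverse.append q1), (relink_le _ _).trans ?_⟩
      simp only [List.length_append, List.length_reverse]
      omega
    · refine ⟨fun N hN => by simp at hN, fun y hy => ?_⟩
      simp only [Sum.inr.injEq] at hy
      subst hy
      refine ⟨p1.blos q1, (blos_le _ _).trans ?_, ?_⟩
      · omega
      · exact (hM.relink (p1.filter _).reverse).away

theorem VB.conV {C V : List α} (hV : VB B V) : VB B (conV C V) := hV.filter _

theorem EB'.conE {C : List α} {E : List (α × α)} (hC : VB B C) (hE : EB' B E) :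
    EB' B (conE C E) := by
  have hpi : ∀ v, sz v ≤ B → sz (piC C v) ≤ B := by
    intro v hv
    unfold piC
    split_ifs with h
    · cases hx : C.head? with
      | none => simpa using hv
      | some x => simpa using hC x (List.mem_of_head? hx)
    · exact hv
  intro e he
  obtain ⟨f, hf, rfl⟩ := List.mem_map.1 (List.mem_of_mem_filter he)
  exact ⟨hpi _ (hE f hf).1, hpi _ (hE f hf).2⟩

omit [TEnc α] in
theorem conE_le (C : List α) (E : List (α × α)) : (conE C E).length ≤ E.length := by
  unfold conE
  refine (List.length_filter_le _ _).trans ?_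
  rw [List.length_map]

omit [DecidableEq α] in
theorem VB.rot {C : List α} (hC : VB B C) (i : ℕ) : VB B (rot C i) := by
  intro v hv
  unfold SF.rot at hv
  rw [List.mem_flatMap] at hv
  obtain ⟨j, -, hj⟩ := hv
  cases hx : C[(i + j) % C.length]? with
  | none => rw [hx] at hj; simp at hj
  | some x =>
    rw [hx] at hj
    simp only [Option.elim_some, List.mem_singleton] at hj
    subst hj
    exact hC _ (List.mem_of_getElem? hx)

omit [DecidableEq α] [TEnc α] in
theorem rot_le (C : List α) (i : ℕ) : (rot C i).length ≤ C.length := by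
  unfold rot
  rw [List.length_flatMap]
  refine (List.sum_le_card_nsmul _ 1 ?_).trans ?_
  · intro x hx
    rw [List.mem_map] at hx
    obtain ⟨j, -, rfl⟩ := hx
    cases C[(i + j) % C.length]? <;> simp
  · simp

theorem liftM_bd {E N : List (α × α)} {C : List α} (hC : VB B C) (hN : EB' B N) :
    EB' B (liftM E C N) ∧ (liftM E C N).length ≤ N.length + (C.length + 1) := by
  unfold liftM
  cases hx : ((both N).filter fun e => decide (C.head? = some e.1)).head? with
  | none =>
    simp only [Option.elim_none]
    refine ⟨hN.append hC.tail.pairUp, ?_⟩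
    rw [List.length_append]
    have h1 := pairUp_length C.tail
    rw [List.length_tail] at h1
    omega
  | some e =>
    have he := hN.both e (List.mem_of_mem_filter (List.mem_of_head? hx))
    simp only [Option.elim_some]
    cases hr : (rots E C e.2).head? with
    | none =>
      simp only [Option.elim_none]
      exact ⟨hN, by omega⟩
    | some R =>
      have hR := List.mem_of_mem_filter (List.mem_of_head? hr)
      obtain ⟨i, -, rfl⟩ := List.mem_map.1 hR
      have h1 := hC.rot i
      have h2 := rot_le C i
      simp only [Option.elim_some]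
      constructor
      · refine (hN.away.append ?_).append h1.tail.pairUp
        cases hu : (rot C i).head? with
        | none => intro f hf; simp at hf
        | some u =>
          intro f hf
          simp only [Option.elim_some, List.mem_singleton] at hf
          subst hf
          exact ⟨h1 u (List.mem_of_head? hu), he.2⟩
      · simp only [List.length_append]
        have h3 := away_le (hd1 C) N
        have h4 := pairUp_length (rot C i).tail
        rw [List.length_tail] at h4
        have h5 : (((rot C i).head?).elim [] fun u => [(u, e.2)]).length ≤ 1 := by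
          cases (rot C i).head? <;> simp
        omega

end bounds

section poly
variable {α : Type} [DecidableEq α] [TEnc α] {γ : Type} [TEnc γ]

@[fun_prop]
theorem poly_piC {C : γ → List α} {v : γ → α} (hC : Poly C) (hv : Poly v) :
    Poly (fun x => piC (C x) (v x)) := by
  unfold piC; fun_prop

@[fun_prop]
theorem poly_conV {C V : γ → List α} (hC : Poly C) (hV : Poly V) :
    Poly (fun x => conV (C x) (V x)) := by
  unfold conV; fun_prop

@[fun_prop]
theorem poly_conE {C : γ → List α} {E : γ → List (α × α)} (hC : Poly C) (hE : Poly E) :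
    Poly (fun x => conE (C x) (E x)) := by
  unfold conE; fun_prop

omit [DecidableEq α] in
@[fun_prop]
theorem poly_rangeLen {β : Type} [TEnc β] {C : γ → List β} (hC : Poly C) :
    Poly (fun x => List.range (C x).length) := (UPoly.length hC).range

omit [DecidableEq α] in
@[fun_prop]
theorem poly_rot {C : γ → List α} {i : γ → ℕ} (hC : Poly C) (hi : Poly i) :
    Poly (fun x => rot (C x) (i x)) := by
  unfold rot; fun_prop

@[fun_prop]
theorem poly_rots {E : γ → List (α × α)} {C : γ → List α} {y : γ → α} (hE : Poly E) (hC : Poly C)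
    (hy : Poly y) : Poly (fun x => rots (E x) (C x) (y x)) := by
  unfold rots; fun_prop

@[fun_prop]
theorem poly_liftM {E N : γ → List (α × α)} {C : γ → List α} (hE : Poly E) (hC : Poly C)
    (hN : Poly N) : Poly (fun x => liftM (E x) (C x) (N x)) := by
  unfold liftM; fun_prop

end poly

section state
variable {α : Type} [DecidableEq α]

/-- states of the unrolled recursion: the stack of contractions, the current graph and matching, and the
result if it is known -/
abbrev St (α : Type) : Type :=
  List (List (α × α) × List α) × (List α × List (α × α) × List (α × α)) ×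
    Option (Option (List (α × α)))

/-- one step of the unrolled recursion -/
def step (x : St α) : St α :=
  x.2.2.elim
    (Sum.elim (fun r => (x.1, x.2.1, some r))
      (fun y => if y.2.length ≤ x.2.1.2.2.length then
        ((x.2.1.2.1, y.1) :: x.1, (conV y.1 x.2.1.1, conE y.1 x.2.1.2.1, y.2), none)
        else (x.1, x.2.1, some none)) (stepM x.2.1.1 x.2.1.2.1 x.2.1.2.2))
    (fun _ => x)

/-- undo the contractions -/
def fin (x : List (List (α × α) × List α) × Option (List (α × α))) : Option (List (α × α)) :=
  x.1.foldl (fun r y => r.map (liftM y.1 y.2)) x.2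

theorem step_some (s : List (List (α × α) × List α)) (g : List α × List (α × α) × List (α × α))
    (r : Option (List (α × α))) : step (s, g, some r) = (s, g, some r) := rfl

theorem iter_some (s : List (List (α × α) × List α)) (g : List α × List (α × α) × List (α × α))
    (r : Option (List (α × α))) (k : ℕ) : step^[k] (s, g, some r) = (s, g, some r) := by
  induction k with
  | zero => rfl
  | succ k ih => rw [Function.iterate_succ_apply, step_some, ih]

theorem improve_eq (k : ℕ) : ∀ (s : List (List (α × α) × List α)) (V : List α)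
    (E M : List (α × α)),
    fin ((step^[k] (s, (V, E, M), none)).1, (step^[k] (s, (V, E, M), none)).2.2.getD none) =
      fin (s, improve k V E M) := by
  induction k with
  | zero => intro s V E M; rfl
  | succ k ih =>
    intro s V E M
    rw [Function.iterate_succ_apply]
    unfold improve
    cases hx : stepM V E M with
    | inl r =>
      have e : step (s, (V, E, M), none) = (s, (V, E, M), some r) := by
        simp [step, hx]
      rw [e, iter_some]
      rfl
    | inr y =>
      simp only [Sum.elim_inr]
      by_cases hy : y.2.length ≤ M.length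
      · have e : step (s, (V, E, M), none) =
            ((E, y.1) :: s, (conV y.1 V, conE y.1 E, y.2), none) := by
          simp [step, hx, hy]
        rw [e, ih, if_pos hy]
        rfl
      · have e : step (s, (V, E, M), none) = (s, (V, E, M), some none) := by
          simp [step, hx, hy]
        rw [e, iter_some, if_neg hy]
        rfl

end state

section poly2
variable {α : Type} [DecidableEq α] [TEnc α] {γ : Type} [TEnc γ]

theorem poly_step : Poly (step : St α → St α) := by
  unfold step
  fun_prop

/-- invariant of the states -/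
structure Inv (S j : ℕ) (x : St α) : Prop where
  st_len : x.1.length ≤ j
  st : ∀ y ∈ x.1, y.1.length ≤ S ∧ EB' S y.1 ∧ y.2.length ≤ 4 * S + 3 ∧ VB S y.2
  V : x.2.1.1.length ≤ S ∧ VB S x.2.1.1
  E : x.2.1.2.1.length ≤ S ∧ EB' S x.2.1.2.1
  M : x.2.1.2.2.length ≤ S ∧ EB' S x.2.1.2.2
  r : ∀ N, x.2.2 = some (some N) → N.length ≤ 5 * S + 2 ∧ EB' S N

theorem Inv.step' {S j : ℕ} {x : St α} (h : Inv S j x) : Inv S (j + 1) (step x) := by
  obtain ⟨s, ⟨V, E, M⟩, r⟩ := x
  cases r with
  | some r => exact ⟨h.st_len.trans (by omega), h.st, h.V, h.E, h.M, h.r⟩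
  | none =>
    obtain ⟨hV1, hV2⟩ := h.V
    obtain ⟨hE1, hE2⟩ := h.E
    obtain ⟨hM1, hM2⟩ := h.M
    simp only at hV1 hV2 hE1 hE2 hM1 hM2
    obtain ⟨b1, b2⟩ := stepM_bd (E := E) hV2 hM2
    cases hx : stepM V E M with
    | inl r =>
      have e : TA12.step (s, (V, E, M), none) = (s, (V, E, M), some r) := by
        simp [TA12.step, hx]
      rw [e]
      refine ⟨h.st_len.trans (by omega), h.st, h.V, h.E, h.M, fun N hN => ?_⟩
      simp only [Option.some.injEq] at hN
      subst hN
      obtain ⟨c1, c2⟩ := b1 N hx
      exact ⟨c2.trans (by omega), c1⟩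
    | inr y =>
      obtain ⟨c1, c2, c3⟩ := b2 y hx
      by_cases hy : y.2.length ≤ M.length
      · have e : TA12.step (s, (V, E, M), none) =
            ((E, y.1) :: s, (conV y.1 V, conE y.1 E, y.2), none) := by
          simp [TA12.step, hx, hy]
        rw [e]
        have h1 := h.st_len
        simp only at h1
        refine ⟨by simpa using h1, fun z hz => ?_, ⟨?_, hV2.conV⟩, ⟨?_, EB'.conE c1 hE2⟩,
          ⟨hy.trans hM1, c3⟩, fun N hN => by simp at hN⟩
        · rcases List.mem_cons.1 hz with rfl | hz
          · exact ⟨hE1, hE2, c2.trans (by omega), c1⟩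
          · exact h.st z hz
        · exact (List.length_filter_le _ _).trans hV1
        · exact (conE_le _ _).trans hE1
      · have e : TA12.step (s, (V, E, M), none) = (s, (V, E, M), some none) := by
          simp [TA12.step, hx, hy]
        rw [e]
        exact ⟨h.st_len.trans (by omega), h.st, h.V, h.E, h.M, fun N hN => by simp at hN⟩

theorem Inv.iter {S j : ℕ} {x : St α} (h : Inv S j x) (k : ℕ) :
    Inv S (j + k) (TA12.step^[k] x) := by
  induction k with
  | zero => exact h
  | succ k ih => rw [Function.iterate_succ_apply']; exact ih.step'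

theorem Inv.sz_le {S j : ℕ} {x : St α} (h : Inv S j x) :
    sz x ≤ (j * ((S * (2 * S + 2) + 1) + ((4 * S + 3) * (S + 1) + 1) + 1 + 1) + 1) +
      ((S * (S + 1) + 1) + ((S * (2 * S + 2) + 1) + (S * (2 * S + 2) + 1) + 1) + 1) +
      ((5 * S + 2) * (2 * S + 2) + 1 + 2 + 2) + 2 := by
  obtain ⟨s, ⟨V, E, M⟩, r⟩ := x
  have e : sz (s, (V, E, M), r) = sz s + ((sz V + (sz E + sz M + 1) + 1) + sz r + 1) + 1 := by
    simp
  rw [e]
  have h1 : sz s ≤ j * ((S * (2 * S + 2) + 1) + ((4 * S + 3) * (S + 1) + 1) + 1 + 1) + 1 := by
    refine (sz_le_length_mul s ((S * (2 * S + 2) + 1) + ((4 * S + 3) * (S + 1) + 1) + 1)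
      fun y hy => ?_).trans ?_
    · obtain ⟨a1, a2, a3, a4⟩ := h.st y hy
      have e1 : sz y = sz y.1 + sz y.2 + 1 := sz_pair y.1 y.2
      have e2 := a2.sz_le a1
      have e3 := a4.sz_le a3
      omega
    · have := h.st_len
      simp only at this
      gcongr
  have h2 : sz V ≤ S * (S + 1) + 1 := VB.sz_le h.V.2 h.V.1
  have h3 : sz E ≤ S * (2 * S + 2) + 1 := EB'.sz_le h.E.2 h.E.1
  have h4 : sz M ≤ S * (2 * S + 2) + 1 := EB'.sz_le h.M.2 h.M.1
  have h5 : sz r ≤ (5 * S + 2) * (2 * S + 2) + 1 + 2 + 2 := by
    cases r with
    | none => simp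
    | some r =>
      cases r with
      | none => simp
      | some N =>
        obtain ⟨a1, a2⟩ := h.r N rfl
        have := a2.sz_le a1
        simp only [sz_some]
        omega
  omega

/-- the polynomial of the size bound -/
noncomputable def pInv : Polynomial ℕ :=
  open Polynomial in
  (X * ((X * (2 * X + 2) + 1) + ((4 * X + 3) * (X + 1) + 1) + 1 + 1) + 1) +
      ((X * (X + 1) + 1) + ((X * (2 * X + 2) + 1) + (X * (2 * X + 2) + 1) + 1) + 1) +
      ((5 * X + 2) * (2 * X + 2) + 1 + 2 + 2) + 2

theorem poly_iter : Poly (fun x : List ℕ × (List α × List (α × α) × List (α × α)) =>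
    step^[x.1.length] (([], x.2, none) : St α)) := by
  refine Poly.iterLen (l := fun x : List ℕ × (List α × List (α × α) × List (α × α)) => x.1)
    (s := fun x => (([], x.2, none) : St α)) (F := fun _ y => step y) (by fun_prop) (by fun_prop)
    (poly_step.comp (by fun_prop)) pInv ?_
  rintro ⟨l, V, E, M⟩ k hk
  simp only at hk
  obtain ⟨S, hS⟩ : ∃ S, S = sz (l, V, E, M) := ⟨_, rfl⟩
  rw [← hS]
  have hS' : S = sz l + (sz V + (sz E + sz M + 1) + 1) + 1 := by rw [hS]; simp
  have h0 : Inv S 0 (([], (V, E, M), none) : St α) := by
    have a1 := length_lt_sz V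
    have a2 := length_lt_sz E
    have a3 := length_lt_sz M
    refine ⟨by simp, by simp, ⟨?_, VB.of_sz ?_⟩, ⟨?_, EB'.of_sz ?_⟩, ⟨?_, EB'.of_sz ?_⟩,
      fun N hN => by simp at hN⟩ <;> simp only <;> omega
  have h1 := (h0.iter k).sz_le
  have h2 := length_lt_sz l
  refine h1.trans ?_
  unfold pInv
  simp only [Polynomial.eval_add, Polynomial.eval_mul, Polynomial.eval_X, Polynomial.eval_ofNat,
    Polynomial.eval_one]
  have h3 : 0 + k ≤ S := by omega
  gcongr

theorem poly_fin : Poly (fin : List (List (α × α) × List α) × Option (List (α × α)) →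
    Option (List (α × α))) := by
  refine Poly.foldl (l := fun x : List (List (α × α) × List α) × Option (List (α × α)) => x.1)
    (s := fun x => x.2) (F := fun _ r y => r.map (liftM y.1 y.2)) (by fun_prop) (by fun_prop)
    (by fun_prop) ((Polynomial.X + Polynomial.X * (Polynomial.X + 1)) *
      (2 * Polynomial.X + 2) + 1 + 2) ?_
  rintro ⟨s, r⟩ k hk
  obtain ⟨S, hS⟩ : ∃ S, S = sz (s, r) := ⟨_, rfl⟩
  rw [← hS]
  have hS' : S = sz s + sz r + 1 := by rw [hS]; simp
  simp only at hk ⊢
  have hr : ∀ N, r = some N → N.length ≤ S ∧ EB' S N := by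
    intro N hN
    subst hN
    have a1 := length_lt_sz N
    have a2 : sz (some N) = sz N + 2 := sz_some N
    exact ⟨by omega, EB'.of_sz (by omega)⟩
  have hs : ∀ y ∈ s, y.2.length ≤ S ∧ VB S y.2 := by
    intro y hy
    have a1 := sz_le_of_mem hy
    have a2 : sz y = sz y.1 + sz y.2 + 1 := sz_pair y.1 y.2
    have a3 := length_lt_sz y.2
    exact ⟨by omega, VB.of_sz (by omega)⟩
  have key : ∀ (t : List (List (α × α) × List α)) (r : Option (List (α × α))) (n : ℕ),
      (∀ y ∈ t, y.2.length ≤ S ∧ VB S y.2) → (∀ N, r = some N → N.length ≤ n ∧ EB' S N) →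
      ∀ N, t.foldl (fun r y => r.map (liftM y.1 y.2)) r = some N →
        N.length ≤ n + t.length * (S + 1) ∧ EB' S N := by
    intro t
    induction t with
    | nil => intro r n _ h N hN; simpa using h N hN
    | cons y t ih =>
      intro r n ht h N hN
      rw [List.foldl_cons] at hN
      have := ih (r.map (liftM y.1 y.2)) (n + (S + 1)) (fun z hz => ht z (by simp [hz]))
        (fun N' hN' => ?_) N hN
      · refine ⟨this.1.trans ?_, this.2⟩
        rw [List.length_cons]
        apply le_of_eq
        ring
      · rw [Option.map_eq_some_iff] at hN'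
        obtain ⟨N0, h0, rfl⟩ := hN'
        obtain ⟨a1, a2⟩ := h N0 h0
        obtain ⟨c1, c2⟩ := ht y (by simp)
        obtain ⟨d1, d2⟩ := liftM_bd (E := y.1) c2 a2
        exact ⟨d2.trans (by omega), d1⟩
  have h2 := key (s.take k) r S (fun y hy => hs y (List.mem_of_mem_take hy)) hr
  have h3 := length_lt_sz s
  have h4 : (s.take k).length ≤ S := by
    rw [List.length_take]
    omega
  simp only [Polynomial.eval_add, Polynomial.eval_mul, Polynomial.eval_X, Polynomial.eval_ofNat,
    Polynomial.eval_one]
  cases hN : (s.take k).foldl (fun r y => r.map (liftM y.1 y.2)) r with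
  | none => simp
  | some N =>
    obtain ⟨a1, a2⟩ := h2 N hN
    have h5 : N.length ≤ S + S * (S + 1) := a1.trans (by gcongr)
    have h6 := a2.sz_le h5
    simp only [sz_some]
    omega

theorem poly_improve0 : Poly (fun x : List ℕ × (List α × List (α × α) × List (α × α)) =>
    improve x.1.length x.2.1 x.2.2.1 x.2.2.2) := by
  have h1 := poly_iter (α := α)
  have h2 : Poly (fun x : List ℕ × (List α × List (α × α) × List (α × α)) =>
      fin ((step^[x.1.length] (([], x.2, none) : St α)).1,
        (step^[x.1.length] (([], x.2, none) : St α)).2.2.getD none)) :=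
    poly_fin.comp (by fun_prop)
  refine h2.congr fun x => ?_
  obtain ⟨l, V, E, M⟩ := x
  simp only
  rw [improve_eq]
  rfl

theorem improve_bd (k : ℕ) : ∀ {B : ℕ} {V : List α} {E M : List (α × α)}, VB B V → EB' B M →
    ∀ N, improve k V E M = some N → EB' B N := by
  induction k with
  | zero => intro B V E M _ _ N hN; simp [improve] at hN
  | succ k ih =>
    intro B V E M hV hM N hN
    obtain ⟨b1, b2⟩ := stepM_bd (E := E) hV hM
    unfold improve at hN
    cases hx : stepM V E M with
    | inl r =>
      rw [hx] at hN
      simp only [Sum.elim_inl] at hN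
      subst hN
      exact (b1 N hx).1
    | inr y =>
      rw [hx] at hN
      simp only [Sum.elim_inr] at hN
      obtain ⟨c1, c2, c3⟩ := b2 y hx
      split_ifs at hN with hy
      rw [Option.map_eq_some_iff] at hN
      obtain ⟨N0, h0, rfl⟩ := hN
      exact (liftM_bd c1 (ih hV.conV c3 N0 h0)).1

end poly2

end TA12

open TA12

section
variable {α : Type} [DecidableEq α] {γ : Type} [TEnc γ] [TEnc α] {Vf : γ → List α}
  {Ef Mf : γ → List (α × α)}

theorem poly_improve {k : γ → ℕ} (hk : UPoly k) (hV : Poly Vf) (hE : Poly Ef) (hM : Poly Mf) :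
    Poly (fun a => improve (k a) (Vf a) (Ef a) (Mf a)) := by
  have h := (poly_improve0 (α := α)).comp
    (f := fun a => (List.range (k a), Vf a, Ef a, Mf a)) (Poly.pair hk.range (by fun_prop))
  refine h.congr fun a => ?_
  simp

theorem poly_maxM0 : Poly (fun x : List α × List (α × α) => maxM x.1 x.2) := by
  refine Poly.iterLen (l := fun x : List α × List (α × α) => x.1) (s := fun _ => [])
    (F := fun x M => (improve (x.1.length + 1) x.1 x.2 M).elim M
      fun N => if N.length ≤ x.1.length then N else M) (by fun_prop) (by fun_prop) ?_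
    (Polynomial.X * (2 * Polynomial.X + 2) + 1) ?_
  · have h1 : Poly (fun p : (List α × List (α × α)) × List (α × α) =>
        improve (p.1.1.length + 1) p.1.1 p.1.2 p.2) := by
      refine poly_improve ?_ (by fun_prop) (by fun_prop) (by fun_prop)
      exact (UPoly.length (Poly.fst (Poly.fst Poly.id))).add (UPoly.const 1)
    fun_prop
  · rintro ⟨V, E⟩ k hk
    obtain ⟨S, hS⟩ : ∃ S, S = sz (V, E) := ⟨_, rfl⟩
    rw [← hS]
    have hS' : S = sz V + sz E + 1 := by rw [hS]; simp
    simp only at hk ⊢
    have h1 : ∀ k, ((fun M => (improve (V.length + 1) V E M).elim M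
        fun N => if N.length ≤ V.length then N else M)^[k] []).length ≤ V.length ∧
        EB' S ((fun M => (improve (V.length + 1) V E M).elim M
        fun N => if N.length ≤ V.length then N else M)^[k] []) := by
      intro k
      induction k with
      | zero => exact ⟨by simp, fun e he => by simp at he⟩
      | succ k ih =>
        rw [Function.iterate_succ_apply']
        set M := ((fun M => (improve (V.length + 1) V E M).elim M
          fun N => if N.length ≤ V.length then N else M)^[k] []) with hMdef
        cases hN : improve (V.length + 1) V E M with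
        | none => simpa [hN] using ih
        | some N =>
          simp only [Option.elim_some]
          split_ifs with hl
          · exact ⟨hl, improve_bd _ (VB.of_sz (by omega)) ih.2 N hN⟩
          · exact ih
    obtain ⟨a1, a2⟩ := h1 k
    have a3 := length_lt_sz V
    have a4 := a2.sz_le (n := S) (by omega)
    simp only [Polynomial.eval_add, Polynomial.eval_mul, Polynomial.eval_X,
      Polynomial.eval_ofNat, Polynomial.eval_one]
    exact a4

@[fun_prop]
theorem poly_maxM (hV : Poly Vf) (hE : Poly Ef) : Poly (fun a => maxM (Vf a) (Ef a)) :=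
  poly_maxM0.comp (f := fun a => (Vf a, Ef a)) (by fun_prop)

end

end Pool.Agent.H671R2.SF
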