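import Pool.Agent.H671R2.SF.TA14

/-!
# From matchings of the gadget graph to degree constrained subgraphs
-/

set_option autoImplicit false

namespace Pool.Agent.H671R2.SF

section
variable {α : Type} [DecidableEq α] {V : List α} {E M N : List (α × α)}

namespace A13

open A14

/-- two edges of a matching with a common end point are equal -/
theorem ends_inj {β : Type} {N : List (β × β)} (h : (ends N).Nodup) {x y : β × β} (hx : x ∈ N)
    (hy : y ∈ N) {v : β} (hv : v = x.1 ∨ v = x.2) (hv' : v = y.1 ∨ v = y.2) : x = y := by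
  by_contra hne
  unfold ends at h
  rw [List.nodup_flatMap] at h
  have hs : Std.Symm (Function.onFun List.Disjoint fun e : β × β => [e.1, e.2]) :=
    ⟨fun a b hab => List.disjoint_symm hab⟩
  have h2 := List.Pairwise.forall h.2 hx hy hne
  simp only [Function.onFun, List.disjoint_left, List.mem_cons, List.not_mem_nil, or_false] at h2
  exact h2 hv hv'

theorem ends_ne {β : Type} {N : List (β × β)} (h : (ends N).Nodup) {x : β × β} (hx : x ∈ N) :
    x.1 ≠ x.2 := by
  unfold ends at h
  rw [List.nodup_flatMap] at h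
  have := h.1 x hx
  simpa using this

theorem nodup_of_ends {β : Type} {N : List (β × β)} (h : (ends N).Nodup) : N.Nodup := by
  unfold ends at h
  rw [List.nodup_flatMap] at h
  refine h.2.imp ?_
  intro x y hxy hne
  subst hne
  simp only [Function.onFun, List.disjoint_left, List.mem_cons, List.not_mem_nil, or_false] at hxy
  exact hxy (Or.inl rfl) (Or.inl rfl)

theorem mem_both {β : Type} {N : List (β × β)} {a b : β} :
    (a, b) ∈ both N ↔ (a, b) ∈ N ∨ (b, a) ∈ N := by
  unfold both
  simp only [List.mem_append, List.mem_map, Prod.mk.injEq, Prod.exists]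
  constructor
  · rintro (h | ⟨c, d, h, rfl, rfl⟩)
    · exact Or.inl h
    · exact Or.inr h
  · rintro (h | h)
    · exact Or.inl h
    · exact Or.inr ⟨b, a, h, rfl, rfl⟩

/-- the partner in a matching is unique -/
theorem both_inj {β : Type} {N : List (β × β)} (h : (ends N).Nodup) {a b c : β}
    (h1 : (a, b) ∈ both N) (h2 : (a, c) ∈ both N) : b = c := by
  rw [mem_both] at h1 h2
  rcases h1 with h1 | h1 <;> rcases h2 with h2 | h2
  · have := ends_inj h h1 h2 (v := a) (Or.inl rfl) (Or.inl rfl)
    simp only [Prod.mk.injEq] at this; exact this.2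
  · have := ends_inj h h1 h2 (v := a) (Or.inl rfl) (Or.inr rfl)
    simp only [Prod.mk.injEq] at this
    exact absurd (this.1.symm.trans (this.1.trans rfl)) (by
      intro _
      exact ends_ne h h2 (show c = a from this.1.symm))
  · have := ends_inj h h1 h2 (v := a) (Or.inr rfl) (Or.inl rfl)
    simp only [Prod.mk.injEq] at this
    exact absurd (show b = a from this.1) (ends_ne h h1)
  · have := ends_inj h h1 h2 (v := a) (Or.inr rfl) (Or.inr rfl)
    simp only [Prod.mk.injEq] at this; exact this.1

theorem both_inj' {β : Type} {N : List (β × β)} (h : (ends N).Nodup) {a b c : β}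
    (h1 : (b, a) ∈ both N) (h2 : (c, a) ∈ both N) : b = c := by
  rw [mem_both] at h1 h2
  exact both_inj h (mem_both.2 h1.symm) (mem_both.2 h2.symm)

/-- the half-edges matched to copies are matched to copies of the right vertex -/
theorem copy_right {K : List (α × ℕ)} {N : List (GV α × GV α)}
    (hN : IsM (gV K E) (gE K E) N) {k : α × ℕ} {a b : α}
    (h : ((Sum.inl k : GV α), (Sum.inr (a, b) : GV α)) ∈ both N) : k ∈ K ∧ k.1 = a := by
  have h1 : ((Sum.inl k : GV α), (Sum.inr (a, b) : GV α)) ∈ gE K E ∨
      ((Sum.inr (a, b) : GV α), (Sum.inl k : GV α)) ∈ gE K E := by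
    rw [mem_both] at h
    rcases h with h | h
    · have := hN.1 _ h
      unfold adjB at this
      simpa using this
    · have := hN.1 _ h
      unfold adjB at this
      simp only [Bool.or_eq_true, decide_eq_true_eq] at this
      exact this.symm
  rcases h1 with h1 | h1
  · rw [mem_gE] at h1
    obtain ⟨e, he, (⟨h2, _⟩ | ⟨k', hk', (⟨h2, h3, h4⟩ | ⟨_, h2, h3, h4⟩)⟩)⟩ := h1
    · cases h2
    · have h5 := Sum.inl_injective h3
      have h6 := Sum.inr_injective h4
      simp only [Prod.mk.injEq] at h6
      subst h5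
      exact ⟨hk', h2.trans h6.1.symm⟩
    · have h5 := Sum.inl_injective h3
      have h6 := Sum.inr_injective h4
      simp only [Prod.mk.injEq] at h6
      subst h5
      exact ⟨hk', h2.trans h6.1.symm⟩
  · rw [mem_gE] at h1
    obtain ⟨e, he, (⟨_, h2⟩ | ⟨k', hk', (⟨_, h2, _⟩ | ⟨_, _, h2, _⟩)⟩)⟩ := h1
    · cases h2
    · cases h2
    · cases h2

theorem mem_pick {K : List (α × ℕ)} {N : List (GV α × GV α)} {e : α × α} :
    e ∈ pick K E N ↔ e ∈ E ∧
      (∃ k ∈ K, ((Sum.inl k : GV α), (Sum.inr (e.1, e.2) : GV α)) ∈ both N) ∧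
      (∃ k ∈ K, ((Sum.inl k : GV α), (Sum.inr (e.2, e.1) : GV α)) ∈ both N) := by
  have key : ∀ p : α × α, ((both N).any fun x => K.any fun k =>
      decide (x.1 = Sum.inl k) && decide (x.2 = Sum.inr p)) = true ↔
      ∃ k ∈ K, ((Sum.inl k : GV α), (Sum.inr p : GV α)) ∈ both N := by
    intro p
    simp only [List.any_eq_true, Bool.and_eq_true, decide_eq_true_eq]
    constructor
    · rintro ⟨x, hx, k, hk, h1, h2⟩
      refine ⟨k, hk, ?_⟩
      rw [← h1, ← h2]
      exact hx
    · rintro ⟨k, hk, h⟩
      exact ⟨_, h, k, hk, rfl, rfl⟩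
  unfold pick
  rw [List.mem_filter, Bool.and_eq_true, key, key]

end A13

open A13 A14

theorem pick_spec {K : List (α × ℕ)} (hE : E.Nodup) (hlf : LF E)
    (has : ∀ a b, (a, b) ∈ E → (b, a) ∉ E) (hK : K.Nodup) {N : List (GV α × GV α)}
    (hN : IsM (gV K E) (gE K E) N) :
    (pick K E N).Sublist E ∧ (∀ v, degX (pick K E N) v ≤ capK K v) ∧
      N.length ≤ E.length + (pick K E N).length := by
  have hsub : (pick K E N).Sublist E := List.filter_sublist
  have hpn : (pick K E N).Nodup := hE.sublist hsub
  refine ⟨hsub, ?_, ?_⟩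
  · intro v
    -- the copy of `v` matched to the half-edge of `e` at `v`
    have hch : ∀ e : α × α, ∃ k : α × ℕ, e ∈ pick K E N → (e.1 = v ∨ e.2 = v) →
        k ∈ K ∧ k.1 = v ∧ ∃ p : α × α, (p = (e.1, e.2) ∨ p = (e.2, e.1)) ∧ p.1 = v ∧
          ((Sum.inl k : GV α), (Sum.inr p : GV α)) ∈ both N := by
      intro e
      by_cases h : e ∈ pick K E N ∧ (e.1 = v ∨ e.2 = v)
      · obtain ⟨h1, h2⟩ := h
        obtain ⟨_, ⟨k, hk, h3⟩, ⟨k', hk', h4⟩⟩ := mem_pick.1 h1
        rcases h2 with h2 | h2
        · exact ⟨k, fun _ _ => ⟨hk, (copy_right hN h3).2.trans h2, _, Or.inl rfl, h2, h3⟩⟩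
        · exact ⟨k', fun _ _ => ⟨hk', (copy_right hN h4).2.trans h2, _, Or.inr rfl, h2, h4⟩⟩
      · exact ⟨(v, 0), fun h1 h2 => absurd ⟨h1, h2⟩ h⟩
    choose φ hφ using hch
    unfold degX capK
    have h1 : ((pick K E N).filter fun e => decide (e.1 = v) || decide (e.2 = v)).toFinset.card =
        ((pick K E N).filter fun e => decide (e.1 = v) || decide (e.2 = v)).length :=
      List.toFinset_card_of_nodup (hpn.filter _)
    have h2 : (K.filter fun k => decide (k.1 = v)).toFinset.card ≤
        (K.filter fun k => decide (k.1 = v)).length := List.toFinset_card_le _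
    rw [← h1]
    refine le_trans ?_ h2
    refine Finset.card_le_card_of_injOn φ ?_ ?_
    · intro e he
      simp only [List.coe_toFinset, Set.mem_ofPred_eq, List.mem_filter, Bool.or_eq_true,
        decide_eq_true_eq] at he ⊢
      obtain ⟨h3, h4, _⟩ := hφ e he.1 he.2
      exact ⟨h3, h4⟩
    · intro e he e' he' heq
      simp only [List.coe_toFinset, Set.mem_ofPred_eq, List.mem_filter, Bool.or_eq_true,
        decide_eq_true_eq] at he he'
      obtain ⟨_, _, p, hp, _, h5⟩ := hφ e he.1 he.2
      obtain ⟨_, _, p', hp', _, h5'⟩ := hφ e' he'.1 he'.2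
      rw [heq] at h5
      have h6 : p = p' := Sum.inr_injective (both_inj hN.2.1 h5 h5')
      by_contra hne
      obtain ⟨g1, g2, g3, g4⟩ := half_ne has (mem_pick.1 he.1).1 (mem_pick.1 he'.1).1 hne
      subst h6
      rcases hp with hp | hp <;> rcases hp' with hp' | hp'
      · exact g1 (hp.symm.trans hp')
      · exact g2 (hp.symm.trans hp')
      · exact g3 (hp.symm.trans hp')
      · exact g4 (hp.symm.trans hp')
  · -- counting
    have hNn := nodup_of_ends hN.2.1
    let P : α × α → GV α := fun e => Sum.inr (e.1, e.2)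
    let Q : α × α → GV α := fun e => Sum.inr (e.2, e.1)
    let S : α × α → Finset (GV α × GV α) := fun e =>
      N.toFinset.filter fun x => x.1 = P e ∨ x.2 = P e ∨ x.1 = Q e ∨ x.2 = Q e
    have hcov : N.toFinset ⊆ E.toFinset.biUnion S := by
      rintro ⟨p, q⟩ hx
      have hx' : (p, q) ∈ N := List.mem_toFinset.1 hx
      have h1 := hN.1 _ hx'
      unfold adjB at h1
      simp only [Bool.or_eq_true, decide_eq_true_eq, mem_gE] at h1
      rw [Finset.mem_biUnion]
      rcases h1 with ⟨e, he, h1⟩ | ⟨e, he, h1⟩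
      · refine ⟨e, List.mem_toFinset.2 he, Finset.mem_filter.2 ⟨hx, ?_⟩⟩
        rcases h1 with ⟨h2, _⟩ | ⟨k, _, ⟨_, _, h2⟩ | ⟨_, _, _, h2⟩⟩
        · exact Or.inl h2
        · exact Or.inr (Or.inl h2)
        · exact Or.inr (Or.inr (Or.inr h2))
      · refine ⟨e, List.mem_toFinset.2 he, Finset.mem_filter.2 ⟨hx, ?_⟩⟩
        rcases h1 with ⟨h2, _⟩ | ⟨k, _, ⟨_, _, h2⟩ | ⟨_, _, _, h2⟩⟩
        · exact Or.inr (Or.inl h2)
        · exact Or.inl h2
        · exact Or.inr (Or.inr (Or.inl h2))
    have hS : ∀ e ∈ E, (S e).card ≤ 1 + if e ∈ pick K E N then 1 else 0 := by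
      intro e he
      have hPQ : P e ≠ Q e := by
        intro h
        have := Sum.inr_injective h
        simp only [Prod.mk.injEq] at this
        exact hlf e he this.1
      have hone : ∀ v : GV α, (N.toFinset.filter fun x => x.1 = v ∨ x.2 = v).card ≤ 1 := by
        intro v
        rw [Finset.card_le_one]
        intro x hx y hy
        simp only [Finset.mem_filter, List.mem_toFinset] at hx hy
        exact ends_inj hN.2.1 hx.1 hy.1 (v := v) (hx.2.imp Eq.symm Eq.symm)
          (hy.2.imp Eq.symm Eq.symm)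
      by_cases hp : e ∈ pick K E N
      · rw [if_pos hp]
        have : S e ⊆ (N.toFinset.filter fun x => x.1 = P e ∨ x.2 = P e) ∪
            (N.toFinset.filter fun x => x.1 = Q e ∨ x.2 = Q e) := by
          intro x hx
          simp only [S, Finset.mem_filter, Finset.mem_union] at hx ⊢
          tauto
        calc (S e).card ≤ _ := Finset.card_le_card this
          _ ≤ _ := Finset.card_union_le _ _
          _ ≤ 1 + 1 := Nat.add_le_add (hone _) (hone _)
      · rw [if_neg hp, Nat.add_zero, Finset.card_le_one]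
        -- the half-edge `r` is matched to the other half-edge or to a copy
        have htyp : ∀ (r r' : GV α), (r = P e ∧ r' = Q e) ∨ (r = Q e ∧ r' = P e) →
            ∀ u, (u, r) ∈ both N → u = r' ∨ ∃ k ∈ K, u = Sum.inl k := by
          intro r r' hr u hu
          have hadj : (u, r) ∈ gE K E ∨ (r, u) ∈ gE K E := by
            rw [mem_both] at hu
            rcases hu with hu | hu
            · have := hN.1 _ hu
              unfold adjB at this
              simpa using this
            · have := hN.1 _ hu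
              unfold adjB at this
              simp only [Bool.or_eq_true, decide_eq_true_eq] at this
              exact this.symm
          have hfin : ∀ e' ∈ E, ∀ g : GV α, (r = P e' ∧ g = Q e') ∨ (r = Q e' ∧ g = P e') →
              g = r' := by
            intro e' he' g hg
            by_cases hee : e = e'
            · subst hee
              rcases hr with ⟨h1, h2⟩ | ⟨h1, h2⟩ <;> rcases hg with ⟨h3, h4⟩ | ⟨h3, h4⟩
              · rw [h4, h2]
              · exact absurd (h1.symm.trans h3) hPQ
              · exact absurd (h3.symm.trans h1) hPQ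
              · rw [h4, h2]
            · exfalso
              obtain ⟨g1, g2, g3, g4⟩ := half_ne has he he' hee
              rcases hr with ⟨h1, h2⟩ | ⟨h1, h2⟩ <;> rcases hg with ⟨h3, h4⟩ | ⟨h3, h4⟩
              · exact g1 (Sum.inr_injective (h1.symm.trans h3))
              · exact g2 (Sum.inr_injective (h1.symm.trans h3))
              · exact g3 (Sum.inr_injective (h1.symm.trans h3))
              · exact g4 (Sum.inr_injective (h1.symm.trans h3))
          have hrr : ∀ k : α × ℕ, r ≠ Sum.inl k := by
            intro k hk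
            rcases hr with ⟨h1, _⟩ | ⟨h1, _⟩ <;> rw [h1] at hk <;> cases hk
          simp only [mem_gE] at hadj
          rcases hadj with ⟨e', he', h1⟩ | ⟨e', he', h1⟩
          · rcases h1 with ⟨h2, h3⟩ | ⟨k, hk, ⟨_, h2, _⟩ | ⟨_, _, h2, _⟩⟩
            · exact Or.inl (hfin e' he' u (Or.inr ⟨h3, h2⟩))
            · exact Or.inr ⟨k, hk, h2⟩
            · exact Or.inr ⟨k, hk, h2⟩
          · rcases h1 with ⟨h2, h3⟩ | ⟨k, hk, ⟨_, h2, _⟩ | ⟨_, _, h2, _⟩⟩
            · exact Or.inl (hfin e' he' u (Or.inl ⟨h2, h3⟩))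
            · exact absurd h2 (hrr k)
            · exact absurd h2 (hrr k)
        -- an edge of `N` which contains `v`
        have hpart : ∀ x ∈ N, ∀ v : GV α, (x.1 = v ∨ x.2 = v) → ∃ u, (u, v) ∈ both N ∧
            (u = x.1 ∨ u = x.2) := by
          intro x hx v hv
          rcases hv with hv | hv
          · exact ⟨x.2, mem_both.2 (Or.inr (by rw [← hv]; exact hx)), Or.inr rfl⟩
          · exact ⟨x.1, mem_both.2 (Or.inl (by rw [← hv]; exact hx)), Or.inl rfl⟩
        have hmix : ∀ x ∈ N, ∀ y ∈ N, (x.1 = P e ∨ x.2 = P e) → (y.1 = Q e ∨ y.2 = Q e) →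
            x = y := by
          intro x hx y hy hxP hyQ
          obtain ⟨u, hu, hux⟩ := hpart x hx _ hxP
          obtain ⟨w, hw, hwy⟩ := hpart y hy _ hyQ
          rcases htyp (P e) (Q e) (Or.inl ⟨rfl, rfl⟩) u hu with h1 | ⟨k, hk, h1⟩
          · subst h1
            exact ends_inj hN.2.1 hx hy (v := Q e) hux (hyQ.imp Eq.symm Eq.symm)
          · rcases htyp (Q e) (P e) (Or.inr ⟨rfl, rfl⟩) w hw with h2 | ⟨k', hk', h2⟩
            · subst h2
              exact ends_inj hN.2.1 hx hy (v := P e) (hxP.imp Eq.symm Eq.symm) hwy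
            · exfalso
              apply hp
              rw [mem_pick]
              subst h1 h2
              exact ⟨he, ⟨k, hk, hu⟩, ⟨k', hk', hw⟩⟩
        intro x hx y hy
        simp only [S, Finset.mem_filter, List.mem_toFinset] at hx hy
        obtain ⟨hx, hx'⟩ := hx
        obtain ⟨hy, hy'⟩ := hy
        have cx : (x.1 = P e ∨ x.2 = P e) ∨ (x.1 = Q e ∨ x.2 = Q e) := by tauto
        have cy : (y.1 = P e ∨ y.2 = P e) ∨ (y.1 = Q e ∨ y.2 = Q e) := by tauto
        rcases cx with cx | cx <;> rcases cy with cy | cy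
        · exact ends_inj hN.2.1 hx hy (v := P e) (cx.imp Eq.symm Eq.symm) (cy.imp Eq.symm Eq.symm)
        · exact hmix x hx y hy cx cy
        · exact (hmix y hy x hx cy cx).symm
        · exact ends_inj hN.2.1 hx hy (v := Q e) (cx.imp Eq.symm Eq.symm) (cy.imp Eq.symm Eq.symm)
    have hEc : E.toFinset.card = E.length := List.toFinset_card_of_nodup hE
    have hpc : (pick K E N).toFinset.card = (pick K E N).length :=
      List.toFinset_card_of_nodup hpn
    have hpe : (E.toFinset.filter fun e => e ∈ pick K E N) = (pick K E N).toFinset := by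
      ext e
      simp only [Finset.mem_filter, List.mem_toFinset]
      exact ⟨fun h => h.2, fun h => ⟨(mem_pick.1 h).1, h⟩⟩
    calc N.length = N.toFinset.card := (List.toFinset_card_of_nodup hNn).symm
      _ ≤ (E.toFinset.biUnion S).card := Finset.card_le_card hcov
      _ ≤ ∑ e ∈ E.toFinset, (S e).card := Finset.card_biUnion_le
      _ ≤ ∑ e ∈ E.toFinset, (1 + if e ∈ pick K E N then 1 else 0) :=
        Finset.sum_le_sum fun e he => hS e (List.mem_toFinset.1 he)
      _ = E.toFinset.card + (E.toFinset.filter fun e => e ∈ pick K E N).card := by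
        rw [Finset.sum_add_distrib, Finset.card_filter]
        simp
      _ = _ := by rw [hEc, hpe, hpc]

end

end Pool.Agent.H671R2.SF
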