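import Pool.Agent.H671R2.SF.MDefs

/-!
# The gadget graph, and matchings of it from degree constrained subgraphs
-/

set_option autoImplicit false

namespace Pool.Agent.H671R2.SF

section
variable {α : Type} [DecidableEq α] {V : List α} {E M N : List (α × α)}

namespace A14

theorem mem_gE {K : List (α × ℕ)} {E : List (α × α)} {p q : GV α} : (p, q) ∈ gE K E ↔
    ∃ e ∈ E, (p = Sum.inr (e.1, e.2) ∧ q = Sum.inr (e.2, e.1)) ∨
      ∃ k ∈ K, (k.1 = e.1 ∧ p = Sum.inl k ∧ q = Sum.inr (e.1, e.2)) ∨
        (k.1 ≠ e.1 ∧ k.1 = e.2 ∧ p = Sum.inl k ∧ q = Sum.inr (e.2, e.1)) := by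
  unfold gE
  simp only [List.mem_flatMap, List.mem_cons, Prod.mk.injEq]
  refine exists_congr fun e => and_congr_right fun _ => or_congr Iff.rfl ?_
  refine exists_congr fun k => and_congr_right fun _ => ?_
  by_cases h1 : k.1 = e.1
  · simp [h1]
  · by_cases h2 : k.1 = e.2
    · have h3 : ¬ e.2 = e.1 := fun h => h1 (h2.trans h)
      simp [h2, h3]
    · simp [h1, h2]

theorem mem_gV {K : List (α × ℕ)} {E : List (α × α)} {p : GV α} : p ∈ gV K E ↔
    (∃ k ∈ K, p = Sum.inl k) ∨ ∃ e ∈ E, p = Sum.inr (e.1, e.2) ∨ p = Sum.inr (e.2, e.1) := by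
  unfold gV
  simp only [List.mem_append, List.mem_map, List.mem_flatMap, List.mem_cons, List.not_mem_nil,
    or_false]
  constructor
  · rintro (⟨k, hk, rfl⟩ | h)
    · exact Or.inl ⟨k, hk, rfl⟩
    · exact Or.inr h
  · rintro (⟨k, hk, rfl⟩ | h)
    · exact Or.inl ⟨k, hk, rfl⟩
    · exact Or.inr h

/-- different edges have different half-edges -/
theorem half_ne (has : ∀ a b, (a, b) ∈ E → (b, a) ∉ E) {e e' : α × α} (he : e ∈ E) (he' : e' ∈ E)
    (hne : e ≠ e') : (e.1, e.2) ≠ (e'.1, e'.2) ∧ (e.1, e.2) ≠ (e'.2, e'.1) ∧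
      (e.2, e.1) ≠ (e'.1, e'.2) ∧ (e.2, e.1) ≠ (e'.2, e'.1) := by
  obtain ⟨a, b⟩ := e
  obtain ⟨c, d⟩ := e'
  simp only [ne_eq, Prod.mk.injEq] at *
  refine ⟨hne, ?_, ?_, ?_⟩
  · rintro ⟨rfl, rfl⟩; exact has _ _ he he'
  · rintro ⟨rfl, rfl⟩; exact has _ _ he he'
  · rintro ⟨rfl, rfl⟩; exact hne ⟨rfl, rfl⟩

/-- choice of different copies for the edges of `Y` at every vertex -/
theorem exists_copies {K : List (α × ℕ)} (hK : K.Nodup) {Y : List (α × α)}
    (hd : ∀ v, degX Y v ≤ capK K v) : ∃ c : α → (α × α) → (α × ℕ),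
      (∀ v, ∀ e ∈ Y, (e.1 = v ∨ e.2 = v) → c v e ∈ K ∧ (c v e).1 = v) ∧
      ∀ v, ∀ e ∈ Y, ∀ e' ∈ Y, (e.1 = v ∨ e.2 = v) → (e'.1 = v ∨ e'.2 = v) → c v e = c v e' →
        e = e' := by
  let H : α → List (α × α) := fun v => Y.filter fun e => decide (e.1 = v) || decide (e.2 = v)
  let C : α → List (α × ℕ) := fun v => K.filter fun k => decide (k.1 = v)
  have hHC : ∀ v, (H v).length ≤ (C v).length := hd
  have hmem : ∀ v, ∀ e ∈ Y, (e.1 = v ∨ e.2 = v) → e ∈ H v := by
    intro v e he hv
    simp only [H, List.mem_filter, Bool.or_eq_true, decide_eq_true_eq]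
    exact ⟨he, hv⟩
  have hlt : ∀ v, ∀ e ∈ Y, (e.1 = v ∨ e.2 = v) → (H v).idxOf e < (C v).length := by
    intro v e he hv
    exact (List.idxOf_lt_length_iff.2 (hmem v e he hv)).trans_le (hHC v)
  refine ⟨fun v e => (C v).getD ((H v).idxOf e) (v, 0), ?_, ?_⟩
  · intro v e he hv
    have h1 := hlt v e he hv
    simp only [List.getD_eq_getElem _ _ h1]
    have h2 := List.getElem_mem h1
    simp only [C, List.mem_filter, decide_eq_true_eq] at h2
    exact h2
  · intro v e he e' he' hv hv' heq
    have h1 := hlt v e he hv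
    have h1' := hlt v e' he' hv'
    simp only [List.getD_eq_getElem _ _ h1, List.getD_eq_getElem _ _ h1'] at heq
    have hnd : (C v).Nodup := hK.filter _
    have h2 := (List.Nodup.getElem_inj_iff hnd).1 heq
    exact List.idxOf_inj (hmem v e he hv) |>.1 h2

end A14

open A14

theorem gadget_nodup {K : List (α × ℕ)} (hE : E.Nodup) (hlf : LF E)
    (has : ∀ a b, (a, b) ∈ E → (b, a) ∉ E) (hK : K.Nodup) :
    (gV K E).Nodup ∧ LF (gE K E) := by
  constructor
  · unfold gV
    rw [List.nodup_append]
    refine ⟨hK.map Sum.inl_injective, ?_, ?_⟩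
    · rw [List.nodup_flatMap]
      constructor
      · intro e he
        have := hlf e he
        simp only [List.nodup_cons, List.mem_singleton, Sum.inr.injEq, Prod.mk.injEq,
          List.not_mem_nil, not_false_eq_true, List.nodup_nil, and_true]
        exact fun h => this h.1
      · refine List.Pairwise.imp_of_mem ?_ hE
        intro e e' he he' hne
        obtain ⟨h1, h2, h3, h4⟩ := half_ne has he he' hne
        simp only [Function.onFun, List.disjoint_left, List.mem_cons, List.not_mem_nil, or_false]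
        rintro x (rfl | rfl) (h | h)
        · exact h1 (Sum.inr_injective h)
        · exact h2 (Sum.inr_injective h)
        · exact h3 (Sum.inr_injective h)
        · exact h4 (Sum.inr_injective h)
    · intro a ha b hb hab
      subst hab
      rw [List.mem_map] at ha
      rw [List.mem_flatMap] at hb
      obtain ⟨k, _, rfl⟩ := ha
      obtain ⟨e, _, he⟩ := hb
      simp at he
  · rintro ⟨p, q⟩ hpq
    rw [mem_gE] at hpq
    obtain ⟨e, he, (⟨rfl, rfl⟩ | ⟨k, _, (⟨_, rfl, rfl⟩ | ⟨_, _, rfl, rfl⟩)⟩)⟩ := hpq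
    · intro h
      have := Sum.inr_injective h
      simp only [Prod.mk.injEq] at this
      exact hlf e he this.1
    · exact fun h => by cases h
    · exact fun h => by cases h

theorem gadget_match {K : List (α × ℕ)} (hE : E.Nodup) (hlf : LF E)
    (has : ∀ a b, (a, b) ∈ E → (b, a) ∉ E) (hK : K.Nodup) {Y : List (α × α)} (hY : Y.Nodup)
    (hYE : ∀ e ∈ Y, e ∈ E) (hd : ∀ v, degX Y v ≤ capK K v) :
    ∃ N, IsM (gV K E) (gE K E) N ∧ N.length = E.length + Y.length := by
  obtain ⟨c, hc1, hc2⟩ := exists_copies hK hd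
  let F : α × α → List (GV α × GV α) := fun e =>
    if e ∈ Y then [(Sum.inl (c e.1 e), Sum.inr (e.1, e.2)), (Sum.inl (c e.2 e), Sum.inr (e.2, e.1))]
    else [(Sum.inr (e.1, e.2), Sum.inr (e.2, e.1))]
  refine ⟨E.flatMap F, ⟨?_, ?_, ?_⟩, ?_⟩
  · intro x hx
    rw [List.mem_flatMap] at hx
    obtain ⟨e, he, hx⟩ := hx
    have hmem : (x.1, x.2) ∈ gE K E := by
      rw [mem_gE]
      refine ⟨e, he, ?_⟩
      by_cases hY : e ∈ Y
      · simp only [F, if_pos hY, List.mem_cons, List.not_mem_nil, or_false] at hx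
        right
        rcases hx with rfl | rfl
        · obtain ⟨h1, h2⟩ := hc1 e.1 e hY (Or.inl rfl)
          exact ⟨_, h1, Or.inl ⟨h2, rfl, rfl⟩⟩
        · obtain ⟨h1, h2⟩ := hc1 e.2 e hY (Or.inr rfl)
          exact ⟨_, h1, Or.inr ⟨fun h => hlf e he (h.symm.trans h2), h2, rfl, rfl⟩⟩
      · simp only [F, if_neg hY, List.mem_singleton] at hx
        left
        rw [hx]
        exact ⟨rfl, rfl⟩
    unfold adjB
    simp [hmem]
  · unfold ends
    rw [List.flatMap_assoc, List.nodup_flatMap]
    constructor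
    · intro e he
      have hne := hlf e he
      have hne2 : ¬ e = (e.2, e.1) := fun h => hne (congrArg Prod.fst h)
      by_cases hY : e ∈ Y
      · obtain ⟨_, h2⟩ := hc1 e.1 e hY (Or.inl rfl)
        obtain ⟨_, h2'⟩ := hc1 e.2 e hY (Or.inr rfl)
        have h3 : c e.1 e ≠ c e.2 e := fun h => hne (by rw [← h2, h, h2'])
        simp only [F, if_pos hY, List.flatMap_cons, List.flatMap_nil, List.append_nil,
          List.cons_append, List.nil_append]
        simp [h3, hne2]
      · simp only [F, if_neg hY, List.flatMap_cons, List.flatMap_nil, List.append_nil]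
        simp [hne2]
    · refine List.Pairwise.imp_of_mem ?_ hE
      intro e e' he he' hne
      obtain ⟨h1, h2, h3, h4⟩ := half_ne has he he' hne
      simp only [Function.onFun, List.disjoint_left]
      intro x hx hx'
      have key : ∀ e : α × α, x ∈ (F e).flatMap (fun y => [y.1, y.2]) →
          x = Sum.inr (e.1, e.2) ∨ x = Sum.inr (e.2, e.1) ∨
          (e ∈ Y ∧ (x = Sum.inl (c e.1 e) ∨ x = Sum.inl (c e.2 e))) := by
        intro e hx
        by_cases hY : e ∈ Y
        · simp only [F, if_pos hY, List.flatMap_cons, List.flatMap_nil, List.append_nil,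
            List.cons_append, List.nil_append, List.mem_cons, List.not_mem_nil, or_false] at hx
          tauto
        · simp only [F, if_neg hY, List.flatMap_cons, List.flatMap_nil, List.append_nil,
            List.mem_cons, List.not_mem_nil, or_false] at hx
          tauto
      have k1 := key e hx
      have k2 := key e' hx'
      rcases k1 with rfl | rfl | ⟨hY, k1⟩
      · rcases k2 with h | h | ⟨_, h | h⟩
        · exact h1 (Sum.inr_injective h)
        · exact h2 (Sum.inr_injective h)
        · cases h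
        · cases h
      · rcases k2 with h | h | ⟨_, h | h⟩
        · exact h3 (Sum.inr_injective h)
        · exact h4 (Sum.inr_injective h)
        · cases h
        · cases h
      · rcases k2 with rfl | rfl | ⟨hY', k2⟩
        · rcases k1 with h | h <;> cases h
        · rcases k1 with h | h <;> cases h
        · have fin : ∀ u u', (e.1 = u ∨ e.2 = u) → (e'.1 = u' ∨ e'.2 = u') →
              x = Sum.inl (c u e) → x = Sum.inl (c u' e') → False := by
            intro u u' hu hu' hxu hxu'
            have h5 : c u e = c u' e' := Sum.inl_injective (hxu.symm.trans hxu')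
            have h6 := (hc1 u e hY hu).2
            have h7 := (hc1 u' e' hY' hu').2
            have h8 : u = u' := by rw [← h6, h5, h7]
            subst h8
            exact hne (hc2 u e hY e' hY' hu hu' h5)
          rcases k1 with k1 | k1 <;> rcases k2 with k2 | k2
          · exact fin _ _ (Or.inl rfl) (Or.inl rfl) k1 k2
          · exact fin _ _ (Or.inl rfl) (Or.inr rfl) k1 k2
          · exact fin _ _ (Or.inr rfl) (Or.inl rfl) k1 k2
          · exact fin _ _ (Or.inr rfl) (Or.inr rfl) k1 k2
  · intro x hx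
    unfold ends at hx
    rw [List.flatMap_assoc, List.mem_flatMap] at hx
    obtain ⟨e, he, hx⟩ := hx
    rw [mem_gV]
    by_cases hY : e ∈ Y
    · simp only [F, if_pos hY, List.flatMap_cons, List.flatMap_nil, List.append_nil,
        List.cons_append, List.nil_append, List.mem_cons, List.not_mem_nil, or_false] at hx
      rcases hx with rfl | rfl | rfl | rfl
      · exact Or.inl ⟨_, (hc1 e.1 e hY (Or.inl rfl)).1, rfl⟩
      · exact Or.inr ⟨e, he, Or.inl rfl⟩
      · exact Or.inl ⟨_, (hc1 e.2 e hY (Or.inr rfl)).1, rfl⟩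
      · exact Or.inr ⟨e, he, Or.inr rfl⟩
    · simp only [F, if_neg hY, List.flatMap_cons, List.flatMap_nil, List.append_nil,
        List.mem_cons, List.not_mem_nil, or_false] at hx
      rcases hx with rfl | rfl
      · exact Or.inr ⟨e, he, Or.inl rfl⟩
      · exact Or.inr ⟨e, he, Or.inr rfl⟩
  · have h1 : ∀ L : List (α × α), (L.flatMap F).length =
        L.length + (L.filter fun e => decide (e ∈ Y)).length := by
      intro L
      induction L with
      | nil => simp
      | cons e L ih =>
        rw [List.flatMap_cons, List.length_append, ih]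
        by_cases hY : e ∈ Y
        · simp [F, hY]; omega
        · simp [F, hY]; omega
    rw [h1]
    congr 1
    have h2 : (E.filter fun e => decide (e ∈ Y)).Perm Y := by
      rw [List.perm_ext_iff_of_nodup (hE.filter _) hY]
      intro e
      simp only [List.mem_filter, decide_eq_true_eq]
      exact ⟨fun h => h.2, fun h => ⟨hYE e h, h⟩⟩
    exact h2.length_eq

end

end Pool.Agent.H671R2.SF
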