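import Pool.Agent.H671R2.SF.TA12
import Pool.Agent.H671R2.SF.TA13
import Pool.Agent.H671R2.SF.TA10

/-!
# Task A15: maximum degree-constrained subgraphs (helper584)
-/

set_option autoImplicit false

namespace Pool.Agent.H671R2.SF

open Pool.Agent.NPC

section
variable {α : Type} [DecidableEq α] {V : List α} {E M N : List (α × α)}

theorem maxDeg_spec {K : List (α × ℕ)} (hE : E.Nodup) (hlf : LF E)
    (has : ∀ a b, (a, b) ∈ E → (b, a) ∉ E) (hK : K.Nodup) :
    (maxDeg E K).Sublist E ∧ (∀ v, degX (maxDeg E K) v ≤ capK K v) ∧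
    ∀ Y : List (α × α), Y.Nodup → (∀ e ∈ Y, e ∈ E) → (∀ v, degX Y v ≤ capK K v) →
      Y.length ≤ (maxDeg E K).length := by
  obtain ⟨h1, h2⟩ := gadget_nodup hE hlf has hK
  obtain ⟨h3, h4⟩ := maxM_spec h1 h2
  obtain ⟨h5, h6, h7⟩ := pick_spec hE hlf has hK h3
  refine ⟨h5, h6, fun Y hY hYE hd => ?_⟩
  obtain ⟨N, hN, hlen⟩ := gadget_match hE hlf has hK hY hYE hd
  have h8 := h4 N hN
  unfold maxDeg
  omega

section poly

variable {γ : Type} [TEnc γ] [TEnc α] {Ef : γ → List (α × α)} {Kf : γ → List (α × ℕ)}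
  {Nf : γ → List (GV α × GV α)}

theorem TA15.poly_gV (hE : Poly Ef) (hK : Poly Kf) : Poly (fun a => gV (Kf a) (Ef a)) := by
  have h1 : Poly (fun a => (Kf a).map (fun k => (Sum.inl k : GV α))) := by fun_prop
  have h2 : Poly (fun a => (Ef a).flatMap fun e =>
    [(Sum.inr (e.1, e.2) : GV α), Sum.inr (e.2, e.1)]) := by fun_prop
  exact Poly.append h1 h2

theorem TA15.poly_gE (hE : Poly Ef) (hK : Poly Kf) : Poly (fun a => gE (Kf a) (Ef a)) := by
  unfold gE
  fun_prop

theorem TA15.poly_both (hN : Poly Nf) : Poly (fun a => both (Nf a)) := by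
  unfold both
  fun_prop

theorem TA15.poly_anys (hK : Poly Kf) (hN : Poly Nf) {f : γ × (α × α) → α × α} (hf : Poly f) :
    Poly (fun x : γ × (α × α) => (both (Nf x.1)).any fun y => (Kf x.1).any fun k =>
      decide (y.1 = Sum.inl k) && decide (y.2 = Sum.inr (f x))) := by
  have hb := TA15.poly_both hN
  refine Poly.any (l := fun x : γ × (α × α) => both (Nf x.1)) (p := fun x y => (Kf x.1).any fun k =>
      decide (y.1 = Sum.inl k) && decide (y.2 = Sum.inr (f x))) (hb.comp (Poly.fst Poly.id)) ?_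
  refine Poly.any (l := fun z : (γ × (α × α)) × (GV α × GV α) => Kf z.1.1) (p := fun z k =>
      decide (z.2.1 = Sum.inl k) && decide (z.2.2 = Sum.inr (f z.1)))
      (hK.comp (Poly.fst (Poly.fst Poly.id))) ?_
  have g1 : Poly (fun w : ((γ × (α × α)) × (GV α × GV α)) × (α × ℕ) => w.1.2.1) := by fun_prop
  have g2 : Poly (fun w : ((γ × (α × α)) × (GV α × GV α)) × (α × ℕ) => w.1.2.2) := by fun_prop
  have g3 : Poly (fun w : ((γ × (α × α)) × (GV α × GV α)) × (α × ℕ) =>
      (Sum.inl w.2 : GV α)) := by fun_prop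
  have g4 : Poly (fun w : ((γ × (α × α)) × (GV α × GV α)) × (α × ℕ) => w.1.1) := by fun_prop
  exact Poly.and (Poly.dec_eq g1 g3) (Poly.dec_eq g2 (Poly.inr (hf.comp g4)))

theorem TA15.poly_pick (hE : Poly Ef) (hK : Poly Kf) (hN : Poly Nf) :
    Poly (fun a => pick (Kf a) (Ef a) (Nf a)) := by
  have h1 := TA15.poly_anys (α := α) hK hN (f := fun x => (x.2.1, x.2.2)) (by fun_prop)
  have h2 := TA15.poly_anys (α := α) hK hN (f := fun x => (x.2.2, x.2.1)) (by fun_prop)
  exact Poly.filter (l := Ef) (p := fun a e =>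
    ((both (Nf a)).any fun x => (Kf a).any fun k =>
      decide (x.1 = Sum.inl k) && decide (x.2 = Sum.inr (e.1, e.2))) &&
    ((both (Nf a)).any fun x => (Kf a).any fun k =>
      decide (x.1 = Sum.inl k) && decide (x.2 = Sum.inr (e.2, e.1)))) hE (Poly.and h1 h2)

theorem poly_maxDeg (hE : Poly Ef) (hK : Poly Kf) : Poly (fun a => maxDeg (Ef a) (Kf a)) :=
  TA15.poly_pick hE hK (poly_maxM (TA15.poly_gV hE hK) (TA15.poly_gE hE hK))

end poly

end

end Pool.Agent.H671R2.SF
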