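import Pool.Agent.H671R2.SF.MDefs

/-!
# A2 (helper431): certificate of the contracted graph
-/

set_option autoImplicit false

namespace Pool.Agent.H671R2.SF

open Pool.Agent.NPC

section
variable {α : Type} [DecidableEq α] {V : List α} {E M N : List (α × α)}

theorem cert_lift {k : ℕ} {U : Finset α} {κ : α → ℕ} {C : List α} (hV : V.Nodup) (hC : C.Nodup)
    (hCV : ∀ v ∈ C, v ∈ V) (hodd : Odd C.length) (hc : CertW (conV C V) (conE C E) k U κ)
    (hU : ∀ c, C.head? = some c → c ∉ U) :
    CertW V E (k + C.length / 2) U (fun v => κ (piC C v)) := by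
  obtain ⟨c, C', rfl⟩ : ∃ c C', C = c :: C' := by
    cases C with
    | nil => simp at hodd
    | cons c C' => exact ⟨c, C', rfl⟩
  have hcU : c ∉ U := hU c rfl
  obtain ⟨hcC, hC'⟩ := List.nodup_cons.mp hC
  have hcV : c ∈ V := hCV c List.mem_cons_self
  have hpi : ∀ v, piC (c :: C') v = if v ∈ C' then c else v := by
    intro v
    unfold piC
    by_cases h1 : v ∈ C'
    · rw [if_pos (List.mem_cons_of_mem _ h1), if_pos h1]
      rfl
    · rw [if_neg h1]
      by_cases h2 : v = c
      · rw [h2, if_pos List.mem_cons_self]
        rfl
      · rw [if_neg]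
        rw [List.mem_cons]
        tauto
  have hconV : ∀ v, v ∈ conV (c :: C') V ↔ v ∈ V ∧ v ∉ C' := by
    intro v
    unfold conV
    rw [List.mem_filter]
    simp only [List.head?_cons, Option.some.injEq, Bool.or_eq_true, Bool.not_eq_true',
      decide_eq_false_iff_not, decide_eq_true_eq, List.mem_cons]
    constructor
    · rintro ⟨h1, h2 | h2⟩
      · exact ⟨h1, fun h => h2 (Or.inr h)⟩
      · exact ⟨h1, h2 ▸ hcC⟩
    · rintro ⟨h1, h2⟩
      refine ⟨h1, ?_⟩
      by_cases h3 : c = v
      · exact Or.inr h3
      · left
        rintro (h | h)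
        · exact h3 h.symm
        · exact h2 h
  have hconVn : (conV (c :: C') V).Nodup := hV.filter _
  obtain ⟨h1, h2, h3⟩ := hc
  set S := V.toFinset with hS
  set S' := (conV (c :: C') V).toFinset with hS'
  have hSS : ∀ v, v ∈ S' ↔ v ∈ S ∧ v ∉ C' := by
    intro v
    rw [hS', hS, List.mem_toFinset, List.mem_toFinset, hconV]
  have hUC : ∀ v ∈ U, v ∉ C' := fun v hv => ((hSS v).mp (h1 hv)).2
  have hpiU : ∀ v, v ∉ U → piC (c :: C') v ∉ U := by
    intro v hv
    rw [hpi]
    split_ifs
    · exact hcU
    · exact hv
  have hpiV : ∀ v ∈ V, piC (c :: C') v ∈ conV (c :: C') V := by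
    intro v hv
    rw [hpi, hconV]
    split_ifs with h
    · exact ⟨hcV, hcC⟩
    · exact ⟨hv, h⟩
  have hadj : ∀ a b, adjB E a b = true → piC (c :: C') a ≠ piC (c :: C') b →
      adjB (conE (c :: C') E) (piC (c :: C') a) (piC (c :: C') b) = true := by
    intro a b hab hne
    have key : ∀ x y, (x, y) ∈ E → piC (c :: C') x ≠ piC (c :: C') y →
        (piC (c :: C') x, piC (c :: C') y) ∈ conE (c :: C') E := by
      intro x y hxy hn
      unfold conE
      rw [List.mem_filter]
      refine ⟨List.mem_map.mpr ⟨(x, y), hxy, rfl⟩, ?_⟩
      simp [hn]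
    unfold adjB at hab ⊢
    rw [Bool.or_eq_true, decide_eq_true_eq, decide_eq_true_eq] at hab ⊢
    rcases hab with h | h
    · exact Or.inl (key a b h hne)
    · exact Or.inr (key b a h (Ne.symm hne))
  refine ⟨fun v hv => ((hSS v).mp (h1 hv)).1, ?_, ?_⟩
  · intro a ha b hb hab haU hbU
    by_cases h : piC (c :: C') a = piC (c :: C') b
    · simp only [h]
    · exact h2 _ (hpiV a ha) _ (hpiV b hb) (hadj a b hab h) (hpiU a haU) (hpiU b hbU)
  · -- counting
    have hE' : Even C'.length := by
      rw [List.length_cons] at hodd
      have := (Nat.odd_add_one).mp hodd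
      exact Nat.not_odd_iff_even.mp this
    have hSc : S.card = S'.card + C'.length := by
      have e1 : S' = S \ C'.toFinset := by
        ext v
        rw [hSS, Finset.mem_sdiff, List.mem_toFinset (l := C')]
      have e2 : C'.toFinset ⊆ S := by
        intro v hv
        rw [List.mem_toFinset] at hv
        exact List.mem_toFinset.mpr (hCV v (List.mem_cons_of_mem _ hv))
      have e3 := Finset.card_sdiff_add_card_eq_card e2
      rw [List.toFinset_card_of_nodup hC', ← e1] at e3
      omega
    have hVl : V.length = S.card := (List.toFinset_card_of_nodup hV).symm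
    have hVl' : (conV (c :: C') V).length = S'.card :=
      (List.toFinset_card_of_nodup hconVn).symm
    -- images
    have himg : (S \ U).image (fun v => κ (piC (c :: C') v)) = (S' \ U).image κ := by
      ext i
      rw [Finset.mem_image, Finset.mem_image]
      constructor
      · rintro ⟨v, hv, rfl⟩
        rw [Finset.mem_sdiff] at hv
        refine ⟨piC (c :: C') v, ?_, rfl⟩
        rw [Finset.mem_sdiff, hS', List.mem_toFinset]
        exact ⟨hpiV v (List.mem_toFinset.mp hv.1), hpiU v hv.2⟩
      · rintro ⟨v, hv, rfl⟩
        rw [Finset.mem_sdiff, hSS] at hv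
        refine ⟨v, Finset.mem_sdiff.mpr ⟨hv.1.1, hv.2⟩, ?_⟩
        simp only [hpi, if_neg hv.1.2]
    -- classes
    have hcls : ∀ i, (Odd (((S \ U).filter fun v => κ (piC (c :: C') v) = i).card) ↔
        Odd (((S' \ U).filter fun v => κ v = i).card)) := by
      intro i
      by_cases hi : κ c = i
      · have e1 : ((S \ U).filter fun v => κ (piC (c :: C') v) = i) =
            ((S' \ U).filter fun v => κ v = i) ∪ C'.toFinset := by
          ext v
          rw [Finset.mem_union, Finset.mem_filter, Finset.mem_filter, Finset.mem_sdiff,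
            Finset.mem_sdiff, hSS, List.mem_toFinset (l := C'), hpi]
          by_cases hv : v ∈ C'
          · rw [if_pos hv]
            constructor
            · intro _
              exact Or.inr hv
            · intro _
              refine ⟨⟨List.mem_toFinset.mpr (hCV v (List.mem_cons_of_mem _ hv)),
                fun h => hUC v h hv⟩, hi⟩
          · rw [if_neg hv]
            tauto
        have e2 : Disjoint ((S' \ U).filter fun v => κ v = i) C'.toFinset := by
          rw [Finset.disjoint_left]
          intro v hv hv'
          rw [Finset.mem_filter, Finset.mem_sdiff, hSS] at hv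
          exact hv.1.1.2 (List.mem_toFinset.mp hv')
        rw [e1, Finset.card_union_of_disjoint e2, List.toFinset_card_of_nodup hC']
        rw [Nat.odd_add]
        exact iff_true_right hE'
      · have e1 : ((S \ U).filter fun v => κ (piC (c :: C') v) = i) =
            ((S' \ U).filter fun v => κ v = i) := by
          ext v
          rw [Finset.mem_filter, Finset.mem_filter, Finset.mem_sdiff, Finset.mem_sdiff, hSS, hpi]
          by_cases hv : v ∈ C'
          · rw [if_pos hv]
            tauto
          · rw [if_neg hv]
            tauto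
        rw [e1]
    have hsets : (((S \ U).image (fun v => κ (piC (c :: C') v))).filter fun i =>
        Odd (((S \ U).filter fun v => κ (piC (c :: C') v) = i).card)) =
        (((S' \ U).image κ).filter fun i => Odd (((S' \ U).filter fun v => κ v = i).card)) := by
      rw [himg]
      exact Finset.filter_congr fun i _ => hcls i
    rw [hsets]
    obtain ⟨r, hr⟩ := hE'
    have hlen : (c :: C').length / 2 = r := by
      rw [List.length_cons]
      omega
    rw [hlen]
    omega

end

end Pool.Agent.H671R2.SF
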