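import Pool.Agent.H671R2.SF.MDefs

/-!
# A4 (helper912): rematching along a list
-/

set_option autoImplicit false

namespace Pool.Agent.H671R2.SF

open Pool.Agent.NPC

section
variable {α : Type}

namespace TA4

theorem pairUp_cons₂ (a b : α) (t : List α) : pairUp (a :: b :: t) = (a, b) :: pairUp t := by
  simp [pairUp]

theorem pairUp_nil : pairUp ([] : List α) = [] := by simp [pairUp]

theorem pairUp_singleton (a : α) : pairUp [a] = [] := by simp [pairUp]

/-- two-step induction on lists -/
theorem two_step {P : List α → Prop} (h0 : P []) (h1 : ∀ a, P [a])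
    (h2 : ∀ a b t, P t → P (a :: b :: t)) : ∀ L, P L
  | [] => h0
  | [a] => h1 a
  | a :: b :: t => h2 a b t (two_step h0 h1 h2 t)

theorem pairUp_aux : ∀ (L : List α) (k : ℕ), k % 2 = 0 → pairUp L =
    (((L.zip L.tail).zipIdx k).filter fun x => decide (x.2 % 2 = 0)).map fun x => x.1 := by
  refine two_step ?_ ?_ ?_
  · intro k _; simp [pairUp_nil]
  · intro a k _; simp [pairUp_singleton]
  · intro a b t ih k hk
    rw [pairUp_cons₂]
    cases t with
    | nil => simp [pairUp_nil, hk]
    | cons c t =>
      have h1 : (k + 1) % 2 ≠ 0 := by omega
      have := ih (k + 1 + 1) (by omega)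
      rw [this]
      simp only [List.tail_cons, List.zip_cons_cons, List.zipIdx_cons, List.filter_cons]
      simp [hk, h1]

theorem pairUp_length : ∀ (L : List α), (pairUp L).length = L.length / 2 := by
  refine two_step ?_ ?_ ?_
  · simp [pairUp_nil]
  · intro a; simp [pairUp_singleton]
  · intro a b t ih
    rw [pairUp_cons₂, List.length_cons, ih, List.length_cons, List.length_cons]
    omega

theorem ends_append (A B : List (α × α)) : ends (A ++ B) = ends A ++ ends B := by
  unfold ends; rw [List.flatMap_append]

theorem ends_cons (e : α × α) (M : List (α × α)) : ends (e :: M) = e.1 :: e.2 :: ends M := rfl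

theorem ends_length (M : List (α × α)) : (ends M).length = 2 * M.length := by
  induction M with
  | nil => rfl
  | cons e M ih => rw [ends_cons, List.length_cons, List.length_cons, ih, List.length_cons]; ring

theorem ends_pairUp_sublist : ∀ (L : List α), (ends (pairUp L)).Sublist L := by
  refine two_step ?_ ?_ ?_
  · simp [pairUp_nil, ends]
  · intro a; simp [pairUp_singleton, ends]
  · intro a b t ih
    rw [pairUp_cons₂, ends_cons]
    exact (ih.cons_cons b).cons_cons a

theorem ends_pairUp_even : ∀ (L : List α), Even L.length → ends (pairUp L) = L := by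
  refine two_step ?_ ?_ ?_
  · intro _; simp [pairUp_nil, ends]
  · intro a h; simp at h
  · intro a b t ih h
    rw [pairUp_cons₂, ends_cons, ih]
    simp only [List.length_cons] at h
    rw [Nat.even_iff] at h ⊢
    omega

theorem pairUp_append : ∀ (L L' : List α), Even L.length →
    pairUp (L ++ L') = pairUp L ++ pairUp L' := by
  refine two_step ?_ ?_ ?_
  · intro L' _; simp [pairUp_nil]
  · intro a L' h; simp at h
  · intro a b t ih L' h
    rw [pairUp_cons₂, List.cons_append, List.cons_append, pairUp_cons₂, ih L' ?_,
      List.cons_append]
    simp only [List.length_cons] at h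
    rw [Nat.even_iff] at h ⊢
    omega

theorem ends_sublist {A B : List (α × α)} (h : A.Sublist B) : (ends A).Sublist (ends B) := by
  induction h with
  | slnil => exact List.Sublist.refl _
  | cons e _ ih => rw [ends_cons]; exact (ih.cons _).cons _
  | cons_cons e _ ih => rw [ends_cons, ends_cons]; exact (ih.cons_cons _).cons_cons _

theorem mem_pairUp : ∀ (L : List α) {R : α → α → Prop}, L.IsChain R → ∀ e ∈ pairUp L, R e.1 e.2 := by
  refine two_step ?_ ?_ ?_
  · intro R _ e he; simp [pairUp_nil] at he
  · intro a R _ e he; simp [pairUp_singleton] at he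
  · intro a b t ih R h e he
    rw [pairUp_cons₂, List.mem_cons] at he
    rw [List.isChain_cons_cons] at h
    rcases he with rfl | he
    · exact h.1
    · exact ih h.2.tail e he

theorem mem_ends {M : List (α × α)} {v : α} : v ∈ ends M ↔ ∃ e ∈ M, v = e.1 ∨ v = e.2 := by
  unfold ends
  rw [List.mem_flatMap]
  simp

end TA4

end

section
variable {α : Type} [DecidableEq α] {V : List α} {E M N : List (α × α)}

omit [DecidableEq α] in
theorem pairUp_eq (L : List α) : pairUp L =
    ((L.zip L.tail).zipIdx.filter fun x => decide (x.2 % 2 = 0)).map fun x => x.1 :=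
  TA4.pairUp_aux L 0 rfl

namespace TA4

theorem mem_away {L : List α} {e : α × α} : e ∈ away L M ↔ e ∈ M ∧ e.1 ∉ L ∧ e.2 ∉ L := by
  unfold away
  rw [List.mem_filter]
  simp

theorem away_sublist (L : List α) (M : List (α × α)) : (away L M).Sublist M := by
  unfold away; exact List.filter_sublist

theorem not_mem_of_ends_away {L : List α} {v : α} (h : v ∈ ends (away L M)) : v ∉ L := by
  obtain ⟨e, he, h⟩ := mem_ends.1 h
  rw [mem_away] at he
  rcases h with rfl | rfl
  · exact he.2.1
  · exact he.2.2

theorem isM_away {L : List α} (hM : IsM V E M) : IsM V E (away L M) :=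
  ⟨fun e he => hM.1 e ((away_sublist L M).subset he),
    hM.2.1.sublist (ends_sublist (away_sublist L M)),
    fun v hv => hM.2.2 v ((ends_sublist (away_sublist L M)).subset hv)⟩

theorem away_count {L : List α} (hcl : ∀ e ∈ M, e.1 ∈ L ↔ e.2 ∈ L) :
    ((ends M).filter fun v => decide (v ∈ L)).length + 2 * (away L M).length = 2 * M.length := by
  induction M with
  | nil => simp [ends, away]
  | cons e M ih =>
    have ih' := ih fun e he => hcl e (List.mem_cons_of_mem _ he)
    have he := hcl e List.mem_cons_self
    rw [ends_cons, List.length_cons]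
    by_cases h : e.1 ∈ L
    · have h2 := he.1 h
      have ha : away L (e :: M) = away L M := by
        unfold away
        rw [List.filter_cons_of_neg (by simp [h])]
      rw [ha, List.filter_cons_of_pos (by simp [h]), List.filter_cons_of_pos (by simp [h2]),
        List.length_cons, List.length_cons]
      omega
    · have h2 : e.2 ∉ L := fun h' => h (he.2 h')
      have ha : away L (e :: M) = e :: away L M := by
        unfold away
        rw [List.filter_cons_of_pos (by simp [h, h2])]
      rw [ha, List.filter_cons_of_neg (by simp [h]), List.filter_cons_of_neg (by simp [h2]),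
        List.length_cons]
      omega

end TA4

theorem relink_isM {L : List α} (hM : IsM V E M) (hL : L.Nodup) (hLV : ∀ v ∈ L, v ∈ V)
    (hch : L.IsChain fun a b => adjB E a b = true) : IsM V E (relink L M) := by
  have hA := TA4.isM_away (L := L) hM
  refine ⟨?_, ?_, ?_⟩
  · intro e he
    unfold relink at he
    rw [List.mem_append] at he
    rcases he with he | he
    · exact hA.1 e he
    · exact TA4.mem_pairUp L hch e he
  · unfold relink
    rw [TA4.ends_append, List.nodup_append]
    refine ⟨hA.2.1, hL.sublist (TA4.ends_pairUp_sublist L), ?_⟩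
    intro a ha b hb hab
    subst hab
    exact TA4.not_mem_of_ends_away ha ((TA4.ends_pairUp_sublist L).subset hb)
  · intro v hv
    unfold relink at hv
    rw [TA4.ends_append, List.mem_append] at hv
    rcases hv with hv | hv
    · exact hA.2.2 v hv
    · exact hLV v ((TA4.ends_pairUp_sublist L).subset hv)

theorem away_length {L : List α} (hM : (ends M).Nodup) (hL : L.Nodup)
    (hcl : ∀ e ∈ M, e.1 ∈ L ↔ e.2 ∈ L) :
    2 * (away L M).length + L.length =
      2 * M.length + (L.filter fun v => !decide (v ∈ ends M)).length := by
  have h1 : L.length = (L.filter fun v => decide (v ∈ ends M)).length +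
      (L.filter fun v => !decide (v ∈ ends M)).length := by
    rw [← List.countP_eq_length_filter, ← List.countP_eq_length_filter]
    have := List.length_eq_countP_add_countP (l := L) (fun v => decide (v ∈ ends M))
    rw [this]
    congr 1
    apply List.countP_congr
    intro x _
    simp
  have h2 : (L.filter fun v => decide (v ∈ ends M)).length =
      ((ends M).filter fun v => decide (v ∈ L)).length := by
    apply List.Perm.length_eq
    rw [List.perm_ext_iff_of_nodup (hL.filter _) (hM.filter _)]
    intro a
    rw [List.mem_filter, List.mem_filter]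
    simp [and_comm]
  have h3 := TA4.away_count hcl
  omega

theorem relink_length {L : List α} (hM : (ends M).Nodup) (hL : L.Nodup)
    (hcl : ∀ e ∈ M, e.1 ∈ L ↔ e.2 ∈ L) :
    2 * (relink L M).length + L.length = 2 * M.length + 2 * (L.length / 2) +
      (L.filter fun v => !decide (v ∈ ends M)).length := by
  have h := away_length hM hL hcl
  unfold relink
  rw [List.length_append, TA4.pairUp_length]
  omega

end

end Pool.Agent.H671R2.SF
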