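import Pool.Agent.H671R2.SF.MDefs

/-!
# A6 (helper431): structure of alternating forests
-/

set_option autoImplicit false

namespace Pool.Agent.H671R2.SF

open Pool.Agent.NPC

namespace TA6

section
variable {α : Type} [DecidableEq α] {V : List α} {E M : List (α × α)}

theorem adjB_symm (E : List (α × α)) (a b : α) : adjB E a b = adjB E b a := by
  unfold adjB
  rw [Bool.or_comm]

theorem mem_both {M : List (α × α)} {v w : α} : (v, w) ∈ both M ↔ (v, w) ∈ M ∨ (w, v) ∈ M := by
  unfold both
  rw [List.mem_append, List.mem_map]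
  constructor
  · rintro (h | ⟨e, he, h⟩)
    · exact Or.inl h
    · right
      rw [Prod.mk.injEq] at h
      rw [← h.1, ← h.2]
      exact he
  · rintro (h | h)
    · exact Or.inl h
    · exact Or.inr ⟨(w, v), h, rfl⟩

theorem both_symm {v w : α} : (v, w) ∈ both M ↔ (w, v) ∈ both M := by
  rw [mem_both, mem_both, or_comm]

theorem mem_ends {v : α} : v ∈ ends M ↔ ∃ w, (v, w) ∈ both M := by
  unfold ends
  rw [List.mem_flatMap]
  constructor
  · rintro ⟨e, he, h⟩
    rw [List.mem_cons, List.mem_singleton] at h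
    rcases h with h | h
    · exact ⟨e.2, mem_both.mpr (Or.inl (h ▸ he))⟩
    · exact ⟨e.1, mem_both.mpr (Or.inr (h ▸ he))⟩
  · rintro ⟨w, h⟩
    rcases mem_both.mp h with h | h
    · exact ⟨_, h, by simp⟩
    · exact ⟨_, h, by simp⟩

theorem ends_cons (e : α × α) (M : List (α × α)) : ends (e :: M) = e.1 :: e.2 :: ends M := rfl

/-- the two ends of an edge of a matching are different -/
theorem ne_of_nodup (h : (ends M).Nodup) {v w : α} (hvw : (v, w) ∈ both M) : v ≠ w := by
  induction M with
  | nil => simp [both] at hvw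
  | cons e M ih =>
    rw [ends_cons, List.nodup_cons, List.nodup_cons] at h
    obtain ⟨h1, h2, h3⟩ := h
    rw [mem_both, List.mem_cons, List.mem_cons] at hvw
    rintro rfl
    rcases hvw with (h | h) | (h | h)
    · apply h1
      rw [← h]
      simp
    · exact ih h3 (mem_both.mpr (Or.inl h)) rfl
    · apply h1
      rw [← h]
      simp
    · exact ih h3 (mem_both.mpr (Or.inr h)) rfl

/-- a vertex has only one mate -/
theorem mate_unique (h : (ends M).Nodup) {v w w' : α} (hw : (v, w) ∈ both M)
    (hw' : (v, w') ∈ both M) : w = w' := by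
  induction M with
  | nil => simp [both] at hw
  | cons e M ih =>
    have hh := h
    rw [ends_cons, List.nodup_cons, List.nodup_cons] at h
    obtain ⟨h1, h2, h3⟩ := h
    have h1a : e.1 ≠ e.2 := fun h => h1 (h ▸ List.mem_cons_self)
    have h1b : e.1 ∉ ends M := fun h => h1 (List.mem_cons_of_mem _ h)
    -- an edge of `both (e :: M)`
    have key : ∀ x, (v, x) ∈ both (e :: M) → (v = e.1 ∧ x = e.2) ∨ (v = e.2 ∧ x = e.1) ∨
        (v, x) ∈ both M := by
      intro x hx
      rw [mem_both, List.mem_cons, List.mem_cons] at hx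
      rcases hx with (h | h) | (h | h)
      · left
        rw [← h]
        exact ⟨rfl, rfl⟩
      · exact Or.inr (Or.inr (mem_both.mpr (Or.inl h)))
      · right; left
        rw [← h]
        exact ⟨rfl, rfl⟩
      · exact Or.inr (Or.inr (mem_both.mpr (Or.inr h)))
    rcases key w hw with ⟨a1, a2⟩ | ⟨a1, a2⟩ | a1
    · rcases key w' hw' with ⟨b1, b2⟩ | ⟨b1, b2⟩ | b1
      · rw [a2, b2]
      · exact absurd (a1.symm.trans b1) h1a
      · exact absurd (mem_ends.mpr ⟨w', a1 ▸ b1⟩) h1b
    · rcases key w' hw' with ⟨b1, b2⟩ | ⟨b1, b2⟩ | b1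
      · exact absurd (b1.symm.trans a1) h1a
      · rw [a2, b2]
      · exact absurd (mem_ends.mpr ⟨w', a1 ▸ b1⟩) h2
    · rcases key w' hw' with ⟨b1, b2⟩ | ⟨b1, b2⟩ | b1
      · exact absurd (mem_ends.mpr ⟨w, b1 ▸ a1⟩) h1b
      · exact absurd (mem_ends.mpr ⟨w, b1 ▸ a1⟩) h2
      · exact ih h3 a1 b1

theorem both_adj (hM : IsM V E M) {v w : α} (h : (v, w) ∈ both M) : adjB E v w = true := by
  rcases mem_both.mp h with h | h
  · exact hM.1 _ h
  · rw [adjB_symm]
    exact hM.1 _ h

theorem both_mem (hM : IsM V E M) {v w : α} (h : (v, w) ∈ both M) : v ∈ V :=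
  hM.2.2 v (mem_ends.mpr ⟨w, h⟩)

theorem hh_iff {p q : List α} : hh E p q = true ↔ ∃ a b, p.head? = some a ∧ q.head? = some b ∧
    adjB E a b = true := by
  unfold hh
  cases p <;> cases q <;> simp

theorem mem_exps {v : α} : v ∈ exps V M ↔ v ∈ V ∧ v ∉ ends M := by
  unfold exps
  rw [List.mem_filter]
  simp

theorem flatten_base {v : α} : v ∈ ((exps V M).map fun v => [v]).flatten ↔ v ∈ exps V M := by
  rw [List.mem_flatten]
  constructor
  · rintro ⟨l, hl, hv⟩
    obtain ⟨u, hu, rfl⟩ := List.mem_map.mp hl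
    rw [List.mem_singleton] at hv
    exact hv ▸ hu
  · intro h
    exact ⟨[v], List.mem_map.mpr ⟨v, h, rfl⟩, List.mem_singleton.mpr rfl⟩

/-- all facts at once -/
structure Good (V : List α) (E M : List (α × α)) (Ps : List (List α)) : Prop where
  closed : ∀ v w, (v, w) ∈ both M → v ∈ Ps.flatten → w ∈ Ps.flatten
  exps : ∀ v ∈ V, v ∉ ends M → [v] ∈ Ps
  path : ∀ p ∈ Ps, Odd p.length ∧ p.Nodup ∧ (∀ v ∈ p, v ∈ V) ∧
      (p.IsChain fun a b => adjB E a b = true) ∧
      (∀ i a b, p[2 * i]? = some a → p[2 * i + 1]? = some b → (b, a) ∈ both M) ∧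
      ∀ v, p.getLast? = some v → v ∉ ends M
  tail : ∀ w v t, w :: v :: t ∈ Ps → t ∈ Ps
  head : ∀ p ∈ Ps, ∀ q ∈ Ps, p.head? = q.head? → p = q
  suffix : ∀ p ∈ Ps, ∀ q ∈ Ps, ∀ z ∈ p, z ∈ q →
    p.dropWhile (fun x => !decide (x = z)) = q.dropWhile (fun x => !decide (x = z))

theorem good_base (V : List α) (E M : List (α × α)) :
    Good V E M ((exps V M).map fun v => [v]) where
  closed := by
    intro v w hvw hv
    rw [flatten_base, mem_exps] at hv
    exact absurd (mem_ends.mpr ⟨w, hvw⟩) hv.2
  exps := by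
    intro v hv hv'
    exact List.mem_map.mpr ⟨v, mem_exps.mpr ⟨hv, hv'⟩, rfl⟩
  path := by
    intro p hp
    obtain ⟨u, hu, rfl⟩ := List.mem_map.mp hp
    rw [mem_exps] at hu
    refine ⟨by simp, by simp, ?_, by simp, ?_, ?_⟩
    · intro v hv
      rw [List.mem_singleton] at hv
      exact hv ▸ hu.1
    · intro i a b _ hb
      simp at hb
    · intro v hv
      simp at hv
      exact hv ▸ hu.2
  tail := by
    intro w v t h
    obtain ⟨u, hu, h⟩ := List.mem_map.mp h
    simp at h
  head := by
    intro p hp q hq h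
    obtain ⟨u, hu, rfl⟩ := List.mem_map.mp hp
    obtain ⟨u', hu', rfl⟩ := List.mem_map.mp hq
    simp at h
    rw [h]
  suffix := by
    intro p hp q hq z hz hz'
    obtain ⟨u, hu, rfl⟩ := List.mem_map.mp hp
    obtain ⟨u', hu', rfl⟩ := List.mem_map.mp hq
    rw [List.mem_singleton] at hz hz'
    rw [← hz, ← hz']

theorem good_grow (hM : IsM V E M) {Ps : List (List α)} (h : Good V E M Ps) {p : List α} {v w : α}
    (hp : p ∈ Ps) (hvw : (v, w) ∈ both M) (hh' : hh E p [v] = true) (hv : v ∉ Ps.flatten) :
    Good V E M ((w :: v :: p) :: Ps) := by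
  have hw : w ∉ Ps.flatten := fun hw => hv (h.closed w v (both_symm.mp hvw) hw)
  have hne : v ≠ w := ne_of_nodup hM.2.1 hvw
  have hmem : ∀ q ∈ Ps, ∀ z ∈ q, z ∈ Ps.flatten := fun q hq z hz =>
    List.mem_flatten.mpr ⟨q, hq, hz⟩
  have hvp : v ∉ p := fun h1 => hv (hmem p hp v h1)
  have hwp : w ∉ p := fun h1 => hw (hmem p hp w h1)
  obtain ⟨p1, p2, p3, p4, p5, p6⟩ := h.path p hp
  obtain ⟨a, b, ha, hb, hab⟩ := hh_iff.mp hh'
  have hb' : b = v := by simpa using hb.symm
  obtain ⟨p', rfl⟩ : ∃ p', p = a :: p' := by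
    cases p with
    | nil => simp at ha
    | cons x p' =>
      simp at ha
      exact ⟨p', by rw [ha]⟩
  -- the new path
  have hdw : ∀ z, z ∈ Ps.flatten → (w :: v :: a :: p').dropWhile (fun x => !decide (x = z)) =
      (a :: p').dropWhile (fun x => !decide (x = z)) := by
    intro z hz
    have h1 : w ≠ z := fun h => hw (h ▸ hz)
    have h2 : v ≠ z := fun h => hv (h ▸ hz)
    rw [List.dropWhile_cons_of_pos (by simp [h1]), List.dropWhile_cons_of_pos (by simp [h2])]
  have hin : ∀ q ∈ Ps, ∀ z, z ∈ w :: v :: a :: p' → z ∈ q → z ∈ a :: p' := by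
    intro q hq z hz hz'
    rw [List.mem_cons, List.mem_cons] at hz
    rcases hz with rfl | rfl | hz
    · exact absurd (hmem q hq _ hz') hw
    · exact absurd (hmem q hq _ hz') hv
    · exact hz
  refine ⟨?_, ?_, ?_, ?_, ?_, ?_⟩
  · intro x y hxy hx
    rw [List.flatten_cons, List.mem_append] at hx ⊢
    rcases hx with hx | hx
    · rw [List.mem_cons, List.mem_cons] at hx
      rcases hx with hx | hx | hx
      · left
        rw [hx] at hxy
        rw [mate_unique hM.2.1 hxy (both_symm.mp hvw)]
        simp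
      · left
        rw [hx] at hxy
        rw [mate_unique hM.2.1 hxy hvw]
        simp
      · exact Or.inr (h.closed x y hxy (hmem _ hp x hx))
    · exact Or.inr (h.closed x y hxy hx)
  · intro x hx hx'
    exact List.mem_cons_of_mem _ (h.exps x hx hx')
  · intro q hq
    rw [List.mem_cons] at hq
    rcases hq with rfl | hq
    · refine ⟨?_, ?_, ?_, ?_, ?_, ?_⟩
      · rw [List.length_cons, List.length_cons]
        rw [Nat.odd_add_one, Nat.not_odd_iff_even]
        exact p1.add_one
      · rw [List.nodup_cons, List.nodup_cons, List.mem_cons]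
        refine ⟨?_, hvp, p2⟩
        rintro (h1 | h1)
        · exact hne h1.symm
        · exact hwp h1
      · intro x hx
        rw [List.mem_cons, List.mem_cons] at hx
        rcases hx with hx | hx | hx
        · rw [hx]
          exact both_mem hM (both_symm.mp hvw)
        · rw [hx]
          exact both_mem hM hvw
        · exact p3 x hx
      · rw [List.isChain_cons_cons, List.isChain_cons_cons]
        refine ⟨both_adj hM (both_symm.mp hvw), ?_, p4⟩
        have ha' : some a = some a := rfl
        rw [hb'] at hab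
        rw [adjB_symm]
        exact hab
      · intro i x y hx hy
        cases i with
        | zero =>
          simp at hx hy
          rw [← hx, ← hy]
          exact hvw
        | succ i =>
          have e1 : 2 * (i + 1) = 2 * i + 1 + 1 := by ring
          have e2 : 2 * (i + 1) + 1 = (2 * i + 1) + 1 + 1 := by ring
          rw [e1, List.getElem?_cons_succ, List.getElem?_cons_succ] at hx
          rw [e2, List.getElem?_cons_succ, List.getElem?_cons_succ] at hy
          exact p5 i x y hx hy
      · intro x hx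
        apply p6 x
        rw [List.getLast?_cons_cons, List.getLast?_cons_cons] at hx
        exact hx
    · exact h.path q hq
  · intro x y t ht
    rw [List.mem_cons] at ht
    rcases ht with ht | ht
    · have : t = a :: p' := by
        have := congrArg (fun l => l.tail.tail) ht
        simpa using this
      rw [this]
      exact List.mem_cons_of_mem _ hp
    · exact List.mem_cons_of_mem _ (h.tail x y t ht)
  · intro q hq q' hq' hqq
    have hhead : ∀ r ∈ Ps, (w :: v :: a :: p').head? ≠ r.head? := by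
      intro r hr h1
      rw [List.head?_cons] at h1
      exact hw (hmem r hr w (List.mem_of_head? h1.symm))
    rw [List.mem_cons] at hq hq'
    rcases hq with rfl | hq
    · rcases hq' with rfl | hq'
      · rfl
      · exact absurd hqq (hhead q' hq')
    · rcases hq' with rfl | hq'
      · exact absurd hqq.symm (hhead q hq)
      · exact h.head q hq q' hq' hqq
  · intro q hq q' hq' z hz hz'
    rw [List.mem_cons] at hq hq'
    rcases hq with rfl | hq
    · rcases hq' with rfl | hq'
      · rfl
      · have h1 := hin q' hq' z hz hz'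
        rw [hdw z (hmem _ hp z h1)]
        exact h.suffix _ hp q' hq' z h1 hz'
    · rcases hq' with rfl | hq'
      · have h1 := hin q hq z hz' hz
        rw [hdw z (hmem _ hp z h1)]
        exact h.suffix q hq _ hp z hz h1
      · exact h.suffix q hq q' hq' z hz hz'

theorem good (hM : IsM V E M) {Ps : List (List α)} (h : Forest V E M Ps) : Good V E M Ps := by
  induction h with
  | base => exact good_base V E M
  | grow Ps p v w _ hp hvw hh' hv ih => exact good_grow hM ih hp hvw hh' hv

end

end TA6

section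
variable {α : Type} [DecidableEq α] {V : List α} {E M : List (α × α)} {Ps : List (List α)}

theorem forest_closed (hV : V.Nodup) (hE : LF E) (hM : IsM V E M) (h : Forest V E M Ps) {v w : α}
    (hvw : (v, w) ∈ both M) (hv : v ∈ Ps.flatten) : w ∈ Ps.flatten :=
  (TA6.good hM h).closed v w hvw hv

theorem forest_exps (hV : V.Nodup) (hE : LF E) (hM : IsM V E M) (h : Forest V E M Ps) {v : α}
    (hv : v ∈ V) (hv' : v ∉ ends M) : [v] ∈ Ps :=
  (TA6.good hM h).exps v hv hv'

theorem forest_path (hV : V.Nodup) (hE : LF E) (hM : IsM V E M) (h : Forest V E M Ps) {p : List α}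
    (hp : p ∈ Ps) : Odd p.length ∧ p.Nodup ∧ (∀ v ∈ p, v ∈ V) ∧
      (p.IsChain fun a b => adjB E a b = true) ∧
      (∀ i a b, p[2 * i]? = some a → p[2 * i + 1]? = some b → (b, a) ∈ both M) ∧
      ∀ v, p.getLast? = some v → v ∉ ends M :=
  (TA6.good hM h).path p hp

theorem forest_tail (hV : V.Nodup) (hE : LF E) (hM : IsM V E M) (h : Forest V E M Ps) {t : List α}
    {w v : α} (hp : w :: v :: t ∈ Ps) : t ∈ Ps :=
  (TA6.good hM h).tail w v t hp

theorem forest_head (hV : V.Nodup) (hE : LF E) (hM : IsM V E M) (h : Forest V E M Ps)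
    {p q : List α} (hp : p ∈ Ps) (hq : q ∈ Ps) (hpq : p.head? = q.head?) : p = q :=
  (TA6.good hM h).head p hp q hq hpq

theorem forest_suffix (hV : V.Nodup) (hE : LF E) (hM : IsM V E M) (h : Forest V E M Ps)
    {p q : List α} (hp : p ∈ Ps) (hq : q ∈ Ps) {z : α} (hz : z ∈ p) (hz' : z ∈ q) :
    p.dropWhile (fun x => !decide (x = z)) = q.dropWhile (fun x => !decide (x = z)) :=
  (TA6.good hM h).suffix p hp q hq z hz hz'

end

end Pool.Agent.H671R2.SF
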