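import Pool.Agent.H671R2.SF.TA4
import Pool.Agent.H671R2.SF.TA6

/-!
# A8 (helper912): augmentation along two disjoint paths with adjacent heads
-/

set_option autoImplicit false
set_option linter.unusedSectionVars false

namespace Pool.Agent.H671R2.SF

open Pool.Agent.NPC

section
variable {α : Type} [DecidableEq α] {V : List α} {E M N : List (α × α)}

namespace TA8

/-- alternating paths from an even vertex to an exposed vertex -/
inductive AP (M : List (α × α)) : List α → Prop
  | single (r : α) : r ∉ ends M → AP M [r]
  | step (w v : α) (p : List α) : (v, w) ∈ both M → AP M p → AP M (w :: v :: p)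

theorem AP.odd {p : List α} (h : AP M p) : Odd p.length := by
  induction h with
  | single r _ => simp
  | step w v p _ _ ih =>
    obtain ⟨k, hk⟩ := ih
    exact ⟨k + 1, by simp only [List.length_cons]; omega⟩

theorem AP.of_facts : ∀ (p : List α), Odd p.length →
    (∀ i a b, p[2 * i]? = some a → p[2 * i + 1]? = some b → (b, a) ∈ both M) →
    (∀ v, p.getLast? = some v → v ∉ ends M) → AP M p := by
  refine TA4.two_step ?_ ?_ ?_
  · intro h; simp at h
  · intro a _ _ h
    exact AP.single a (h a (by simp))
  · intro a b t ih h1 h2 h3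
    have hodd : Odd t.length := by
      simp only [List.length_cons] at h1
      rw [Nat.odd_iff] at h1 ⊢
      omega
    refine AP.step a b t (h2 0 a b (by simp) (by simp)) (ih hodd ?_ ?_)
    · intro i x y hx hy
      refine h2 (i + 1) x y ?_ ?_
      · have e : 2 * (i + 1) = 2 * i + 1 + 1 := by ring
        rw [e]; simpa using hx
      · have e : 2 * (i + 1) + 1 = 2 * i + 1 + 1 + 1 := by ring
        rw [e]; simpa using hy
    · intro v hv
      refine h3 v ?_
      cases t with
      | nil => simp at hodd
      | cons c t => rw [List.getLast?_cons_cons, List.getLast?_cons_cons]; exact hv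

theorem AP.of_forest (hV : V.Nodup) (hE : LF E) (hM : IsM V E M) {Ps : List (List α)}
    (h : Forest V E M Ps) {p : List α} (hp : p ∈ Ps) : AP M p := by
  obtain ⟨h1, -, -, -, h5, h6⟩ := forest_path hV hE hM h hp
  exact AP.of_facts p h1 h5 h6

theorem AP.closed (hM : (ends M).Nodup) {p : List α} (h : AP M p) {v w : α}
    (hvw : (v, w) ∈ both M) (hv : v ∈ p) : w ∈ p := by
  induction h with
  | single r hr =>
    rw [List.mem_singleton] at hv
    subst hv
    exact absurd (TA6.mem_ends.mpr ⟨w, hvw⟩) hr
  | step a b p hab _ ih =>
    simp only [List.mem_cons] at hv ⊢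
    rcases hv with rfl | rfl | hv
    · right; left
      exact TA6.mate_unique hM hvw (TA6.both_symm.1 hab)
    · left
      exact TA6.mate_unique hM hvw hab
    · right; right
      exact ih hv

theorem AP.exposed {p : List α} (h : AP M p) :
    (p.filter fun v => !decide (v ∈ ends M)).length = 1 := by
  induction h with
  | single r hr => simp [hr]
  | step a b p hab _ ih =>
    have ha : a ∈ ends M := TA6.mem_ends.mpr ⟨b, TA6.both_symm.1 hab⟩
    have hb : b ∈ ends M := TA6.mem_ends.mpr ⟨a, hab⟩
    rw [List.filter_cons_of_neg (by simp [ha]), List.filter_cons_of_neg (by simp [hb])]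
    exact ih

theorem AP.suffix {s : List α} : ∀ p₁ : List α, Even p₁.length → AP M (p₁ ++ s) → AP M s := by
  refine TA4.two_step ?_ ?_ ?_
  · intro _ h; exact h
  · intro a h; simp at h
  · intro a b t ih h1 h2
    have he : Even t.length := by
      simp only [List.length_cons] at h1
      rw [Nat.even_iff] at h1 ⊢
      omega
    rw [List.cons_append, List.cons_append] at h2
    cases h2 with
    | step _ _ _ _ h => exact ih he h

/-- the elements before an even split point are matched -/
theorem AP.prefix_mem {s : List α} : ∀ p₁ : List α, Even p₁.length → AP M (p₁ ++ s) →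
    ∀ v ∈ p₁, v ∈ ends M := by
  refine TA4.two_step ?_ ?_ ?_
  · intro _ _ v h; simp at h
  · intro a h; simp at h
  · intro a b t ih h1 h2
    have he : Even t.length := by
      simp only [List.length_cons] at h1
      rw [Nat.even_iff] at h1 ⊢
      omega
    rw [List.cons_append, List.cons_append] at h2
    cases h2 with
    | step _ _ _ hab h =>
      intro v hv
      simp only [List.mem_cons] at hv
      rcases hv with rfl | rfl | hv
      · exact TA6.mem_ends.mpr ⟨b, TA6.both_symm.1 hab⟩
      · exact TA6.mem_ends.mpr ⟨a, hab⟩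
      · exact ih he h v hv

theorem AP.odd_split {z : α} {t : List α} : ∀ p₁ : List α, Odd p₁.length →
    AP M (p₁ ++ z :: t) → ∃ x ∈ p₁, (z, x) ∈ both M := by
  refine TA4.two_step ?_ ?_ ?_
  · intro h; simp at h
  · intro a _ h
    rw [List.singleton_append] at h
    cases h with
    | step _ _ _ hab _ => exact ⟨a, by simp, hab⟩
  · intro a b s ih h1 h2
    have he : Odd s.length := by
      simp only [List.length_cons] at h1
      rw [Nat.odd_iff] at h1 ⊢
      omega
    rw [List.cons_append, List.cons_append] at h2
    cases h2 with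
    | step _ _ _ _ h =>
      obtain ⟨x, hx, hx'⟩ := ih he h
      exact ⟨x, by simp [hx], hx'⟩

theorem chain_reverse {p : List α} (h : p.IsChain fun a b => adjB E a b = true) :
    p.reverse.IsChain fun a b => adjB E a b = true := by
  rw [List.isChain_reverse]
  refine h.imp ?_
  intro a b hab
  show adjB E b a = true
  rw [TA6.adjB_symm]; exact hab

end TA8

section forest
variable {Ps : List (List α)}

theorem aug_spec (hV : V.Nodup) (hE : LF E) (hM : IsM V E M) (h : Forest V E M Ps) {p q : List α}
    (hp : p ∈ Ps) (hq : q ∈ Ps) (hpq : hh E p q = true) (hc : comm p q = []) :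
    IsM V E (relink (p.reverse ++ q) M) ∧
      (relink (p.reverse ++ q) M).length = M.length + 1 := by
  obtain ⟨-, hp2, hp3, hp4, -, -⟩ := forest_path hV hE hM h hp
  obtain ⟨-, hq2, hq3, hq4, -, -⟩ := forest_path hV hE hM h hq
  have hAp := TA8.AP.of_forest hV hE hM h hp
  have hAq := TA8.AP.of_forest hV hE hM h hq
  have hdis : ∀ v ∈ p, v ∉ q := by
    intro v hv hvq
    have : v ∈ comm p q := by
      unfold comm
      rw [List.mem_filter]
      exact ⟨hv, by simpa using hvq⟩
    rw [hc] at this
    simp at this
  have hnd : (p.reverse ++ q).Nodup := by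
    rw [List.nodup_append]
    refine ⟨List.nodup_reverse.mpr hp2, hq2, ?_⟩
    intro a ha b hb hab
    subst hab
    exact hdis a (List.mem_reverse.1 ha) hb
  have hch : (p.reverse ++ q).IsChain fun a b => adjB E a b = true := by
    rw [List.isChain_append]
    refine ⟨TA8.chain_reverse hp4, hq4, ?_⟩
    intro x hx y hy
    obtain ⟨a, b, ha, hb, hab⟩ := TA6.hh_iff.1 hpq
    rw [List.getLast?_reverse, ha] at hx
    rw [hb] at hy
    simp only [Option.mem_def, Option.some.injEq] at hx hy
    rw [← hx, ← hy]; exact hab
  have hcl : ∀ e ∈ M, e.1 ∈ p.reverse ++ q ↔ e.2 ∈ p.reverse ++ q := by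
    rintro ⟨a, b⟩ he
    have h1 : (a, b) ∈ both M := TA6.mem_both.2 (Or.inl he)
    have h2 : (b, a) ∈ both M := TA6.both_symm.1 h1
    simp only [List.mem_append, List.mem_reverse]
    constructor
    · rintro (h | h)
      · exact Or.inl (hAp.closed hM.2.1 h1 h)
      · exact Or.inr (hAq.closed hM.2.1 h1 h)
    · rintro (h | h)
      · exact Or.inl (hAp.closed hM.2.1 h2 h)
      · exact Or.inr (hAq.closed hM.2.1 h2 h)
  refine ⟨relink_isM hM hnd ?_ hch, ?_⟩
  · intro v hv
    simp only [List.mem_append, List.mem_reverse] at hv
    rcases hv with hv | hv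
    · exact hp3 v hv
    · exact hq3 v hv
  · have h1 := relink_length hM.2.1 hnd hcl
    rw [List.filter_append, List.length_append, List.length_append, List.length_reverse,
      List.filter_reverse, List.length_reverse, hAp.exposed, hAq.exposed] at h1
    obtain ⟨i, hi⟩ := hAp.odd
    obtain ⟨j, hj⟩ := hAq.odd
    omega

end forest

end

end Pool.Agent.H671R2.SF
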