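import Pool.Agent.H671R2.SF.BDefs

/-!
# Basic facts and the comparison theorem
-/

set_option autoImplicit false
set_option linter.unusedVariables false

namespace Pool.Agent.H671R2.SF

variable {I : Inst} {N M J : Finset (ℕ × ℕ)} {β : ℕ → ℕ}

theorem sL_le (h : Fe I N) {m w : ℕ} (he : (m, w) ∈ N) : sL I N m ≤ I.p m w := by
  unfold sL
  split_ifs with h1
  · exact Nat.zero_le _
  · exact Nat.sInf_le ⟨w, he, rfl⟩

theorem sR_le (h : Fe I N) {m w : ℕ} (he : (m, w) ∈ N) : sR I N w ≤ I.p w m := by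
  unfold sR
  split_ifs with h1
  · exact Nat.zero_le _
  · exact Nat.sInf_le ⟨m, he, rfl⟩

theorem sL_pos (hI : I.Good) (h : Fe I N) {m : ℕ} : 0 < sL I N m ↔ dL N m = I.c m := by
  unfold sL
  have h1 := h.2.1 m
  have h2 := hI.cpos m
  split_ifs with h3
  · constructor
    · intro h4; omega
    · intro h4; omega
  · constructor
    · intro _; omega
    · intro h4
      have hne : {k | ∃ w, (m, w) ∈ N ∧ k = I.p m w}.Nonempty := by
        have h5 : 0 < dL N m := by omega
        obtain ⟨⟨a, b⟩, hab⟩ := Finset.card_pos.1 h5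
        rw [Finset.mem_filter] at hab
        obtain ⟨hab, rfl⟩ := hab
        exact ⟨_, b, hab, rfl⟩
      obtain ⟨w, hw, he⟩ := Nat.sInf_mem hne
      rw [he]
      exact h.1 _ _ hw

theorem sR_pos (hI : I.Good) (h : Fe I N) {w : ℕ} : 0 < sR I N w ↔ dR N w = I.c w := by
  unfold sR
  have h1 := h.2.2 w
  have h2 := hI.cpos w
  split_ifs with h3
  · constructor
    · intro h4; omega
    · intro h4; omega
  · constructor
    · intro _; omega
    · intro h4
      have hne : {k | ∃ m, (m, w) ∈ N ∧ k = I.p w m}.Nonempty := by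
        have h5 : 0 < dR N w := by omega
        obtain ⟨⟨a, b⟩, hab⟩ := Finset.card_pos.1 h5
        rw [Finset.mem_filter] at hab
        obtain ⟨hab, rfl⟩ := hab
        exact ⟨_, a, hab, rfl⟩
      obtain ⟨m, hm, he⟩ := Nat.sInf_mem hne
      rw [he]
      exact hI.symm _ _ (h.1 _ _ hm)

theorem dR_swap (v : ℕ) : dR (N.image Prod.swap) v = dL N v := by
  unfold dR dL
  rw [Finset.filter_image, Finset.card_image_of_injective _ Prod.swap_injective]
  rfl

theorem dL_swap (v : ℕ) : dL (N.image Prod.swap) v = dR N v := by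
  unfold dR dL
  rw [Finset.filter_image, Finset.card_image_of_injective _ Prod.swap_injective]
  rfl

theorem mem_swap {a b : ℕ} : (a, b) ∈ N.image Prod.swap ↔ (b, a) ∈ N := by
  rw [Finset.mem_image]
  constructor
  · rintro ⟨⟨x, y⟩, h, he⟩
    simp only [Prod.swap_prod_mk, Prod.mk.injEq] at he
    obtain ⟨rfl, rfl⟩ := he
    exact h
  · intro h
    exact ⟨(b, a), h, rfl⟩

theorem swap_sL (v : ℕ) : sL I (N.image Prod.swap) v = sR I N v := by
  unfold sL sR
  rw [dL_swap]
  simp only [mem_swap]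

theorem swap_sR (v : ℕ) : sR I (N.image Prod.swap) v = sL I N v := by
  unfold sL sR
  rw [dR_swap]
  simp only [mem_swap]

theorem swap_of_sym (hs : Sym M) : M.image Prod.swap = M := by
  ext ⟨a, b⟩
  rw [mem_swap]
  exact ⟨fun h => hs _ _ h, fun h => hs _ _ h⟩

theorem sym_state (hs : Sym M) (v : ℕ) : sR I M v = sL I M v := by
  rw [← swap_sL, swap_of_sym hs]

theorem swap_Fe (hI : I.Good) (h : Fe I N) : Fe I (N.image Prod.swap) := by
  refine ⟨fun m w hmw => ?_, fun m => ?_, fun w => ?_⟩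
  · exact hI.symm _ _ (h.1 _ _ (mem_swap.1 hmw))
  · rw [dL_swap]; exact h.2.2 m
  · rw [dR_swap]; exact h.2.1 w

/-- the two filters of the comparison theorem -/
theorem cmp_aux (hI : I.Good) {N1 N2 : Finset (ℕ × ℕ)} (h1 : SS I N1) (h2 : SS I N2) {m w : ℕ}
    (hm : sL I N2 m < sL I N1 m) (he : (m, w) ∈ N1) (hn : (m, w) ∉ N2) :
    sR I N1 w < sR I N2 w := by
  have hp : 0 < I.p m w := h1.1.1 _ _ he
  have ha := sL_le h1.1 he
  have hb := sR_le h1.1 he
  rcases h2.2 m w hp hn with h | h | h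
  · omega
  · omega
  · omega

theorem cmp_aux' (hI : I.Good) {N1 N2 : Finset (ℕ × ℕ)} (h1 : SS I N1) (h2 : SS I N2) {m w : ℕ}
    (hw : sR I N1 w < sR I N2 w) (he : (m, w) ∈ N2) (hn : (m, w) ∉ N1) :
    sL I N2 m < sL I N1 m := by
  have hp : 0 < I.p m w := h2.1.1 _ _ he
  have ha := sL_le h2.1 he
  have hb := sR_le h2.1 he
  rcases h1.2 m w hp hn with h | h | h
  · omega
  · omega
  · omega

theorem card_sdiff_fibre {N1 N2 : Finset (ℕ × ℕ)} (P : ℕ × ℕ → Prop) [DecidablePred P] :
    (N1.filter P).card + ((N2 \ N1).filter P).card =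
      (N2.filter P).card + ((N1 \ N2).filter P).card := by
  have e1 : (N1.filter P).card = ((N1 ∩ N2).filter P).card + ((N1 \ N2).filter P).card := by
    rw [← Finset.card_union_of_disjoint, ← Finset.filter_union]
    · congr 2
      ext x
      simp only [Finset.mem_union, Finset.mem_inter, Finset.mem_sdiff]
      tauto
    · rw [Finset.disjoint_left]
      intro x hx hy
      simp only [Finset.mem_filter, Finset.mem_inter, Finset.mem_sdiff] at hx hy
      exact hy.1.2 hx.1.2
  have e2 : (N2.filter P).card = ((N1 ∩ N2).filter P).card + ((N2 \ N1).filter P).card := by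
    rw [← Finset.card_union_of_disjoint, ← Finset.filter_union]
    · congr 2
      ext x
      simp only [Finset.mem_union, Finset.mem_inter, Finset.mem_sdiff]
      tauto
    · rw [Finset.disjoint_left]
      intro x hx hy
      simp only [Finset.mem_filter, Finset.mem_inter, Finset.mem_sdiff] at hx hy
      exact hy.1.2 hx.1.1
  omega

theorem card_filter_comp (A : Finset (ℕ × ℕ)) (f : ℕ × ℕ → ℕ) (S : ℕ → Prop) [DecidablePred S]
    (t : Finset ℕ) (ht : ∀ e ∈ A, f e ∈ t) :
    (A.filter fun e => S (f e)).card = ∑ m ∈ t.filter S, (A.filter fun e => f e = m).card := by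
  rw [Finset.card_eq_sum_card_fiberwise (f := f) (t := t.filter S)]
  · apply Finset.sum_congr rfl
    intro m hm
    congr 1
    ext x
    simp only [Finset.mem_filter]
    rw [Finset.mem_filter] at hm
    constructor
    · rintro ⟨⟨h1, h2⟩, h3⟩
      exact ⟨h1, h3⟩
    · rintro ⟨h1, h3⟩
      exact ⟨⟨h1, h3 ▸ hm.2⟩, h3⟩
  · intro x hx
    have hx' := Finset.mem_filter.1 (Finset.mem_coe.1 hx)
    exact Finset.mem_coe.2 (Finset.mem_filter.2 ⟨ht x hx'.1, hx'.2⟩)

theorem fibre_le (A B : Finset (ℕ × ℕ)) (f : ℕ × ℕ → ℕ) (S : ℕ → Prop) [DecidablePred S]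
    (h : ∀ m, S m → (A.filter fun e => f e = m).card ≤ (B.filter fun e => f e = m).card) :
    (A.filter fun e => S (f e)).card ≤ (B.filter fun e => S (f e)).card := by
  rw [card_filter_comp A f S (A.image f ∪ B.image f)
    (fun e he => Finset.mem_union_left _ (Finset.mem_image_of_mem f he)),
    card_filter_comp B f S (A.image f ∪ B.image f)
    (fun e he => Finset.mem_union_right _ (Finset.mem_image_of_mem f he))]
  exact Finset.sum_le_sum fun m hm => h m (Finset.mem_filter.1 hm).2

theorem cmp (hI : I.Good) {N1 N2 : Finset (ℕ × ℕ)} (h1 : SS I N1) (h2 : SS I N2) {m w : ℕ}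
    (h : ((m, w) ∈ N1 ∧ (m, w) ∉ N2) ∨ ((m, w) ∉ N1 ∧ (m, w) ∈ N2)) :
    sL I N2 m < sL I N1 m ↔ sR I N1 w < sR I N2 w := by
  classical
  -- the two sides
  set B1 : ℕ → Prop := fun m => sL I N2 m < sL I N1 m with hB1
  set B2 : ℕ → Prop := fun w => sR I N1 w < sR I N2 w with hB2
  have s1 : ((N1 \ N2).filter fun e => B1 e.1) ⊆ ((N1 \ N2).filter fun e => B2 e.2) := by
    intro e he
    rw [Finset.mem_filter, Finset.mem_sdiff] at he ⊢
    exact ⟨he.1, cmp_aux hI h1 h2 he.2 he.1.1 he.1.2⟩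
  have s2 : ((N2 \ N1).filter fun e => B2 e.2) ⊆ ((N2 \ N1).filter fun e => B1 e.1) := by
    intro e he
    rw [Finset.mem_filter, Finset.mem_sdiff] at he ⊢
    exact ⟨he.1, cmp_aux' hI h1 h2 he.2 he.1.1 he.1.2⟩
  have c1 : ((N1 \ N2).filter fun e => B2 e.2).card ≤ ((N2 \ N1).filter fun e => B2 e.2).card := by
    refine fibre_le _ _ Prod.snd B2 fun w hw => ?_
    have hfull : dR N2 w = I.c w := (sR_pos hI h2.1).1 (by simp only [hB2] at hw; omega)
    have hle := h1.1.2.2 w
    have := card_sdiff_fibre (N1 := N1) (N2 := N2) (fun e => e.2 = w)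
    unfold dR at hfull hle
    omega
  have c2 : ((N2 \ N1).filter fun e => B1 e.1).card ≤ ((N1 \ N2).filter fun e => B1 e.1).card := by
    refine fibre_le _ _ Prod.fst B1 fun m hm => ?_
    have hfull : dL N1 m = I.c m := (sL_pos hI h1.1).1 (by simp only [hB1] at hm; omega)
    have hle := h2.1.2.1 m
    have := card_sdiff_fibre (N1 := N1) (N2 := N2) (fun e => e.1 = m)
    unfold dL at hfull hle
    omega
  have k1 := Finset.card_le_card s1
  have k2 := Finset.card_le_card s2
  have e1 := Finset.eq_of_subset_of_card_le s1 (by omega)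
  have e2 := Finset.eq_of_subset_of_card_le s2 (by omega)
  rcases h with ⟨ha, hb⟩ | ⟨ha, hb⟩
  · constructor
    · exact fun hm => cmp_aux hI h1 h2 hm ha hb
    · intro hw
      have : (m, w) ∈ ((N1 \ N2).filter fun e => B1 e.1) := by
        rw [e1, Finset.mem_filter, Finset.mem_sdiff]
        exact ⟨⟨ha, hb⟩, hw⟩
      exact (Finset.mem_filter.1 this).2
  · constructor
    · intro hm
      have : (m, w) ∈ ((N2 \ N1).filter fun e => B2 e.2) := by
        rw [e2, Finset.mem_filter, Finset.mem_sdiff]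
        exact ⟨⟨hb, ha⟩, hm⟩
      exact (Finset.mem_filter.1 this).2
    · exact fun hw => cmp_aux' hI h1 h2 hw hb ha

theorem swap_SS (hI : I.Good) (h : SS I N) : SS I (N.image Prod.swap) := by
  refine ⟨swap_Fe hI h.1, fun m w hp hn => ?_⟩
  rw [swap_sL, swap_sR]
  rcases h.2 w m (hI.symm _ _ hp) (fun h' => hn (mem_swap.2 h')) with h' | h' | h'
  · exact Or.inr (Or.inl h')
  · exact Or.inl h'
  · exact Or.inr (Or.inr ⟨h'.2, h'.1⟩)

end Pool.Agent.H671R2.SF
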