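import Pool.Agent.H671R2.SF.TB9

/-!
# The end of the main loop
-/

set_option autoImplicit false
set_option linter.unusedVariables false

namespace Pool.Agent.H671R2.SF

variable {I : Inst} {N M J : Finset (ℕ × ℕ)} {β : ℕ → ℕ}

theorem sym_dR {X : Finset (ℕ × ℕ)} (h : Sym X) (v : ℕ) : dR X v = dL X v := by
  rw [← dL_swap, swap_of_sym h]

theorem eq_all (hI : I.Good) (hβ : Good2 I β) (heq : ∀ v < I.n, β v = al I β v) (v : ℕ) :
    β v = al I β v := by
  rcases Nat.lt_or_ge v I.n with h | h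
  · exact heq v h
  · rw [hβ.2.2.1 v h, al_big hI h]

theorem sym_PP (hI : I.Good) (he : ∀ v, β v = al I β v) : Sym (PP I β) := by
  intro a b hab
  rw [mem_PP hI] at hab ⊢
  have h1 := he a
  have h2 := he b
  exact ⟨hI.symm _ _ hab.1, by omega, by omega⟩

theorem sym_FF (hI : I.Good) (he : ∀ v, β v = al I β v) : Sym (FF I β) := by
  intro a b hab
  rw [mem_FF] at hab ⊢
  have h1 := he a
  have h2 := he b
  exact ⟨sym_PP hI he _ _ hab.1, by omega⟩

theorem sym_union {A B : Finset (ℕ × ℕ)} (hA : Sym A) (hB : Sym B) : Sym (A ∪ B) := by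
  intro a b hab
  rw [Finset.mem_union] at hab ⊢
  exact hab.imp (hA a b) (hB a b)

theorem final_sound (hI : I.Good) (hβ : Good2 I β) (heq : ∀ v < I.n, β v = al I β v)
    {X : Finset (ℕ × ℕ)} (hX : X ⊆ HH I β) (hs : Sym X) (hd : ∀ m, dL X m = dmL I β m) :
    Sym (FF I β ∪ X) ∧ SS I (FF I β ∪ X) := by
  have he := eq_all hI hβ heq
  refine ⟨sym_union (sym_FF hI he) hs, ?_⟩
  refine (J_of hI hβ.1 hβ.2.2.1 hβ.2.1 hX hd fun w => ?_).1
  rw [sym_dR hs, hd]
  unfold dmL dmR
  rw [sym_dR (sym_FF hI he)]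
  split_ifs <;> omega

theorem final_complete (hI : I.Good) (hβ : Good2 I β) (heq : ∀ v < I.n, β v = al I β v)
    (hs : Sym M) (hM : SS I M) (hb : ∀ v, sL I M v = β v) :
    ∃ X, X ⊆ HH I β ∧ Sym X ∧ ∀ m, dL X m = dmL I β m := by
  have he := eq_all hI hβ heq
  have hsR : ∀ v, sR I M v = β v := fun v => by rw [sym_state hs, hb]
  have hMP : M ⊆ PP I β := by
    rintro ⟨a, b⟩ hab
    rw [mem_PP hI]
    have h1 := sL_le hM.1 hab
    have h2 := sR_le hM.1 hab
    have h3 := hb a
    have h4 := hsR b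
    have h5 := he a
    exact ⟨hM.1.1 _ _ hab, by omega, by omega⟩
  have hFM : FF I β ⊆ M := by
    rintro ⟨a, b⟩ hab
    exact fact_a hI hM (fun w => (hsR w).ge) (hsR b) hab
  refine ⟨M \ FF I β, ?_, ?_, fun m => ?_⟩
  · rintro ⟨a, b⟩ hab
    rw [Finset.mem_sdiff] at hab
    have h1 := hMP hab.1
    have h2 : (a, b) ∈ FF I β ∪ HH I β := by
      rw [FF_union]
      exact h1
    exact (Finset.mem_union.1 h2).resolve_left hab.2
  · intro a b hab
    rw [Finset.mem_sdiff] at hab ⊢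
    exact ⟨hs _ _ hab.1, fun h => hab.2 (sym_FF hI he _ _ h)⟩
  · have hdis : Disjoint (FF I β) (M \ FF I β) := Finset.disjoint_sdiff
    have hun : FF I β ∪ (M \ FF I β) = M := Finset.union_sdiff_of_subset hFM
    have h1 : dL M m = dL (FF I β) m + dL (M \ FF I β) m := by
      rw [← dL_union hdis, hun]
    unfold dmL
    split_ifs with h
    · have h2 := dL_PP_lt (β := β) hI h
      have h3 := dL_HH_zero (β := β) hI h
      have h4 := dL_FF_HH (I := I) (β := β) m
      have h5 := dL_mono hMP m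
      omega
    · have h2 := (sL_pos hI hM.1).1 (show 0 < sL I M m by have := hb m; have := he m; omega)
      omega

end Pool.Agent.H671R2.SF
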