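import Pool.Agent.H671R2.SF.TB1

/-!
# The median lemma
-/

set_option autoImplicit false
set_option linter.unusedVariables false

namespace Pool.Agent.H671R2.SF

variable {I : Inst} {N M J : Finset (ℕ × ℕ)} {β : ℕ → ℕ}

theorem dL_congr {A B : Finset (ℕ × ℕ)} {a : ℕ} (h : ∀ b, (a, b) ∈ A ↔ (a, b) ∈ B) :
    dL A a = dL B a := by
  unfold dL
  congr 1
  ext ⟨x, y⟩
  simp only [Finset.mem_filter]
  constructor
  · rintro ⟨h1, rfl⟩; exact ⟨(h y).1 h1, rfl⟩
  · rintro ⟨h1, rfl⟩; exact ⟨(h y).2 h1, rfl⟩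

theorem sL_congr {A B : Finset (ℕ × ℕ)} {a : ℕ} (h : ∀ b, (a, b) ∈ A ↔ (a, b) ∈ B) :
    sL I A a = sL I B a := by
  unfold sL
  rw [dL_congr h]
  simp only [h]

theorem median (hI : I.Good) (hs : Sym M) (hM : SS I M) (hJ : SS I J)
    (hle : ∀ v, sR I J v ≤ sL I J v) :
    ∃ M', Sym M' ∧ SS I M' ∧ ∀ v, sR I J v ≤ sL I M' v ∧ sL I M' v ≤ sL I J v := by
  classical
  have hsR : ∀ v, sR I M v = sL I M v := sym_state hs
  set U : ℕ → Prop := fun u => sL I J u < sL I M u with hU
  set D : ℕ → Prop := fun v => sL I M v < sR I J v with hD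
  have hUD : ∀ v, U v → D v → False := by
    intro v h1 h2
    have := hle v
    simp only [hU, hD] at h1 h2
    omega
  -- comparison, in both orientations
  have key : ∀ a b, ¬ ((a, b) ∈ M ↔ (a, b) ∈ J) → (U a ↔ D b) := by
    intro a b hab
    have h := cmp hI hM hJ (m := a) (w := b) (by tauto)
    rw [hsR] at h
    exact h
  have key' : ∀ a b, U a → ¬ D b → ((a, b) ∈ M ↔ (a, b) ∈ J) := by
    intro a b h1 h2
    by_contra h
    exact h2 ((key a b h).1 h1)
  have key'' : ∀ a b, ¬ U a → D b → ((a, b) ∈ M ↔ (a, b) ∈ J) := by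
    intro a b h1 h2
    by_contra h
    exact h1 ((key a b h).2 h2)
  have hsym : ∀ a b, (a, b) ∈ M ↔ (b, a) ∈ M := fun a b => ⟨hs a b, hs b a⟩
  set R : ℕ → ℕ → Prop := fun a b => if U a ∨ D b then (a, b) ∈ J else
    if U b ∨ D a then (b, a) ∈ J else (a, b) ∈ M with hR
  have hRsym : ∀ a b, R a b → R b a := by
    intro a b h
    simp only [hR] at h ⊢
    by_cases c1 : U a ∨ D b
    · rw [if_pos c1] at h
      by_cases c2 : U b ∨ D a
      · rw [if_pos c2]
        -- both in U or both in D
        rcases c1 with ha | hb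
        · rcases c2 with hb | ha'
          · have nb : ¬ D b := fun h' => hUD b hb h'
            have na : ¬ D a := fun h' => hUD a ha h'
            have h1 := (key' a b ha nb).2 h
            exact (key' b a hb na).1 ((hsym a b).1 h1)
          · exact (hUD a ha ha').elim
        · rcases c2 with hb' | ha
          · exact (hUD b hb' hb).elim
          · have nb : ¬ U b := fun h' => hUD b h' hb
            have na : ¬ U a := fun h' => hUD a h' ha
            have h1 := (key'' a b na hb).2 h
            exact (key'' b a nb ha).1 ((hsym a b).1 h1)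
      · rw [if_neg c2, if_pos c1]
        exact h
    · rw [if_neg c1] at h
      by_cases c2 : U b ∨ D a
      · rw [if_pos c2] at h ⊢
        exact h
      · rw [if_neg c2] at h ⊢
        rw [if_neg c1]
        exact (hsym a b).1 h
  set M' : Finset (ℕ × ℕ) := (M ∪ J ∪ J.image Prod.swap).filter fun e => R e.1 e.2 with hM'
  have hmem : ∀ a b, (a, b) ∈ M' ↔ R a b := by
    intro a b
    rw [hM', Finset.mem_filter]
    constructor
    · exact fun h => h.2
    · intro h
      refine ⟨?_, h⟩
      simp only [Finset.mem_union, mem_swap]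
      simp only [hR] at h
      split_ifs at h
      · exact Or.inl (Or.inr h)
      · exact Or.inr h
      · exact Or.inl (Or.inl h)
  have hS' : Sym M' := fun a b h => (hmem b a).2 (hRsym a b ((hmem a b).1 h))
  -- fibres
  have fU : ∀ a, U a → ∀ b, (a, b) ∈ M' ↔ (a, b) ∈ J := by
    intro a ha b
    rw [hmem]
    simp only [hR]
    rw [if_pos (Or.inl ha)]
  have fD : ∀ a, D a → ∀ b, (a, b) ∈ M' ↔ (b, a) ∈ J := by
    intro a ha b
    have h1 : (a, b) ∈ M' ↔ (b, a) ∈ M' := ⟨hS' a b, hS' b a⟩
    rw [h1, hmem]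
    simp only [hR]
    rw [if_pos (Or.inr ha)]
  have fN : ∀ a, ¬ U a → ¬ D a → ∀ b, (a, b) ∈ M' ↔ (a, b) ∈ M := by
    intro a ha ha' b
    rw [hmem]
    simp only [hR]
    by_cases c1 : U a ∨ D b
    · rw [if_pos c1]
      rcases c1 with h | h
      · exact (ha h).elim
      · exact (key'' a b ha h).symm
    · rw [if_neg c1]
      by_cases c2 : U b ∨ D a
      · rw [if_pos c2]
        rcases c2 with h | h
        · rw [hsym a b]
          exact (key' b a h ha').symm
        · exact (ha' h).elim
      · rw [if_neg c2]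
  have sU : ∀ a, U a → sL I M' a = sL I J a := fun a ha => sL_congr (fU a ha)
  have sD : ∀ a, D a → sL I M' a = sR I J a := by
    intro a ha
    rw [← swap_sL]
    exact sL_congr fun b => (fD a ha b).trans mem_swap.symm
  have sN : ∀ a, ¬ U a → ¬ D a → sL I M' a = sL I M a := fun a ha ha' => sL_congr (fN a ha ha')
  have hdeg : ∀ a, dL M' a ≤ I.c a := by
    intro a
    by_cases ha : U a
    · rw [dL_congr (fU a ha)]; exact hJ.1.2.1 a
    · by_cases ha' : D a
      · have : dL M' a = dL (J.image Prod.swap) a :=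
          dL_congr fun b => (fD a ha' b).trans mem_swap.symm
        rw [this, dL_swap]; exact hJ.1.2.2 a
      · rw [dL_congr (fN a ha ha')]; exact hM.1.2.1 a
  have hpos : ∀ a b, (a, b) ∈ M' → 0 < I.p a b := by
    intro a b h
    rw [hmem] at h
    simp only [hR] at h
    split_ifs at h
    · exact hJ.1.1 _ _ h
    · exact hI.symm _ _ (hJ.1.1 _ _ h)
    · exact hM.1.1 _ _ h
  have hdegR : ∀ a, dR M' a ≤ I.c a := by
    intro a
    rw [← dL_swap, swap_of_sym hS']
    exact hdeg a
  have lo : ∀ a, sR I J a ≤ sL I M' a := by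
    intro a
    by_cases ha : U a
    · rw [sU a ha]; exact hle a
    · by_cases ha' : D a
      · rw [sD a ha']
      · rw [sN a ha ha']; simp only [hD] at ha'; omega
  have hi : ∀ a, sL I M' a ≤ sL I J a := by
    intro a
    by_cases ha : U a
    · rw [sU a ha]
    · by_cases ha' : D a
      · rw [sD a ha']; exact hle a
      · rw [sN a ha ha']; simp only [hU] at ha; omega
  have loM : ∀ a, ¬ U a → sL I M a ≤ sL I M' a := by
    intro a ha
    by_cases ha' : D a
    · rw [sD a ha']; simp only [hD] at ha'; omega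
    · rw [sN a ha ha']
  refine ⟨M', hS', ⟨⟨hpos, hdeg, hdegR⟩, ?_⟩, fun v => ⟨lo v, hi v⟩⟩
  intro a b hp hn
  rw [sym_state hS']
  -- monotonicity
  have mono : ∀ x y x' y' : ℕ, x ≤ x' → y ≤ y' →
      (I.p a b < x ∨ I.p b a < y ∨ (I.p a b = x ∧ I.p b a = y)) →
      (I.p a b < x' ∨ I.p b a < y' ∨ (I.p a b = x' ∧ I.p b a = y')) := by
    intro x y x' y' h1 h2 h3
    omega
  by_cases hUa : U a
  · have h1 : (a, b) ∉ J := fun h => hn ((fU a hUa b).2 h)
    have h2 := hJ.2 a b hp h1
    exact mono _ _ _ _ (sU a hUa).ge (lo b) h2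
  · by_cases hUb : U b
    · have h1 : (b, a) ∉ J := fun h => hn (hS' _ _ ((fU b hUb a).2 h))
      have h2 := hJ.2 b a (hI.symm _ _ hp) h1
      refine mono (sR I J a) (sL I J b) _ _ (lo a) (sU b hUb).ge ?_
      rcases h2 with h | h | h
      · exact Or.inr (Or.inl h)
      · exact Or.inl h
      · exact Or.inr (Or.inr ⟨h.2, h.1⟩)
    · have h1 : (a, b) ∉ M := by
        intro h
        apply hn
        by_cases hDa : D a
        · rw [fD a hDa b]
          exact (key'' b a hUb hDa).1 ((hsym a b).1 h)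
        · by_cases hDb : D b
          · apply hS'
            rw [fD b hDb a]
            exact (key'' a b hUa hDb).1 h
          · exact (fN a hUa hDa b).2 h
      have h2 := hM.2 a b hp h1
      rw [hsR] at h2
      exact mono _ _ _ _ (loM a hUa) (loM b hUb) h2

end Pool.Agent.H671R2.SF
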