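import Pool.Agent.H671R2.SF.TB1

/-!
# Left states
-/

set_option autoImplicit false
set_option linter.unusedVariables false

namespace Pool.Agent.H671R2.SF

variable {I : Inst} {N M J : Finset (ℕ × ℕ)} {β : ℕ → ℕ}

theorem lt_card_filter (n : ℕ) (P : ℕ → Prop) [DecidablePred P] (h1 : ∀ i j, i ≤ j → P j → P i)
    (h2 : ∀ k, P k → k < n) (k : ℕ) : k < ((Finset.range n).filter P).card ↔ P k := by
  constructor
  · intro h
    by_contra hk
    have hs : (Finset.range n).filter P ⊆ Finset.range k := by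
      intro i hi
      rw [Finset.mem_filter, Finset.mem_range] at hi
      rw [Finset.mem_range]
      by_contra hc
      exact hk (h1 k i (by omega) hi.2)
    have := Finset.card_le_card hs
    rw [Finset.card_range] at this
    omega
  · intro h
    have hs : Finset.range (k + 1) ⊆ (Finset.range n).filter P := by
      intro i hi
      rw [Finset.mem_range] at hi
      rw [Finset.mem_filter, Finset.mem_range]
      have hk := h2 k h
      exact ⟨by omega, h1 i k (by omega) h⟩
    have := Finset.card_le_card hs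
    rw [Finset.card_range] at this
    omega

theorem al_iff (hI : I.Good) (β : ℕ → ℕ) (m k : ℕ) :
    k < al I β m ↔ I.c m ≤ ((av I β m).filter fun w => k < I.p m w).card := by
  unfold al
  refine lt_card_filter I.n (fun k => I.c m ≤ ((av I β m).filter fun w => k < I.p m w).card)
    ?_ ?_ k
  · intro i j hij h
    refine le_trans h (Finset.card_le_card ?_)
    intro w hw
    rw [Finset.mem_filter] at hw ⊢
    exact ⟨hw.1, by omega⟩
  · intro k h
    have h1 := hI.cpos m
    have h2 : 0 < ((av I β m).filter fun w => k < I.p m w).card := by omega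
    obtain ⟨w, hw⟩ := Finset.card_pos.1 h2
    rw [Finset.mem_filter] at hw
    have := hI.le m w
    omega

theorem al_le (β : ℕ → ℕ) (m : ℕ) : al I β m ≤ I.n := by
  unfold al
  refine le_trans (Finset.card_filter_le _ _) ?_
  rw [Finset.card_range]

theorem dL_eq_card (N : Finset (ℕ × ℕ)) (m : ℕ) :
    dL N m = ((N.filter fun e => e.1 = m).image Prod.snd).card := by
  unfold dL
  rw [Finset.card_image_of_injOn]
  rintro ⟨a, b⟩ h1 ⟨c, d⟩ h2 h
  simp only [Finset.coe_filter, Set.mem_ofPred_eq] at h1 h2 h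
  ext
  · rw [h1.2, h2.2]
  · exact h

theorem dR_eq_card (N : Finset (ℕ × ℕ)) (w : ℕ) :
    dR N w = ((N.filter fun e => e.2 = w).image Prod.fst).card := by
  unfold dR
  rw [Finset.card_image_of_injOn]
  rintro ⟨a, b⟩ h1 ⟨c, d⟩ h2 h
  simp only [Finset.coe_filter, Set.mem_ofPred_eq] at h1 h2 h
  ext
  · exact h
  · rw [h1.2, h2.2]

theorem mem_av (hI : I.Good) {m w : ℕ} : w ∈ av I β m ↔ 0 < I.p m w ∧ β w ≤ I.p w m := by
  unfold av
  rw [Finset.mem_filter, Finset.mem_range]
  constructor
  · rintro ⟨_, h⟩; exact h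
  · intro h; exact ⟨(hI.lt _ _ h.1).2, h⟩

theorem mem_PP (hI : I.Good) {m w : ℕ} :
    (m, w) ∈ PP I β ↔ 0 < I.p m w ∧ β w ≤ I.p w m ∧ al I β m ≤ I.p m w := by
  unfold PP
  rw [Finset.mem_filter, Finset.mem_product, Finset.mem_range, Finset.mem_range]
  constructor
  · rintro ⟨_, h⟩; exact h
  · intro h; exact ⟨hI.lt _ _ h.1, h⟩

theorem mem_FF {m w : ℕ} :
    (m, w) ∈ FF I β ↔ (m, w) ∈ PP I β ∧ (al I β m < I.p m w ∨ β w < I.p w m) := by
  unfold FF
  rw [Finset.mem_filter]

theorem mem_HH (hI : I.Good) {m w : ℕ} :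
    (m, w) ∈ HH I β ↔ 0 < I.p m w ∧ al I β m = I.p m w ∧ β w = I.p w m := by
  unfold HH
  rw [Finset.mem_filter, mem_PP hI]
  constructor
  · rintro ⟨⟨h1, h2, h3⟩, h4⟩
    simp only at h4
    omega
  · rintro ⟨h1, h2, h3⟩
    simp only
    omega

theorem sL_le_al (hI : I.Good) (hN : Fe I N) (hβ : ∀ w, β w ≤ sR I N w) (m : ℕ) :
    sL I N m ≤ al I β m := by
  by_contra hc
  have hc' : al I β m < sL I N m := by omega
  have hfull := (sL_pos hI hN).1 (show 0 < sL I N m by omega)
  have hnot : ¬ (al I β m < al I β m) := by omega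
  rw [al_iff hI] at hnot
  apply hnot
  rw [← hfull, dL_eq_card]
  apply Finset.card_le_card
  intro w hw
  rw [Finset.mem_image] at hw
  obtain ⟨⟨a, b⟩, hab, rfl⟩ := hw
  rw [Finset.mem_filter] at hab
  obtain ⟨hab, rfl⟩ := hab
  rw [Finset.mem_filter, mem_av hI]
  have h1 := sL_le hN hab
  have h2 := sR_le hN hab
  have h3 := hβ b
  exact ⟨⟨hN.1 _ _ hab, by simp only; omega⟩, by simp only; simp only at hc'; omega⟩

end Pool.Agent.H671R2.SF
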