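import Pool.Agent.H671R2.SF.TB3

/-!
# Part B, task B4: soundness of raising
-/

set_option autoImplicit false

namespace Pool.Agent.H671R2.SF

variable {I : Inst} {N M J : Finset (ℕ × ℕ)} {β : ℕ → ℕ}

theorem mem_PP_nat {m w : ℕ} : (m, w) ∈ PP I β ↔
    (m < I.n ∧ w < I.n) ∧ 0 < I.p m w ∧ β w ≤ I.p w m ∧ al I β m ≤ I.p m w := by
  simp only [PP, Finset.mem_filter, Finset.mem_product, Finset.mem_range]

theorem mem_FF_nat {m w : ℕ} : (m, w) ∈ FF I β ↔
    (m, w) ∈ PP I β ∧ (al I β m < I.p m w ∨ β w < I.p w m) := by
  simp only [FF, Finset.mem_filter]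

theorem mem_HH_nat {m w : ℕ} : (m, w) ∈ HH I β ↔
    (m, w) ∈ PP I β ∧ ¬ (al I β m < I.p m w ∨ β w < I.p w m) := by
  simp only [HH, Finset.mem_filter]

theorem fact_a (hI : I.Good) (hN : SS I N) (hβ : ∀ w, β w ≤ sR I N w) {m w : ℕ}
    (hw : sR I N w = β w) (he : (m, w) ∈ FF I β) : (m, w) ∈ N := by
  by_contra hn
  rw [mem_FF_nat, mem_PP_nat] at he
  have h1 := sL_le_al hI hN.1 hβ m
  have h2 := hN.2 m w he.1.2.1 hn
  omega

theorem fact_b (hI : I.Good) (hN : SS I N) (hβ : ∀ w, β w ≤ sR I N w) {m w : ℕ}
    (hw : sR I N w = β w) (he : (m, w) ∈ HH I β) (hn : (m, w) ∉ N) : sL I N m = al I β m := by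
  rw [mem_HH_nat, mem_PP_nat] at he
  have h1 := sL_le_al hI hN.1 hβ m
  have h2 := hN.2 m w he.1.2.1 hn
  omega

theorem fact_c (hI : I.Good) (hN : SS I N) (hβ : ∀ w, β w ≤ sR I N w) {m w : ℕ}
    (hm : sL I N m = al I β m) (he : (m, w) ∈ N) (hw : sR I N w ≠ β w) : (m, w) ∈ FF I β := by
  have h1 := sL_le hN.1 he
  have h2 := sR_le hN.1 he
  have h3 := hβ w
  have h4 := hN.1.1 m w he
  rw [mem_FF_nat, mem_PP_nat]
  refine ⟨⟨hI.lt m w h4, h4, by omega, by omega⟩, Or.inr (by omega)⟩

/-- a right agent at its bound has room for the forced pairs -/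
theorem forced_sub (hI : I.Good) (hN : SS I N) (hβ : ∀ w, β w ≤ sR I N w) {w : ℕ}
    (hw : sR I N w = β w) :
    (FF I β).filter (fun e => e.2 = w) ⊆ N.filter (fun e => e.2 = w) := by
  rintro ⟨m, w'⟩ he
  rw [Finset.mem_filter] at he ⊢
  obtain ⟨he1, he2⟩ := he
  simp only at he2
  subst he2
  exact ⟨fact_a hI hN hβ hw he1, rfl⟩

theorem raise_sound (hI : I.Good) (hN : SS I N) (hβ : ∀ w, β w ≤ sR I N w) {w : ℕ} (hw : w < I.n)
    (hr : Rs I β w) : β w < sR I N w := by
  classical
  by_contra hcon
  have hwβ : sR I N w = β w := by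
    have := hβ w
    omega
  rcases hr with hr | hr | ⟨X, hX, hmax⟩
  · have h1 := Finset.card_le_card (forced_sub hI hN hβ hwβ)
    have h2 := hN.1.2.2 w
    unfold dR at hr h2
    omega
  · have hsub : (PP I β).filter (fun e => e.2 = w ∧ β w < I.p w e.1) ⊆
        N.filter (fun e => e.2 = w) := by
      rintro ⟨m, w'⟩ he
      rw [Finset.mem_filter] at he ⊢
      obtain ⟨he1, he2, he3⟩ := he
      simp only at he2 he3
      subst he2
      exact ⟨fact_a hI hN hβ hwβ (mem_FF_nat.mpr ⟨he1, Or.inr he3⟩), rfl⟩
    have h2 : (N.filter (fun e => e.2 = w)).card ≤ I.c w := hN.1.2.2 w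
    have heq : (PP I β).filter (fun e => e.2 = w ∧ β w < I.p w e.1) =
        N.filter (fun e => e.2 = w) := Finset.eq_of_subset_of_card_le hsub (by omega)
    have hfull : dR N w = I.c w := by
      unfold dR
      rw [heq] at hr
      omega
    have hc := hI.cpos w
    have hne : (N.filter (fun e => e.2 = w)).Nonempty := by
      rw [← Finset.card_pos]
      unfold dR at hfull
      omega
    have hset : {k | ∃ m, (m, w) ∈ N ∧ k = I.p w m}.Nonempty := by
      obtain ⟨⟨m, w'⟩, he⟩ := hne
      rw [Finset.mem_filter] at he
      obtain ⟨he1, he2⟩ := he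
      simp only at he2
      subst he2
      exact ⟨_, m, he1, rfl⟩
    have hmem := Nat.sInf_mem hset
    obtain ⟨m, hm1, hm2⟩ := hmem
    have hsR : sR I N w = I.p w m := by
      unfold sR
      rw [if_neg (by omega)]
      exact hm2
    have hin : (m, w) ∈ N.filter (fun e => e.2 = w) := Finset.mem_filter.mpr ⟨hm1, rfl⟩
    rw [← heq, Finset.mem_filter] at hin
    have := hin.2.2
    simp only at this
    omega
  · obtain ⟨hXH, hXL, hXR⟩ := hX
    -- the modified set
    set X' : Finset (ℕ × ℕ) := (HH I β).filter (fun e =>
      if sL I N e.1 = al I β e.1 ∨ sR I N e.2 = β e.2 then e ∈ N else e ∈ X) with hX'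
    have hX'H : X' ⊆ HH I β := Finset.filter_subset _ _
    have hdisj : ∀ e, e ∈ FF I β → e ∉ HH I β := by
      rintro ⟨m, v⟩ h1 h2
      rw [mem_FF_nat] at h1
      rw [mem_HH_nat] at h2
      exact h2.2 h1.2
    have hL : ∀ m, dL X m ≤ dL X' m := by
      intro m
      by_cases hm : sL I N m = al I β m
      · by_cases h0 : al I β m = 0
        · have := hXL m
          unfold dmL at this
          rw [if_pos h0] at this
          omega
        · have hfull : dL N m = I.c m := (sL_pos hI hN.1).mp (by omega)
          have hsub : N.filter (fun e => e.1 = m) ⊆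
              X'.filter (fun e => e.1 = m) ∪ (FF I β).filter (fun e => e.1 = m) := by
            rintro ⟨m', v⟩ he
            rw [Finset.mem_filter] at he
            obtain ⟨he1, he2⟩ := he
            simp only at he2
            subst he2
            have h1 := sL_le hN.1 he1
            have h2 := sR_le hN.1 he1
            have h3 := hβ v
            have h4 := hN.1.1 _ _ he1
            have hPP : (m', v) ∈ PP I β := mem_PP_nat.mpr ⟨hI.lt _ _ h4, h4, by omega, by omega⟩
            by_cases hf : al I β m' < I.p m' v ∨ β v < I.p v m'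
            · exact Finset.mem_union_right _ (Finset.mem_filter.mpr ⟨mem_FF_nat.mpr ⟨hPP, hf⟩, rfl⟩)
            · refine Finset.mem_union_left _ (Finset.mem_filter.mpr ⟨?_, rfl⟩)
              rw [hX', Finset.mem_filter]
              refine ⟨mem_HH_nat.mpr ⟨hPP, hf⟩, ?_⟩
              rw [if_pos (Or.inl hm)]
              exact he1
          have h5 := (Finset.card_le_card hsub).trans (Finset.card_union_le _ _)
          have h6 := hXL m
          unfold dmL at h6
          rw [if_neg h0] at h6
          unfold dL at hfull h6 ⊢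
          omega
      · apply Finset.card_le_card
        rintro ⟨m', v⟩ he
        rw [Finset.mem_filter] at he ⊢
        obtain ⟨he1, he2⟩ := he
        simp only at he2
        subst he2
        refine ⟨?_, rfl⟩
        rw [hX', Finset.mem_filter]
        refine ⟨hXH he1, ?_⟩
        by_cases hv : sR I N v = β v
        · rw [if_pos (Or.inr hv)]
          by_contra hn
          exact hm (fact_b hI hN hβ hv (hXH he1) hn)
        · rw [if_neg (by simp only [not_or]; exact ⟨hm, hv⟩)]
          exact he1
    have hR : ∀ v, dR X' v ≤ dmR I β v := by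
      intro v
      by_cases hv : sR I N v = β v
      · have hsub : X'.filter (fun e => e.2 = v) ∪ (FF I β).filter (fun e => e.2 = v) ⊆
            N.filter (fun e => e.2 = v) := by
          apply Finset.union_subset
          · rintro ⟨m', v'⟩ he
            rw [Finset.mem_filter] at he ⊢
            obtain ⟨he1, he2⟩ := he
            simp only at he2
            subst he2
            refine ⟨?_, rfl⟩
            rw [hX', Finset.mem_filter] at he1
            have := he1.2
            rw [if_pos (Or.inr hv)] at this
            exact this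
          · exact forced_sub hI hN hβ hv
        have hd : Disjoint (X'.filter (fun e => e.2 = v)) ((FF I β).filter (fun e => e.2 = v)) := by
          rw [Finset.disjoint_left]
          intro e h1 h2
          rw [Finset.mem_filter] at h1 h2
          exact hdisj e h2.1 (hX'H h1.1)
        have h1 := Finset.card_le_card hsub
        rw [Finset.card_union_of_disjoint hd] at h1
        have h2 := hN.1.2.2 v
        unfold dmR
        unfold dR at h2 ⊢
        omega
      · have hvw : v ≠ w := by
          rintro rfl
          exact hv hwβ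
        have hsub : X'.filter (fun e => e.2 = v) ⊆ X.filter (fun e => e.2 = v) := by
          rintro ⟨m', v'⟩ he
          rw [Finset.mem_filter] at he ⊢
          obtain ⟨he1, he2⟩ := he
          simp only at he2
          subst he2
          refine ⟨?_, rfl⟩
          rw [hX', Finset.mem_filter] at he1
          obtain ⟨he1, he3⟩ := he1
          by_cases hm : sL I N m' = al I β m'
          · rw [if_pos (Or.inl hm)] at he3
            exact absurd he1 (hdisj _ (fact_c hI hN hβ hm he3 hv))
          · rw [if_neg (by simp only [not_or]; exact ⟨hm, hv⟩)] at he3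
            exact he3
        have h1 := Finset.card_le_card hsub
        have h2 := hXR v
        unfold one at h2
        rw [if_neg hvw] at h2
        unfold dR at h2 ⊢
        omega
    -- cut down the fibres
    have hZ : ∀ m, ∃ Z ⊆ X'.filter (fun e => e.1 = m),
        Z.card = min (dmL I β m) (dL X' m) := by
      intro m
      exact Finset.exists_subset_card_eq (min_le_right _ _)
    choose Z hZ1 hZ2 using hZ
    set Y : Finset (ℕ × ℕ) := X'.filter (fun e => e ∈ Z e.1) with hY
    have hYX' : Y ⊆ X' := Finset.filter_subset _ _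
    have hYL : ∀ m, dL Y m = min (dmL I β m) (dL X' m) := by
      intro m
      rw [← hZ2 m]
      unfold dL
      congr 1
      ext ⟨m', v⟩
      rw [Finset.mem_filter, hY, Finset.mem_filter]
      constructor
      · rintro ⟨⟨_, h2⟩, h3⟩
        simp only at h2 h3
        subst h3
        exact h2
      · intro h
        have h1 := hZ1 m h
        rw [Finset.mem_filter] at h1
        obtain ⟨h1, h3⟩ := h1
        simp only at h3
        subst h3
        exact ⟨⟨h1, h⟩, rfl⟩
    have hYok : Okd I β 0 Y := by
      refine ⟨hYX'.trans hX'H, fun m => ?_, fun v => ?_⟩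
      · rw [hYL m]
        exact min_le_left _ _
      · have h1 : dR Y v ≤ dR X' v := Finset.card_le_card (Finset.filter_subset_filter _ hYX')
        have h2 := hR v
        simp only [Pi.zero_apply, add_zero]
        exact h1.trans h2
    have hcard : X.card ≤ Y.card := by
      have hmaps : ∀ A : Finset (ℕ × ℕ), A ⊆ HH I β → ∀ e ∈ A, e.1 ∈ Finset.range I.n := by
        rintro A hA ⟨m, v⟩ he
        have := hA he
        rw [mem_HH_nat, mem_PP_nat] at this
        exact Finset.mem_range.mpr this.1.1.1
      rw [Finset.card_eq_sum_card_fiberwise (hmaps X hXH),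
        Finset.card_eq_sum_card_fiberwise (hmaps Y (hYX'.trans hX'H))]
      apply Finset.sum_le_sum
      intro m _
      have h1 : dL X m ≤ dL Y m := by
        rw [hYL m]
        exact le_min (hXL m) (hL m)
      exact h1
    have := hmax Y hYok
    omega

end Pool.Agent.H671R2.SF
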