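import Pool.Agent.H671R2.SF.TB3

/-!
# Fixed points: the demands can be met
-/

set_option autoImplicit false
set_option linter.unusedVariables false

namespace Pool.Agent.H671R2.SF

variable {I : Inst} {N M J : Finset (ℕ × ℕ)} {β : ℕ → ℕ}

theorem dL_mono {A B : Finset (ℕ × ℕ)} (h : A ⊆ B) (m : ℕ) : dL A m ≤ dL B m :=
  Finset.card_le_card (Finset.filter_subset_filter _ h)

theorem dR_mono {A B : Finset (ℕ × ℕ)} (h : A ⊆ B) (m : ℕ) : dR A m ≤ dR B m :=
  Finset.card_le_card (Finset.filter_subset_filter _ h)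

theorem dL_union {A B : Finset (ℕ × ℕ)} (h : Disjoint A B) (m : ℕ) :
    dL (A ∪ B) m = dL A m + dL B m := by
  unfold dL
  rw [Finset.filter_union, Finset.card_union_of_disjoint]
  exact Finset.disjoint_filter_filter h

theorem dR_union {A B : Finset (ℕ × ℕ)} (h : Disjoint A B) (m : ℕ) :
    dR (A ∪ B) m = dR A m + dR B m := by
  unfold dR
  rw [Finset.filter_union, Finset.card_union_of_disjoint]
  exact Finset.disjoint_filter_filter h

theorem dL_insert {A : Finset (ℕ × ℕ)} {e : ℕ × ℕ} (h : e ∉ A) (m : ℕ) :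
    dL (insert e A) m = dL A m + if m = e.1 then 1 else 0 := by
  unfold dL
  rw [Finset.filter_insert]
  split_ifs with h1 h2 h2
  · rw [Finset.card_insert_of_notMem (fun hc => h (Finset.mem_filter.1 hc).1)]
  · exact absurd h1.symm h2
  · exact absurd h2.symm h1
  · rfl

theorem dR_insert {A : Finset (ℕ × ℕ)} {e : ℕ × ℕ} (h : e ∉ A) (m : ℕ) :
    dR (insert e A) m = dR A m + if m = e.2 then 1 else 0 := by
  unfold dR
  rw [Finset.filter_insert]
  split_ifs with h1 h2 h2
  · rw [Finset.card_insert_of_notMem (fun hc => h (Finset.mem_filter.1 hc).1)]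
  · exact absurd h1.symm h2
  · exact absurd h2.symm h1
  · rfl

theorem FF_subset (I : Inst) (β : ℕ → ℕ) : FF I β ⊆ PP I β := Finset.filter_subset _ _

theorem HH_subset (I : Inst) (β : ℕ → ℕ) : HH I β ⊆ PP I β := Finset.filter_subset _ _

theorem disj_FH (I : Inst) (β : ℕ → ℕ) : Disjoint (FF I β) (HH I β) :=
  Finset.disjoint_filter_filter_not _ _ _

theorem FF_union (I : Inst) (β : ℕ → ℕ) : FF I β ∪ HH I β = PP I β :=
  Finset.filter_union_filter_not_eq _ _

theorem dL_FF_HH (m : ℕ) : dL (FF I β) m + dL (HH I β) m = dL (PP I β) m := by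
  rw [← dL_union (disj_FH I β), FF_union]

theorem dR_FF_HH (m : ℕ) : dR (FF I β) m + dR (HH I β) m = dR (PP I β) m := by
  rw [← dR_union (disj_FH I β), FF_union]

theorem dL_PP (hI : I.Good) (m : ℕ) :
    dL (PP I β) m = ((av I β m).filter fun w => al I β m ≤ I.p m w).card := by
  rw [dL_eq_card]
  congr 1
  ext w
  rw [Finset.mem_image, Finset.mem_filter, mem_av hI]
  constructor
  · rintro ⟨⟨a, b⟩, hab, rfl⟩
    rw [Finset.mem_filter] at hab
    obtain ⟨hab, rfl⟩ := hab
    rw [mem_PP hI] at hab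
    exact ⟨⟨hab.1, hab.2.1⟩, hab.2.2⟩
  · intro h
    exact ⟨(m, w), Finset.mem_filter.2 ⟨(mem_PP hI).2 ⟨h.1.1, h.1.2, h.2⟩, rfl⟩, rfl⟩

theorem c_le_PP (hI : I.Good) {m : ℕ} (h : 0 < al I β m) : I.c m ≤ dL (PP I β) m := by
  have h1 := (al_iff hI β m (al I β m - 1)).1 (by omega)
  rw [dL_PP hI]
  refine le_trans h1 (Finset.card_le_card ?_)
  intro w hw
  rw [Finset.mem_filter] at hw ⊢
  exact ⟨hw.1, by omega⟩

theorem dL_HH_zero (hI : I.Good) {m : ℕ} (h : al I β m = 0) : dL (HH I β) m = 0 := by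
  unfold dL
  rw [Finset.card_eq_zero, Finset.filter_eq_empty_iff]
  rintro ⟨a, b⟩ hab rfl
  rw [mem_HH hI] at hab
  simp only at h
  omega

theorem dR_HH_zero (hI : I.Good) {w : ℕ} (h : β w = 0) : dR (HH I β) w = 0 := by
  unfold dR
  rw [Finset.card_eq_zero, Finset.filter_eq_empty_iff]
  rintro ⟨a, b⟩ hab rfl
  rw [mem_HH hI] at hab
  have := hI.symm _ _ hab.1
  simp only at h
  omega

theorem exists_full (hI : I.Good) (hfix : ∀ w < I.n, ¬ Rs I β w) :
    ∃ X, X ⊆ HH I β ∧ (∀ m, dL X m = dmL I β m) ∧ ∀ w, dR X w ≤ dmR I β w := by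
  classical
  -- a maximal set
  have hfin : ((HH I β).powerset.filter fun X => Okd I β 0 X).Nonempty := by
    refine ⟨∅, ?_⟩
    rw [Finset.mem_filter]
    refine ⟨Finset.empty_mem_powerset _, Finset.empty_subset _, fun m => ?_, fun w => ?_⟩
    · unfold dL; simp
    · unfold dR; simp
  obtain ⟨X, hX, hmax⟩ := Finset.exists_max_image _ Finset.card hfin
  rw [Finset.mem_filter] at hX
  obtain ⟨hXp, hXo⟩ := hX
  refine ⟨X, hXo.1, fun m => ?_, fun w => by simpa using hXo.2.2 w⟩
  by_contra hne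
  have hlt : dL X m < dmL I β m := lt_of_le_of_ne (hXo.2.1 m) hne
  have hal : 0 < al I β m := by
    rcases Nat.eq_zero_or_pos (al I β m) with h | h
    · unfold dmL at hlt
      rw [if_pos h] at hlt
      omega
    · exact h
  have h1 := c_le_PP (β := β) hI hal
  have h2 := dL_FF_HH (I := I) (β := β) m
  have h3 : dL X m < dL (HH I β) m := by
    unfold dmL at hlt
    rw [if_neg (by omega)] at hlt
    omega
  obtain ⟨w, hw, hwX⟩ : ∃ w, (m, w) ∈ HH I β ∧ (m, w) ∉ X := by
    by_contra hc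
    push Not at hc
    have : dL (HH I β) m ≤ dL X m := by
      apply Finset.card_le_card
      rintro ⟨a, b⟩ hab
      rw [Finset.mem_filter] at hab ⊢
      obtain ⟨hab, rfl⟩ := hab
      exact ⟨hc b hab, rfl⟩
    omega
  have hwn : w < I.n := (hI.lt m w ((mem_HH hI).1 hw).1).2
  refine hfix w hwn (Or.inr (Or.inr ⟨insert (m, w) X, ⟨?_, fun a => ?_, fun b => ?_⟩, fun Y hY => ?_⟩))
  · exact Finset.insert_subset hw hXo.1
  · rw [dL_insert hwX]
    split_ifs with h
    · have h' : a = m := h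
      subst h'
      omega
    · exact hXo.2.1 a
  · rw [dR_insert hwX]
    have := hXo.2.2 b
    unfold one
    simp only [Pi.zero_apply] at this ⊢
    split_ifs <;> omega
  · rw [Finset.card_insert_of_notMem hwX]
    have := hmax Y (Finset.mem_filter.2 ⟨Finset.mem_powerset.2 hY.1, hY⟩)
    omega

end Pool.Agent.H671R2.SF
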