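import Pool.Agent.H671R2.SF.TB5

/-!
# Fixed points are strongly stable matchings
-/

set_option autoImplicit false
set_option linter.unusedVariables false

namespace Pool.Agent.H671R2.SF

variable {I : Inst} {N M J : Finset (ℕ × ℕ)} {β : ℕ → ℕ}

theorem al_big (hI : I.Good) {m : ℕ} (hm : I.n ≤ m) : al I β m = 0 := by
  by_contra hc
  have h1 := (al_iff hI β m 0).1 (by omega)
  have h2 := hI.cpos m
  have h3 : 0 < ((av I β m).filter fun w => 0 < I.p m w).card := by omega
  obtain ⟨w, hw⟩ := Finset.card_pos.1 h3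
  rw [Finset.mem_filter] at hw
  have := hI.lt m w hw.2
  omega

theorem sum_dL (A : Finset (ℕ × ℕ)) (n : ℕ) (h : ∀ e ∈ A, e.1 < n) :
    ∑ m ∈ Finset.range n, dL A m = A.card := by
  unfold dL
  rw [Finset.card_eq_sum_card_fiberwise (f := Prod.fst) (t := Finset.range n)]
  intro e he
  exact Finset.mem_coe.2 (Finset.mem_range.2 (h e (Finset.mem_coe.1 he)))

theorem sum_dR (A : Finset (ℕ × ℕ)) (n : ℕ) (h : ∀ e ∈ A, e.2 < n) :
    ∑ m ∈ Finset.range n, dR A m = A.card := by
  unfold dR
  rw [Finset.card_eq_sum_card_fiberwise (f := Prod.snd) (t := Finset.range n)]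
  intro e he
  exact Finset.mem_coe.2 (Finset.mem_range.2 (h e (Finset.mem_coe.1 he)))

theorem lt_of_mem_PP (hI : I.Good) {e : ℕ × ℕ} (h : e ∈ PP I β) : e.1 < I.n ∧ e.2 < I.n := by
  obtain ⟨a, b⟩ := e
  exact hI.lt _ _ ((mem_PP hI).1 h).1

theorem dL_PP_zero (hI : I.Good) {m : ℕ} (h : al I β m = 0) : dL (PP I β) m = (av I β m).card := by
  rw [dL_PP hI, h, Finset.filter_true_of_mem]
  intro w hw
  exact Nat.zero_le _

/-- the value of a left state -/
theorem sL_eq_of (hN : Fe I N) {m k : ℕ} (hI : I.Good)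
    (hfull : dL N m = I.c m) (hge : ∀ w, (m, w) ∈ N → k ≤ I.p m w)
    (hlt : ((N.filter fun e => e.1 = m).filter fun e => k < I.p m e.2).card < I.c m) :
    sL I N m = k := by
  have hle : k ≤ sL I N m := by
    unfold sL
    rw [if_neg (by omega)]
    have hne : {k | ∃ w, (m, w) ∈ N ∧ k = I.p m w}.Nonempty := by
      have h5 : 0 < dL N m := by have := hI.cpos m; omega
      obtain ⟨⟨a, b⟩, hab⟩ := Finset.card_pos.1 h5
      rw [Finset.mem_filter] at hab
      obtain ⟨hab, rfl⟩ := hab
      exact ⟨_, b, hab, rfl⟩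
    obtain ⟨w, hw, he⟩ := Nat.sInf_mem hne
    rw [he]
    exact hge w hw
  by_contra hc
  have hall : ((N.filter fun e => e.1 = m).filter fun e => k < I.p m e.2) =
      N.filter fun e => e.1 = m := by
    apply Finset.filter_true_of_mem
    rintro ⟨a, b⟩ hab
    rw [Finset.mem_filter] at hab
    obtain ⟨hab, rfl⟩ := hab
    have := sL_le hN hab
    simp only at hc hle ⊢
    omega
  rw [hall] at hlt
  unfold dL at hfull
  omega

/-- the value of a right state -/
theorem sR_eq_of (hN : Fe I N) {w k : ℕ} (hI : I.Good)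
    (hfull : dR N w = I.c w) (hge : ∀ m, (m, w) ∈ N → k ≤ I.p w m)
    (hlt : ((N.filter fun e => e.2 = w).filter fun e => k < I.p w e.1).card < I.c w) :
    sR I N w = k := by
  have hle : k ≤ sR I N w := by
    unfold sR
    rw [if_neg (by omega)]
    have hne : {k | ∃ m, (m, w) ∈ N ∧ k = I.p w m}.Nonempty := by
      have h5 : 0 < dR N w := by have := hI.cpos w; omega
      obtain ⟨⟨a, b⟩, hab⟩ := Finset.card_pos.1 h5
      rw [Finset.mem_filter] at hab
      obtain ⟨hab, rfl⟩ := hab
      exact ⟨_, a, hab, rfl⟩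
    obtain ⟨m, hm, he⟩ := Nat.sInf_mem hne
    rw [he]
    exact hge m hm
  by_contra hc
  have hall : ((N.filter fun e => e.2 = w).filter fun e => k < I.p w e.1) =
      N.filter fun e => e.2 = w := by
    apply Finset.filter_true_of_mem
    rintro ⟨a, b⟩ hab
    rw [Finset.mem_filter] at hab
    obtain ⟨hab, rfl⟩ := hab
    have := sR_le hN hab
    simp only at hc hle ⊢
    omega
  rw [hall] at hlt
  unfold dR at hfull
  omega

/-- fewer than `c m` available partners are better than `al m` -/
theorem lt_c_al (hI : I.Good) {A : Finset (ℕ × ℕ)} (hA : A ⊆ PP I β) (m : ℕ) :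
    ((A.filter fun e => e.1 = m).filter fun e => al I β m < I.p m e.2).card < I.c m := by
  have h0 : ¬ (al I β m < al I β m) := by omega
  rw [al_iff hI] at h0
  refine lt_of_le_of_lt ?_ (not_le.1 h0)
  rw [← Finset.card_image_of_injOn (f := Prod.snd)]
  · apply Finset.card_le_card
    intro w hw
    rw [Finset.mem_image] at hw
    obtain ⟨⟨a, b⟩, hab, rfl⟩ := hw
    rw [Finset.mem_filter, Finset.mem_filter] at hab
    obtain ⟨⟨hab, rfl⟩, h1⟩ := hab
    have h2 := (mem_PP hI).1 (hA hab)
    rw [Finset.mem_filter, mem_av hI]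
    exact ⟨⟨h2.1, h2.2.1⟩, h1⟩
  · rintro ⟨a, b⟩ h1 ⟨c, d⟩ h2 h
    rw [Finset.mem_coe, Finset.mem_filter, Finset.mem_filter] at h1 h2
    simp only at h h1 h2
    ext
    · exact h1.1.2.trans h2.1.2.symm
    · exact h

/-- fewer than `c w` provisional partners are better than `β w` at an agent which is not raised -/
theorem lt_c_be (hI : I.Good) (hfix : ∀ w < I.n, ¬ Rs I β w) {A : Finset (ℕ × ℕ)}
    (hA : A ⊆ PP I β) (w : ℕ) :
    ((A.filter fun e => e.2 = w).filter fun e => β w < I.p w e.1).card < I.c w := by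
  have key : ((PP I β).filter fun e => e.2 = w ∧ β w < I.p w e.1).card < I.c w := by
    rcases Nat.lt_or_ge w I.n with h | h
    · by_contra hc
      exact hfix w h (Or.inr (Or.inl (by omega)))
    · have h0 : ((PP I β).filter fun e => e.2 = w ∧ β w < I.p w e.1).card = 0 := by
        rw [Finset.card_eq_zero, Finset.filter_eq_empty_iff]
        intro e he hc
        have := lt_of_mem_PP hI he
        omega
      have := hI.cpos w
      omega
  refine lt_of_le_of_lt (Finset.card_le_card ?_) key
  intro e he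
  rw [Finset.mem_filter, Finset.mem_filter] at he
  rw [Finset.mem_filter]
  exact ⟨hA he.1.1, he.1.2, he.2⟩

/-- an agent with lower bound `0` which is not raised -/
theorem dR_PP_zero (hI : I.Good) (hfix : ∀ w < I.n, ¬ Rs I β w) {w : ℕ} (h : β w = 0) :
    dR (PP I β) w < I.c w := by
  have := lt_c_be hI hfix (Finset.Subset.refl (PP I β)) w
  rw [Finset.filter_true_of_mem] at this
  · exact this
  · rintro ⟨a, b⟩ hab
    rw [Finset.mem_filter] at hab
    obtain ⟨hab, rfl⟩ := hab
    rw [h]
    exact hI.symm _ _ ((mem_PP hI).1 hab).1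

theorem dR_FF_le (hI : I.Good) (hfix : ∀ w < I.n, ¬ Rs I β w) (w : ℕ) :
    dR (FF I β) w ≤ I.c w := by
  rcases Nat.lt_or_ge w I.n with h | h
  · by_contra hc
    exact hfix w h (Or.inl (by omega))
  · have h0 : dR (FF I β) w = 0 := by
      unfold dR
      rw [Finset.card_eq_zero, Finset.filter_eq_empty_iff]
      intro e he hc
      have := lt_of_mem_PP hI (FF_subset I β he)
      omega
    omega

theorem dL_PP_lt (hI : I.Good) {m : ℕ} (h : al I β m = 0) : dL (PP I β) m < I.c m := by
  have := lt_c_al hI (Finset.Subset.refl (PP I β)) m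
  rw [Finset.filter_true_of_mem] at this
  · exact this
  · rintro ⟨a, b⟩ hab
    rw [Finset.mem_filter] at hab
    obtain ⟨hab, rfl⟩ := hab
    rw [h]
    exact ((mem_PP hI).1 hab).1

theorem J_of (hI : I.Good) (hfix : ∀ w < I.n, ¬ Rs I β w) (h0 : ∀ v, I.n ≤ v → β v = 0)
    (hnum : Num I β) {X : Finset (ℕ × ℕ)} (hX : X ⊆ HH I β) (hL : ∀ m, dL X m = dmL I β m)
    (hR : ∀ w, dR X w ≤ dmR I β w) :
    SS I (FF I β ∪ X) ∧ (∀ w, sR I (FF I β ∪ X) w = β w) ∧
      ∀ m, sL I (FF I β ∪ X) m = al I β m := by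
  classical
  set J := FF I β ∪ X with hJ
  have hdis : Disjoint (FF I β) X := Finset.disjoint_of_subset_right hX (disj_FH I β)
  have hJP : J ⊆ PP I β := Finset.union_subset (FF_subset I β) (hX.trans (HH_subset I β))
  have hjL : ∀ m, dL J m = dL (FF I β) m + dL X m := fun m => dL_union hdis m
  have hjR : ∀ m, dR J m = dR (FF I β) m + dR X m := fun m => dR_union hdis m
  -- left degrees
  have hl0 : ∀ m, al I β m = 0 → dL J m = (av I β m).card ∧ dL J m < I.c m := by
    intro m hm
    have h1 := dL_HH_zero (β := β) hI hm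
    have h2 := dL_FF_HH (I := I) (β := β) m
    have h3 := dL_mono hX m
    have h4 := dL_PP_zero (β := β) hI hm
    have h5 := dL_PP_lt (β := β) hI hm
    have h6 := hjL m
    omega
  have hl1 : ∀ m, al I β m ≠ 0 → dL J m = I.c m := by
    intro m hm
    have hmn : m < I.n := by
      by_contra hc
      exact hm (al_big hI (by omega))
    have h1 := (hnum.1 m hmn).resolve_left hm
    have h2 := hL m
    unfold dmL at h2
    rw [if_neg hm] at h2
    have h6 := hjL m
    omega
  -- right degrees
  have hr0 : ∀ w, β w = 0 → dR J w = dR (PP I β) w ∧ dR J w < I.c w := by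
    intro w hw
    have h1 := dR_HH_zero (I := I) (β := β) hI hw
    have h2 := dR_FF_HH (I := I) (β := β) w
    have h3 := dR_mono hX w
    have h5 := dR_PP_zero hI hfix hw
    have h6 := hjR w
    omega
  have hr1 : ∀ w, dR J w ≤ I.c w := by
    intro w
    have h1 := dR_FF_le hI hfix w
    have h2 := hR w
    unfold dmR at h2
    have h6 := hjR w
    omega
  have hfe : Fe I J := by
    refine ⟨fun m w h => ((mem_PP hI).1 (hJP h)).1, fun m => ?_, hr1⟩
    rcases Nat.eq_zero_or_pos (al I β m) with h | h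
    · exact (hl0 m h).2.le
    · exact (hl1 m (by omega)).le
  -- counting
  have hsum : ∑ m ∈ Finset.range I.n, dL J m = ∑ m ∈ Finset.range I.n, dR J m := by
    rw [sum_dL J I.n (fun e he => (lt_of_mem_PP hI (hJP he)).1),
      sum_dR J I.n (fun e he => (lt_of_mem_PP hI (hJP he)).2)]
  have hsl : ∑ m ∈ Finset.range I.n, dL J m =
      ∑ m ∈ Finset.range I.n, (if al I β m = 0 then (av I β m).card else I.c m) := by
    apply Finset.sum_congr rfl
    intro m hm
    split_ifs with h
    · exact (hl0 m h).1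
    · exact hl1 m h
  have hle : ∀ w ∈ Finset.range I.n,
      dR J w ≤ (if β w = 0 then dR (PP I β) w else I.c w) := by
    intro w hw
    split_ifs with h
    · exact (hr0 w h).1.le
    · exact hr1 w
  have heq := (Finset.sum_eq_sum_iff_of_le hle).1 (by rw [← hsum, hsl]; exact hnum.2)
  have hr2 : ∀ w, β w ≠ 0 → dR J w = I.c w := by
    intro w hw
    have hwn : w < I.n := by
      by_contra hc
      exact hw (h0 w (by omega))
    have := heq w (Finset.mem_range.2 hwn)
    rw [if_neg hw] at this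
    exact this
  -- states
  have hsL : ∀ m, sL I J m = al I β m := by
    intro m
    rcases Nat.eq_zero_or_pos (al I β m) with h | h
    · unfold sL
      rw [if_pos (hl0 m h).2, h]
    · exact sL_eq_of hfe hI (hl1 m (by omega)) (fun w hw => ((mem_PP hI).1 (hJP hw)).2.2)
        (lt_c_al hI hJP m)
  have hsR : ∀ w, sR I J w = β w := by
    intro w
    rcases Nat.eq_zero_or_pos (β w) with h | h
    · unfold sR
      rw [if_pos (hr0 w h).2, h]
    · exact sR_eq_of hfe hI (hr2 w (by omega)) (fun m hm => ((mem_PP hI).1 (hJP hm)).2.1)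
        (lt_c_be hI hfix hJP w)
  refine ⟨⟨hfe, fun m w hp hn => ?_⟩, hsR, hsL⟩
  rw [hsL, hsR]
  by_cases h1 : I.p w m < β w
  · exact Or.inr (Or.inl h1)
  by_cases h2 : I.p m w < al I β m
  · exact Or.inl h2
  have hP : (m, w) ∈ PP I β := (mem_PP hI).2 ⟨hp, by omega, by omega⟩
  have hF : (m, w) ∉ FF I β := fun h => hn (Finset.mem_union_left _ h)
  rw [mem_FF] at hF
  have : ¬ (al I β m < I.p m w ∨ β w < I.p w m) := fun h => hF ⟨hP, h⟩
  omega

end Pool.Agent.H671R2.SF
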