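import Pool.Agent.H671R2.SF.TB6
import Pool.Agent.H671R2.SF.TB4

/-!
# The numeric test holds at fixed points below a strongly stable matching
-/

set_option autoImplicit false
set_option linter.unusedVariables false

namespace Pool.Agent.H671R2.SF

variable {I : Inst} {N M J : Finset (ℕ × ℕ)} {β : ℕ → ℕ}

theorem dL_N_le_av (hI : I.Good) (hN : Fe I N) (hβ : ∀ w, β w ≤ sR I N w) (m : ℕ) :
    dL N m ≤ (av I β m).card := by
  rw [dL_eq_card]
  apply Finset.card_le_card
  intro w hw
  rw [Finset.mem_image] at hw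
  obtain ⟨⟨a, b⟩, hab, rfl⟩ := hw
  rw [Finset.mem_filter] at hab
  obtain ⟨hab, rfl⟩ := hab
  rw [mem_av hI]
  have h2 := sR_le hN hab
  have h3 := hβ b
  exact ⟨hN.1 _ _ hab, by simp only; omega⟩

theorem lt_of_mem_N (hI : I.Good) (hN : Fe I N) {e : ℕ × ℕ} (h : e ∈ N) :
    e.1 < I.n ∧ e.2 < I.n := by
  obtain ⟨a, b⟩ := e
  exact hI.lt _ _ (hN.1 _ _ h)

theorem num_of (hI : I.Good) (hfix : ∀ w < I.n, ¬ Rs I β w) (hN : SS I N)
    (hβ : ∀ w, β w ≤ sR I N w) : Num I β := by
  classical
  obtain ⟨X, hX, hL, hR⟩ := exists_full hI hfix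
  have hdis : Disjoint (FF I β) X := Finset.disjoint_of_subset_right hX (disj_FH I β)
  have hJP : FF I β ∪ X ⊆ PP I β :=
    Finset.union_subset (FF_subset I β) (hX.trans (HH_subset I β))
  have hjL : ∀ m, dL (FF I β ∪ X) m = dL (FF I β) m + dL X m := fun m => dL_union hdis m
  have hjR : ∀ m, dR (FF I β ∪ X) m = dR (FF I β) m + dR X m := fun m => dR_union hdis m
  -- the four inequalities
  have i1 : N.card ≤
      ∑ m ∈ Finset.range I.n, (if al I β m = 0 then (av I β m).card else I.c m) := by
    rw [← sum_dL N I.n (fun e he => (lt_of_mem_N hI hN.1 he).1)]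
    apply Finset.sum_le_sum
    intro m hm
    split_ifs with h
    · exact dL_N_le_av hI hN.1 hβ m
    · exact hN.1.2.1 m
  have i2 : ∑ w ∈ Finset.range I.n, (if β w = 0 then dR (PP I β) w else I.c w) ≤ N.card := by
    rw [← sum_dR N I.n (fun e he => (lt_of_mem_N hI hN.1 he).2)]
    apply Finset.sum_le_sum
    intro w hw
    split_ifs with h
    · rcases Nat.eq_zero_or_pos (sR I N w) with h1 | h1
      · apply Finset.card_le_card
        rintro ⟨a, b⟩ hab
        rw [Finset.mem_filter] at hab ⊢
        obtain ⟨hab, rfl⟩ := hab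
        refine ⟨fact_a hI hN hβ (by simp only at h1 h ⊢; omega) ?_, rfl⟩
        rw [mem_FF]
        refine ⟨hab, Or.inr ?_⟩
        have := hI.symm _ _ ((mem_PP hI).1 hab).1
        simp only at h
        omega
      · have h2 := (sR_pos hI hN.1).1 h1
        have h3 := dR_PP_zero hI hfix h
        omega
    · have h1 := hβ w
      have h2 := (sR_pos hI hN.1).1 (show 0 < sR I N w by omega)
      omega
  have pt : ∀ m ∈ Finset.range I.n,
      (if al I β m = 0 then (av I β m).card else I.c m) ≤ dL (FF I β ∪ X) m := by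
    intro m hm
    have h1 := hL m
    unfold dmL at h1
    have h6 := hjL m
    split_ifs with h
    · have h2 := dL_HH_zero (β := β) hI h
      have h3 := dL_FF_HH (I := I) (β := β) m
      have h4 := dL_PP_zero (β := β) hI h
      omega
    · rw [if_neg h] at h1
      omega
  have i3 : ∑ m ∈ Finset.range I.n, (if al I β m = 0 then (av I β m).card else I.c m) ≤
      (FF I β ∪ X).card := by
    rw [← sum_dL (FF I β ∪ X) I.n (fun e he => (lt_of_mem_PP hI (hJP he)).1)]
    exact Finset.sum_le_sum pt
  have i4 : (FF I β ∪ X).card ≤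
      ∑ w ∈ Finset.range I.n, (if β w = 0 then dR (PP I β) w else I.c w) := by
    rw [← sum_dR (FF I β ∪ X) I.n (fun e he => (lt_of_mem_PP hI (hJP he)).2)]
    apply Finset.sum_le_sum
    intro w hw
    have h6 := hjR w
    split_ifs with h
    · exact dR_mono hJP w
    · have h1 := dR_FF_le hI hfix w
      have h2 := hR w
      unfold dmR at h2
      omega
  have e1 : ∑ m ∈ Finset.range I.n, (if al I β m = 0 then (av I β m).card else I.c m) =
      ∑ m ∈ Finset.range I.n, dL (FF I β ∪ X) m := by
    rw [sum_dL (FF I β ∪ X) I.n (fun e he => (lt_of_mem_PP hI (hJP he)).1)]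
    omega
  have e2 := (Finset.sum_eq_sum_iff_of_le pt).1 e1
  refine ⟨fun m hm => ?_, by omega⟩
  by_cases h : al I β m = 0
  · exact Or.inl h
  · right
    have h1 := e2 m (Finset.mem_range.2 hm)
    rw [if_neg h, hjL] at h1
    omega

end Pool.Agent.H671R2.SF
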