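import Pool.Agent.H671R2.SF.TB6
import Pool.Agent.H671R2.SF.TB4

/-!
# The closure
-/

set_option autoImplicit false
set_option linter.unusedVariables false

namespace Pool.Agent.H671R2.SF

variable {I : Inst} {N M J : Finset (ℕ × ℕ)} {β : ℕ → ℕ}

theorem nxt_le (β : ℕ → ℕ) (w : ℕ) : β w ≤ nxt I β w := by
  unfold nxt
  omega

theorem nxt_pos {w : ℕ} (h : w < I.n ∧ Rs I β w) : nxt I β w = β w + 1 := by
  unfold nxt
  rw [if_pos h]

theorem nxt_neg {w : ℕ} (h : ¬ (w < I.n ∧ Rs I β w)) : nxt I β w = β w := by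
  unfold nxt
  rw [if_neg h]
  rfl

theorem nxt_sound (hI : I.Good) (hN : SS I N) (hβ : ∀ w, β w ≤ sR I N w) (w : ℕ) :
    nxt I β w ≤ sR I N w := by
  unfold nxt
  split_ifs with h
  · have := raise_sound hI hN hβ h.1 h.2
    omega
  · have := hβ w
    omega

theorem iter_le (β : ℕ → ℕ) (T : ℕ) (w : ℕ) : β w ≤ (nxt I)^[T] β w := by
  induction T with
  | zero => exact le_refl _
  | succ T ih =>
    rw [Function.iterate_succ_apply']
    exact ih.trans (nxt_le _ _)

theorem iter_sound (hI : I.Good) (hN : SS I N) (hβ : ∀ w, β w ≤ sR I N w) (T : ℕ) (w : ℕ) :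
    (nxt I)^[T] β w ≤ sR I N w := by
  revert w
  induction T with
  | zero => exact hβ
  | succ T ih =>
    intro w
    rw [Function.iterate_succ_apply']
    exact nxt_sound hI hN ih w

theorem iter_zero (T : ℕ) {w : ℕ} (hw : I.n ≤ w) : (nxt I)^[T] β w = β w := by
  induction T with
  | zero => rfl
  | succ T ih =>
    rw [Function.iterate_succ_apply']
    unfold nxt
    rw [if_neg (by omega)]
    exact ih

theorem not_Rs_big (hI : I.Good) {w : ℕ} (h : I.n < β w) : ¬ Rs I β w := by
  have key : ∀ e ∈ PP I β, e.2 ≠ w := by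
    rintro ⟨a, b⟩ hab rfl
    have h1 := ((mem_PP hI).1 hab).2.1
    have h2 := hI.le b a
    simp only at h
    omega
  rintro (h1 | h1 | ⟨X, hX, hmax⟩)
  · have : dR (FF I β) w = 0 := by
      unfold dR
      rw [Finset.card_eq_zero, Finset.filter_eq_empty_iff]
      intro e he
      exact key e (FF_subset I β he)
    omega
  · have h2 : ((PP I β).filter fun e => e.2 = w ∧ β w < I.p w e.1).card = 0 := by
      rw [Finset.card_eq_zero, Finset.filter_eq_empty_iff]
      intro e he hc
      exact key e he hc.1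
    have := hI.cpos w
    omega
  · have hX' : Okd I β 0 X := by
      refine ⟨hX.1, hX.2.1, fun v => ?_⟩
      have h3 := hX.2.2 v
      unfold one at h3
      by_cases hv : v = w
      · have : dR X v = 0 := by
          unfold dR
          rw [Finset.card_eq_zero, Finset.filter_eq_empty_iff]
          intro e he
          rw [hv]
          exact key e (HH_subset I β (hX.1 he))
        omega
      · simp only [if_neg hv] at h3
        exact h3
    exact lt_irrefl _ (hmax X hX')

theorem iter_bdd (hI : I.Good) (hβ : ∀ w, β w ≤ I.n + 1) (T : ℕ) (w : ℕ) :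
    (nxt I)^[T] β w ≤ I.n + 1 := by
  revert w
  induction T with
  | zero => exact hβ
  | succ T ih =>
    intro w
    rw [Function.iterate_succ_apply']
    have h1 := ih w
    by_cases h : w < I.n ∧ Rs I ((nxt I)^[T] β) w
    · have h2 : ¬ (I.n < (nxt I)^[T] β w) := fun hc => not_Rs_big hI hc h.2
      rw [nxt_pos h]
      omega
    · rw [nxt_neg h]
      exact h1

theorem nxt_eq_self (h : ∀ w < I.n, ¬ Rs I β w) : nxt I β = β := by
  funext w
  unfold nxt
  rw [if_neg]
  · rfl
  · rintro ⟨h1, h2⟩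
    exact h w h1 h2

theorem iter_dich (β : ℕ → ℕ) (T : ℕ) : (∀ w < I.n, ¬ Rs I ((nxt I)^[T] β) w) ∨
    T ≤ ∑ w ∈ Finset.range I.n, (nxt I)^[T] β w := by
  induction T with
  | zero => exact Or.inr (Nat.zero_le _)
  | succ T ih =>
    by_cases h : ∀ w < I.n, ¬ Rs I ((nxt I)^[T] β) w
    · left
      rw [Function.iterate_succ_apply', nxt_eq_self h]
      exact h
    · have h1 := ih.resolve_left h
      push Not at h
      obtain ⟨w, hw, hr⟩ := h
      right
      rw [Function.iterate_succ_apply']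
      have : ∑ w ∈ Finset.range I.n, (nxt I)^[T] β w <
          ∑ w ∈ Finset.range I.n, nxt I ((nxt I)^[T] β) w := by
        refine Finset.sum_lt_sum (fun i _ => nxt_le _ _) ⟨w, Finset.mem_range.2 hw, ?_⟩
        rw [nxt_pos ⟨hw, hr⟩]
        exact Nat.lt_succ_self _
      omega

theorem iter_fix (hI : I.Good) (hβ : ∀ w, β w ≤ I.n + 1) {T : ℕ}
    (hT : (I.n + 2) * (I.n + 2) ≤ T) : ∀ w < I.n, ¬ Rs I ((nxt I)^[T] β) w := by
  rcases iter_dich (I := I) β T with h | h
  · exact h
  · exfalso
    have h1 : ∑ w ∈ Finset.range I.n, (nxt I)^[T] β w ≤ I.n * (I.n + 1) := by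
      refine le_trans (Finset.sum_le_card_nsmul _ _ (I.n + 1) fun w _ => iter_bdd hI hβ T w) ?_
      rw [Finset.card_range, smul_eq_mul]
    nlinarith

end Pool.Agent.H671R2.SF
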