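import Pool.Agent.H671R2.SF.TB2
import Pool.Agent.H671R2.SF.TB7
import Pool.Agent.H671R2.SF.TB8

/-!
# The main loop
-/

set_option autoImplicit false
set_option linter.unusedVariables false

namespace Pool.Agent.H671R2.SF

variable {I : Inst} {N M J : Finset (ℕ × ℕ)} {β : ℕ → ℕ}

theorem sL_big (hI : I.Good) (hN : Fe I N) {v : ℕ} (hv : I.n ≤ v) : sL I N v = 0 := by
  by_contra hc
  have h1 := (sL_pos hI hN).1 (show 0 < sL I N v by omega)
  have h2 := hI.cpos v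
  have h3 : 0 < dL N v := by omega
  obtain ⟨⟨a, b⟩, hab⟩ := Finset.card_pos.1 h3
  rw [Finset.mem_filter] at hab
  obtain ⟨hab, rfl⟩ := hab
  have := lt_of_mem_N hI hN hab
  simp only at this hv
  omega

theorem exists_J (hI : I.Good) (hβ : Good2 I β) :
    ∃ J, SS I J ∧ (∀ w, sR I J w = β w) ∧ ∀ m, sL I J m = al I β m := by
  obtain ⟨X, hX, hL, hR⟩ := exists_full hI hβ.1
  exact ⟨_, J_of hI hβ.1 hβ.2.2.1 hβ.2.1 hX hL hR⟩

theorem clampM (hI : I.Good) (hβ : Good2 I β) (hs : Sym M) (hM : SS I M) :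
    ∃ M', Sym M' ∧ SS I M' ∧ ∀ v, β v ≤ sL I M' v ∧ sL I M' v ≤ al I β v := by
  obtain ⟨J, hJ, hr, hl⟩ := exists_J hI hβ
  have hle : ∀ v, sR I J v ≤ sL I J v := by
    intro v
    rw [hr, hl]
    rcases Nat.lt_or_ge v I.n with h | h
    · exact hβ.2.2.2 v h
    · rw [hβ.2.2.1 v h]
      exact Nat.zero_le _
  obtain ⟨M', h1, h2, h3⟩ := median hI hs hM hJ hle
  refine ⟨M', h1, h2, fun v => ?_⟩
  rw [← hr, ← hl]
  exact h3 v

theorem strict_exists (hI : I.Good) (hβ : Good2 I β) (hs : Sym M) (hM : SS I M)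
    (hb : ∀ v, β v ≤ sL I M v ∧ sL I M v ≤ al I β v) (hne : ∃ v < I.n, β v ≠ al I β v) :
    ∃ w < I.n, β w < sL I M w := by
  by_contra hc
  push Not at hc
  have heq : ∀ w, sL I M w = β w := by
    intro w
    rcases Nat.lt_or_ge w I.n with h | h
    · have := hc w h
      have := (hb w).1
      omega
    · rw [sL_big hI hM.1 h, hβ.2.2.1 w h]
  obtain ⟨J, hJ, hr, hl⟩ := exists_J hI hβ
  obtain ⟨v, hv, hne⟩ := hne
  have hlt : sL I M v < sL I J v := by
    rw [hl, heq]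
    have := (hb v).2
    rw [heq] at this
    omega
  obtain ⟨w, hw⟩ : ∃ w, ¬ ((v, w) ∈ J ↔ (v, w) ∈ M) := by
    by_contra hcc
    push Not at hcc
    have := sL_congr (I := I) hcc
    omega
  have h1 := (cmp hI hJ hM (m := v) (w := w) (by tauto)).1 hlt
  rw [hr, sym_state hs, heq] at h1
  exact lt_irrefl _ h1

/-- start of the main loop, and the candidates -/
theorem good2_of (hI : I.Good) {β₀ : ℕ → ℕ} (hs : Sym M) (hM : SS I M)
    (hb : ∀ v, β₀ v ≤ sL I M v) (h0 : ∀ v, I.n ≤ v → β₀ v = 0) (hβ₀ : ∀ w, β₀ w ≤ I.n + 1) {T : ℕ}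
    (hT : (I.n + 2) * (I.n + 2) ≤ T) : Good2 I ((nxt I)^[T] β₀) := by
  have hb' : ∀ v, β₀ v ≤ sR I M v := fun v => by rw [sym_state hs]; exact hb v
  have hfix := iter_fix hI hβ₀ hT
  have hsd := iter_sound hI hM hb' T
  refine ⟨hfix, num_of hI hfix hM hsd, fun v hv => ?_, fun v hv => ?_⟩
  · rw [iter_zero T hv]
    exact h0 v hv
  · have h1 := hsd v
    rw [sym_state hs] at h1
    exact h1.trans (sL_le_al hI hM.1 hsd v)

end Pool.Agent.H671R2.SF
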