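import Pool.Agent.H671R2.SF.CDefs

/-!
# Task C1: lists and finite sets
-/

set_option autoImplicit false

namespace Pool.Agent.H671R2.SF

open Pool.Agent.NPC

variable {D : Dat} {b : List ℕ}

theorem C1_card {α : Type} [DecidableEq α] {l : List α} (h : l.Nodup) : l.toFinset.card = l.length :=
  List.toFinset_card_of_nodup h

theorem C1_vs_nodup : (vs D).Nodup := List.nodup_range

theorem C1_vs_toFinset : (vs D).toFinset = Finset.range D.1.length := by
  ext x; simp [vs]

theorem C1_mem_vs {x : ℕ} : x ∈ vs D ↔ x < D.1.length := by simp [vs]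

theorem avD_toFinset (m : ℕ) : (avD D b m).toFinset = av (toI D) (bD b) m := by
  ext x
  simp [avD, av, vs, toI]

theorem C1_avD_nodup (m : ℕ) : (avD D b m).Nodup := C1_vs_nodup.filter _

theorem avD_length (m : ℕ) : (avD D b m).length = (av (toI D) (bD b) m).card := by
  rw [← avD_toFinset, C1_card (C1_avD_nodup m)]

theorem C1_filter_length {α : Type} [DecidableEq α] {l : List α} (h : l.Nodup) (p : α → Bool)
    (q : α → Prop) [DecidablePred q] (hpq : ∀ x ∈ l, p x = true ↔ q x) :
    (l.filter p).length = (l.toFinset.filter q).card := by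
  rw [← C1_card (h.filter p)]
  congr 1
  ext x
  simp only [List.mem_toFinset, List.mem_filter, Finset.mem_filter]
  constructor
  · rintro ⟨h1, h2⟩
    exact ⟨h1, (hpq x h1).1 h2⟩
  · rintro ⟨h1, h2⟩
    exact ⟨h1, (hpq x h1).2 h2⟩

theorem C1_c {m : ℕ} (hm : m < D.1.length) : (toI D).c m = cD D m := by
  simp [toI, hm]

theorem alD_eq {m : ℕ} (hm : m < D.1.length) : alD D b m = al (toI D) (bD b) m := by
  unfold alD al
  rw [C1_filter_length C1_vs_nodup _
    (fun k => (toI D).c m ≤ ((av (toI D) (bD b) m).filter fun w => k < (toI D).p m w).card)]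
  · rw [C1_vs_toFinset]
    rfl
  · intro k _
    rw [decide_eq_true_iff, C1_c hm, C1_filter_length (C1_avD_nodup m) _ (fun w => k < (toI D).p m w),
      avD_toFinset]
    intro w _
    rw [decide_eq_true_iff]
    rfl

theorem C1_mem_PPD {e : ℕ × ℕ} : e ∈ PPD D b ↔ e ∈ PP (toI D) (bD b) := by
  unfold PPD PP
  simp only [List.mem_filter, Finset.mem_filter, Finset.mem_product, Finset.mem_range,
    Bool.and_eq_true, decide_eq_true_eq]
  have : e ∈ vs D ×ˢ vs D ↔ e.1 < (toI D).n ∧ e.2 < (toI D).n := by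
    have := @List.mem_product ℕ ℕ (vs D) (vs D) e.1 e.2
    rw [C1_mem_vs, C1_mem_vs] at this
    exact this
  rw [this]
  constructor
  · rintro ⟨⟨h1, h2⟩, ⟨h3, h4⟩, h5⟩
    rw [alD_eq h1] at h5
    exact ⟨⟨h1, h2⟩, h3, h4, h5⟩
  · rintro ⟨⟨h1, h2⟩, h3, h4, h5⟩
    refine ⟨⟨h1, h2⟩, ⟨h3, h4⟩, ?_⟩
    rw [alD_eq h1]
    exact h5

theorem PPD_toFinset : (PPD D b).toFinset = PP (toI D) (bD b) := by
  ext e
  rw [List.mem_toFinset, C1_mem_PPD]

theorem PPD_nodup : (PPD D b).Nodup := (C1_vs_nodup.product C1_vs_nodup).filter _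

theorem C1_isF {e : ℕ × ℕ} (he : e ∈ PP (toI D) (bD b)) :
    isF D b e = true ↔ (al (toI D) (bD b) e.1 < (toI D).p e.1 e.2 ∨ bD b e.2 < (toI D).p e.2 e.1) := by
  have h1 : e.1 < D.1.length := by
    unfold PP at he
    simp only [Finset.mem_filter, Finset.mem_product, Finset.mem_range] at he
    exact he.1.1
  unfold isF
  rw [Bool.or_eq_true, decide_eq_true_eq, decide_eq_true_eq, alD_eq h1]
  rfl

theorem FFD_toFinset : (FFD D b).toFinset = FF (toI D) (bD b) := by
  ext e
  unfold FFD FF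
  rw [List.mem_toFinset, List.mem_filter, Finset.mem_filter, C1_mem_PPD]
  constructor
  · rintro ⟨h1, h2⟩
    exact ⟨h1, (C1_isF h1).1 h2⟩
  · rintro ⟨h1, h2⟩
    exact ⟨h1, (C1_isF h1).2 h2⟩

theorem FFD_nodup : (FFD D b).Nodup := PPD_nodup.filter _

theorem HHD_toFinset : (HHD D b).toFinset = HH (toI D) (bD b) := by
  ext e
  unfold HHD HH
  rw [List.mem_toFinset, List.mem_filter, Finset.mem_filter, C1_mem_PPD]
  constructor
  · rintro ⟨h1, h2⟩
    refine ⟨h1, fun h => ?_⟩
    rw [(C1_isF h1).2 h] at h2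
    exact absurd h2 (by decide)
  · rintro ⟨h1, h2⟩
    refine ⟨h1, ?_⟩
    have : isF D b e = false := by
      by_contra h
      exact h2 ((C1_isF h1).1 (by simpa using h))
    rw [this]
    rfl

theorem HHD_nodup : (HHD D b).Nodup := PPD_nodup.filter _

theorem dLD_eq {X : List (ℕ × ℕ)} (hX : X.Nodup) (m : ℕ) : dLD X m = dL X.toFinset m := by
  unfold dLD dL
  exact C1_filter_length hX _ _ (fun e _ => by rw [decide_eq_true_iff])

theorem dRD_eq {X : List (ℕ × ℕ)} (hX : X.Nodup) (w : ℕ) : dRD X w = dR X.toFinset w := by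
  unfold dRD dR
  exact C1_filter_length hX _ _ (fun e _ => by rw [decide_eq_true_iff])

theorem dmLD_eq {m : ℕ} (hm : m < D.1.length) : dmLD D b m = dmL (toI D) (bD b) m := by
  unfold dmLD dmL
  rw [alD_eq hm, C1_c hm, dLD_eq FFD_nodup, FFD_toFinset]

theorem dmRD_eq {w : ℕ} (hw : w < D.1.length) : dmRD D b w = dmR (toI D) (bD b) w := by
  unfold dmRD dmR
  rw [C1_c hw, dRD_eq FFD_nodup, FFD_toFinset]

theorem dmL_big {I : Inst} {β : ℕ → ℕ} (hI : I.Good) {m : ℕ} (hm : I.n ≤ m) : dmL I β m = 0 := by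
  have hav : av I β m = ∅ := by
    unfold av
    rw [Finset.filter_eq_empty_iff]
    intro w _ h
    have := (hI.lt m w h.1).1
    omega
  have hal : al I β m = 0 := by
    unfold al
    rw [hav, Finset.card_eq_zero, Finset.filter_eq_empty_iff]
    intro k _ h
    rw [Finset.filter_empty, Finset.card_empty] at h
    have := hI.cpos m
    omega
  unfold dmL
  rw [if_pos hal]

theorem C1_sum_vs (f : ℕ → ℕ) : ((vs D).map f).sum = ∑ i ∈ Finset.range D.1.length, f i := by
  unfold vs
  induction D.1.length with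
  | zero => simp
  | succ n ih => rw [List.range_succ, List.map_append, List.sum_append, ih, Finset.sum_range_succ]; simp

theorem numD_iff : numD D b = true ↔ Num (toI D) (bD b) := by
  unfold numD Num
  rw [Bool.and_eq_true, decide_eq_true_eq, C1_sum_vs, C1_sum_vs]
  have h1 : ((vs D).all fun m => decide (alD D b m = 0) || decide (dLD (FFD D b) m ≤ cD D m)) = true ↔
      ∀ m < (toI D).n, al (toI D) (bD b) m = 0 ∨ dL (FF (toI D) (bD b)) m ≤ (toI D).c m := by
    rw [List.all_eq_true]
    refine forall_congr' fun m => ?_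
    rw [C1_mem_vs]
    refine forall_congr' fun hm => ?_
    rw [Bool.or_eq_true, decide_eq_true_eq, decide_eq_true_eq, alD_eq hm, C1_c hm, dLD_eq FFD_nodup,
      FFD_toFinset]
  have h2 : ∑ m ∈ Finset.range D.1.length, (if alD D b m = 0 then (avD D b m).length else cD D m) =
      ∑ m ∈ Finset.range (toI D).n, (if al (toI D) (bD b) m = 0 then (av (toI D) (bD b) m).card
        else (toI D).c m) := by
    refine Finset.sum_congr rfl fun m hm => ?_
    rw [Finset.mem_range] at hm
    rw [alD_eq hm, C1_c hm, avD_length]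
  have h3 : ∑ w ∈ Finset.range D.1.length, (if bD b w = 0 then dRD (PPD D b) w else cD D w) =
      ∑ w ∈ Finset.range (toI D).n, (if bD b w = 0 then dR (PP (toI D) (bD b)) w
        else (toI D).c w) := by
    refine Finset.sum_congr rfl fun w hw => ?_
    rw [Finset.mem_range] at hw
    rw [C1_c hw, dRD_eq PPD_nodup, PPD_toFinset]
  rw [h1, h2, h3]

theorem bD_map (f : ℕ → ℕ) (w : ℕ) : bD ((vs D).map f) w = if w < D.1.length then f w else 0 := by
  unfold bD vs
  split_ifs with h
  · simp [List.getD_eq_getElem?_getD, h]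
  · simp [List.getD_eq_getElem?_getD, h]

end Pool.Agent.H671R2.SF
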