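import Pool.Agent.H671R2.SF.TC1
import Pool.Agent.H671R2.SF.TB8
import Pool.Agent.H671R2.SF.TA15

/-!
# The raising test of the program
-/

set_option autoImplicit false
set_option linter.unusedVariables false
set_option linter.unusedSectionVars false

namespace Pool.Agent.H671R2.SF

open Pool.Agent.NPC

section gen
variable {ι κ : Type} [DecidableEq ι] [DecidableEq κ]

theorem kk_nodup (V : List ι) (g : ι → κ) (hg : Function.Injective g) (k : ι → List ℕ)
    (hV : V.Nodup) (hk : ∀ m, (k m).Nodup) :
    (V.flatMap fun m => (k m).map fun i => (g m, i)).Nodup := by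
  rw [List.nodup_flatMap]
  refine ⟨fun m _ => ?_, ?_⟩
  · refine (hk m).map ?_
    intro i j h
    exact (Prod.ext_iff.1 h).2
  · refine hV.imp ?_
    intro a b hab
    rw [Function.onFun, List.disjoint_left]
    intro x hx hy
    rw [List.mem_map] at hx hy
    obtain ⟨i, _, rfl⟩ := hx
    obtain ⟨j, _, h⟩ := hy
    exact hab (hg (Prod.ext_iff.1 h).1.symm)

theorem capK_append (K L : List (κ × ℕ)) (v : κ) : capK (K ++ L) v = capK K v + capK L v := by
  unfold capK
  rw [List.filter_append, List.length_append]

theorem capK_map (l : List ℕ) (u v : κ) :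
    capK (l.map fun i => (u, i)) v = if u = v then l.length else 0 := by
  unfold capK
  rw [List.filter_map, List.length_map]
  split_ifs with h
  · rw [List.filter_eq_self.2]
    intro i _
    simp [h]
  · rw [List.filter_eq_nil_iff.2]
    · rfl
    · intro i _
      simp [h]

theorem capK_kk_not (V : List ι) (g : ι → κ) (k : ι → List ℕ) (v : κ) (hv : ∀ m ∈ V, g m ≠ v) :
    capK (V.flatMap fun m => (k m).map fun i => (g m, i)) v = 0 := by
  induction V with
  | nil => rfl
  | cons a V ih =>
    rw [List.flatMap_cons, capK_append, capK_map, if_neg (hv a List.mem_cons_self),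
      ih fun m hm => hv m (List.mem_cons_of_mem _ hm)]

theorem capK_kk (V : List ι) (g : ι → κ) (hg : Function.Injective g) (k : ι → List ℕ)
    (hV : V.Nodup) (m : ι) :
    capK (V.flatMap fun m => (k m).map fun i => (g m, i)) (g m) =
      if m ∈ V then (k m).length else 0 := by
  induction V with
  | nil => rfl
  | cons a V ih =>
    rw [List.nodup_cons] at hV
    rw [List.flatMap_cons, capK_append, capK_map, ih hV.2]
    by_cases h : a = m
    · subst h
      rw [if_pos rfl, if_neg hV.1, if_pos List.mem_cons_self, Nat.add_zero]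
    · rw [if_neg (fun hc => h (hg hc)), Nat.zero_add]
      have h' : m ≠ a := fun hc => h hc.symm
      simp only [List.mem_cons, h', false_or]

end gen

variable {D : Dat} {b : List ℕ}

theorem cps_nodup (k : ℕ) : (cps D k).Nodup := List.nodup_range.filter _

theorem cps_length {k : ℕ} (hk : k ≤ D.1.length + 1) : (cps D k).length = k := by
  unfold cps
  rw [C1_filter_length List.nodup_range _ (fun i => i < k) (fun i _ => by rw [decide_eq_true_iff])]
  have : ((List.range (D.1.length + 1)).toFinset.filter fun i => i < k) = Finset.range k := by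
    ext i
    simp only [Finset.mem_filter, List.mem_toFinset, List.mem_range, Finset.mem_range]
    omega
  rw [this, Finset.card_range]

theorem dmLD_le (hD : GoodD D) (m : ℕ) : dmLD D b m ≤ D.1.length := by
  unfold dmLD
  have := hD.2 m
  split_ifs <;> omega

theorem dmRD_le (hD : GoodD D) (m : ℕ) : dmRD D b m ≤ D.1.length := by
  unfold dmRD
  have := hD.2 m
  omega

/-- the embedding of the pairs into the edges -/
def phi (e : ℕ × ℕ) : (Bool × ℕ) × (Bool × ℕ) := ((false, e.1), (true, e.2))

theorem phi_inj : Function.Injective phi := by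
  rintro ⟨a, b⟩ ⟨c, d⟩ h
  simp only [phi, Prod.mk.injEq, true_and] at h
  rw [h.1, h.2]

theorem EB_eq : EB D b = (HHD D b).map phi := rfl

theorem degX_phi_false (l : List (ℕ × ℕ)) (m : ℕ) : degX (l.map phi) (false, m) = dLD l m := by
  unfold degX dLD
  rw [List.filter_map, List.length_map]
  congr 1
  apply List.filter_congr
  rintro ⟨a, b⟩ _
  simp [phi]

theorem degX_phi_true (l : List (ℕ × ℕ)) (m : ℕ) : degX (l.map phi) (true, m) = dRD l m := by
  unfold degX dRD
  rw [List.filter_map, List.length_map]
  congr 1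
  apply List.filter_congr
  rintro ⟨a, b⟩ _
  simp [phi]

theorem capB_false (hD : GoodD D) (x : List ℕ) (m : ℕ) :
    capK (KB D b x) (false, m) = if m < D.1.length then dmLD D b m else 0 := by
  unfold KB
  rw [capK_append, capK_kk_not (vs D) (fun w => (true, w)) _ (false, m) (fun _ _ h => by
    simp at h), Nat.add_zero]
  rw [capK_kk (vs D) (fun m => (false, m)) (fun a b h => by simpa using h) _ C1_vs_nodup m]
  simp only [C1_mem_vs]
  split_ifs with h
  · rw [cps_length]
    have := dmLD_le (b := b) hD m
    omega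
  · rfl

theorem capB_true (hD : GoodD D) (x : List ℕ) (w : ℕ) :
    capK (KB D b x) (true, w) =
      if w < D.1.length then dmRD D b w + (if w ∈ x then 1 else 0) else 0 := by
  unfold KB
  rw [capK_append, capK_kk_not (vs D) (fun w => (false, w)) _ (true, w) (fun _ _ h => by
    simp at h), Nat.zero_add]
  rw [capK_kk (vs D) (fun m => (true, m)) (fun a b h => by simpa using h) _ C1_vs_nodup w]
  simp only [C1_mem_vs]
  by_cases h : w < D.1.length
  · rw [if_pos h, if_pos h, cps_length]
    have := dmRD_le (b := b) hD w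
    split_ifs <;> omega
  · rw [if_neg h, if_neg h]

theorem KB_nodup (x : List ℕ) : (KB D b x).Nodup := by
  unfold KB
  rw [List.nodup_append']
  refine ⟨?_, ?_, ?_⟩
  · exact kk_nodup (vs D) (fun m => (false, m)) (fun a b h => by simpa using h) _ C1_vs_nodup
      (fun m => cps_nodup _)
  · exact kk_nodup (vs D) (fun m => (true, m)) (fun a b h => by simpa using h) _ C1_vs_nodup
      (fun m => cps_nodup _)
  · rw [List.disjoint_left]
    intro y hy hy'
    rw [List.mem_flatMap] at hy hy'
    obtain ⟨m, _, hy⟩ := hy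
    obtain ⟨m', _, hy'⟩ := hy'
    rw [List.mem_map] at hy hy'
    obtain ⟨i, _, rfl⟩ := hy
    obtain ⟨j, _, h⟩ := hy'
    simp at h

theorem EB_nodup : (EB D b).Nodup := HHD_nodup.map phi_inj

theorem EB_LF : LF (EB D b) := by
  intro e he
  rw [EB_eq, List.mem_map] at he
  obtain ⟨a, _, rfl⟩ := he
  simp [phi]

theorem EB_as (u v : Bool × ℕ) (h : (u, v) ∈ EB D b) : (v, u) ∉ EB D b := by
  intro h'
  rw [EB_eq, List.mem_map] at h h'
  obtain ⟨a, _, ha⟩ := h
  obtain ⟨c, _, hc⟩ := h'
  simp only [phi, Prod.mk.injEq] at ha hc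
  rw [← ha.1] at hc
  simp at hc

theorem mem_HHD {e : ℕ × ℕ} : e ∈ HHD D b ↔ e ∈ HH (toI D) (bD b) := by
  rw [← HHD_toFinset, List.mem_toFinset]

theorem optD_spec (hD : GoodD D) (x : List ℕ) :
    (∃ X, Okd (toI D) (bD b) (fun v => if v ∈ x then 1 else 0) X ∧ X.card = optD D b x) ∧
    ∀ Y, Okd (toI D) (bD b) (fun v => if v ∈ x then 1 else 0) Y → Y.card ≤ optD D b x := by
  obtain ⟨h1, h2, h3⟩ := maxDeg_spec (K := KB D b x) (EB_nodup (D := D) (b := b)) EB_LF EB_as
    (KB_nodup x)
  constructor
  · rw [EB_eq] at h1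
    obtain ⟨l, hl, he⟩ := List.sublist_map_iff.1 h1
    rw [← EB_eq] at he
    have hnd : l.Nodup := HHD_nodup.sublist hl
    refine ⟨l.toFinset, ⟨?_, fun m => ?_, fun w => ?_⟩, ?_⟩
    · rw [← HHD_toFinset]
      intro e he
      rw [List.mem_toFinset] at he ⊢
      exact hl.subset he
    · rw [← dLD_eq hnd, ← degX_phi_false, ← he]
      refine (h2 _).trans ?_
      rw [capB_false hD]
      split_ifs with h
      · exact (dmLD_eq h).le
      · exact Nat.zero_le _
    · rw [← dRD_eq hnd, ← degX_phi_true, ← he]
      refine (h2 _).trans ?_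
      rw [capB_true hD]
      by_cases h : w < D.1.length
      · rw [if_pos h, dmRD_eq h]
      · rw [if_neg h]
        exact Nat.zero_le _
    · unfold optD
      rw [he, List.length_map, C1_card hnd]
  · intro Y hY
    unfold optD
    have hnd : Y.toList.Nodup := Finset.nodup_toList Y
    have hle := h3 (Y.toList.map phi) (hnd.map phi_inj) (fun e he => ?_) (fun v => ?_)
    · rw [List.length_map, Finset.length_toList] at hle
      exact hle
    · rw [List.mem_map] at he
      obtain ⟨a, ha, rfl⟩ := he
      rw [EB_eq]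
      refine List.mem_map_of_mem ?_
      rw [mem_HHD]
      exact hY.1 (Finset.mem_toList.1 ha)
    · obtain ⟨s, v⟩ := v
      cases s with
      | false =>
        rw [degX_phi_false, dLD_eq hnd, Finset.toList_toFinset, capB_false hD]
        refine (hY.2.1 v).trans ?_
        split_ifs with h
        · exact (dmLD_eq h).ge
        · exact (dmL_big hD.1 (by show D.1.length ≤ v; omega)).le
      | true =>
        rw [degX_phi_true, dRD_eq hnd, Finset.toList_toFinset, capB_true hD]
        by_cases h : v < D.1.length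
        · rw [if_pos h, dmRD_eq h]
          exact hY.2.2 v
        · rw [if_neg h]
          unfold dR
          rw [Finset.card_eq_zero.2]
          rw [Finset.filter_eq_empty_iff]
          intro e he hc
          have := lt_of_mem_PP hD.1 (HH_subset _ _ (hY.1 he))
          exact h (hc ▸ this.2)

theorem optD_lt (hD : GoodD D) (w : ℕ) : optD D b [] < optD D b [w] ↔
    ∃ X, Okd (toI D) (bD b) (one w) X ∧ ∀ Y, Okd (toI D) (bD b) 0 Y → Y.card < X.card := by
  have e0 : (fun v => if v ∈ ([] : List ℕ) then 1 else 0) = (0 : ℕ → ℕ) := by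
    funext v; simp
  have e1 : (fun v => if v ∈ [w] then 1 else 0) = one w := by
    funext v; simp [one]
  have s0 := optD_spec (b := b) hD []
  have s1 := optD_spec (b := b) hD [w]
  rw [e0] at s0
  rw [e1] at s1
  constructor
  · intro h
    obtain ⟨X, hX, hc⟩ := s1.1
    refine ⟨X, hX, fun Y hY => ?_⟩
    have := s0.2 Y hY
    omega
  · rintro ⟨X, hX, hlt⟩
    obtain ⟨Y, hY, hc⟩ := s0.1
    have h1 := hlt Y hY
    have h2 := s1.2 X hX
    omega

theorem raiseD_iff (hD : GoodD D) {w : ℕ} (hw : w < D.1.length) :
    raiseD D b w = true ↔ Rs (toI D) (bD b) w := by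
  unfold raiseD Rs
  rw [Bool.or_eq_true, Bool.or_eq_true, decide_eq_true_eq, decide_eq_true_eq, decide_eq_true_eq,
    optD_lt hD, C1_c hw, dRD_eq FFD_nodup, FFD_toFinset, or_assoc]
  have : ((PPD D b).filter fun e => decide (e.2 = w) && decide (bD b w < pD D w e.1)).length =
      ((PP (toI D) (bD b)).filter fun e => e.2 = w ∧ bD b w < (toI D).p w e.1).card := by
    rw [C1_filter_length PPD_nodup _ (fun e => e.2 = w ∧ bD b w < (toI D).p w e.1), PPD_toFinset]
    intro e _
    rw [Bool.and_eq_true, decide_eq_true_eq, decide_eq_true_eq]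
    rfl
  rw [this]

theorem bD_clStep (hD : GoodD D) (hb : ∀ w, D.1.length ≤ w → bD b w = 0) :
    bD (clStep D b) = nxt (toI D) (bD b) := by
  funext w
  unfold clStep
  rw [bD_map]
  by_cases h : w < D.1.length
  · rw [if_pos h]
    by_cases hr : raiseD D b w = true
    · rw [if_pos hr, nxt_pos ⟨h, (raiseD_iff hD h).1 hr⟩]
    · rw [if_neg hr, nxt_neg (fun hc => hr ((raiseD_iff hD h).2 hc.2)), Nat.add_zero]
  · rw [if_neg h, nxt_neg (fun hc => h hc.1), hb w (by omega)]

theorem bigL_length : (bigL D).length = (D.1.length + 2) * (D.1.length + 2) := by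
  unfold bigL
  rw [List.length_product, List.length_range]

theorem bD_iter (hD : GoodD D) (hb : ∀ w, D.1.length ≤ w → bD b w = 0) (T : ℕ) :
    bD ((clStep D)^[T] b) = (nxt (toI D))^[T] (bD b) := by
  induction T with
  | zero => rfl
  | succ T ih =>
    rw [Function.iterate_succ_apply', Function.iterate_succ_apply', bD_clStep hD, ih]
    intro w hw
    rw [ih, iter_zero T (I := toI D) (w := w) hw]
    exact hb w hw

theorem bD_clD (hD : GoodD D) (hb : ∀ w, D.1.length ≤ w → bD b w = 0) :
    bD (clD D b) = (nxt (toI D))^[(D.1.length + 2) * (D.1.length + 2)] (bD b) := by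
  unfold clD
  rw [bigL_length]
  exact bD_iter hD hb _

end Pool.Agent.H671R2.SF
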