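import Pool.Agent.H671R2.SF.TC1
import Pool.Agent.H671R2.SF.TA15

/-!
# Task C3: the one-sided maximum
-/

set_option autoImplicit false

namespace Pool.Agent.H671R2.SF

open Pool.Agent.NPC

variable {D : Dat} {b : List ℕ}

theorem C3_both_mem {Y : List (ℕ × ℕ)} {e : ℕ × ℕ} :
    e ∈ both Y ↔ e ∈ Y ∨ (e.2, e.1) ∈ Y := by
  unfold both
  rw [List.mem_append, List.mem_map]
  constructor
  · rintro (h | ⟨x, hx, rfl⟩)
    · exact Or.inl h
    · exact Or.inr hx
  · rintro (h | h)
    · exact Or.inl h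
    · exact Or.inr ⟨_, h, rfl⟩

theorem C3_both_nodup {Y : List (ℕ × ℕ)} (hY : Y.Nodup) (hlt : ∀ e ∈ Y, e.1 < e.2) :
    (both Y).Nodup := by
  unfold both
  rw [List.nodup_append]
  refine ⟨hY, ?_, ?_⟩
  · refine hY.map ?_
    rintro ⟨a, c⟩ ⟨a', c'⟩ h
    simp only [Prod.mk.injEq] at h
    exact Prod.ext h.2 h.1
  · intro x hx y hy
    rw [List.mem_map] at hy
    obtain ⟨z, hz, rfl⟩ := hy
    rintro rfl
    have h1 := hlt _ hx
    have h2 := hlt _ hz
    simp only at h1
    omega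

theorem C3_both_length (Y : List (ℕ × ℕ)) : (both Y).length = 2 * Y.length := by
  unfold both
  rw [List.length_append, List.length_map]
  ring

theorem C3_degX {Y : List (ℕ × ℕ)} (hlt : ∀ e ∈ Y, e.1 < e.2) (m : ℕ) :
    dLD (both Y) m = degX Y m := by
  unfold dLD both degX
  rw [List.filter_append, List.length_append]
  induction Y with
  | nil => simp
  | cons e Y ih =>
    have h1 := hlt e (by simp)
    have h2 := ih (fun x hx => hlt x (by simp [hx]))
    simp only [List.map_cons, List.filter_cons]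
    rcases Nat.lt_trichotomy e.1 m with h | h | h
    · by_cases h3 : e.2 = m
      · have h4 : ¬ (e.1 = m) := by omega
        simp only [h3, h4, decide_false, decide_true, Bool.false_or, if_true, List.length_cons]
        simp only [Bool.false_eq_true, if_false]
        omega
      · have h4 : ¬ (e.1 = m) := by omega
        simp only [h3, h4, decide_false, Bool.false_or, Bool.false_eq_true, if_false]
        omega
    · have h3 : ¬ (e.2 = m) := by omega
      simp only [h3, h, decide_false, decide_true, Bool.true_or, if_true, List.length_cons,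
        Bool.false_eq_true, if_false]
      omega
    · have h3 : ¬ (e.2 = m) := by omega
      have h4 : ¬ (e.1 = m) := by omega
      simp only [h3, h4, decide_false, Bool.false_or, Bool.false_eq_true, if_false]
      omega

theorem C3_dL {Y : List (ℕ × ℕ)} (hY : Y.Nodup) (hlt : ∀ e ∈ Y, e.1 < e.2) (m : ℕ) :
    dL (both Y).toFinset m = degX Y m := by
  rw [← dLD_eq (C3_both_nodup hY hlt), C3_degX hlt]

theorem C3_mem_vs {v : ℕ} : v ∈ vs D ↔ v < D.1.length := by
  unfold vs
  exact List.mem_range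

theorem C3_mem_HHD {e : ℕ × ℕ} : e ∈ HHD D b ↔
    e.1 < D.1.length ∧ e.2 < D.1.length ∧ 0 < pD D e.1 e.2 ∧ pD D e.1 e.2 = alD D b e.1 ∧
      pD D e.2 e.1 = bD b e.2 := by
  unfold HHD PPD isF
  rw [List.mem_filter, List.mem_filter, List.mem_product, C3_mem_vs, C3_mem_vs]
  simp only [Bool.and_eq_true, decide_eq_true_eq, Bool.not_eq_true', Bool.or_eq_false_iff,
    decide_eq_false_iff_not]
  constructor
  · rintro ⟨⟨⟨h1, h2⟩, ⟨h3, h4⟩, h5⟩, h6, h7⟩
    exact ⟨h1, h2, h3, by omega, by omega⟩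
  · rintro ⟨h1, h2, h3, h4, h5⟩
    exact ⟨⟨⟨h1, h2⟩, ⟨h3, by omega⟩, by omega⟩, by omega, by omega⟩

theorem C3_symm (hD : GoodD D) (heq : ∀ v < D.1.length, bD b v = alD D b v) {e : ℕ × ℕ}
    (he : e ∈ HHD D b) : (e.2, e.1) ∈ HHD D b := by
  rw [C3_mem_HHD] at he ⊢
  obtain ⟨h1, h2, h3, h4, h5⟩ := he
  refine ⟨h2, h1, ?_, ?_, ?_⟩
  · exact hD.1.symm e.1 e.2 h3
  · simp only
    rw [h5, heq _ h2]
  · simp only
    rw [h4, heq _ h1]

theorem C3_ne (hD : GoodD D) {e : ℕ × ℕ} (he : e ∈ HHD D b) : e.1 ≠ e.2 := by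
  rw [C3_mem_HHD] at he
  intro h
  have h1 := he.2.2.1
  have h2 : pD D e.1 e.1 = 0 := hD.1.irr e.1
  rw [← h, h2] at h1
  exact lt_irrefl _ h1

theorem C3_mem_EU {e : ℕ × ℕ} : e ∈ EU D b ↔ e ∈ HHD D b ∧ e.1 < e.2 := by
  unfold EU
  rw [List.mem_filter, decide_eq_true_eq]

theorem C3_mem_cps {k i : ℕ} : i ∈ cps D k ↔ i < D.1.length + 1 ∧ i < k := by
  unfold cps
  rw [List.mem_filter, List.mem_range, decide_eq_true_eq]

theorem C3_cps_nodup {k : ℕ} : (cps D k).Nodup := List.nodup_range.filter _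

theorem C3_cps_length {k : ℕ} (hk : k ≤ D.1.length) : (cps D k).length = k := by
  have : (cps D k).Perm (List.range k) := by
    rw [List.perm_ext_iff_of_nodup C3_cps_nodup List.nodup_range]
    intro a
    rw [C3_mem_cps, List.mem_range]
    omega
  rw [this.length_eq, List.length_range]

theorem C3_mem_KU {x : ℕ × ℕ} : x ∈ KU D b ↔
    x.1 < D.1.length ∧ x.2 < D.1.length + 1 ∧ x.2 < dmLD D b x.1 := by
  unfold KU
  rw [List.mem_flatMap]
  constructor
  · rintro ⟨m, hm, hx⟩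
    rw [List.mem_map] at hx
    obtain ⟨i, hi, rfl⟩ := hx
    rw [C3_mem_cps] at hi
    exact ⟨C3_mem_vs.1 hm, hi.1, hi.2⟩
  · rintro ⟨h1, h2, h3⟩
    refine ⟨x.1, C3_mem_vs.2 h1, ?_⟩
    rw [List.mem_map]
    exact ⟨x.2, C3_mem_cps.2 ⟨h2, h3⟩, rfl⟩

theorem C3_KU_nodup : (KU D b).Nodup := by
  unfold KU
  rw [List.nodup_flatMap]
  refine ⟨fun m _ => C3_cps_nodup.map (fun a c h => (Prod.mk.inj h).2), ?_⟩
  refine List.Pairwise.imp ?_ (C1_vs_nodup (D := D))
  intro a c hac
  rw [Function.onFun, List.disjoint_left]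
  intro x hx hy
  rw [List.mem_map] at hx hy
  obtain ⟨i, _, rfl⟩ := hx
  obtain ⟨j, _, hj⟩ := hy
  exact hac (Prod.mk.inj hj).1.symm

theorem C3_dmLD_le (hD : GoodD D) (m : ℕ) : dmLD D b m ≤ D.1.length := by
  unfold dmLD
  have := hD.2 m
  split_ifs <;> omega

theorem C3_capK (hD : GoodD D) {m : ℕ} (hm : m < D.1.length) : capK (KU D b) m = dmLD D b m := by
  unfold capK
  have h : ((KU D b).filter fun k => decide (k.1 = m)).Perm
      ((cps D (dmLD D b m)).map fun i => (m, i)) := by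
    rw [List.perm_ext_iff_of_nodup (C3_KU_nodup.filter _)
      (C3_cps_nodup.map (fun a c h => (Prod.mk.inj h).2))]
    intro x
    rw [List.mem_filter, C3_mem_KU, List.mem_map, decide_eq_true_eq]
    constructor
    · rintro ⟨⟨h1, h2, h3⟩, h4⟩
      refine ⟨x.2, C3_mem_cps.2 ⟨h2, ?_⟩, ?_⟩
      · rw [← h4]; exact h3
      · rw [← h4]
    · rintro ⟨i, hi, rfl⟩
      rw [C3_mem_cps] at hi
      exact ⟨⟨hm, hi.1, hi.2⟩, rfl⟩
  rw [h.length_eq, List.length_map, C3_cps_length (C3_dmLD_le hD m)]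

theorem C3_capK' {m : ℕ} (hm : ¬ m < D.1.length) : capK (KU D b) m = 0 := by
  unfold capK
  rw [List.length_eq_zero_iff, List.filter_eq_nil_iff]
  intro x hx
  rw [C3_mem_KU] at hx
  rw [decide_eq_true_eq]
  intro h
  rw [h] at hx
  exact hm hx.1

theorem C3_cap (hD : GoodD D) (m : ℕ) : capK (KU D b) m = dmL (toI D) (bD b) m := by
  by_cases hm : m < D.1.length
  · rw [C3_capK hD hm, dmLD_eq hm]
  · rw [C3_capK' hm, dmL_big hD.1]
    exact not_lt.1 hm

/-- the one-sided maximum -/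
theorem maxDegU_spec (hD : GoodD D) (heq : ∀ v < D.1.length, bD b v = alD D b v) :
    (both (maxDeg (EU D b) (KU D b))).Nodup ∧
    (∀ e ∈ both (maxDeg (EU D b) (KU D b)), e ∈ HHD D b) ∧
    (∀ m, dL (both (maxDeg (EU D b) (KU D b))).toFinset m ≤ dmL (toI D) (bD b) m) ∧
    ∀ X, X ⊆ HH (toI D) (bD b) → Sym X → (∀ m, dL X m ≤ dmL (toI D) (bD b) m) →
      X.card ≤ 2 * (maxDeg (EU D b) (KU D b)).length := by
  have hEn : (EU D b).Nodup := HHD_nodup.filter _
  have hlf : LF (EU D b) := fun e he => C3_ne hD (C3_mem_EU.1 he).1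
  have has : ∀ a c, (a, c) ∈ EU D b → (c, a) ∉ EU D b := by
    intro a c h1 h2
    have h3 := (C3_mem_EU.1 h1).2
    have h4 := (C3_mem_EU.1 h2).2
    simp only at h3 h4
    omega
  obtain ⟨s1, s2, s3⟩ := maxDeg_spec hEn hlf has (C3_KU_nodup (D := D) (b := b))
  have hXn : (maxDeg (EU D b) (KU D b)).Nodup := hEn.sublist s1
  have hlt : ∀ e ∈ maxDeg (EU D b) (KU D b), e.1 < e.2 :=
    fun e he => (C3_mem_EU.1 (s1.subset he)).2
  refine ⟨C3_both_nodup hXn hlt, ?_, ?_, ?_⟩
  · intro e he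
    rcases C3_both_mem.1 he with h | h
    · exact (C3_mem_EU.1 (s1.subset h)).1
    · exact C3_symm hD heq (C3_mem_EU.1 (s1.subset h)).1
  · intro m
    rw [C3_dL hXn hlt, ← C3_cap hD]
    exact s2 m
  · intro X hX hS hd
    have hXH : ∀ e ∈ X, e ∈ HHD D b := by
      intro e he
      have := hX he
      rw [← HHD_toFinset, List.mem_toFinset] at this
      exact this
    set Y : List (ℕ × ℕ) := (X.filter fun e => e.1 < e.2).toList with hYdef
    have hYn : Y.Nodup := Finset.nodup_toList _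
    have hYm : ∀ e, e ∈ Y ↔ e ∈ X ∧ e.1 < e.2 := by
      intro e
      rw [hYdef, Finset.mem_toList, Finset.mem_filter]
    have hYlt : ∀ e ∈ Y, e.1 < e.2 := fun e he => ((hYm e).1 he).2
    have hYX : (both Y).toFinset = X := by
      ext e
      rw [List.mem_toFinset, C3_both_mem, hYm, hYm]
      constructor
      · rintro (h | h)
        · exact h.1
        · exact hS _ _ h.1
      · intro h
        have hne := C3_ne hD (hXH e h)
        rcases lt_or_gt_of_ne hne with h1 | h1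
        · exact Or.inl ⟨h, h1⟩
        · exact Or.inr ⟨hS _ _ h, h1⟩
    have hcard : X.card = 2 * Y.length := by
      rw [← hYX, List.toFinset_card_of_nodup (C3_both_nodup hYn hYlt), C3_both_length]
    have hle : Y.length ≤ (maxDeg (EU D b) (KU D b)).length := by
      refine s3 Y hYn ?_ ?_
      · intro e he
        exact C3_mem_EU.2 ⟨hXH e ((hYm e).1 he).1, hYlt e he⟩
      · intro v
        rw [C3_cap hD, ← C3_dL hYn hYlt, hYX]
        exact hd v
    omega

end Pool.Agent.H671R2.SF
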