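import Pool.Agent.H671R2.SF.TB3
import Pool.Agent.H671R2.SF.TB8
import Pool.Agent.H671R2.SF.TB9
import Pool.Agent.H671R2.SF.TB10
import Pool.Agent.H671R2.SF.TC1
import Pool.Agent.H671R2.SF.TC2
import Pool.Agent.H671R2.SF.TC3

/-!
# Task C4: correctness of the algorithm for data
-/

set_option autoImplicit false

namespace Pool.Agent.H671R2.SF

open Pool.Agent.NPC

namespace TC4

variable {D : Dat} {b : List ℕ}

theorem goodD_iff (D : Dat) (b : List ℕ) :
    goodD D b = true ↔ Num (toI D) (bD b) ∧ ∀ v < D.1.length, bD b v ≤ al (toI D) (bD b) v := by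
  unfold goodD vs
  rw [Bool.and_eq_true, SF.numD_iff, List.all_eq_true]
  constructor
  · rintro ⟨h1, h2⟩
    refine ⟨h1, fun v hv => ?_⟩
    have := h2 v (List.mem_range.2 hv)
    rw [decide_eq_true_eq, SF.alD_eq hv] at this
    exact this
  · rintro ⟨h1, h2⟩
    refine ⟨h1, fun v hv => ?_⟩
    have hv' := List.mem_range.1 hv
    rw [decide_eq_true_eq, SF.alD_eq hv']
    exact h2 v hv'

theorem goodD_of_good2 (h : Good2 (toI D) (bD b)) : goodD D b = true :=
  (goodD_iff D b).2 ⟨h.2.1, h.2.2.2⟩

theorem good2_cl (hD : GoodD D) {b0 : List ℕ} (h0 : ∀ w, D.1.length ≤ w → bD b0 w = 0)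
    (h1 : ∀ w, bD b0 w ≤ D.1.length + 1) (hg : goodD D (clD D b0) = true) :
    Good2 (toI D) (bD (clD D b0)) := by
  obtain ⟨hn, hle⟩ := (goodD_iff D _).1 hg
  refine ⟨?_, hn, ?_, hle⟩
  · rw [SF.bD_clD hD h0]
    exact SF.iter_fix hD.1 h1 le_rfl
  · intro v hv
    rw [SF.bD_clD hD h0, SF.iter_zero _ hv]
    exact h0 v hv

theorem bD_bump (D : Dat) (b : List ℕ) (w v : ℕ) :
    bD (bump D b w) v = if v < D.1.length then bD b v + (if v = w then 1 else 0) else 0 := by
  unfold bump
  rw [SF.bD_map]

theorem bD_zero (D : Dat) : bD ((vs D).map fun _ => 0) = fun _ => 0 := by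
  funext w
  rw [SF.bD_map]
  simp

theorem al_le (β : ℕ → ℕ) (m : ℕ) : al (toI D) β m ≤ D.1.length := SF.al_le (I := toI D) β m

theorem bump_le (hg : Good2 (toI D) (bD b)) (w v : ℕ) : bD (bump D b w) v ≤ D.1.length + 1 := by
  rw [bD_bump]
  split_ifs with h1 h2
  · have := hg.2.2.2 v h1
    have := al_le (D := D) (bD b) v
    omega
  · have := hg.2.2.2 v h1
    have := al_le (D := D) (bD b) v
    omega
  · omega

theorem bump_zero (w v : ℕ) (hv : D.1.length ≤ v) : bD (bump D b w) v = 0 := by
  rw [bD_bump, if_neg (by omega)]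

theorem le_bump (hg : Good2 (toI D) (bD b)) (w v : ℕ) : bD b v ≤ bD (bump D b w) v := by
  rw [bD_bump]
  split_ifs with h1 h2
  · omega
  · omega
  · exact le_of_eq (hg.2.2.1 v (by simpa [toI] using h1))

theorem mem_cand {b' : List ℕ} (h : b' ∈ candD D b) :
    ∃ w < D.1.length, b' = clD D (bump D b w) ∧ goodD D b' = true := by
  unfold candD vs at h
  rw [List.mem_filter, List.mem_map] at h
  obtain ⟨⟨w, hw, rfl⟩, hg⟩ := h
  rw [List.mem_filter, List.mem_range] at hw
  exact ⟨w, hw.1, rfl, hg⟩

theorem cand_of {w : ℕ} (hw : w < D.1.length) (h1 : bD b w < al (toI D) (bD b) w)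
    (h2 : goodD D (clD D (bump D b w)) = true) : clD D (bump D b w) ∈ candD D b := by
  unfold candD vs
  rw [List.mem_filter, List.mem_map]
  refine ⟨⟨w, ?_, rfl⟩, h2⟩
  rw [List.mem_filter, List.mem_range, decide_eq_true_eq, SF.alD_eq hw]
  exact ⟨hw, h1⟩

/-- the potential -/
def pot (D : Dat) (b : List ℕ) : ℕ := ∑ v ∈ Finset.range D.1.length, bD b v

theorem cand_good (hD : GoodD D) (hg : Good2 (toI D) (bD b)) {b' : List ℕ} (h : b' ∈ candD D b) :
    Good2 (toI D) (bD b') ∧ pot D b < pot D b' := by
  obtain ⟨w, hw, rfl, hgd⟩ := mem_cand h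
  refine ⟨good2_cl hD (bump_zero w) (bump_le hg w) hgd, ?_⟩
  have hle : ∀ v, bD (bump D b w) v ≤ bD (clD D (bump D b w)) v := by
    intro v
    rw [SF.bD_clD hD (bump_zero w)]
    exact SF.iter_le _ _ v
  unfold pot
  refine Finset.sum_lt_sum (fun v _ => (le_bump hg w v).trans (hle v)) ⟨w, Finset.mem_range.2 hw, ?_⟩
  refine lt_of_lt_of_le ?_ (hle w)
  rw [bD_bump, if_pos hw, if_pos rfl]
  omega

theorem pot_le (hg : Good2 (toI D) (bD b)) : pot D b ≤ D.1.length * D.1.length := by
  unfold pot
  calc ∑ v ∈ Finset.range D.1.length, bD b v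
      ≤ ∑ _v ∈ Finset.range D.1.length, D.1.length := by
        refine Finset.sum_le_sum fun v hv => ?_
        exact (hg.2.2.2 v (Finset.mem_range.1 hv)).trans (al_le _ v)
    _ = D.1.length * D.1.length := by simp

theorem mainStep_cases (D : Dat) (b : List ℕ) :
    (candD D b = [] ∧ mainStep D b = b) ∨ mainStep D b ∈ candD D b := by
  unfold mainStep
  cases h : candD D b with
  | nil => left; simp
  | cons a t => right; simp

theorem iter_good (hD : GoodD D) (hg : Good2 (toI D) (bD b)) (k : ℕ) :
    Good2 (toI D) (bD ((mainStep D)^[k] b)) ∧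
      (candD D ((mainStep D)^[k] b) = [] ∨ k ≤ pot D ((mainStep D)^[k] b)) := by
  induction k with
  | zero => exact ⟨hg, Or.inr (Nat.zero_le _)⟩
  | succ k ih =>
    obtain ⟨ih1, ih2⟩ := ih
    rw [Function.iterate_succ_apply']
    rcases mainStep_cases D ((mainStep D)^[k] b) with ⟨h1, h2⟩ | h
    · rw [h2]
      exact ⟨ih1, Or.inl h1⟩
    · obtain ⟨h3, h4⟩ := cand_good hD ih1 h
      refine ⟨h3, ?_⟩
      rcases ih2 with h5 | h5
      · rw [h5] at h
        exact absurd h (by simp)
      · right; omega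

theorem bigL_length (D : Dat) : (bigL D).length = (D.1.length + 2) * (D.1.length + 2) := by
  unfold bigL
  rw [List.length_product, List.length_range]

theorem final_good (hD : GoodD D) (hg : Good2 (toI D) (bD (startB D))) :
    Good2 (toI D) (bD (finalB D)) ∧ candD D (finalB D) = [] := by
  obtain ⟨h1, h2⟩ := iter_good hD hg (bigL D).length
  refine ⟨h1, ?_⟩
  rcases h2 with h2 | h2
  · exact h2
  · exfalso
    have h3 := pot_le h1
    rw [bigL_length] at h2 h3
    nlinarith

theorem start_eq (hD : GoodD D) :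
    bD (startB D) = (nxt (toI D))^[(D.1.length + 2) * (D.1.length + 2)] (fun _ => 0) := by
  unfold startB
  rw [SF.bD_clD hD (fun w _ => by rw [bD_zero]), bD_zero]

theorem start_good (hD : GoodD D) (h : goodD D (startB D) = true) :
    Good2 (toI D) (bD (startB D)) :=
  good2_cl hD (fun w _ => by rw [bD_zero]) (fun w => by rw [bD_zero]; exact Nat.zero_le _) h

theorem al_big (hD : GoodD D) (β : ℕ → ℕ) {m : ℕ} (hm : D.1.length ≤ m) : al (toI D) β m = 0 := by
  by_contra h
  have h0 : 0 < al (toI D) β m := Nat.pos_of_ne_zero h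
  rw [SF.al_iff hD.1] at h0
  have hc := hD.1.cpos m
  have : 0 < ((av (toI D) β m).filter fun w => 0 < (toI D).p m w).card := by omega
  rw [Finset.card_pos] at this
  obtain ⟨w, hw⟩ := this
  rw [Finset.mem_filter] at hw
  have := (hD.1.lt m w hw.2).1
  simp only [toI] at this
  omega

theorem card_eq_sum {β : ℕ → ℕ} {X : Finset (ℕ × ℕ)} (hX : X ⊆ HH (toI D) β) :
    X.card = ∑ m ∈ Finset.range D.1.length, dL X m := by
  unfold dL
  rw [Finset.card_eq_sum_card_fiberwise (f := Prod.fst) (t := Finset.range D.1.length)]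
  intro e he
  have := hX he
  unfold HH PP at this
  rw [Finset.mem_filter, Finset.mem_filter, Finset.mem_product] at this
  exact this.1.1.1

theorem sum_dmLD (D : Dat) (b : List ℕ) :
    ((vs D).map fun m => dmLD D b m).sum = ∑ m ∈ Finset.range D.1.length, dmL (toI D) (bD b) m := by
  have h1 : ((vs D).map fun m => dmLD D b m) = (vs D).map fun m => dmL (toI D) (bD b) m := by
    refine List.map_congr_left fun m hm => ?_
    exact SF.dmLD_eq (List.mem_range.1 hm)
  rw [h1]
  unfold vs
  rw [Finset.sum_range, ← List.sum_ofFn]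
  congr 1
  apply List.ext_getElem
  · simp
  · intro i h1 h2
    simp

theorem both_length {M : List (ℕ × ℕ)} : (both M).length = 2 * M.length := by
  unfold both
  rw [List.length_append, List.length_map]
  ring

theorem both_sym {M : List (ℕ × ℕ)} : Sym (both M).toFinset := by
  intro a b h
  rw [List.mem_toFinset] at h ⊢
  unfold both at h ⊢
  rw [List.mem_append, List.mem_map] at h ⊢
  rcases h with h | ⟨e, he, h⟩
  · right
    exact ⟨(a, b), h, rfl⟩
  · left
    have h1 : e.2 = a := congrArg Prod.fst h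
    have h2 : e.1 = b := congrArg Prod.snd h
    have : e = (b, a) := Prod.ext h2 h1
    rw [← this]
    exact he

end TC4

open TC4

variable {D : Dat}

theorem solveD_some (hD : GoodD D) {X : List (ℕ × ℕ)} (h : solveD D = some X) :
    Sym X.toFinset ∧ SS (toI D) X.toFinset := by
  unfold solveD at h
  split_ifs at h with hc
  obtain ⟨hc1, hc2, hc3⟩ := hc
  rw [Option.some.injEq] at h
  obtain ⟨hg, -⟩ := final_good hD (start_good hD hc1)
  set b := finalB D with hb
  rw [List.all_eq_true] at hc2
  have heqD : ∀ v < D.1.length, bD b v = alD D b v := by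
    intro v hv
    have := hc2 v (List.mem_range.2 hv)
    rwa [decide_eq_true_eq] at this
  have heq : ∀ v < (toI D).n, bD b v = al (toI D) (bD b) v := by
    intro v hv
    rw [← SF.alD_eq (b := b) hv]
    exact heqD v hv
  obtain ⟨s1, s2, s3, s4⟩ := SF.maxDegU_spec (b := b) hD heqD
  have hsub : (both (maxDeg (EU D b) (KU D b))).toFinset ⊆ HH (toI D) (bD b) := by
    intro e he
    rw [List.mem_toFinset] at he
    have := s2 e he
    rw [← List.mem_toFinset, SF.HHD_toFinset] at this
    exact this
  have hcard := card_eq_sum hsub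
  rw [List.toFinset_card_of_nodup s1, both_length, hc3, sum_dmLD] at hcard
  have hall : ∀ m, dL (both (maxDeg (EU D b) (KU D b))).toFinset m = dmL (toI D) (bD b) m := by
    intro m
    rcases lt_or_ge m D.1.length with hm | hm
    · have := (Finset.sum_eq_sum_iff_of_le (s := Finset.range D.1.length)
        (f := fun m => dL (both (maxDeg (EU D b) (KU D b))).toFinset m)
        (g := fun m => dmL (toI D) (bD b) m) (fun m _ => s3 m)).1 hcard.symm
      exact this m (Finset.mem_range.2 hm)
    · have h1 := s3 m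
      have h2 : dmL (toI D) (bD b) m = 0 := SF.dmL_big hD.1 hm
      omega
  have := SF.final_sound hD.1 hg heq hsub both_sym hall
  rw [← h, List.toFinset_append, SF.FFD_toFinset]
  exact this

theorem solveD_none (hD : GoodD D) (h : solveD D = none) :
    ∀ M, Sym M → ¬ SS (toI D) M := by
  intro M hs hM
  have hg0 : Good2 (toI D) (bD (startB D)) := by
    rw [start_eq hD]
    exact SF.good2_of hD.1 hs hM (fun v => Nat.zero_le _) (fun v _ => rfl)
      (fun w => Nat.zero_le _) le_rfl
  obtain ⟨hg, hcand⟩ := final_good hD hg0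
  set b := finalB D with hb
  obtain ⟨M', hs', hM', hcl⟩ := SF.clampM hD.1 hg hs hM
  have heq : ∀ v < (toI D).n, bD b v = al (toI D) (bD b) v := by
    by_contra hne
    push Not at hne
    obtain ⟨w, hw, hlt⟩ := SF.strict_exists hD.1 hg hs' hM' hcl hne
    have hw' : w < D.1.length := hw
    have hgood : Good2 (toI D) (bD (clD D (bump D b w))) := by
      rw [SF.bD_clD hD (bump_zero w)]
      refine SF.good2_of hD.1 hs' hM' (fun v => ?_) (bump_zero w) (bump_le hg w) le_rfl
      rw [bD_bump]
      split_ifs with h1 h2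
      · rw [h2]
        omega
      · exact (hcl v).1
      · exact Nat.zero_le _
    have := cand_of hw' (lt_of_lt_of_le hlt (hcl w).2) (goodD_of_good2 hgood)
    rw [hcand] at this
    exact absurd this (by simp)
  have heqD : ∀ v < D.1.length, bD b v = alD D b v := by
    intro v hv
    rw [SF.alD_eq hv]
    exact heq v hv
  have hsL : ∀ v, sL (toI D) M' v = bD b v := by
    intro v
    have h1 := hcl v
    rcases lt_or_ge v D.1.length with hv | hv
    · have h2 := heq v hv
      omega
    · have h2 := TC4.al_big hD (bD b) hv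
      omega
  obtain ⟨X, hX, hXs, hXd⟩ := SF.final_complete hD.1 hg heq hs' hM' hsL
  obtain ⟨s1, s2, s3, s4⟩ := SF.maxDegU_spec (b := b) hD heqD
  have hsub : (both (maxDeg (EU D b) (KU D b))).toFinset ⊆ HH (toI D) (bD b) := by
    intro e he
    rw [List.mem_toFinset] at he
    have := s2 e he
    rw [← List.mem_toFinset, SF.HHD_toFinset] at this
    exact this
  have hcard := card_eq_sum hsub
  rw [List.toFinset_card_of_nodup s1, both_length] at hcard
  have h5 : 2 * (maxDeg (EU D b) (KU D b)).length ≤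
      ∑ m ∈ Finset.range D.1.length, dmL (toI D) (bD b) m := by
    rw [hcard]
    exact Finset.sum_le_sum fun m _ => s3 m
  have h6 := s4 X hX hXs (fun m => le_of_eq (hXd m))
  rw [card_eq_sum hX, Finset.sum_congr rfl fun m _ => hXd m] at h6
  have h7 : 2 * (maxDeg (EU D b) (KU D b)).length = ((vs D).map fun m => dmLD D b m).sum := by
    rw [sum_dmLD]
    exact le_antisymm h5 h6
  have h8 : ((vs D).all fun v => decide (bD b v = alD D b v)) = true := by
    rw [List.all_eq_true]
    intro v hv
    rw [decide_eq_true_eq]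
    exact heqD v (List.mem_range.1 hv)
  unfold solveD at h
  rw [if_pos ⟨goodD_of_good2 hg0, h8, h7⟩] at h
  exact absurd h (by simp)

end Pool.Agent.H671R2.SF
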