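import Pool.Agent.H671R2.SF.CDefs

/-!
# Task C5: the normalised instance
-/

set_option autoImplicit false

namespace Pool.Agent.H671R2.SF

open Pool.Agent.NPC

section
variable {n : ℕ} (I : SFT n)

theorem raw_length : I.raw.length = n := by
  simp [SFT.raw]

open Classical in
theorem tc5_row (v : ℕ) (hv : v < n) : (I.raw.getD v (0, [])) =
    (I.cap ⟨v, hv⟩, List.ofFn fun b => if I.G.Adj ⟨v, hv⟩ b then some (I.rank ⟨v, hv⟩ b) else none) := by
  unfold SFT.raw
  rw [List.getD_eq_getElem?_getD, List.getElem?_ofFn, dif_pos hv]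
  rfl

theorem tc5_row' (v : ℕ) (hv : ¬ v < n) : (I.raw.getD v (0, [])) = (0, []) := by
  unfold SFT.raw
  rw [List.getD_eq_getElem?_getD, List.getElem?_ofFn, dif_neg hv]
  rfl

open Classical in
theorem tc5_rk (v u : ℕ) (hv : v < n) (hu : u < n) : rkR I.raw v u =
    if I.G.Adj ⟨v, hv⟩ ⟨u, hu⟩ then some (I.rank ⟨v, hv⟩ ⟨u, hu⟩) else none := by
  unfold rkR
  rw [tc5_row I v hv]
  simp only
  rw [List.getD_eq_getElem?_getD, List.getElem?_ofFn, dif_pos hu]
  rfl

theorem tc5_rk_none (v u : ℕ) (h : ¬ (v < n ∧ u < n)) : rkR I.raw v u = none := by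
  classical
  by_cases hv : v < n
  · have hu : ¬ u < n := fun hu => h ⟨hv, hu⟩
    unfold rkR
    rw [tc5_row I v hv]
    simp only
    rw [List.getD_eq_getElem?_getD, List.getElem?_ofFn, dif_neg hu]
    rfl
  · unfold rkR
    rw [tc5_row' I v hv]
    simp

theorem tc5_some {v u r : ℕ} (h : rkR I.raw v u = some r) : ∃ (hv : v < n) (hu : u < n),
    I.G.Adj ⟨v, hv⟩ ⟨u, hu⟩ ∧ r = I.rank ⟨v, hv⟩ ⟨u, hu⟩ := by
  classical
  by_cases h1 : v < n ∧ u < n
  · rw [tc5_rk I v u h1.1 h1.2] at h
    by_cases h2 : I.G.Adj ⟨v, h1.1⟩ ⟨u, h1.2⟩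
    · rw [if_pos h2] at h
      exact ⟨h1.1, h1.2, h2, (Option.some.inj h).symm⟩
    · rw [if_neg h2] at h
      exact absurd h (by simp)
  · rw [tc5_rk_none I v u h1] at h
    exact absurd h (by simp)

theorem tc5_adj (a b : Fin n) (h : I.G.Adj a b) : rkR I.raw a b = some (I.rank a b) := by
  classical
  rw [tc5_rk I a b a.2 b.2]
  exact if_pos h

theorem tc5_len : (norm I.raw).1.length = n := by
  unfold norm
  simp [raw_length]

theorem tc5_getD {β : Type} (m : ℕ) (f : ℕ → β) (d : β) (v : ℕ) (h : v < m) :
    ((List.range m).map f).getD v d = f v := by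
  rw [List.getD_eq_getElem?_getD, List.getElem?_map, List.getElem?_range h]
  rfl

theorem tc5_pD (v u : ℕ) : pD (norm I.raw) v u = valR I.raw v u := by
  by_cases h : v < n ∧ u < n
  · unfold pD norm
    simp only
    rw [tc5_getD _ _ _ v (by rw [raw_length]; exact h.1),
      tc5_getD _ _ _ u (by rw [raw_length]; exact h.2)]
  · have h1 : valR I.raw v u = 0 := by
      unfold valR
      rw [tc5_rk_none I v u h]
      rfl
    rw [h1]
    unfold pD norm
    simp only
    by_cases hv : v < n
    · have hu : n ≤ u := by omega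
      rw [tc5_getD _ _ _ v (by rw [raw_length]; exact hv), List.getD_eq_default]
      simpa [raw_length] using hu
    · have h2 : ((List.range I.raw.length).map fun v => (List.range I.raw.length).map fun u =>
          valR I.raw v u).getD v [] = [] := by
        rw [List.getD_eq_default]
        simpa [raw_length] using hv
      rw [h2]
      simp

theorem tc5_val {v u : ℕ} (h : 0 < valR I.raw v u) : ∃ r, rkR I.raw v u = some r := by
  cases h1 : rkR I.raw v u with
  | none =>
    unfold valR at h
    rw [h1] at h
    exact absurd h (by simp)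
  | some r => exact ⟨r, rfl⟩

theorem tc5_pos {v u r : ℕ} (h : rkR I.raw v u = some r) : valR I.raw v u = 1 +
    ((List.range I.raw.length).filter fun x =>
      (rkR I.raw v x).elim false fun r' => decide (r < r')).length := by
  unfold valR
  rw [h]
  rfl

theorem norm_val (a b : Fin n) : 0 < pD (norm I.raw) a b ↔ I.G.Adj a b := by
  rw [tc5_pD]
  constructor
  · intro h
    obtain ⟨r, hr⟩ := tc5_val I h
    obtain ⟨_, _, h1, _⟩ := tc5_some I hr
    exact h1
  · intro h
    rw [tc5_pos I (tc5_adj I a b h)]
    omega

theorem tc5_cnt (a : Fin n) {r s : ℕ} (hrs : r ≤ s) :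
    ((List.range I.raw.length).filter fun x =>
      (rkR I.raw a x).elim false fun r' => decide (s < r')).length ≤
    ((List.range I.raw.length).filter fun x =>
      (rkR I.raw a x).elim false fun r' => decide (r < r')).length := by
  rw [← List.countP_eq_length_filter, ← List.countP_eq_length_filter]
  refine List.countP_mono_left fun x _ h => ?_
  cases hx : rkR I.raw a x with
  | none => rw [hx] at h; exact absurd h (by simp)
  | some t =>
    rw [hx] at h
    simp only [Option.elim_some, decide_eq_true_eq] at h ⊢
    omega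

theorem tc5_cnt_lt (a c : Fin n) (hc : I.G.Adj a c) {r : ℕ} (hrs : r < I.rank a c) :
    ((List.range I.raw.length).filter fun x =>
      (rkR I.raw a x).elim false fun r' => decide (I.rank a c < r')).length <
    ((List.range I.raw.length).filter fun x =>
      (rkR I.raw a x).elim false fun r' => decide (r < r')).length := by
  have hnd := List.nodup_range (n := I.raw.length)
  rw [← List.toFinset_card_of_nodup (hnd.filter _), ← List.toFinset_card_of_nodup (hnd.filter _)]
  apply Finset.card_lt_card
  rw [Finset.ssubset_iff_of_subset]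
  · refine ⟨c, ?_, ?_⟩
    · rw [List.mem_toFinset, List.mem_filter, List.mem_range, raw_length]
      refine ⟨c.2, ?_⟩
      rw [tc5_adj I a c hc]
      simpa using hrs
    · rw [List.mem_toFinset, List.mem_filter]
      rintro ⟨_, h⟩
      rw [tc5_adj I a c hc] at h
      simp at h
  · intro x hx
    rw [List.mem_toFinset, List.mem_filter] at hx ⊢
    refine ⟨hx.1, ?_⟩
    have h := hx.2
    cases hx' : rkR I.raw a x with
    | none => rw [hx'] at h; exact absurd h (by simp)
    | some t =>
      rw [hx'] at h
      simp only [Option.elim_some, decide_eq_true_eq] at h ⊢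
      omega

theorem norm_lt {a b c : Fin n} (hb : I.G.Adj a b) (hc : I.G.Adj a c) :
    pD (norm I.raw) a b < pD (norm I.raw) a c ↔ I.rank a c < I.rank a b := by
  rw [tc5_pD, tc5_pD, tc5_pos I (tc5_adj I a b hb), tc5_pos I (tc5_adj I a c hc)]
  constructor
  · intro h
    by_contra h1
    push Not at h1
    have := tc5_cnt I a h1
    omega
  · intro h
    have := tc5_cnt_lt I a b hb h
    omega

theorem norm_good : GoodD (norm I.raw) := by
  have hn : (toI (norm I.raw)).n = n := tc5_len I
  have hp : ∀ v u, (toI (norm I.raw)).p v u = valR I.raw v u := tc5_pD I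
  refine ⟨⟨?_, ?_, ?_, ?_, ?_⟩, ?_⟩
  · intro v u h
    rw [hp] at h ⊢
    obtain ⟨r, hr⟩ := tc5_val I h
    obtain ⟨hv, hu, h1, _⟩ := tc5_some I hr
    have h2 := tc5_adj I ⟨u, hu⟩ ⟨v, hv⟩ h1.symm
    rw [tc5_pos I h2]
    omega
  · intro v
    rw [hp]
    by_contra h
    obtain ⟨r, hr⟩ := tc5_val I (Nat.pos_of_ne_zero h)
    obtain ⟨hv, hu, h1, _⟩ := tc5_some I hr
    exact I.G.irrefl h1
  · intro v u h
    rw [hp] at h
    obtain ⟨r, hr⟩ := tc5_val I h
    obtain ⟨hv, hu, _, _⟩ := tc5_some I hr
    rw [hn]
    exact ⟨hv, hu⟩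
  · intro v u
    rw [hp, hn]
    by_cases h : valR I.raw v u = 0
    · omega
    · obtain ⟨r, hr⟩ := tc5_val I (Nat.pos_of_ne_zero h)
      obtain ⟨hv, hu, h1, h2⟩ := tc5_some I hr
      rw [tc5_pos I hr]
      have h3 : ((List.range I.raw.length).filter fun x =>
          (rkR I.raw v x).elim false fun r' => decide (r < r')).length <
          (List.range I.raw.length).length := by
        rw [List.length_filter_lt_length_iff_exists]
        refine ⟨u, ?_, ?_⟩
        · rw [List.mem_range, raw_length]; exact hu
        · rw [hr]; simp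
      rw [List.length_range, raw_length] at h3
      rw [raw_length]
      omega
  · intro v
    change 1 ≤ if v < (norm I.raw).1.length then cD (norm I.raw) v else 1
    rw [tc5_len]
    by_cases hv : v < n
    · rw [if_pos hv]
      unfold cD norm
      simp only
      rw [List.getD_eq_getElem?_getD, List.getElem?_map,
        List.getElem?_range (by rw [raw_length]; exact hv)]
      simp only [Option.map_some, Option.getD_some]
      rw [tc5_row I v hv, raw_length]
      have := I.cap_pos ⟨v, hv⟩
      simp only
      omega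
    · rw [if_neg hv]
  · intro v
    rw [tc5_len]
    unfold cD norm
    simp only
    by_cases hv : v < n
    · rw [List.getD_eq_getElem?_getD, List.getElem?_map,
        List.getElem?_range (by rw [raw_length]; exact hv)]
      simp only [Option.map_some, Option.getD_some]
      rw [raw_length]
      omega
    · rw [List.getD_eq_default]
      · omega
      · simpa [raw_length] using hv

end

end Pool.Agent.H671R2.SF
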