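import Pool.Agent.H671R2.SF.TA12
import Pool.Agent.H671R2.SF.PDefs

/-!
# Running time of the algorithm on data
-/

set_option autoImplicit false

namespace Pool.Agent.H671R2.SF

open Pool.Agent.NPC

namespace TC7

open TA11 TA12

section gadget
variable {α : Type} [DecidableEq α] [TEnc α] {γ : Type} [TEnc γ]

omit [DecidableEq α] in
@[fun_prop]
theorem poly_gV {K : γ → List (α × ℕ)} {E : γ → List (α × α)} (hK : Poly K) (hE : Poly E) :
    Poly (fun x => gV (K x) (E x)) := by
  unfold gV GV; fun_prop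

@[fun_prop]
theorem poly_gE {K : γ → List (α × ℕ)} {E : γ → List (α × α)} (hK : Poly K) (hE : Poly E) :
    Poly (fun x => gE (K x) (E x)) := by
  unfold gE GV; fun_prop

@[fun_prop]
theorem poly_pick {K : γ → List (α × ℕ)} {E : γ → List (α × α)} {N : γ → List (GV α × GV α)}
    (hK : Poly K) (hE : Poly E) (hN : Poly N) :
    Poly (fun x => pick (K x) (E x) (N x)) := by
  unfold pick; fun_prop

@[fun_prop]
theorem poly_maxDeg' {E : γ → List (α × α)} {K : γ → List (α × ℕ)} (hE : Poly E) (hK : Poly K) :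
    Poly (fun x => maxDeg (E x) (K x)) := by
  unfold maxDeg; fun_prop

end gadget

section data
variable {γ : Type} [TEnc γ] {D : γ → Dat} {b x : γ → List ℕ} {v u : γ → ℕ} {e : γ → ℕ × ℕ}
  {X : γ → List (ℕ × ℕ)}

@[fun_prop]
theorem poly_pD (hD : Poly D) (hv : Poly v) (hu : Poly u) :
    Poly (fun a => pD (D a) (v a) (u a)) := by
  unfold pD Dat at *; fun_prop

@[fun_prop]
theorem poly_cD (hD : Poly D) (hv : Poly v) : Poly (fun a => cD (D a) (v a)) := by
  unfold cD Dat at *; fun_prop

@[fun_prop]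
theorem poly_vs (hD : Poly D) : Poly (fun a => vs (D a)) := by
  unfold vs Dat at *; fun_prop

@[fun_prop]
theorem poly_bD (hb : Poly b) (hv : Poly v) : Poly (fun a => bD (b a) (v a)) := by
  unfold bD; fun_prop

@[fun_prop]
theorem poly_avD (hD : Poly D) (hb : Poly b) (hv : Poly v) :
    Poly (fun a => avD (D a) (b a) (v a)) := by
  unfold avD; fun_prop

@[fun_prop]
theorem poly_alD (hD : Poly D) (hb : Poly b) (hv : Poly v) :
    Poly (fun a => alD (D a) (b a) (v a)) := by
  unfold alD; fun_prop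

@[fun_prop]
theorem poly_PPD (hD : Poly D) (hb : Poly b) : Poly (fun a => PPD (D a) (b a)) := by
  unfold PPD; fun_prop

@[fun_prop]
theorem poly_isF (hD : Poly D) (hb : Poly b) (he : Poly e) :
    Poly (fun a => isF (D a) (b a) (e a)) := by
  unfold isF; fun_prop

@[fun_prop]
theorem poly_FFD (hD : Poly D) (hb : Poly b) : Poly (fun a => FFD (D a) (b a)) := by
  unfold FFD; fun_prop

@[fun_prop]
theorem poly_HHD (hD : Poly D) (hb : Poly b) : Poly (fun a => HHD (D a) (b a)) := by
  unfold HHD; fun_prop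

@[fun_prop]
theorem poly_dLD (hX : Poly X) (hv : Poly v) : Poly (fun a => dLD (X a) (v a)) := by
  unfold dLD; fun_prop

@[fun_prop]
theorem poly_dRD (hX : Poly X) (hv : Poly v) : Poly (fun a => dRD (X a) (v a)) := by
  unfold dRD; fun_prop

@[fun_prop]
theorem poly_dmLD (hD : Poly D) (hb : Poly b) (hv : Poly v) :
    Poly (fun a => dmLD (D a) (b a) (v a)) := by
  unfold dmLD; fun_prop

@[fun_prop]
theorem poly_dmRD (hD : Poly D) (hb : Poly b) (hv : Poly v) :
    Poly (fun a => dmRD (D a) (b a) (v a)) := by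
  unfold dmRD; fun_prop

@[fun_prop]
theorem poly_rangeLenAdd {β : Type} [TEnc β] {C : γ → List β} (hC : Poly C) (k : ℕ) :
    Poly (fun x => List.range ((C x).length + k)) :=
  ((UPoly.length hC).add (UPoly.const k)).range

@[fun_prop]
theorem poly_cps (hD : Poly D) (hv : Poly v) : Poly (fun a => cps (D a) (v a)) := by
  unfold cps Dat at *; fun_prop

@[fun_prop]
theorem poly_EB (hD : Poly D) (hb : Poly b) : Poly (fun a => EB (D a) (b a)) := by
  unfold EB; fun_prop

@[fun_prop]
theorem poly_KB (hD : Poly D) (hb : Poly b) (hx : Poly x) :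
    Poly (fun a => KB (D a) (b a) (x a)) := by
  unfold KB; fun_prop

@[fun_prop]
theorem poly_optD (hD : Poly D) (hb : Poly b) (hx : Poly x) :
    Poly (fun a => optD (D a) (b a) (x a)) := by
  unfold optD; fun_prop

@[fun_prop]
theorem poly_raiseD' (hD : Poly D) (hb : Poly b) (hv : Poly v) :
    Poly (fun a => raiseD (D a) (b a) (v a)) := by
  unfold raiseD; fun_prop

@[fun_prop]
theorem poly_clStep (hD : Poly D) (hb : Poly b) : Poly (fun a => clStep (D a) (b a)) := by
  unfold clStep; fun_prop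

@[fun_prop]
theorem poly_bigL (hD : Poly D) : Poly (fun a => bigL (D a)) := by
  unfold bigL Dat at *; fun_prop

@[fun_prop]
theorem poly_numD (hD : Poly D) (hb : Poly b) : Poly (fun a => numD (D a) (b a)) := by
  unfold numD; fun_prop

@[fun_prop]
theorem poly_goodD (hD : Poly D) (hb : Poly b) : Poly (fun a => goodD (D a) (b a)) := by
  unfold goodD; fun_prop

@[fun_prop]
theorem poly_bump (hD : Poly D) (hb : Poly b) (hv : Poly v) :
    Poly (fun a => bump (D a) (b a) (v a)) := by
  unfold bump; fun_prop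

@[fun_prop]
theorem poly_EU (hD : Poly D) (hb : Poly b) : Poly (fun a => EU (D a) (b a)) := by
  unfold EU; fun_prop

@[fun_prop]
theorem poly_KU (hD : Poly D) (hb : Poly b) : Poly (fun a => KU (D a) (b a)) := by
  unfold KU; fun_prop

end data

/-! ### sizes -/

theorem sz_le_add {m y k : ℕ} (h : m ≤ y + k) : sz m ≤ 2 * sz y + 4 * k + 3 := by
  have h1 := sz_nat_le m
  have h2 := size_le_sz y
  have h3 : m.size ≤ y.size + k + 1 := by
    rw [Nat.size_le]
    have a1 : y < 2 ^ y.size := Nat.lt_size_self y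
    have a2 : k < 2 ^ k := Nat.lt_two_pow_self
    have a3 : 2 ^ y.size ≤ 2 ^ (y.size + k) := Nat.pow_le_pow_right (by norm_num) (by omega)
    have a4 : 2 ^ k ≤ 2 ^ (y.size + k) := Nat.pow_le_pow_right (by norm_num) (by omega)
    rw [pow_succ]
    omega
  omega

theorem sz_bD (b : List ℕ) (w : ℕ) : sz (bD b w) ≤ sz b := by
  unfold bD
  rw [List.getD_eq_getElem?_getD]
  cases h : b[w]? with
  | none =>
    have := sz_pos b
    have h0 : sz (0 : ℕ) = 1 := by rw [sz_nat]; simp
    simp only [Option.getD_none]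
    omega
  | some x => exact (sz_le_of_mem (List.mem_of_getElem? h)).le

/-- `x` is entrywise at most `b + k` and has length at most `n` -/
def LE (b : List ℕ) (k n : ℕ) (x : List ℕ) : Prop :=
  x.length ≤ n ∧ ∀ i, bD x i ≤ bD b i + k

theorem LE.mem {b : List ℕ} {k n : ℕ} {x : List ℕ} (h : LE b k n x) {v : ℕ} (hv : v ∈ x) :
    ∃ i, v ≤ bD b i + k := by
  obtain ⟨i, hi, rfl⟩ := List.mem_iff_getElem.1 hv
  refine ⟨i, (h.2 i).trans' ?_⟩
  unfold bD
  rw [List.getD_eq_getElem?_getD, List.getElem?_eq_getElem hi]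
  simp

theorem LE.sz_le {b : List ℕ} {k n : ℕ} {x : List ℕ} (h : LE b k n x) :
    sz x ≤ n * (2 * sz b + 4 * k + 4) + 1 := by
  refine (sz_le_length_mul x (2 * sz b + 4 * k + 3) fun v hv => ?_).trans ?_
  · obtain ⟨i, hi⟩ := h.mem hv
    have := sz_le_add hi
    have := sz_bD b i
    omega
  · have := h.1
    gcongr

theorem bD_map (D : Dat) (f : ℕ → ℕ) (i : ℕ) :
    bD ((vs D).map f) i = if i < D.1.length then f i else 0 := by
  unfold bD vs
  rw [List.getD_eq_getElem?_getD, List.getElem?_map]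
  split_ifs with h
  · rw [List.getElem?_range h]
    rfl
  · rw [List.getElem?_eq_none (by simpa using h)]
    rfl

theorem LE.map {b : List ℕ} {k k' n : ℕ} {x : List ℕ} (h : LE b k n x) (D : Dat) (f : ℕ → ℕ)
    (hn : D.1.length ≤ n) (hf : ∀ i, f i ≤ bD x i + k') : LE b (k + k') n ((vs D).map f) := by
  refine ⟨by simpa [vs] using hn, fun i => ?_⟩
  rw [bD_map]
  split_ifs
  · have := hf i
    have := h.2 i
    omega
  · omega

theorem LE.cl {b : List ℕ} {k n : ℕ} {x : List ℕ} (h : LE b k n x) (D : Dat)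
    (hn : D.1.length ≤ n) (j : ℕ) : LE b (k + j) n ((clStep D)^[j] x) := by
  induction j with
  | zero => exact h
  | succ j ih =>
    rw [Function.iterate_succ_apply']
    have h1 := ih.map (k' := 1) D (fun w => bD ((clStep D)^[j] x) w +
      if raiseD D ((clStep D)^[j] x) w = true then 1 else 0) hn fun i => by
        split_ifs <;> omega
    exact h1

theorem LE.main {b : List ℕ} {k n : ℕ} {x : List ℕ} (h : LE b k n x) (D : Dat)
    (hn : D.1.length ≤ n) : LE b (k + (1 + (bigL D).length)) n (mainStep D x) := by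
  unfold mainStep
  cases hx : (candD D x).head? with
  | none =>
    refine ⟨h.1, fun i => (h.2 i).trans ?_⟩
    omega
  | some y =>
    have hy := List.mem_of_mem_filter (List.mem_of_head? hx)
    obtain ⟨w, -, rfl⟩ := List.mem_map.1 hy
    simp only [Option.getD_some]
    have h1 : LE b (k + 1) n (bump D x w) := by
      refine h.map D _ hn fun i => ?_
      split_ifs <;> omega
    have h2 := h1.cl D hn (bigL D).length
    unfold clD
    rw [show k + (1 + (bigL D).length) = k + 1 + (bigL D).length by ring]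
    exact h2

theorem LE.mainIter {b : List ℕ} {k n : ℕ} {x : List ℕ} (h : LE b k n x) (D : Dat)
    (hn : D.1.length ≤ n) (j : ℕ) :
    LE b (k + j * (1 + (bigL D).length)) n ((mainStep D)^[j] x) := by
  induction j with
  | zero => simpa using h
  | succ j ih =>
    rw [Function.iterate_succ_apply']
    have := ih.main D hn
    rw [show k + (j + 1) * (1 + (bigL D).length) =
      k + j * (1 + (bigL D).length) + (1 + (bigL D).length) by ring]
    exact this

theorem bigL_le (D : Dat) {S : ℕ} (hS : D.1.length ≤ S) : (bigL D).length ≤ (S + 2) * (S + 2) := by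
  unfold bigL
  rw [List.length_product, List.length_range]
  gcongr

theorem poly_clD0 : Poly (fun p : Dat × List ℕ => clD p.1 p.2) := by
  refine Poly.iterLen (l := fun p : Dat × List ℕ => bigL p.1) (s := fun p => p.2)
    (F := fun p y => clStep p.1 y) (by fun_prop) (by fun_prop) (by fun_prop)
    (open Polynomial in X * (2 * X + 4 * ((X + 2) * (X + 2)) + 4) + 1) ?_
  rintro ⟨D, b⟩ k hk
  obtain ⟨S, hS⟩ : ∃ S, S = sz (D, b) := ⟨_, rfl⟩
  rw [← hS]
  have hD' : sz D = sz D.1 + sz D.2 + 1 := sz_pair D.1 D.2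
  have hS' : S = (sz D.1 + sz D.2 + 1) + sz b + 1 := by
    rw [hS, sz_pair, hD']
  simp only at hk ⊢
  have h1 := length_lt_sz D.1
  have h2 := length_lt_sz b
  have h0 : LE b 0 S b := ⟨by omega, fun i => by simp⟩
  have h3 := (h0.cl D (by omega) k).sz_le
  have h4 := hk.trans (bigL_le D (S := S) (by omega))
  refine h3.trans ?_
  simp only [Polynomial.eval_add, Polynomial.eval_mul, Polynomial.eval_X,
    Polynomial.eval_ofNat, Polynomial.eval_one]
  have h5 : sz b ≤ S := by omega
  have h6 : 0 + k ≤ (S + 2) * (S + 2) := by omega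
  gcongr

@[fun_prop]
theorem poly_clD' {γ : Type} [TEnc γ] {D : γ → Dat} {b : γ → List ℕ}
    (hD : Poly D) (hb : Poly b) : Poly (fun a => clD (D a) (b a)) :=
  poly_clD0.comp (f := fun a => (D a, b a)) (by fun_prop)

@[fun_prop]
theorem poly_candD {γ : Type} [TEnc γ] {D : γ → Dat} {b : γ → List ℕ}
    (hD : Poly D) (hb : Poly b) : Poly (fun a => candD (D a) (b a)) := by
  unfold candD; fun_prop

@[fun_prop]
theorem poly_mainStep {γ : Type} [TEnc γ] {D : γ → Dat} {b : γ → List ℕ}
    (hD : Poly D) (hb : Poly b) : Poly (fun a => mainStep (D a) (b a)) := by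
  unfold mainStep; fun_prop

@[fun_prop]
theorem poly_startB {γ : Type} [TEnc γ] {D : γ → Dat}
    (hD : Poly D) : Poly (fun a => startB (D a)) := by
  unfold startB; fun_prop

theorem poly_finalB0 : Poly finalB := by
  refine Poly.iterLen (l := fun D : Dat => bigL D) (s := fun D => startB D)
    (F := fun D y => mainStep D y) (by fun_prop) (by fun_prop) (by fun_prop)
    (open Polynomial in X * (2 * 1 + 4 * ((X + 2) * (X + 2) + ((X + 2) * (X + 2)) *
      (1 + (X + 2) * (X + 2))) + 4) + 1) ?_
  intro D k hk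
  obtain ⟨S, hS⟩ : ∃ S, S = sz D := ⟨_, rfl⟩
  rw [← hS]
  have hS' : S = sz D.1 + sz D.2 + 1 := by rw [hS]; exact sz_pair D.1 D.2
  have h1 := length_lt_sz D.1
  have h0 : LE [] 0 S ((vs D).map fun _ => 0) := by
    refine ⟨by simp [vs]; omega, fun i => ?_⟩
    rw [bD_map]
    simp
  have hL := bigL_le D (S := S) (by omega)
  have h2 := h0.cl D (by omega) (bigL D).length
  have h3 := (h2.mainIter D (by omega) k).sz_le
  have h4 : ((mainStep D)^[k] (startB D)) =
    (mainStep D)^[k] ((clStep D)^[(bigL D).length] ((vs D).map fun _ => 0)) := rfl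
  rw [h4]
  refine h3.trans ?_
  simp only [Polynomial.eval_add, Polynomial.eval_mul, Polynomial.eval_X,
    Polynomial.eval_ofNat, Polynomial.eval_one]
  have h5 : sz ([] : List ℕ) = 1 := sz_list_nil
  rw [h5]
  have h6 : 0 + (bigL D).length + k * (1 + (bigL D).length) ≤
      (S + 2) * (S + 2) + ((S + 2) * (S + 2)) * (1 + (S + 2) * (S + 2)) := by
    rw [zero_add]
    have h7 := hk.trans hL
    gcongr
  gcongr

@[fun_prop]
theorem poly_finalB {γ : Type} [TEnc γ] {D : γ → Dat}
    (hD : Poly D) : Poly (fun a => finalB (D a)) := poly_finalB0.comp hD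

end TC7

open TA11 TA12 TC7

theorem poly_raiseD {γ : Type} [TEnc γ] {Df : γ → Dat} {bf : γ → List ℕ} {wf : γ → ℕ}
    (hD : Poly Df) (hb : Poly bf) (hw : Poly wf) :
    Poly (fun a => raiseD (Df a) (bf a) (wf a)) := poly_raiseD' hD hb hw

theorem poly_clD {γ : Type} [TEnc γ] {Df : γ → Dat} {bf : γ → List ℕ}
    (hD : Poly Df) (hb : Poly bf) : Poly (fun a => clD (Df a) (bf a)) := poly_clD' hD hb

theorem poly_solveD : Poly solveD := by
  unfold solveD
  fun_prop

end Pool.Agent.H671R2.SF
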